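import Pool.Agent.Lib.MP_28a49a_al.Link

namespace Pool.Agent.Lib.MP_28a49a_al
namespace Lab
variable {E V S : Type} {X : SqSys E} {R : Set (Tup S)} (L : Lab X V S R)
variable {Γ : Type} [Group Γ]

/-- a flat connection with values in `Γ` which is gauge equivalent to the tautological one -/
structure Coc (φ : Γ →* L.Xp.G) where
  c : FreeGroup S → E → Γ
  τ : V → FreeGroup S → L.Xp.G
  c_inv : ∀ f e, c (L.pos f e) (X.inv e) = (c f e)⁻¹
  c_sq : ∀ f a b c' d, X.S a b c' d → L.pos (L.pos f a) b = L.pos (L.pos f c') d →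
    c f a * c (L.pos f a) b = c f c' * c (L.pos f c') d
  gauge : ∀ f e, φ (c f e) = τ (L.src e) f * L.ee e * (τ (L.tgt e) (L.pos f e))⁻¹

noncomputable def cD (δ : V × FreeGroup S → (E → Γ) × L.Xp.G) (f : FreeGroup S) (e : E) : Γ :=
  if nrm (L.pos f e) < nrm f then (δ (L.src e, f)).1 e
  else ((δ (L.tgt e, L.pos f e)).1 (X.inv e))⁻¹

theorem cD_inv (δ : V × FreeGroup S → (E → Γ) × L.Xp.G) (f : FreeGroup S) (e : E) :
    L.cD δ (L.pos f e) (X.inv e) = (L.cD δ f e)⁻¹ := by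
  unfold cD
  rw [L.pos_inv, L.src_inv, L.tgt_inv0, X.inv_inv]
  have := L.nrm_pos f e
  by_cases h : nrm (L.pos f e) < nrm f
  · rw [if_pos h, if_neg (by omega)]
  · rw [if_neg h, if_pos (by omega), inv_inv]

theorem cD_congr {δ δ' : V × FreeGroup S → (E → Γ) × L.Xp.G} {f : FreeGroup S} {e : E}
    (h1 : δ (L.src e, f) = δ' (L.src e, f))
    (h2 : δ (L.tgt e, L.pos f e) = δ' (L.tgt e, L.pos f e)) : L.cD δ f e = L.cD δ' f e := by
  unfold cD; rw [h1, h2]

theorem cD_congr_sq {δ δ' : V × FreeGroup S → (E → Γ) × L.Xp.G} {v : V × FreeGroup S}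
    (e2 : ∀ b, L.Lt b v → δ b = δ' b) {a b c d : E} (h : X.S a b c d)
    (k2 : nrm (L.pos v.2 a) < nrm v.2) (k3 : nrm (L.pos v.2 c) < nrm v.2)
    (k4 : L.pos (L.pos v.2 a) b = L.pos (L.pos v.2 c) d)
    (k5 : L.Lt (L.tgt b, L.pos (L.pos v.2 a) b) v) :
    L.cD δ (L.pos v.2 a) b = L.cD δ' (L.pos v.2 a) b ∧
      L.cD δ (L.pos v.2 c) d = L.cD δ' (L.pos v.2 c) d :=
  ⟨L.cD_congr (e2 (L.src b, L.pos v.2 a) (Or.inl k2)) (e2 _ k5),
    L.cD_congr (e2 (L.src d, L.pos v.2 c) (Or.inl k3))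
      (e2 _ (by rw [tgt_d h, ← k4]; exact k5))⟩

def PD (φ : Γ →* L.Xp.G) (γ : L.Core → Γ) (v : V × FreeGroup S)
    (δ : V × FreeGroup S → (E → Γ) × L.Xp.G) : Prop :=
  (∀ o, cp o = v.2 → (δ v).2 = L.tt v.1 o ∧
    ∀ x : L.Core, L.src x.1.2.1 = v.1 → x.1.1 = o → (δ v).1 x.1.2.1 = γ x) ∧
  (∀ e, L.src e = v.1 → nrm (L.pos v.2 e) < nrm v.2 →
    φ ((δ v).1 e) = (δ v).2 * L.ee e * ((δ (L.tgt e, L.pos v.2 e)).2)⁻¹) ∧
  ∀ a b c d, X.S a b c d → L.src a = v.1 → nrm (L.pos v.2 a) < nrm v.2 →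
    nrm (L.pos v.2 c) < nrm v.2 → L.pos (L.pos v.2 a) b = L.pos (L.pos v.2 c) d →
    L.Lt (L.tgt b, L.pos (L.pos v.2 a) b) v →
    (δ v).1 a * L.cD δ (L.pos v.2 a) b = (δ v).1 c * L.cD δ (L.pos v.2 c) d

variable {L}

theorem gauge_of {φ : Γ →* L.Xp.G} {γ : L.Core → Γ} {δ : V × FreeGroup S → (E → Γ) × L.Xp.G}
    {g : FreeGroup S} {e : E} (h1 : L.PD φ γ (L.src e, g) δ)
    (h2 : L.PD φ γ (L.tgt e, L.pos g e) δ) :
    φ (L.cD δ g e) = (δ (L.src e, g)).2 * L.ee e * ((δ (L.tgt e, L.pos g e)).2)⁻¹ := by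
  unfold cD
  by_cases h : nrm (L.pos g e) < nrm g
  · rw [if_pos h]; exact h1.2.1 e rfl h
  · have := L.nrm_pos g e
    have h3 := h2.2.1 (X.inv e) rfl (by simp only [L.pos_inv]; omega)
    rw [if_neg h, map_inv, h3]
    simp only [L.pos_inv, L.tgt_inv0, L.ee_inv]
    group

theorem rel_rot {c0 : FreeGroup S → E → Γ} (hinv : ∀ f e, c0 (L.pos f e) (X.inv e) = (c0 f e)⁻¹)
    {g : FreeGroup S} {a b c d : E} (hf : L.pos (L.pos g a) b = L.pos (L.pos g c) d)
    (h : c0 (L.pos g a) (X.inv a) * c0 (L.pos (L.pos g a) (X.inv a)) c =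
      c0 (L.pos g a) b * c0 (L.pos (L.pos g a) b) (X.inv d)) :
    c0 g a * c0 (L.pos g a) b = c0 g c * c0 (L.pos g c) d := by
  rw [hinv, L.pos_inv, hf, hinv] at h
  rw [eq_mul_inv_iff_mul_eq] at h
  rw [← h]; group

theorem flat_rot {g : FreeGroup S} {a b c d : E} (hf : L.pos (L.pos g a) b = L.pos (L.pos g c) d) :
    L.pos (L.pos (L.pos g a) (X.inv a)) c = L.pos (L.pos (L.pos g a) b) (X.inv d) := by
  rw [L.pos_inv, hf, L.pos_inv]

theorem sq_top {φ : Γ →* L.Xp.G} {γ : L.Core → Γ} {δ : V × FreeGroup S → (E → Γ) × L.Xp.G}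
    {g : FreeGroup S} {a b c d : E} (h : X.S a b c d)
    (hf : L.pos (L.pos g a) b = L.pos (L.pos g c) d) (h1 : L.PD φ γ (L.src a, g) δ)
    (na : nrm (L.pos g a) < nrm g) (nc : nrm (L.pos g c) < nrm g)
    (hl : L.Lt (L.tgt b, L.pos (L.pos g a) b) (L.src a, g)) :
    L.cD δ g a * L.cD δ (L.pos g a) b = L.cD δ g c * L.cD δ (L.pos g c) d := by
  have := h1.2.2 a b c d h rfl na nc hf hl
  have e1 : L.cD δ g a = (δ (L.src a, g)).1 a := by unfold cD; rw [if_pos na]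
  have e2 : L.cD δ g c = (δ (L.src a, g)).1 c := by unfold cD; rw [if_pos nc, src_c h]
  rw [e1, e2]; exact this

theorem sq_of {φ : Γ →* L.Xp.G} {γ : L.Core → Γ} {δ : V × FreeGroup S → (E → Γ) × L.Xp.G}
    {g : FreeGroup S} {a b c d : E} (h : X.S a b c d)
    (hf : L.pos (L.pos g a) b = L.pos (L.pos g c) d) (h0 : L.PD φ γ (L.src a, g) δ)
    (ha : L.PD φ γ (L.tgt a, L.pos g a) δ) (hc : L.PD φ γ (L.tgt c, L.pos g c) δ)
    (hb : L.PD φ γ (L.tgt b, L.pos (L.pos g a) b) δ) :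
    L.cD δ g a * L.cD δ (L.pos g a) b = L.cD δ g c * L.cD δ (L.pos g c) d := by
  have n1 := L.nrm_pos g a
  have n2 := L.nrm_pos g c
  have n3 := L.nrm_pos (L.pos g a) b
  have n4 := L.nrm_pos (L.pos g c) d
  rw [← hf] at n4
  have r1 : L.rank (L.src a) ≠ L.rank (L.tgt b) := L.sq_rank h
  have r2 : L.rank (L.tgt a) ≠ L.rank (L.tgt c) := L.sq_rank (X.rot h)
  have vA : nrm g < nrm (L.pos g a) → nrm (L.pos (L.pos g a) b) < nrm (L.pos g a) →
      L.Lt (L.tgt c, L.pos g c) (L.tgt a, L.pos g a) →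
      L.cD δ g a * L.cD δ (L.pos g a) b = L.cD δ g c * L.cD δ (L.pos g c) d := by
    intro k1 k2 k3
    exact rel_rot (L.cD_inv δ) hf (sq_top (X.rot h) (flat_rot hf) ha (by rwa [L.pos_inv]) k2
      (by rwa [L.pos_inv]))
  have vC : nrm g < nrm (L.pos g c) → nrm (L.pos (L.pos g a) b) < nrm (L.pos g c) →
      L.Lt (L.tgt a, L.pos g a) (L.tgt c, L.pos g c) →
      L.cD δ g a * L.cD δ (L.pos g a) b = L.cD δ g c * L.cD δ (L.pos g c) d := by
    intro k1 k2 k3
    exact (rel_rot (L.cD_inv δ) hf.symm (sq_top (X.rot (X.symm h)) (flat_rot hf.symm) hc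
      (by rwa [L.pos_inv]) (by rwa [← hf]) (by rwa [L.pos_inv]))).symm
  have vF : nrm (L.pos g a) < nrm (L.pos (L.pos g a) b) →
      nrm (L.pos g c) < nrm (L.pos (L.pos g a) b) →
      L.Lt (L.src a, g) (L.tgt b, L.pos (L.pos g a) b) →
      L.cD δ g a * L.cD δ (L.pos g a) b = L.cD δ g c * L.cD δ (L.pos g c) d := by
    intro k1 k2 k3
    refine rel_rot (L.cD_inv δ) hf (rel_rot (L.cD_inv δ) (flat_rot hf).symm
      (sq_top (SqSys.view_far h) (flat_rot (flat_rot hf).symm) hb (by rwa [L.pos_inv])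
        (by rw [hf, L.pos_inv, ← hf]; exact k2) ?_)).symm
    rw [L.pos_inv, L.pos_inv, L.tgt_inv0]
    exact k3
  by_cases ca : nrm (L.pos g a) < nrm g
  · by_cases cc : nrm (L.pos g c) < nrm g
    · by_cases cl : L.Lt (L.tgt b, L.pos (L.pos g a) b) (L.src a, g)
      · exact sq_top h hf h0 ca cc cl
      · unfold Lt at cl
        simp only at cl
        exact vF (by omega) (by omega) (by unfold Lt; simp only; omega)
    · exact vC (by omega) (by omega) (by unfold Lt; simp only; omega)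
  · by_cases cc : nrm (L.pos g c) < nrm g
    · exact vA (by omega) (by omega) (by unfold Lt; simp only; omega)
    · by_cases cf : nrm (L.pos (L.pos g a) b) < nrm (L.pos g a)
      · by_cases cr : L.rank (L.tgt a) < L.rank (L.tgt c)
        · exact vC (by omega) (by omega) (by unfold Lt; simp only; omega)
        · exact vA (by omega) (by omega) (by unfold Lt; simp only; omega)
      · exact vF (by omega) (by omega) (by unfold Lt; simp only; omega)

variable (L) in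
def Core.rev (x : L.Core) : L.Core :=
  ⟨(x.1.2.2, X.inv x.1.2.1, x.1.1), by rw [← x.2, L.pos_inv]⟩

theorem eta_rev (x : L.Core) : L.eta (Core.rev L x) = (L.eta x)⁻¹ := by
  simp only [eta, Core.rev, L.src_inv, L.tgt_inv0, L.ee_inv]
  group

theorem exists_coc (φ : Γ →* L.Xp.G) (γ : L.Core → Γ) (hγ : ∀ x, φ (γ x) = L.eta x)
    (h2 : ∀ x, γ (Core.rev L x) = (γ x)⁻¹)
    (h4 : ∀ x1 x2 x3 x4, φ (γ x1 * γ x2) = φ (γ x3 * γ x4) → γ x1 * γ x2 = γ x3 * γ x4) :
    ∃ C : L.Coc φ, ∀ x : L.Core, C.c (cp x.1.1) x.1.2.1 = γ x := by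
  classical
  have core : ∀ (δ : V × FreeGroup S → (E → Γ) × L.Xp.G) (x : L.Core),
      (nrm (cp x.1.2.2) < nrm (cp x.1.1) → L.PD φ γ (L.src x.1.2.1, cp x.1.1) δ) →
      (¬ nrm (cp x.1.2.2) < nrm (cp x.1.1) → L.PD φ γ (L.tgt x.1.2.1, cp x.1.2.2) δ) →
      L.cD δ (cp x.1.1) x.1.2.1 = γ x := by
    intro δ x k1 k2
    unfold cD
    rw [x.2]
    by_cases h : nrm (cp x.1.2.2) < nrm (cp x.1.1)
    · rw [if_pos h]
      exact ((k1 h).1 _ rfl).2 x rfl rfl
    · rw [if_neg h]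
      have := ((k2 h).1 _ rfl).2 (Core.rev L x) rfl rfl
      rw [h2] at this
      exact inv_eq_iff_eq_inv.2 this
  obtain ⟨δ, hδ⟩ := wf_choice (D := (E → Γ) × L.Xp.G) L.Lt L.Lt_wf L.Lt_trans (L.PD φ γ)
    (by
      rintro ⟨y, f⟩ δ δ' e1 e2 ⟨p1, p2, p3⟩
      refine ⟨by rw [← e1]; exact p1, fun e k1 k2 => ?_, fun a b c d h k1 k2 k3 k4 k5 => ?_⟩
      · rw [← e1, ← e2 _ (Or.inl k2)]; exact p2 e k1 k2
      · rw [← e1, ← (L.cD_congr_sq e2 h k2 k3 k4 k5).1, ← (L.cD_congr_sq e2 h k2 k3 k4 k5).2]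
        exact p3 a b c d h k1 k2 k3 k4 k5)
    (by
      rintro ⟨y, f⟩ δ ih
      by_cases hf : 2 ≤ nrm f
      · obtain ⟨p, τ, k1, k2⟩ := L.link φ (L.cD δ) (fun y f => (δ (y, f)).2) y f hf
          (fun g e l1 l2 => gauge_of (ih _ l1) (ih _ l2))
          (fun g a b c d h hfl l1 l2 l3 l4 => sq_of h hfl (ih _ l1) (ih _ l2) (ih _ l3) (ih _ l4))
        refine ⟨(p, τ), fun δ' e1 e2 => ⟨fun o ho => ?_, fun e l1 l2 => ?_,
          fun a b c d h l1 l2 l3 l4 l5 => ?_⟩⟩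
        · have := nrm_cp o
          rw [ho] at this
          simp only at this
          omega
        · rw [e1, e2 _ (Or.inl l2)]; exact k1 e l1 l2
        · rw [e1, (L.cD_congr_sq e2 h l2 l3 l4 l5).1, (L.cD_congr_sq e2 h l2 l3 l4 l5).2]
          exact k2 a b c d h l1 l2 l3 l4 l5
      · obtain ⟨o, rfl⟩ := exists_cp (f := f) (by omega)
        let p : E → Γ := fun e => if h : ∃ o', L.pos (cp o) e = cp o' then
          γ ⟨(o, e, h.choose), h.choose_spec⟩ else 1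
        have hp : ∀ e o' (h : L.pos (cp o) e = cp o'), p e = γ ⟨(o, e, o'), h⟩ := by
          intro e o' h
          have h0 : ∃ o', L.pos (cp o) e = cp o' := ⟨o', h⟩
          have h1 : h0.choose = o' := cp_inj (h0.choose_spec.symm.trans h)
          simp only [p, dif_pos h0, h1]
        have no := nrm_cp o
        refine ⟨(p, L.tt y o), fun δ' e1 e2 => ⟨fun o' ho => ?_, fun e l1 l2 => ?_,
          fun a b c d h l1 l2 l3 l4 l5 => ?_⟩⟩
        · obtain rfl := cp_inj ho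
          rw [e1]
          refine ⟨rfl, ?_⟩
          rintro ⟨⟨o1, e, o2⟩, hx⟩ _ rfl
          exact hp e o2 hx
        · simp only at l1 l2
          obtain ⟨o', ho'⟩ := exists_cp (f := L.pos (cp o) e) (by omega)
          rw [e1, e2 _ (Or.inl l2), ((ih (L.tgt e, L.pos (cp o) e) (Or.inl l2)).1 o' ho').1]
          simp only
          rw [hp e o' ho'.symm, hγ, ← l1]
          rfl
        · rw [e1, (L.cD_congr_sq e2 h l2 l3 l4 l5).1, (L.cD_congr_sq e2 h l2 l3 l4 l5).2]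
          simp only at l1 l2 l3 l4 l5 ⊢
          obtain ⟨oa, ha⟩ := exists_cp (f := L.pos (cp o) a) (by omega)
          obtain ⟨oc, hc⟩ := exists_cp (f := L.pos (cp o) c) (by omega)
          obtain ⟨ob, hb⟩ := exists_cp (f := L.pos (L.pos (cp o) a) b)
            (by have := L.nrm_pos (L.pos (cp o) a) b; omega)
          have hb' : L.pos (cp oa) b = cp ob := by rw [ha, hb]
          have hd' : L.pos (cp oc) d = cp ob := by rw [hc, hb, l4]
          have q1 := core δ ⟨(oa, b, ob), hb'⟩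
            (fun _ => ih _ (Or.inl (by simp only [ha]; exact l2)))
            (fun _ => ih _ (by simp only [hb]; exact l5))
          have q2 := core δ ⟨(oc, d, ob), hd'⟩
            (fun _ => ih _ (Or.inl (by simp only [hc]; exact l3)))
            (fun _ => ih _ (by simp only [hb, tgt_d h]; exact l5))
          simp only [ha, hc] at q1 q2
          rw [q1, q2, hp a oa ha.symm, hp c oc hc.symm]
          apply h4
          simp only [map_mul, hγ, eta, src_c h, src_b h, src_d h, tgt_d h]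
          have := L.ee_sq h
          have e4 : L.ee b = (L.ee a)⁻¹ * L.ee c * L.ee d := by rw [mul_assoc, ← this]; group
          rw [e4]; group)
  exact ⟨⟨L.cD δ, fun y f => (δ (y, f)).2, L.cD_inv δ,
    fun f a b c d h hf => sq_of h hf (hδ _) (hδ _) (hδ _) (hδ _),
    fun f e => gauge_of (hδ _) (hδ _)⟩, fun x => core δ x (fun _ => hδ _) fun _ => hδ _⟩

/-- push a connection forward along a quotient map -/
def Coc.map {φ : Γ →* L.Xp.G} (C : L.Coc φ) {Γ' : Type} [Group Γ'] (q : Γ →* Γ')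
    (φ' : Γ' →* L.Xp.G) (h : ∀ g, φ' (q g) = φ g) : L.Coc φ' where
  c f e := q (C.c f e)
  τ := C.τ
  c_inv f e := by rw [C.c_inv, map_inv]
  c_sq f a b c d k1 k2 := by rw [← map_mul, ← map_mul, C.c_sq f a b c d k1 k2]
  gauge f e := by rw [h, C.gauge]

end Lab

/-- finitely many consequences can be added to a finite presentation -/
theorem refine_model {A Γ H ι : Type} [Group A] [Group Γ] [Group H] [Finite ι] (mk : A →* Γ)
    (hs : Function.Surjective mk) (hf : mk.ker.IsFinitelyNormallyGenerated) (φ : Γ →* H)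
    (a b : ι → Γ) (h : ∀ i, φ (a i) = φ (b i)) :
    ∃ (Γ' : Type) (_ : Group Γ') (q : Γ →* Γ') (φ' : Γ' →* H), Function.Surjective (q.comp mk) ∧
      (q.comp mk).ker.IsFinitelyNormallyGenerated ∧ (∀ g, φ' (q g) = φ g) ∧
      ∀ i, q (a i) = q (b i) := by
  let N := Subgroup.normalClosure (Set.range fun i => a i * (b i)⁻¹)
  have hN : N ≤ φ.ker := by
    apply Subgroup.normalClosure_le_normal
    rintro _ ⟨i, rfl⟩
    simp [h i]
  refine ⟨Γ ⧸ N, inferInstance, QuotientGroup.mk' N, QuotientGroup.lift N φ hN,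
    (QuotientGroup.mk'_surjective N).comp hs, ?_, fun g => rfl, fun i => ?_⟩
  · rw [← MonoidHom.comap_ker, QuotientGroup.ker_mk']
    exact Subgroup.IsFinitelyNormallyGenerated.comap ⟨_, Set.finite_range _, rfl⟩ hs hf
  · rw [← mul_inv_eq_one, ← map_inv, ← map_mul]
    exact (QuotientGroup.eq_one_iff _).2 (Subgroup.subset_normalClosure ⟨i, rfl⟩)

end Pool.Agent.Lib.MP_28a49a_al
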