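import Pool.Agent.Lib.MP_28a49a_al.CxSq

/-! Block D, part 4: labels, link conditions and the VH quotient. -/

namespace Pool.Agent.Lib.MP_28a49a_al

namespace Cx

open Classical Relation

noncomputable section

section abstract

variable {F : Type} [Field F]

theorem span_all (hF : ∀ x : F, ∃ m : ℕ, x = m) (D : F × F → Prop) (h0 : D 0)
    (hadd : ∀ x y, D x → D y → D (x + y)) {a u u' : F} (ha : a ≠ 0) (hu : u ≠ 0)
    (h1 : D (a • (u, 0))) (h2 : D (a • (u', 1))) (d : F × F) : D d := by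
  have hs : ∀ x, D x → ∀ t : F, D (t • x) := by
    intro x hx t
    obtain ⟨m, rfl⟩ := hF t
    induction m with
    | zero => simpa using h0
    | succ m ih =>
      rw [Nat.cast_succ, add_smul, one_smul]
      exact hadd _ _ ih hx
  have := hadd _ _ (hs _ h1 ((d.1 - d.2 * u') / (a * u))) (hs _ h2 (d.2 / a))
  convert this using 1
  ext
  · simp only [Prod.smul_mk, smul_eq_mul, Prod.mk_add_mk]
    field_simp
    ring
  · simp only [Prod.smul_mk, smul_eq_mul, Prod.mk_add_mk]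
    field_simp
    ring

theorem connH (hF : ∀ x : F, ∃ m : ℕ, x = m) {I J : Type} (α : I → F) (β : J → F × F) {i0 i1 : I}
    (hα : α i0 ≠ α i1) {j0 j1 j2 : J} (h1 : (β j1).1 ≠ (β j0).1) (h1' : (β j1).2 = (β j0).2)
    (h2 : (β j2).2 = (β j0).2 + 1) (r : J × F × F → J × F × F → Prop) (hr : Equivalence r)
    (step : ∀ i j j' κ κ', κ + α i • β j = κ' + α i • β j' → r (j, κ) (j', κ')) (p q) : r p q := by
  have four : ∀ j κ, r (j0, κ) (j0, κ + (α i1 - α i0) • (β j - β j0)) := by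
    intro j κ
    refine hr.trans (step i0 j0 j κ (κ + α i0 • (β j0 - β j)) ?_) (step i1 j j0 _ _ ?_)
    · module
    · module
  have all : ∀ d κ, r (j0, κ) (j0, κ + d) := by
    intro d
    refine span_all hF (fun d => ∀ κ, r (j0, κ) (j0, κ + d)) (fun κ => ?_)
      (fun x y hx hy κ => ?_) (sub_ne_zero.2 hα.symm) (sub_ne_zero.2 h1)
      (u' := (β j2).1 - (β j0).1) (fun κ => ?_) (fun κ => ?_) d
    · simpa using hr.refl _
    · rw [← add_assoc]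
      exact hr.trans (hx κ) (hy _)
    · convert four j1 κ using 4
      ext <;> simp [h1']
    · convert four j2 κ using 4
      ext <;> simp [h2]
  have to0 : ∀ p : J × F × F, r p (j0, 0) := by
    rintro ⟨j, κ⟩
    refine hr.trans (step i0 j j0 κ (κ + α i0 • (β j - β j0)) (by module)) (hr.symm ?_)
    simpa using all _ 0
  exact hr.trans (to0 p) (hr.symm (to0 q))

theorem connE (hF : ∀ x : F, ∃ m : ℕ, x = m) {I J : Type} (α : I → F) (β : J → F × F) {i0 i1 : I}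
    (hα : α i0 ≠ α i1) {j0 j1 j2 : J} (h1 : (β j1).1 ≠ (β j0).1) (h1' : (β j1).2 = (β j0).2)
    (h2 : (β j2).2 = (β j0).2 + 1) (r : I × F × F → I × F × F → Prop) (hr : Equivalence r)
    (step : ∀ j i i' κ κ', κ - α i • β j = κ' - α i' • β j → r (i, κ) (i', κ')) (p q) : r p q := by
  have four : ∀ j κ, r (i0, κ) (i0, κ + (α i0 - α i1) • (β j - β j0)) := by
    intro j κ
    refine hr.trans (step j0 i0 i1 κ (κ + (α i1 - α i0) • β j0) ?_) (step j i1 i0 _ _ ?_)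
    · module
    · module
  have all : ∀ d κ, r (i0, κ) (i0, κ + d) := by
    intro d
    refine span_all hF (fun d => ∀ κ, r (i0, κ) (i0, κ + d)) (fun κ => ?_)
      (fun x y hx hy κ => ?_) (sub_ne_zero.2 hα) (sub_ne_zero.2 h1)
      (u' := (β j2).1 - (β j0).1) (fun κ => ?_) (fun κ => ?_) d
    · simpa using hr.refl _
    · rw [← add_assoc]
      exact hr.trans (hx κ) (hy _)
    · convert four j1 κ using 4
      ext <;> simp [h1']
    · convert four j2 κ using 4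
      ext <;> simp [h2]
  have to0 : ∀ p : I × F × F, r p (i0, 0) := by
    rintro ⟨i, κ⟩
    refine hr.trans (step j0 i i0 κ (κ + (α i0 - α i) • β j0) (by module)) (hr.symm ?_)
    simpa using all _ 0
  exact hr.trans (to0 p) (hr.symm (to0 q))

theorem connT {T A : Type} [AddCommGroup T] {g : T} (gen : ∀ τ : T, ∃ m : ℕ, τ = m • g)
    (r : T × A → T × A → Prop) (hr : Equivalence r) (h1 : ∀ τ a a', r (τ, a) (τ, a'))
    (h2 : ∀ τ, ∃ a a', r (τ, a) (τ + g, a')) (p q) : r p q := by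
  have key : ∀ (m : ℕ) a a', r (0, a) (m • g, a') := by
    intro m
    induction m with
    | zero => simpa using h1 0
    | succ m ih =>
      intro a a'
      obtain ⟨b, b', h⟩ := h2 (m • g)
      rw [succ_nsmul]
      exact hr.trans (ih a b) (hr.trans h (h1 _ _ _))
  obtain ⟨τ, a⟩ := p
  obtain ⟨τ', a'⟩ := q
  obtain ⟨m, rfl⟩ := gen τ
  obtain ⟨m', rfl⟩ := gen τ'
  exact hr.trans (hr.symm (key m a a)) (key m' a a')

theorem eqv_comap {A B : Type} (ρ : B → B → Prop) (φ : A → B) :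
    Equivalence fun p q => EqvGen ρ (φ p) (φ q) :=
  ⟨fun _ => EqvGen.refl _, fun h => EqvGen.symm _ _ h, fun h h' => EqvGen.trans _ _ _ h h'⟩

end abstract

variable {S T F : Type} [AddCommGroup T] [Field F] {R : Set (Tup S)} {P : Par S T F R}

def mkE (P : Par S T F R) (y : Vx S T F) (i : Fin 3) (ν : Nm S T) (κ : F × F) : Eg P :=
  ⟨y, ⟨P.mv y.b i ν, fun s => if br s (P.mv y.b i ν) then 0 else
      if br s y.b then κ else y.k s + P.Del s y.b i ν, fun s hs => by simp [hs]⟩, i, ν,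
    rfl, fun s h1 h2 => by
      simp only at h2 ⊢
      rw [if_neg h2, if_neg h1]⟩

theorem mkE_k {y : Vx S T F} {i s : Fin 3} (ν : Nm S T) (κ : F × F) (h : br s y.b) (hi : s ≠ i) :
    (mkE P y i ν κ).tgt.k s = κ := by
  simp only [mkE]
  rw [if_neg (P.br_ne ν h hi), if_pos h]

theorem eq_mkE (e : Eg P) : ∃ κ, e = mkE P e.src e.dir e.nm κ := by
  by_cases h : ∃ s, br s e.src.b
  · obtain ⟨s, hs⟩ := h
    refine ⟨e.tgt.k s, Eg.ext rfl (P.Ed_ext e.ed (mkE P _ _ _ _).ed fun t ht hi => ?_) rfl rfl⟩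
    rw [mkE_k _ _ ht hi, br_unique ht hs]
  · exact ⟨0, Eg.ext rfl (P.Ed_ext e.ed (mkE P _ _ _ _).ed fun t ht _ => absurd ⟨t, ht⟩ h) rfl rfl⟩

def Eg.lab (e : Eg P) : Let S := P.lb e.src.b e.dir e.nm

/-- the edge with given origin, direction, label and parameters -/
def ed (P : Par S T F R) (y : Vx S T F) (i : Fin 3) (x : Let S) (τ : T) (m : Fin 3) (κ : F × F) :
    Eg P := mkE P y i (P.nmFor y.b i τ m x) κ

theorem ed_lab (y : Vx S T F) (i : Fin 3) (x : Let S) (τ : T) (m : Fin 3) (κ : F × F) :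
    (ed P y i x τ m κ).lab = x := P.lb_nmFor _ _ _ _ _

theorem eq_ed (e : Eg P) {y : Vx S T F} {i : Fin 3} {x : Let S} (h1 : e.src = y) (h2 : e.dir = i)
    (h3 : e.lab = x) : ∃ τ m κ, e = ed P y i x τ m κ := by
  obtain ⟨κ, h⟩ := eq_mkE e
  subst h1 h2 h3
  refine ⟨e.nm.1, e.nm.2.1, κ, ?_⟩
  unfold ed Eg.lab
  rw [P.nmFor_lb]
  exact h

def al (P : Par S T F R) (s : Fin 3) (b : St S T F) (μ : Nm S T) : F := P.n μ - b.xi (s + 2)

def be (P : Par S T F R) (s : Fin 3) (b : St S T F) (ν : Nm S T) : F × F :=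
  (b.xi (s + 1) + P.n ν, b.f (s + 1) + (P.n' ν + P.ex b (s + 1) ν))

theorem adj_br {y : Vx S T F} (s : Fin 3) {i j : Fin 3} (hi' : i = s + 1) (hj : j = s + 2)
    {ν μ : Nm S T} {κ κ' : F × F} (hm : P.Mt y.b i ν j μ)
    (hk : κ + al P s y.b μ • be P s y.b ν = κ') :
    ∃ b d, Sq (mkE P y i ν κ) b (mkE P y j μ κ') d := by
  subst hi' hj
  refine adj_of _ _ rfl (fin3_ne12 s) hm fun t ht h1 h2 => ?_
  obtain rfl : t = s := by
    rcases fin3_cases s t with e | e | e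
    · exact e
    · exact absurd e h1
    · exact absurd e h2
  have ht' : br t y.b := ht
  rw [mkE_k _ _ ht' (fin3_ne1 t).symm, mkE_k _ _ ht' (fin3_ne2 t).symm]
  show κ + P.Del t (P.mv y.b (t + 1) ν) (t + 2) μ = κ' + P.Del t _ (t + 1) ν
  rw [P.Del_of_ne t _ ν (fin3_ne12 t), add_zero, ← hk, Par.Del,
    if_pos ⟨rfl, by rw [Par.c_self, ht'.1]; rfl⟩, P.lo_ne _ _ _ (fin3_ne12 t).symm, Par.lo, ht'.2,
    hi, Par.xi_self, Par.f_self, ht'.1]
  simp [al, be]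

theorem adj_nobr (a c : Eg P) (hs : c.src = a.src) (hd : a.dir ≠ c.dir)
    (hm : P.Mt a.src.b a.dir a.nm c.dir c.nm)
    (hb : ∀ s, br s a.src.b → s = a.dir ∨ s = c.dir) : ∃ b d, Sq a b c d :=
  adj_of a c hs hd hm fun s h h1 h2 => absurd (hb s h) (by tauto)

theorem exists_adj (a : Eg P) {j : Fin 3} (hd : a.dir ≠ j) {μ : Nm S T}
    (hm : P.Mt a.src.b a.dir a.nm j μ) : ∃ κ b d, Sq a b (mkE P a.src j μ κ) d := by
  by_cases h : ∃ s, br s a.src.b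
  · obtain ⟨s, hs⟩ := h
    refine ⟨a.tgt.k s + P.Del s a.tgt.b j μ - P.Del s (P.mv a.src.b j μ) a.dir a.nm,
      adj_of _ _ rfl hd hm fun t ht _ h2 => ?_⟩
    obtain rfl := br_unique ht hs
    have h2' : t ≠ j := h2
    rw [mkE_k _ _ ht h2']
    simp [mkE]
  · exact ⟨0, adj_of _ _ rfl hd hm fun t ht _ _ => absurd ⟨t, ht⟩ h⟩

theorem Mt_two {b : St S T F} {i j : Fin 3} {ν μ : Nm S T} (h : i = 2 ∨ j = 2) :
    P.Mt b i ν j μ :=
  ⟨fun h1 h2 => by omega, fun h1 h2 => by omega⟩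

theorem Sq.lab_b {a b c d : Eg P} (h : Sq a b c d) :
    b.lab = P.lb (P.mv a.src.b a.dir a.nm) c.dir c.nm := by
  unfold Eg.lab
  rw [h.sb, a.ed.1, h.bd, h.bn]

theorem Sq.labels {a b c d : Eg P} (h : Sq a b c d) (h0 : a.dir = 0) (h1 : c.dir = 1) :
    (a.lab, b.lab, c.lab, d.lab) =
      view (a.src.b.c 0) (a.src.b.c 1) (P.dec (a.nm.1 + c.nm.1)) := by
  rw [h.lab_b, h.symm.lab_b, ← P.M_labels _ _ _ (h.mt.1 h0 h1)]
  unfold Eg.lab
  rw [h.sc, h0, h1]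

theorem Mt01 {b : St S T F} {τ τ' : T} {m m' : Fin 3} {r : Tup S}
    (h : view (b.c 0) (b.c 1) (P.dec (τ + τ')) = r) :
    P.Mt b 0 (P.nmFor b 0 τ m r.1) 1 (P.nmFor b 1 τ' m' r.2.2.1) := by
  refine ⟨fun _ _ => (P.M_iff _ _ _).2 ?_, fun h1 => by omega⟩
  rw [P.lb_nmFor, P.lb_nmFor, ← h]
  exact ⟨rfl, rfl⟩

theorem patt_ex (P : Par S T F R) (b : St S T F) {r : Tup S} (hr : r ∈ R) :
    ∃ k, view (b.c 0) (b.c 1) (P.dec k) = r ∧ view (b.c 0) (b.c 1) (P.dec (k + P.g)) = r := by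
  obtain ⟨k, h1, h2⟩ := P.dec_ex _ (P.view_mem (b.c 0) (b.c 1) hr)
  exact ⟨k, by rw [h1, view_view], by rw [h2, view_view]⟩

theorem al_ne (s i : Fin 3) (b : St S T F) (τ : T) (x : Let S) :
    al P s b (P.nmFor b i τ 0 x) ≠ al P s b (P.nmFor b i τ 1 x) := by
  intro h
  have := P.n_inj (sub_left_inj.1 h)
  simp [Par.nmFor] at this

theorem be_1 (s i : Fin 3) (b : St S T F) (τ : T) (x : Let S) :
    (be P s b (P.nmFor b i τ 1 x)).1 ≠ (be P s b (P.nmFor b i τ 0 x)).1 := by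
  intro h
  have := P.n_inj (add_right_inj _ |>.1 h)
  simp [Par.nmFor] at this

theorem be_2 (s i : Fin 3) (b : St S T F) (τ : T) (x : Let S) :
    (be P s b (P.nmFor b i τ 1 x)).2 = (be P s b (P.nmFor b i τ 0 x)).2 := by
  simp [be, Par.nmFor, Par.n', Par.ex]

theorem be_3 (s i : Fin 3) (b : St S T F) (τ : T) (x : Let S) :
    (be P s b (P.nmFor b i τ 2 x)).2 = (be P s b (P.nmFor b i τ 0 x)).2 + 1 := by
  simp [be, Par.nmFor, Par.n', Par.ex]
  ring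

theorem conn_e0 (y : Vx S T F) (τ1 : T) (x z : Let S) (ρ : Eg P → Eg P → Prop)
    (hρ : ∀ m κ (e e' : Eg P), e.src = y → e'.src = y → e.dir = 2 → e'.dir = 2 → e.lab = z →
      e'.lab = z → (∃ b d, Sq (ed P y 1 x τ1 m κ) b e d) →
      (∃ b d, Sq (ed P y 1 x τ1 m κ) b e' d) → ρ e e')
    (e e' : Eg P) (s1 : e.src = y) (s2 : e'.src = y) (d1 : e.dir = 2) (d2 : e'.dir = 2)
    (l1 : e.lab = z) (l2 : e'.lab = z) : EqvGen ρ e e' := by
  obtain ⟨τ, m, κ, rfl⟩ := eq_ed e s1 d1 l1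
  obtain ⟨τ', m', κ', rfl⟩ := eq_ed e' s2 d2 l2
  refine connE P.prime (I := T × Fin 3) (J := Fin 3)
    (fun p => al P 0 y.b (P.nmFor y.b 2 p.1 p.2 z)) (fun m => be P 0 y.b (P.nmFor y.b 1 τ1 m x))
    (i0 := (0, 0)) (i1 := (0, 1)) (al_ne _ _ _ _ _) (be_1 _ _ _ _ _) (be_2 _ _ _ _ _)
    (be_3 _ _ _ _ _) _ (eqv_comap ρ fun p => ed P y 2 z p.1.1 p.1.2 p.2) ?_ ((τ, m), κ)
    ((τ', m'), κ')
  intro j i i' κ κ' h
  refine EqvGen.rel _ _ (hρ j _ _ _ rfl rfl rfl rfl (ed_lab ..) (ed_lab ..)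
    (adj_br 0 rfl rfl (Mt_two (Or.inr rfl)) (sub_add_cancel _ _))
    (adj_br 0 rfl rfl (Mt_two (Or.inr rfl)) ?_))
  rw [h]
  exact sub_add_cancel _ _

theorem conn_e1 (y : Vx S T F) (τ0 : T) (x z : Let S) (ρ : Eg P → Eg P → Prop)
    (hρ : ∀ m κ (e e' : Eg P), e.src = y → e'.src = y → e.dir = 2 → e'.dir = 2 → e.lab = z →
      e'.lab = z → (∃ b d, Sq (ed P y 0 x τ0 m κ) b e d) →
      (∃ b d, Sq (ed P y 0 x τ0 m κ) b e' d) → ρ e e')
    (e e' : Eg P) (s1 : e.src = y) (s2 : e'.src = y) (d1 : e.dir = 2) (d2 : e'.dir = 2)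
    (l1 : e.lab = z) (l2 : e'.lab = z) : EqvGen ρ e e' := by
  obtain ⟨τ, m, κ, rfl⟩ := eq_ed e s1 d1 l1
  obtain ⟨τ', m', κ', rfl⟩ := eq_ed e' s2 d2 l2
  refine connH P.prime (I := Fin 3) (J := T × Fin 3)
    (fun m => al P 1 y.b (P.nmFor y.b 0 τ0 m x)) (fun p => be P 1 y.b (P.nmFor y.b 2 p.1 p.2 z))
    (al_ne _ _ _ _ _) (j0 := (0, 0)) (j1 := (0, 1)) (j2 := (0, 2)) (be_1 _ _ _ _ _)
    (be_2 _ _ _ _ _) (be_3 _ _ _ _ _) _ (eqv_comap ρ fun p => ed P y 2 z p.1.1 p.1.2 p.2) ?_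
    ((τ, m), κ) ((τ', m'), κ')
  intro i j j' κ κ' h
  obtain ⟨b, d, q⟩ := adj_br (P := P) (y := y) 1 (i := 2) (j := 0) rfl rfl
    (ν := P.nmFor y.b 2 j.1 j.2 z) (μ := P.nmFor y.b 0 τ0 i x) (κ := κ) (Mt_two (Or.inl rfl)) rfl
  obtain ⟨b', d', q'⟩ := adj_br (P := P) (y := y) 1 (i := 2) (j := 0) rfl rfl
    (ν := P.nmFor y.b 2 j'.1 j'.2 z) (μ := P.nmFor y.b 0 τ0 i x) (κ := κ') (Mt_two (Or.inl rfl))
    h.symm
  exact EqvGen.rel _ _ (hρ i _ _ _ rfl rfl rfl rfl (ed_lab ..) (ed_lab ..) ⟨_, _, q.symm⟩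
    ⟨_, _, q'.symm⟩)

theorem conn_left (x x' : Let S) (a a' : Eg P) (l1 : a.dir ≠ 2) (l2 : a'.dir ≠ 2)
    (hs : a.src = a'.src) (x1 : a.lab = x) (x2 : a'.lab = x) :
    EqvGen (fun a c : Eg P => ∃ b d, Sq a b c d ∧ a.dir ≠ 2 ∧ c.dir ≠ 2 ∧
      (a.lab, b.lab, c.lab, d.lab) = (x, x', x, x')) a a' := by
  set ρ := fun a c : Eg P => ∃ b d, Sq a b c d ∧ a.dir ≠ 2 ∧ c.dir ≠ 2 ∧
      (a.lab, b.lab, c.lab, d.lab) = (x, x', x, x') with hρ
  generalize hy : a'.src = y at hs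
  obtain ⟨k, k1, k2⟩ := patt_ex P y.b (P.hflat x x')
  have step : ∀ τ τ' m m' κ κ', view (y.b.c 0) (y.b.c 1) (P.dec (τ + τ')) = (x, x', x, x') →
      κ + al P 2 y.b (P.nmFor y.b 1 τ' m' x) • be P 2 y.b (P.nmFor y.b 0 τ m x) = κ' →
      EqvGen ρ (ed P y 0 x τ m κ) (ed P y 1 x τ' m' κ') := by
    intro τ τ' m m' κ κ' h hk
    obtain ⟨b, d, q⟩ := adj_br (P := P) (y := y) 2 (i := 0) (j := 1) rfl rfl (Mt01 h) hk
    exact EqvGen.rel _ _ ⟨b, d, q, show (0 : Fin 3) ≠ 2 by decide, show (1 : Fin 3) ≠ 2 by decide,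
      (q.labels rfl rfl).trans h⟩
  have all0 : ∀ p q : T × Fin 3 × F × F,
      EqvGen ρ (ed P y 0 x p.1 p.2.1 p.2.2) (ed P y 0 x q.1 q.2.1 q.2.2) := by
    refine connT P.gen _ (eqv_comap ρ fun p : T × Fin 3 × F × F => ed P y 0 x p.1 p.2.1 p.2.2)
      (fun τ => ?_) (fun τ => ?_)
    · refine connH P.prime (I := Fin 3) (J := Fin 3)
        (fun m => al P 2 y.b (P.nmFor y.b 1 (k - τ) m x))
        (fun m => be P 2 y.b (P.nmFor y.b 0 τ m x)) (al_ne _ _ _ _ _) (be_1 _ _ _ _ _)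
        (be_2 _ _ _ _ _) (be_3 _ _ _ _ _) _ 
        (eqv_comap ρ fun p : Fin 3 × F × F => ed P y 0 x τ p.1 p.2) ?_
      intro i j j' κ κ' h
      have e : view (y.b.c 0) (y.b.c 1) (P.dec (τ + (k - τ))) = (x, x', x, x') := by
        rwa [add_sub_cancel]
      exact EqvGen.trans _ _ _ (step τ (k - τ) j i κ _ e rfl)
        (EqvGen.symm _ _ (step τ (k - τ) j' i κ' _ e h.symm))
    · refine ⟨(0, _), (0, _), EqvGen.trans _ _ _
        (step τ (k - τ) 0 0 _ 0 (by rwa [add_sub_cancel]) (neg_add_cancel _))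
        (EqvGen.symm _ _ (step (τ + P.g) (k - τ) 0 0 _ 0 ?_ (neg_add_cancel _)))⟩
      rwa [show τ + P.g + (k - τ) = k + P.g by abel]
  have to0 : ∀ e : Eg P, e.dir ≠ 2 → e.src = y → e.lab = x → EqvGen ρ (ed P y 0 x 0 0 0) e := by
    intro e h1 h2 h3
    rcases (by omega : e.dir = 0 ∨ e.dir = 1) with h | h
    · obtain ⟨τ, m, κ, rfl⟩ := eq_ed e h2 h h3
      exact all0 (0, 0, 0) (τ, m, κ)
    · obtain ⟨τ, m, κ, rfl⟩ := eq_ed e h2 h h3
      exact EqvGen.trans _ _ _ (all0 (0, 0, 0) (k - τ, 0, _))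
        (step (k - τ) τ 0 m _ κ (by rwa [sub_add_cancel]) (sub_add_cancel _ _))
  exact EqvGen.trans _ _ _ (EqvGen.symm _ _ (to0 a l1 hs x1)) (to0 a' l2 hy x2)

theorem conn_right (r : Tup S) (hr : r ∈ R) (e e' : Eg P) (l1 : ¬ e.dir ≠ 2) (l2 : ¬ e'.dir ≠ 2)
    (hs : e.src = e'.src) (hl : e.lab = e'.lab) :
    EqvGen (fun e e' : Eg P => ¬ e.dir ≠ 2 ∧ ¬ e'.dir ≠ 2 ∧ e.lab = e'.lab ∧
      ∃ a b c d, Sq a b c d ∧ a.dir ≠ 2 ∧ c.dir ≠ 2 ∧ (a.lab, b.lab, c.lab, d.lab) = r ∧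
        (∃ b d, Sq a b e d) ∧ (∃ b d, Sq c b e d) ∧ (∃ b d, Sq a b e' d) ∧
        (∃ b d, Sq c b e' d)) e e' := by
  generalize hy : e'.src = y at hs
  obtain ⟨k, k1, -⟩ := patt_ex P y.b hr
  have k0 : view (y.b.c 0) (y.b.c 1) (P.dec (0 + k)) = r := by rwa [zero_add]
  by_cases hb : br 1 y.b
  · refine conn_e1 y 0 r.1 e'.lab _ ?_ e e' hs hy (not_not.1 l1) (not_not.1 l2) hl rfl
    intro m κ u u' s1 s2 d1 d2 x1 x2 a1 a2
    obtain ⟨b, d, q⟩ := adj_nobr (ed P y 0 r.1 0 m κ) (ed P y 1 r.2.2.1 k 0 0) rfl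
      (show (0 : Fin 3) ≠ 1 by decide) (Mt01 k0) fun s h => Or.inr (br_unique h hb)
    have adj : ∀ u : Eg P, u.src = y → u.dir = 2 → ∃ b d, Sq (ed P y 1 r.2.2.1 k 0 0) b u d :=
      fun u s d => adj_nobr _ u s (by rw [d]; exact show (1 : Fin 3) ≠ 2 by decide)
        (Mt_two (Or.inr d)) fun s h => Or.inl (br_unique h hb)
    exact ⟨not_not.2 d1, not_not.2 d2, x1.trans x2.symm, _, b, _, d, q,
      show (0 : Fin 3) ≠ 2 by decide, show (1 : Fin 3) ≠ 2 by decide, (q.labels rfl rfl).trans k0,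
      a1, adj u s1 d1, a2, adj u' s2 d2⟩
  · refine conn_e0 y k r.2.2.1 e'.lab _ ?_ e e' hs hy (not_not.1 l1) (not_not.1 l2) hl rfl
    intro m κ u u' s1 s2 d1 d2 x1 x2 a1 a2
    obtain ⟨κ', b, d, q⟩ := exists_adj (ed P y 1 r.2.2.1 k m κ) (j := 0)
      (show (1 : Fin 3) ≠ 0 by decide) (P.Mt_symm (Mt01 (m := 0) k0))
    have adj : ∀ u : Eg P, u.src = y → u.dir = 2 → ∃ b d, Sq (ed P y 0 r.1 0 0 κ') b u d :=
      fun u s d => adj_nobr _ u s (by rw [d]; exact show (0 : Fin 3) ≠ 2 by decide)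
        (Mt_two (Or.inr d)) fun s h => by
          have : s ≠ 1 := fun e => hb (e ▸ h)
          rw [d]
          show s = 0 ∨ s = 2
          omega
    exact ⟨not_not.2 d1, not_not.2 d2, x1.trans x2.symm, _, d, _, b, q.symm,
      show (0 : Fin 3) ≠ 2 by decide, show (1 : Fin 3) ≠ 2 by decide,
      (q.symm.labels rfl rfl).trans k0, adj u s1 d1, a1, adj u' s2 d2, a2⟩

/-- the relation on right edges occurring in the apex condition -/
def inner (x x' z : Let S) (u u' e e' : Eg P) : Prop :=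
  ¬ e.dir ≠ 2 ∧ ¬ e'.dir ≠ 2 ∧ e.lab = z ∧ e'.lab = z ∧
    ∃ h b d b' d', Sq u b h d ∧ Sq u' b' h d' ∧ h.dir ≠ 2 ∧ h.lab = x ∧
      b.lab = x' ∧ d.lab = x' ∧ b'.lab = x' ∧ d'.lab = x' ∧
      (∃ b d, Sq h b e d) ∧ (∃ b d, Sq h b e' d)

def outer (y : Vx S T F) (i : Fin 3) (x x' z : Let S) (u u' : Eg P) : Prop :=
  u.src = y ∧ u'.src = y ∧ u.dir ≠ 2 ∧ u'.dir ≠ 2 ∧ u.dir = i ∧ u'.dir = i ∧
    u.lab = x ∧ u'.lab = x ∧
    ∀ e e' : Eg P, e.src = y → e'.src = y → ¬ e.dir ≠ 2 → ¬ e'.dir ≠ 2 → e.lab = z → e'.lab = z →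
      EqvGen (inner x x' z u u') e e'

theorem outer_conn (y : Vx S T F) (i : Fin 3) (x x' z : Let S)
    (step : ∀ τ τ' m m' κ κ', τ' = τ ∨ τ' = τ + P.g →
      outer y i x x' z (ed P y i x τ m κ) (ed P y i x τ' m' κ'))
    (u u' : Eg P) (s1 : u.src = y) (s2 : u'.src = y) (d1 : u.dir = i) (d2 : u'.dir = i)
    (x1 : u.lab = x) (x2 : u'.lab = x) : EqvGen (outer y i x x' z) u u' := by
  obtain ⟨τ, m, κ, rfl⟩ := eq_ed u s1 d1 x1
  obtain ⟨τ', m', κ', rfl⟩ := eq_ed u' s2 d2 x2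
  exact connT P.gen _ (eqv_comap (outer y i x x' z)
    fun p : T × Fin 3 × F × F => ed P y i x p.1 p.2.1 p.2.2)
    (fun τ a a' => EqvGen.rel _ _ (step τ τ _ _ _ _ (Or.inl rfl)))
    (fun τ => ⟨(0, 0), (0, 0), EqvGen.rel _ _ (step τ _ _ _ _ _ (Or.inr rfl))⟩) (τ, m, κ)
    (τ', m', κ')

theorem outer0 {y : Vx S T F} (hb : br 0 y.b) (x x' z : Let S) (τ τ' : T) (m m' : Fin 3)
    (κ κ' : F × F) (hτ : τ' = τ ∨ τ' = τ + P.g) :
    outer y 0 x x' z (ed P y 0 x τ m κ) (ed P y 0 x τ' m' κ') := by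
  obtain ⟨k, k1, k2⟩ := patt_ex P y.b (P.hflat x x')
  have e1 : view (y.b.c 0) (y.b.c 1) (P.dec (τ + (k - τ))) = (x, x', x, x') := by
    rwa [add_sub_cancel]
  have e2 : view (y.b.c 0) (y.b.c 1) (P.dec (τ' + (k - τ))) = (x, x', x, x') := by
    rcases hτ with rfl | rfl
    · exact e1
    · rwa [show τ + P.g + (k - τ) = k + P.g by abel]
  refine ⟨rfl, rfl, show (0 : Fin 3) ≠ 2 by decide, show (0 : Fin 3) ≠ 2 by decide, rfl, rfl,
    ed_lab .., ed_lab .., fun e e' s1 s2 d1 d2 x1 x2 => ?_⟩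
  refine conn_e0 y (k - τ) x z _ ?_ e e' s1 s2 (not_not.1 d1) (not_not.1 d2) x1 x2
  intro n κ'' u u' _ _ d1 d2 x1 x2 a1 a2
  obtain ⟨b, d, q⟩ := adj_nobr (ed P y 0 x τ m κ) (ed P y 1 x (k - τ) n κ'') rfl
    (show (0 : Fin 3) ≠ 1 by decide) (Mt01 e1) fun s h => Or.inl (br_unique h hb)
  obtain ⟨b', d', q'⟩ := adj_nobr (ed P y 0 x τ' m' κ') (ed P y 1 x (k - τ) n κ'') rfl
    (show (0 : Fin 3) ≠ 1 by decide) (Mt01 e2) fun s h => Or.inl (br_unique h hb)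
  have l := (q.labels rfl rfl).trans e1
  have l' := (q'.labels rfl rfl).trans e2
  simp only [Prod.mk.injEq] at l l'
  exact ⟨not_not.2 d1, not_not.2 d2, x1, x2, _, b, d, b', d', q, q',
    show (1 : Fin 3) ≠ 2 by decide, ed_lab .., l.2.1, l.2.2.2, l'.2.1, l'.2.2.2, a1, a2⟩

theorem outer1 {y : Vx S T F} (hb : br 1 y.b) (x x' z : Let S) (τ τ' : T) (m m' : Fin 3)
    (κ κ' : F × F) (hτ : τ' = τ ∨ τ' = τ + P.g) :
    outer y 1 x x' z (ed P y 1 x τ m κ) (ed P y 1 x τ' m' κ') := by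
  obtain ⟨k, k1, k2⟩ := patt_ex P y.b (P.hflat x x')
  have e1 : view (y.b.c 0) (y.b.c 1) (P.dec (k - τ + τ)) = (x, x', x, x') := by
    rwa [sub_add_cancel]
  have e2 : view (y.b.c 0) (y.b.c 1) (P.dec (k - τ + τ')) = (x, x', x, x') := by
    rcases hτ with rfl | rfl
    · exact e1
    · rwa [show k - τ + (τ + P.g) = k + P.g by abel]
  refine ⟨rfl, rfl, show (1 : Fin 3) ≠ 2 by decide, show (1 : Fin 3) ≠ 2 by decide, rfl, rfl,
    ed_lab .., ed_lab .., fun e e' s1 s2 d1 d2 x1 x2 => ?_⟩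
  refine conn_e1 y (k - τ) x z _ ?_ e e' s1 s2 (not_not.1 d1) (not_not.1 d2) x1 x2
  intro n κ'' u u' _ _ d1 d2 x1 x2 a1 a2
  obtain ⟨b, d, q⟩ := adj_nobr (ed P y 0 x (k - τ) n κ'') (ed P y 1 x τ m κ) rfl
    (show (0 : Fin 3) ≠ 1 by decide) (Mt01 e1) fun s h => Or.inr (br_unique h hb)
  obtain ⟨b', d', q'⟩ := adj_nobr (ed P y 0 x (k - τ) n κ'') (ed P y 1 x τ' m' κ') rfl
    (show (0 : Fin 3) ≠ 1 by decide) (Mt01 e2) fun s h => Or.inr (br_unique h hb)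
  have l := (q.labels rfl rfl).trans e1
  have l' := (q'.labels rfl rfl).trans e2
  simp only [Prod.mk.injEq] at l l'
  exact ⟨not_not.2 d1, not_not.2 d2, x1, x2, _, d, b, d', b', q.symm, q'.symm,
    show (0 : Fin 3) ≠ 2 by decide, ed_lab .., l.2.2.2, l.2.1, l'.2.2.2, l'.2.1, a1, a2⟩

def rank (y : Vx S T F) : ℕ := (y.b.c 0).toNat + 2 * (y.b.c 1).toNat + 4 * (y.b.c 2).toNat

omit [AddCommGroup T] in
theorem rank_inj {y y' : Vx S T F} (h : rank y = rank y') (i : Fin 3) : y.b.c i = y'.b.c i := by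
  unfold rank at h
  have : y.b.c 0 = y'.b.c 0 ∧ y.b.c 1 = y'.b.c 1 ∧ y.b.c 2 = y'.b.c 2 := by
    revert h
    cases y.b.c 0 <;> cases y.b.c 1 <;> cases y.b.c 2 <;> cases y'.b.c 0 <;> cases y'.b.c 1 <;>
      cases y'.b.c 2 <;> simp
  fin_cases i
  · exact this.1
  · exact this.2.1
  · exact this.2.2

theorem left_cases {a c : Eg P} (h : a.dir ≠ c.dir) (h1 : a.dir ≠ 2) (h2 : c.dir ≠ 2) :
    (a.dir = 0 ∧ c.dir = 1) ∨ (a.dir = 1 ∧ c.dir = 0) := by omega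

/-- the labelling -/
def labs (P : Par S T F R) : Lab (sys P) (Vx S T F) S R where
  src := Eg.src
  lft := fun e => e.dir ≠ 2
  lab := Eg.lab
  rank := rank
  lft_inv := fun _ => Iff.rfl
  lab_inv := fun e => by
    show P.lb e.tgt.b e.dir e.nm = _
    rw [e.ed.1, P.lb_self]
    rfl
  sq_src := fun h => ⟨Sq.sc h, Sq.sb h⟩
  sq_rank := fun {a b c d} h e => by
    have h : Sq a b c d := h
    have := rank_inj e a.dir
    change _ = b.tgt.b.c a.dir at this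
    rw [h.edb.1, P.c_ne _ _ h.ne, a.ed.1, P.c_self] at this
    simp at this
  sq_side := fun {a b c d} h => by
    have h : Sq a b c d := h
    have := h.ne
    rw [h.dd]
    exact ⟨Iff.rfl, by omega⟩
  sq_mixed := fun {a b c d} h hm => by
    have h : Sq a b c d := h
    have := h.ne
    rw [h.symm.lab_b, P.lb_mixed _ _ _ h.ne (by omega), h.sc]
    rfl
  sq_left := fun {a b c d} h l1 l2 => by
    have h : Sq a b c d := h
    rcases left_cases h.ne l1 l2 with ⟨h0, h1⟩ | ⟨h1, h0⟩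
    · rw [h.labels h0 h1]
      exact P.view_mem _ _ (P.dec_mem _)
    · refine P.hsymm _ _ _ _ ?_
      rw [h.symm.labels h0 h1]
      exact P.view_mem _ _ (P.dec_mem _)
  ex_left := fun y x => ⟨ed P y 0 x 0 0 0, rfl, show (0 : Fin 3) ≠ 2 by decide, ed_lab ..⟩
  ex_adj := fun a z l => by
    obtain ⟨κ, h⟩ := exists_adj a l (μ := P.nmFor a.src.b 2 0 0 z) (Mt_two (Or.inr rfl))
    exact ⟨_, not_not.2 rfl, ed_lab .., h⟩
  ex_cube := fun a c z l1 l2 ⟨b, d, h⟩ => by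
    have h : Sq a b c d := h
    by_cases hb : br a.dir a.src.b
    · obtain ⟨κ, q⟩ := exists_adj c l2 (μ := P.nmFor c.src.b 2 0 0 z) (Mt_two (Or.inr rfl))
      exact ⟨_, not_not.2 rfl, ed_lab .., adj_nobr a _ h.sc l1 (Mt_two (Or.inr rfl))
        fun s hs => Or.inl (br_unique hs hb), q⟩
    · obtain ⟨κ, q⟩ := exists_adj a l1 (μ := P.nmFor a.src.b 2 0 0 z) (Mt_two (Or.inr rfl))
      refine ⟨_, not_not.2 rfl, ed_lab .., q, adj_nobr c _ h.sc.symm l2 (Mt_two (Or.inr rfl))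
        fun s hs => ?_⟩
      have h1 : s ≠ a.dir := fun e => hb (by rw [← e, ← h.sc]; exact hs)
      have := h.ne
      show s = c.dir ∨ s = 2
      omega
  ex_sq := fun y r hr => by
    obtain ⟨k, k1, -⟩ := patt_ex P y.b hr
    have k0 : view (y.b.c 0) (y.b.c 1) (P.dec (0 + k)) = r := by rwa [zero_add]
    obtain ⟨κ, b, d, q⟩ := exists_adj (ed P y 0 r.1 0 0 0) (j := 1)
      (show (0 : Fin 3) ≠ 1 by decide) (Mt01 (m' := 0) k0)
    exact ⟨_, b, _, d, q, rfl, show (0 : Fin 3) ≠ 2 by decide, show (1 : Fin 3) ≠ 2 by decide,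
      (q.labels rfl rfl).trans k0⟩
  conn_left := conn_left
  conn_right := conn_right
  apex := fun y => by
    by_cases h0 : br 0 y.b
    · refine Or.inr ⟨fun u => u.dir = 0, fun u e s1 s2 l p r => ?_, fun a c _ l1 l2 q => ?_,
        fun x x' z u u' s1 s2 _ _ p1 p2 x1 x2 =>
          outer_conn y 0 x x' z (outer0 h0 x x' z) u u' s1 s2 p1 p2 x1 x2⟩
      · exact adj_nobr u e (s2.trans s1.symm) (by omega) (Mt_two (Or.inr (not_not.1 r)))
          fun s hs => Or.inl ((br_unique (s1 ▸ hs) h0).trans p.symm)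
      · obtain ⟨b, d, q⟩ := q
        have := Sq.ne q
        omega
    by_cases h1 : br 1 y.b
    · refine Or.inr ⟨fun u => u.dir = 1, fun u e s1 s2 l p r => ?_, fun a c _ l1 l2 q => ?_,
        fun x x' z u u' s1 s2 _ _ p1 p2 x1 x2 =>
          outer_conn y 1 x x' z (outer1 h1 x x' z) u u' s1 s2 p1 p2 x1 x2⟩
      · exact adj_nobr u e (s2.trans s1.symm) (by omega) (Mt_two (Or.inr (not_not.1 r)))
          fun s hs => Or.inl ((br_unique (s1 ▸ hs) h1).trans p.symm)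
      · obtain ⟨b, d, q⟩ := q
        have := Sq.ne q
        omega
    refine Or.inl fun a e s1 s2 l r => adj_nobr a e (s2.trans s1.symm) (by omega)
      (Mt_two (Or.inr (not_not.1 r))) fun s hs => ?_
    rw [s1] at hs
    have n0 : s ≠ 0 := fun e => h0 (e ▸ hs)
    have n1 : s ≠ 1 := fun e => h1 (e ▸ hs)
    omega
  ex_flat := fun a x' l => by
    obtain ⟨k, k1, -⟩ := patt_ex P a.src.b (P.hflat a.lab x')
    rcases (by omega : a.dir = 0 ∨ a.dir = 1) with h | h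
    · obtain ⟨τ, m, κ, e⟩ := eq_ed a rfl h rfl
      generalize a.src = y at e k1
      generalize a.lab = x at e k1
      subst e
      have e1 : view (y.b.c 0) (y.b.c 1) (P.dec (τ + (k - τ))) = (x, x', x, x') := by
        rwa [add_sub_cancel]
      obtain ⟨κ', b, d, q⟩ := exists_adj (ed P y 0 x τ m κ) (j := 1)
        (show (0 : Fin 3) ≠ 1 by decide) (Mt01 (m' := 0) e1)
      have lb := (q.labels rfl rfl).trans e1
      simp only [Prod.mk.injEq] at lb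
      exact ⟨b, _, d, q, show (1 : Fin 3) ≠ 2 by decide, lb.2.2.1, lb.2.1, lb.2.2.2⟩
    · obtain ⟨τ, m, κ, e⟩ := eq_ed a rfl h rfl
      generalize a.src = y at e k1
      generalize a.lab = x at e k1
      subst e
      have e1 : view (y.b.c 0) (y.b.c 1) (P.dec (k - τ + τ)) = (x, x', x, x') := by
        rwa [sub_add_cancel]
      obtain ⟨κ', b, d, q⟩ := exists_adj (ed P y 1 x τ m κ) (j := 0)
        (show (1 : Fin 3) ≠ 0 by decide) (P.Mt_symm (Mt01 (m := 0) e1))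
      have lb := (q.symm.labels rfl rfl).trans e1
      simp only [Prod.mk.injEq] at lb
      exact ⟨b, _, d, q, show (0 : Fin 3) ≠ 2 by decide, lb.1, lb.2.2.2, lb.2.1⟩

end

end Cx

end Pool.Agent.Lib.MP_28a49a_al
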