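import Pool.Agent.Lib.MP_28a49a_al.CxGrid
import Pool.Agent.Lib.MP_28a49a_al.CxLab

/-! Block D, part 5: the VH quotient, the parameters and the final statement. -/

namespace Pool.Agent.Lib.MP_28a49a_al

namespace Cx

noncomputable section

variable {S T F : Type} [AddCommGroup T] [Field F] {R : Set (Tup S)}

/-- edges of the VH quotient -/
@[ext]
structure E1 (S T : Type) where
  v : Bool
  c0 : Bool
  c1 : Bool
  τ : T
  x : Let S

def E1.inv (a : E1 S T) : E1 S T :=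
  ⟨a.v, if a.v then a.c0 else !a.c0, if a.v then !a.c1 else a.c1, a.τ, bar a.x⟩

structure HV (P : Par S T F R) (a b c d : E1 S T) : Prop where
  av : a.v = false
  bv : b.v = true
  cv : c.v = true
  dv : d.v = false
  c0 : c.c0 = a.c0
  c1 : c.c1 = a.c1
  b0 : b.c0 = !a.c0
  b1 : b.c1 = a.c1
  d0 : d.c0 = a.c0
  d1 : d.c1 = !a.c1
  dt : d.τ = a.τ
  bt : b.τ = c.τ
  lb : (a.x, b.x, c.x, d.x) = view a.c0 a.c1 (P.dec (a.τ + c.τ))

variable {P : Par S T F R}

theorem view_not0 (x y : Bool) (w : Tup S) : view (!x) y w = view true false (view x y w) := by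
  cases x <;> cases y <;> simp [view, bar_bar]

theorem view_not1 (x y : Bool) (w : Tup S) : view x (!y) w = view false true (view x y w) := by
  cases x <;> cases y <;> simp [view, bar_bar]

theorem HV.rot {a b c d : E1 S T} (h : HV P a b c d) : HV P a.inv c b d.inv := by
  refine ⟨h.av, h.cv, h.bv, h.dv, ?_, ?_, ?_, ?_, ?_, ?_, h.dt, h.bt.symm, ?_⟩ <;>
    simp only [E1.inv, h.av, h.dv, h.c0, h.c1, h.b0, h.b1, h.d0, h.d1, h.bt, Bool.false_eq_true,
      if_false, Bool.not_not]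
  rw [view_not0, ← h.lb]
  rfl

theorem HV.rot' {a b c d : E1 S T} (h : HV P c d a b) : HV P b d.inv a.inv c := by
  refine ⟨h.dv, h.bv, h.cv, h.av, ?_, ?_, ?_, ?_, ?_, ?_, h.dt.symm, h.bt, ?_⟩ <;>
    simp only [E1.inv, h.bv, h.cv, h.c0, h.c1, h.b0, h.b1, h.d0, h.d1, h.dt, if_true,
      Bool.not_not]
  rw [view_not1, ← h.lb]
  rfl

theorem HV.uniq {a b c d b' d' : E1 S T} (h : HV P a b c d) (h' : HV P a b' c d') :
    b = b' ∧ d = d' := by
  have := h.lb.trans h'.lb.symm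
  simp only [Prod.mk.injEq, true_and] at this
  exact ⟨E1.ext (h.bv.trans h'.bv.symm) (h.b0.trans h'.b0.symm) (h.b1.trans h'.b1.symm)
      (h.bt.trans h'.bt.symm) this.1,
    E1.ext (h.dv.trans h'.dv.symm) (h.d0.trans h'.d0.symm) (h.d1.trans h'.d1.symm)
      (h.dt.trans h'.dt.symm) this.2⟩

def pr (e : Eg P) : E1 S T := ⟨decide (e.dir = 1), e.src.b.c 0, e.src.b.c 1, e.nm.1, e.lab⟩

theorem pr_HV {a b c d : Eg P} (h : Sq a b c d) (h0 : a.dir = 0) (h1 : c.dir = 1) :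
    HV P (pr a) (pr b) (pr c) (pr d) := by
  have eb : b.src.b = P.mv a.src.b 0 a.nm := by rw [h.sb, a.ed.1, h0]
  have ed : d.src.b = P.mv a.src.b 1 c.nm := by rw [h.sd, c.ed.1, h1, h.sc]
  refine ⟨?_, ?_, ?_, ?_, ?_, ?_, ?_, ?_, ?_, ?_, ?_, ?_, h.labels h0 h1⟩ <;>
    simp [pr, h0, h1, h.bd, h.dd, h.sc, h.dn, h.bn, eb, ed, Par.c_self, Par.c_ne]

/-- the VH quotient -/
def vh (P : Par S T F R) : VHData (labs P) (E1 S T) where
  inv := E1.inv
  inv_inv := fun e => by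
    obtain ⟨v, c0, c1, τ, x⟩ := e
    cases v <;> simp [E1.inv, bar_bar]
  vert := fun e => e.v = true
  vert_inv := fun _ => Iff.rfl
  T := fun a b c d => HV P a b c d ∨ HV P c d a b
  symm := fun h => h.symm
  rot := fun h => h.imp HV.rot HV.rot'
  uniq := fun h h' => by
    rcases h with h | h <;> rcases h' with h' | h'
    · exact h.uniq h'
    · exact absurd (h.av.symm.trans h'.cv) (by simp)
    · exact absurd (h'.av.symm.trans h.cv) (by simp)
    · exact (h.uniq h').symm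
  vh := fun h => by
    rcases h with h | h <;> simp [h.av, h.cv]
  lab := E1.x
  lab_inv := fun _ => rfl
  sq_lab := fun h => by
    rcases h with h | h
    · rw [h.lb]
      exact P.view_mem _ _ (P.dec_mem _)
    · refine P.hsymm _ _ _ _ ?_
      rw [h.lb]
      exact P.view_mem _ _ (P.dec_mem _)
  pr := pr
  pr_inv := fun e l => by
    have l : e.dir ≠ 2 := l
    have hl : e.inv.lab = bar e.lab := (labs P).lab_inv e
    have et := e.ed.1
    show pr e.inv = _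
    rcases (by omega : e.dir = 0 ∨ e.dir = 1) with h | h <;> rw [h] at et <;>
      refine E1.ext ?_ ?_ ?_ rfl hl <;>
      simp [pr, E1.inv, Eg.inv, h, et, Par.c_self, Par.c_ne]
  pr_lab := fun _ _ => rfl
  pr_sq := fun {a b c d} h l1 l2 => by
    have h : Sq a b c d := h
    rcases left_cases h.ne l1 l2 with ⟨h0, h1⟩ | ⟨h1, h0⟩
    · exact Or.inl (pr_HV h h0 h1)
    · exact Or.inr (pr_HV h.symm h0 h1)
  pr_mixed := fun {a b c d} h l1 l2 => by
    have hl : d.lab = a.lab := (labs P).sq_mixed h (fun e => l2 (e.1 l1))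
    have h : Sq a b c d := h
    have h2 : c.dir = 2 := not_not.1 l2
    have ed : d.src.b = P.mv a.src.b 2 c.nm := by rw [h.sd, c.ed.1, h2, h.sc]
    refine E1.ext ?_ ?_ ?_ ?_ hl <;> simp [pr, h.dd, h.dn, ed, Par.c_ne]

theorem vh_nd (P : Par S T F R) (a b : E1 S T) :
    ¬ (vh P).T a b ((vh P).inv b) ((vh P).inv a) := by
  rintro (h | h)
  · have h1 := h.c0
    simp [vh, E1.inv, h.bv, h.b0] at h1
  · have h1 := h.d1
    simp [vh, E1.inv, h.dv] at h1

end

theorem exists_dec {α : Type} [Finite α] (R : Set α) (hR : R.Nonempty) :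
    ∃ (N : ℕ) (_ : NeZero N) (dec : ZMod N → α), (∀ τ, dec τ ∈ R) ∧
      ∀ w ∈ R, ∃ k, dec k = w ∧ dec (k + 1) = w := by
  obtain ⟨m, ⟨e⟩⟩ := Finite.exists_equiv_fin R
  have hm : 0 < m := by
    obtain ⟨w, hw⟩ := hR
    exact (e ⟨w, hw⟩).pos
  have : NeZero (2 * m) := ⟨by omega⟩
  refine ⟨2 * m, inferInstance,
    fun k => (e.symm ⟨k.val / 2, by have := ZMod.val_lt k; omega⟩ : R), fun τ => Subtype.prop _,
    fun w hw => ?_⟩
  have h1 := (e ⟨w, hw⟩).isLt
  have key : ∀ k : ZMod (2 * m), k.val / 2 = (e ⟨w, hw⟩).val → ∀ h,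
      ((e.symm ⟨k.val / 2, h⟩ : R) : α) = w := by
    intro k hk h
    have : (⟨k.val / 2, h⟩ : Fin m) = e ⟨w, hw⟩ := Fin.ext hk
    rw [this, Equiv.symm_apply_apply]
  refine ⟨((2 * (e ⟨w, hw⟩).val : ℕ) : ZMod (2 * m)), key _ ?_ _, key _ ?_ _⟩
  · rw [ZMod.val_cast_of_lt (by omega)]
    omega
  · rw [← Nat.cast_succ, ZMod.val_cast_of_lt (by omega)]
    omega

theorem exists_field (α : Type) [Finite α] :
    ∃ (p : ℕ) (_ : Fact p.Prime) (f : α → ZMod p), Function.Injective f ∧ ∀ a, f a ≠ 0 := by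
  obtain ⟨m, ⟨e⟩⟩ := Finite.exists_equiv_fin α
  obtain ⟨p, hp, pp⟩ := Nat.exists_infinite_primes (m + 1)
  refine ⟨p, ⟨pp⟩, fun a => (((e a).val + 1 : ℕ) : ZMod p), fun a b h => ?_, fun a h => ?_⟩
  · have h1 := (e a).isLt
    have h2 := (e b).isLt
    have := congrArg ZMod.val h
    simp only at this
    rw [ZMod.val_cast_of_lt (by omega), ZMod.val_cast_of_lt (by omega)] at this
    exact e.injective (Fin.ext (by omega))
  · have h1 := (e a).isLt
    have := congrArg ZMod.val h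
    rw [ZMod.val_cast_of_lt (by omega), ZMod.val_zero] at this
    omega

end Cx

theorem exists_complex_nd (S : Type) [Finite S] [Nonempty S] (R : Set (Tup S))
    (hsymm : ∀ A B C D, (A, B, C, D) ∈ R → (C, D, A, B) ∈ R)
    (hrot : ∀ A B C D, (A, B, C, D) ∈ R → (bar A, C, B, bar D) ∈ R)
    (hflat : ∀ x x', (x, x', x, x') ∈ R) :
    ∃ (E V E1 : Type) (_ : Finite E) (_ : Finite V) (_ : Nonempty V) (X : SqSys E)
      (L : Lab X V S R) (vh : VHData L E1) (k : ℕ),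
      X.NoGrid k ∧ ∀ a b, ¬ vh.T a b (vh.inv b) (vh.inv a) := by
  obtain ⟨x⟩ : Nonempty (Let S) := inferInstance
  obtain ⟨N, _, dec, h1, h2⟩ := Cx.exists_dec R ⟨_, hflat x x⟩
  obtain ⟨p, _, f, f1, f2⟩ := Cx.exists_field (Cx.Nm S (ZMod N) × Cx.Pm S (ZMod N))
  let P : Cx.Par S (ZMod N) (ZMod p) R :=
    { dec := dec
      g := 1
      n := fun ν => f (ν, 1)
      ph := f
      dec_mem := h1
      dec_ex := h2
      gen := fun τ => ⟨τ.val, by simp⟩
      n_inj := fun a b h => congrArg Prod.fst (f1 h)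
      ph_inj := f1
      ph_ne := f2
      prime := fun x => ⟨x.val, by simp⟩
      hsymm := hsymm
      hrot := hrot
      hflat := hflat }
  exact ⟨Cx.Eg P, Cx.Vx S (ZMod N) (ZMod p), Cx.E1 S (ZMod N), inferInstance, inferInstance,
    ⟨⟨⟨fun _ => false, 1, 1, 0, 0, 0⟩, 0, fun _ _ => rfl⟩⟩, Cx.sys P, Cx.labs P, Cx.vh P, 10,
    Cx.noGrid P, Cx.vh_nd P⟩

theorem exists_complex (S : Type) [Finite S] [Nonempty S] (R : Set (Tup S))
    (hsymm : ∀ A B C D, (A, B, C, D) ∈ R → (C, D, A, B) ∈ R)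
    (hrot : ∀ A B C D, (A, B, C, D) ∈ R → (bar A, C, B, bar D) ∈ R)
    (hflat : ∀ x x', (x, x', x, x') ∈ R) :
    ∃ (E V E1 : Type) (_ : Finite E) (_ : Finite V) (_ : Nonempty V) (X : SqSys E)
      (L : Lab X V S R) (_ : VHData L E1) (k : ℕ), X.NoGrid k := by
  obtain ⟨E, V, E1, h1, h2, h3, X, L, vh, k, h, -⟩ := exists_complex_nd S R hsymm hrot hflat
  exact ⟨E, V, E1, h1, h2, h3, X, L, vh, k, h⟩

end Pool.Agent.Lib.MP_28a49a_al
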