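import Pool.Agent.Lib.MP_28a49a_al.FourPoint

namespace Pool.Agent.Lib.MP_28a49a_al

/-- positions of height at most one -/
def cp {S : Type} : Option (Let S) → FreeGroup S
  | none => 1
  | some x => fl x

namespace Lab
variable {E V S : Type} {X : SqSys E} {R : Set (Tup S)} (L : Lab X V S R)

def tgt (e : E) : V := L.src (X.inv e)

open Classical in
/-- the position reached from position `f` along the edge `e` -/
noncomputable def pos (f : FreeGroup S) (e : E) : FreeGroup S :=
  if L.lft e then (fl (L.lab e))⁻¹ * f else f * fl (L.lab e)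

/-- the square system of the ambient hyperbolic group -/
abbrev Xp (_ : Lab X V S R) : SqSys (E ⊕ (V × Option (Let S)) × Bool) :=
  X.addFree (V × Option (Let S))

def tt (y : V) (o : Option (Let S)) : L.Xp.G := L.Xp.gen (Sum.inr ((y, o), true))

def ee (e : E) : L.Xp.G := L.Xp.gen (Sum.inl e)

/-- edges of the core -/
def Core : Type := {p : Option (Let S) × E × Option (Let S) // L.pos (cp p.1) p.2.1 = cp p.2.2}

instance [Finite E] [Finite S] : Finite L.Core := by unfold Core; infer_instance

/-- generators of the finitely presented subgroup -/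
def eta (p : L.Core) : L.Xp.G :=
  L.tt (L.src p.1.2.1) p.1.1 * L.ee p.1.2.1 * (L.tt (L.tgt p.1.2.1) p.1.2.2)⁻¹

theorem ee_inv (e : E) : L.ee (X.inv e) = (L.ee e)⁻¹ := SqSys.gen_inv (X := L.Xp) (Sum.inl e)

theorem ee_sq {a b c d : E} (h : X.S a b c d) : L.ee a * L.ee b = L.ee c * L.ee d :=
  SqSys.gen_sq (X := L.Xp) ⟨a, b, c, d, h, rfl, rfl, rfl, rfl⟩

/-- universal property of the ambient group -/
noncomputable def liftP {H : Type} [Group H] (f : E → H) (g : V → Option (Let S) → H)
    (h1 : ∀ e, f e * f (X.inv e) = 1) (h2 : ∀ a b c d, X.S a b c d → f a * f b = f c * f d) :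
    L.Xp.G →* H :=
  SqSys.liftG (X := L.Xp)
    (Sum.elim f fun p => if p.2 then g p.1.1 p.1.2 else (g p.1.1 p.1.2)⁻¹)
    (by
      rintro (e | ⟨⟨y, o⟩, b⟩)
      · exact h1 e
      · cases b <;> simp [SqSys.addFree])
    (by
      rintro _ _ _ _ ⟨a, b, c, d, h, rfl, rfl, rfl, rfl⟩
      exact h2 a b c d h)

@[simp] theorem liftP_ee {H : Type} [Group H] (f : E → H) (g : V → Option (Let S) → H)
    (h1 : ∀ e, f e * f (X.inv e) = 1) (h2 : ∀ a b c d, X.S a b c d → f a * f b = f c * f d)
    (e : E) : L.liftP f g h1 h2 (L.ee e) = f e := SqSys.liftG_gen _ _ _ _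

@[simp] theorem liftP_tt {H : Type} [Group H] (f : E → H) (g : V → Option (Let S) → H)
    (h1 : ∀ e, f e * f (X.inv e) = 1) (h2 : ∀ a b c d, X.S a b c d → f a * f b = f c * f d)
    (y : V) (o : Option (Let S)) : L.liftP f g h1 h2 (L.tt y o) = g y o := SqSys.liftG_gen _ _ _ _

end Lab

theorem bar_bar {S : Type} (x : Let S) : bar (bar x) = x := by simp [bar]

theorem fl_bar {S : Type} (x : Let S) : fl (bar x) = (fl x)⁻¹ := by
  simp [fl, bar, FreeGroup.inv_mk, FreeGroup.invRev]

end Pool.Agent.Lib.MP_28a49a_al
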