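import Pool.Agent.Lib.MP_28a49a_al.Defs

/-! Block D, part 1: the unbranched base complex (states and moves). -/

namespace Pool.Agent.Lib.MP_28a49a_al

namespace Cx

theorem bar_bar {S : Type} (x : Let S) : bar (bar x) = x := by
  obtain ⟨a, b⟩ := x
  simp [bar]

theorem bar_inj {S : Type} {x y : Let S} (h : bar x = bar y) : x = y := by
  rw [← bar_bar x, h, bar_bar]

open Classical

noncomputable section

abbrev Nm (S T : Type) := T × Fin 3 × Let S

abbrev Pm (S T : Type) := T → Equiv.Perm (Let S)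

/-- the parameters of the construction -/
structure Par (S T F : Type) [AddCommGroup T] [Field F] (R : Set (Tup S)) where
  dec : T → Tup S
  g : T
  n : Nm S T → F
  ph : Nm S T × Pm S T → F
  dec_mem : ∀ τ, dec τ ∈ R
  dec_ex : ∀ w ∈ R, ∃ k, dec k = w ∧ dec (k + g) = w
  gen : ∀ τ : T, ∃ m : ℕ, τ = m • g
  n_inj : Function.Injective n
  ph_inj : Function.Injective ph
  ph_ne : ∀ q, ph q ≠ 0
  prime : ∀ x : F, ∃ m : ℕ, x = m
  hsymm : ∀ A B C D, (A, B, C, D) ∈ R → (C, D, A, B) ∈ R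
  hrot : ∀ A B C D, (A, B, C, D) ∈ R → (bar A, C, B, bar D) ∈ R
  hflat : ∀ x x', (x, x', x, x') ∈ R

/-- states of the base complex -/
@[ext]
structure St (S T F : Type) where
  c : Fin 3 → Bool
  p1 : Pm S T
  p2 : Pm S T
  xi : Fin 3 → F
  f : Fin 3 → F
  z : (T × Let S) × Pm S T → F

instance {S T F : Type} [Finite S] [Finite T] [Finite F] : Finite (St S T F) :=
  Finite.of_injective (fun b : St S T F => (b.c, b.p1, b.p2, b.xi, b.f, b.z)) (by
    intro a b h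
    simp only [Prod.mk.injEq] at h
    obtain ⟨h1, h2, h3, h4, h5, h6⟩ := h
    exact St.ext h1 h2 h3 h4 h5 h6)

def sg (F : Type) [Field F] (x : Bool) : F := if x then -1 else 1

theorem sg_not {F : Type} [Field F] (x : Bool) : sg F (!x) = - sg F x := by
  cases x <;> simp [sg]

theorem sg_ne {F : Type} [Field F] (x : Bool) : sg F x ≠ 0 := by
  cases x <;> simp [sg]

@[simp] theorem sg_true {F : Type} [Field F] : sg F true = -1 := rfl

@[simp] theorem sg_false {F : Type} [Field F] : sg F false = 1 := rfl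

/-- a pattern seen from another corner of its square -/
def view {S : Type} : Bool → Bool → Tup S → Tup S
  | false, false, w => w
  | true, false, w => (bar w.1, w.2.2.1, w.2.1, bar w.2.2.2)
  | false, true, w => (w.2.2.2, bar w.2.1, bar w.2.2.1, w.1)
  | true, true, w => (bar w.2.2.2, bar w.2.2.1, bar w.2.1, bar w.1)

theorem view_view {S : Type} (x y : Bool) (w : Tup S) : view x y (view x y w) = w := by
  cases x <;> cases y <;> simp [view, bar_bar]

variable {S T F : Type} [AddCommGroup T] [Field F] {R : Set (Tup S)} (P : Par S T F R)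

namespace Par

include P in
theorem view_mem (x y : Bool) {w : Tup S} (h : w ∈ R) : view x y w ∈ R := by
  obtain ⟨A, B, C, D⟩ := w
  have h2 : (D, bar B, bar C, A) ∈ R := P.hsymm _ _ _ _ (P.hrot _ _ _ _ (P.hsymm _ _ _ _ h))
  cases x <;> cases y
  · exact h
  · exact h2
  · exact P.hrot _ _ _ _ h
  · exact P.hrot _ _ _ _ h2

def tw1 (τ1 : T) (Q : Pm S T) : Pm S T :=
  fun τ0 => Equiv.swap (P.dec (τ0 + τ1)).1 (P.dec (τ0 + τ1)).2.2.2 * Q τ0

def tw2 (τ0 : T) (Q : Pm S T) : Pm S T :=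
  fun τ1 => Equiv.swap (P.dec (τ0 + τ1)).2.2.1 (P.dec (τ0 + τ1)).2.1 * Q τ1

theorem tw1_tw1 (τ : T) (Q : Pm S T) : P.tw1 τ (P.tw1 τ Q) = Q := by
  funext τ0
  simp [tw1, Equiv.swap_mul_self_mul]

theorem tw2_tw2 (τ : T) (Q : Pm S T) : P.tw2 τ (P.tw2 τ Q) = Q := by
  funext τ0
  simp [tw2, Equiv.swap_mul_self_mul]

def low1 (b : St S T F) (τ : T) : Pm S T := if b.c 1 then P.tw1 τ b.p1 else b.p1

def low2 (b : St S T F) (τ : T) : Pm S T := if b.c 0 then P.tw2 τ b.p2 else b.p2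

def mt (q : (T × Let S) × Pm S T) (ν : Nm S T) (Q : Pm S T) : Prop :=
  q.2 ν.1 ν.2.2 = (P.dec (ν.1 + q.1.1)).1 ∧ Q q.1.1 q.1.2 = (P.dec (ν.1 + q.1.1)).2.2.1

def wt (q : (T × Let S) × Pm S T) (ν : Nm S T) (Q : Pm S T) : F :=
  if P.mt q ν Q then 0 else P.ph (ν, Q)

def n' (_P : Par S T F R) (ν : Nm S T) : F := if ν.2.1 = 2 then 1 else 0

def ex (b : St S T F) (i : Fin 3) (ν : Nm S T) : F :=
  if i = 1 then b.z ((ν.1, ν.2.2), P.low1 b ν.1) else 0

def mv (b : St S T F) (i : Fin 3) (ν : Nm S T) : St S T F where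
  c := Function.update b.c i (!b.c i)
  p1 := if i = 1 then P.tw1 ν.1 b.p1 else b.p1
  p2 := if i = 0 then P.tw2 ν.1 b.p2 else b.p2
  xi := Function.update b.xi i (b.xi i + sg F (b.c i) * P.n ν)
  f := Function.update b.f i (b.f i + sg F (b.c i) * (P.n' ν + P.ex b i ν))
  z := if i = 0 then fun q => b.z q + sg F (b.c 0) * P.wt q ν (P.low2 b ν.1) else b.z

variable (b : St S T F) (i j : Fin 3) (ν μ : Nm S T)

theorem c_self : (P.mv b i ν).c i = !b.c i := by simp [mv]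

theorem c_ne {i j : Fin 3} (h : j ≠ i) : (P.mv b i ν).c j = b.c j := by simp [mv, h]

theorem xi_self : (P.mv b i ν).xi i = b.xi i + sg F (b.c i) * P.n ν := by simp [mv]

theorem xi_ne {i j : Fin 3} (h : j ≠ i) : (P.mv b i ν).xi j = b.xi j := by simp [mv, h]

theorem f_self : (P.mv b i ν).f i = b.f i + sg F (b.c i) * (P.n' ν + P.ex b i ν) := by simp [mv]

theorem f_ne {i j : Fin 3} (h : j ≠ i) : (P.mv b i ν).f j = b.f j := by simp [mv, h]

theorem p1_one : (P.mv b 1 ν).p1 = P.tw1 ν.1 b.p1 := by simp [mv]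

theorem p1_ne {i : Fin 3} (h : i ≠ 1) : (P.mv b i ν).p1 = b.p1 := by simp [mv, h]

theorem p2_zero : (P.mv b 0 ν).p2 = P.tw2 ν.1 b.p2 := by simp [mv]

theorem p2_ne {i : Fin 3} (h : i ≠ 0) : (P.mv b i ν).p2 = b.p2 := by simp [mv, h]

theorem z_zero (q) :
    (P.mv b 0 ν).z q = b.z q + sg F (b.c 0) * P.wt q ν (P.low2 b ν.1) := by simp [mv]

theorem z_ne {i : Fin 3} (h : i ≠ 0) : (P.mv b i ν).z = b.z := by simp [mv, h]

theorem low1_one : P.low1 (P.mv b 1 ν) ν.1 = P.low1 b ν.1 := by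
  unfold low1
  rw [c_self, p1_one]
  cases b.c 1 <;> simp [tw1_tw1]

theorem low1_ne {i : Fin 3} (h : i ≠ 1) (τ : T) : P.low1 (P.mv b i ν) τ = P.low1 b τ := by
  unfold low1
  rw [P.c_ne b ν h.symm, P.p1_ne b ν h]

theorem low2_zero : P.low2 (P.mv b 0 ν) ν.1 = P.low2 b ν.1 := by
  unfold low2
  rw [c_self, p2_zero]
  cases b.c 0 <;> simp [tw2_tw2]

theorem low2_ne {i : Fin 3} (h : i ≠ 0) (τ : T) : P.low2 (P.mv b i ν) τ = P.low2 b τ := by
  unfold low2
  rw [P.c_ne b ν h.symm, P.p2_ne b ν h]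

theorem ex_self : P.ex (P.mv b i ν) i ν = P.ex b i ν := by
  unfold ex
  split_ifs with h
  · subst h
    rw [low1_one, P.z_ne b ν (by decide)]
  · rfl

theorem mv_mv : P.mv (P.mv b i ν) i ν = b := by
  apply St.ext
  · funext j
    by_cases h : j = i
    · subst h
      simp [c_self]
    · rw [P.c_ne _ _ h, P.c_ne _ _ h]
  · by_cases h : i = 1
    · subst h
      rw [p1_one, p1_one, tw1_tw1]
    · rw [P.p1_ne _ _ h, P.p1_ne _ _ h]
  · by_cases h : i = 0
    · subst h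
      rw [p2_zero, p2_zero, tw2_tw2]
    · rw [P.p2_ne _ _ h, P.p2_ne _ _ h]
  · funext j
    by_cases h : j = i
    · subst h
      rw [xi_self, xi_self, c_self, sg_not]
      ring
    · rw [P.xi_ne _ _ h, P.xi_ne _ _ h]
  · funext j
    by_cases h : j = i
    · subst h
      rw [f_self, f_self, c_self, sg_not, ex_self]
      ring
    · rw [P.f_ne _ _ h, P.f_ne _ _ h]
  · by_cases h : i = 0
    · subst h
      funext q
      rw [z_zero, z_zero, c_self, sg_not, low2_zero]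
      ring
    · rw [P.z_ne _ _ h, P.z_ne _ _ h]

/-- a direction `0` name and a direction `1` name match at the corner `b` -/
def M (b : St S T F) (ν μ : Nm S T) : Prop :=
  P.mt ((μ.1, μ.2.2), P.low1 b μ.1) ν (P.low2 b ν.1)

theorem M_zero : P.M (P.mv b 0 ν) ν μ ↔ P.M b ν μ := by
  unfold M
  rw [low2_zero, P.low1_ne b ν (by decide)]

theorem M_one : P.M (P.mv b 1 μ) ν μ ↔ P.M b ν μ := by
  unfold M
  rw [low1_one, P.low2_ne b μ (by decide)]

theorem M_two (l : Nm S T) : P.M (P.mv b 2 l) ν μ ↔ P.M b ν μ := by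
  unfold M
  rw [P.low1_ne b l (by decide), P.low2_ne b l (by decide)]

def Mt (b : St S T F) (i : Fin 3) (ν : Nm S T) (j : Fin 3) (μ : Nm S T) : Prop :=
  (i = 0 → j = 1 → P.M b ν μ) ∧ (i = 1 → j = 0 → P.M b μ ν)

theorem Mt_symm {b : St S T F} {i j : Fin 3} {ν μ : Nm S T} (h : P.Mt b i ν j μ) :
    P.Mt b j μ i ν :=
  ⟨fun h1 h2 => h.2 h2 h1, fun h1 h2 => h.1 h2 h1⟩

theorem Mt_rot {b : St S T F} {i j : Fin 3} {ν μ : Nm S T} (h : P.Mt b i ν j μ) :
    P.Mt (P.mv b i ν) i ν j μ := by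
  refine ⟨fun h1 h2 => ?_, fun h1 h2 => ?_⟩
  · subst h1
    exact (P.M_zero b ν μ).2 (h.1 rfl h2)
  · subst h1
    exact (P.M_one b μ ν).2 (h.2 rfl h2)

theorem Mt_third {b : St S T F} {i j : Fin 3} {ν μ : Nm S T} (h : P.Mt b i ν j μ) {l : Fin 3}
    (lam : Nm S T) (h1 : l ≠ i) (h2 : l ≠ j) : P.Mt (P.mv b l lam) i ν j μ := by
  refine ⟨fun e1 e2 => ?_, fun e1 e2 => ?_⟩
  · subst e1 e2
    obtain rfl : l = 2 := by omega
    exact (P.M_two b ν μ lam).2 (h.1 rfl rfl)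
  · subst e1 e2
    obtain rfl : l = 2 := by omega
    exact (P.M_two b μ ν lam).2 (h.2 rfl rfl)

theorem ex_ne {b : St S T F} {i j : Fin 3} {ν μ : Nm S T} (hij : i ≠ j) (h : P.Mt b i ν j μ) :
    P.ex (P.mv b i ν) j μ = P.ex b j μ := by
  unfold ex
  split_ifs with hj
  · subst hj
    rw [P.low1_ne b ν hij]
    by_cases hi : i = 0
    · subst hi
      have := h.1 rfl rfl
      unfold M at this
      rw [z_zero, wt, if_pos this]
      ring
    · rw [P.z_ne b ν hi]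
  · rfl

theorem mv_comm {b : St S T F} {i j : Fin 3} {ν μ : Nm S T} (hij : i ≠ j) (h : P.Mt b i ν j μ) :
    P.mv (P.mv b i ν) j μ = P.mv (P.mv b j μ) i ν := by
  have hji := hij.symm
  apply St.ext
  · funext l
    by_cases h1 : l = i
    · subst h1
      rw [P.c_ne _ _ hij, c_self, c_self, P.c_ne _ _ hij]
    · by_cases h2 : l = j
      · subst h2
        rw [c_self, P.c_ne _ _ hji, P.c_ne _ _ hji, c_self]
      · rw [P.c_ne _ _ h2, P.c_ne _ _ h1, P.c_ne _ _ h1, P.c_ne _ _ h2]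
  · by_cases h1 : i = 1
    · subst h1
      rw [P.p1_ne _ _ hji, p1_one, p1_one, P.p1_ne _ _ hji]
    · by_cases h2 : j = 1
      · subst h2
        rw [p1_one, P.p1_ne _ _ h1, P.p1_ne _ _ h1, p1_one]
      · rw [P.p1_ne _ _ h2, P.p1_ne _ _ h1, P.p1_ne _ _ h1, P.p1_ne _ _ h2]
  · by_cases h1 : i = 0
    · subst h1
      rw [P.p2_ne _ _ hji, p2_zero, p2_zero, P.p2_ne _ _ hji]
    · by_cases h2 : j = 0
      · subst h2
        rw [p2_zero, P.p2_ne _ _ h1, P.p2_ne _ _ h1, p2_zero]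
      · rw [P.p2_ne _ _ h2, P.p2_ne _ _ h1, P.p2_ne _ _ h1, P.p2_ne _ _ h2]
  · funext l
    by_cases h1 : l = i
    · subst h1
      rw [P.xi_ne _ _ hij, xi_self, xi_self, P.c_ne _ _ hij, P.xi_ne _ _ hij]
    · by_cases h2 : l = j
      · subst h2
        rw [xi_self, P.xi_ne _ _ hji, P.xi_ne _ _ hji, xi_self, P.c_ne _ _ hji]
      · rw [P.xi_ne _ _ h2, P.xi_ne _ _ h1, P.xi_ne _ _ h1, P.xi_ne _ _ h2]
  · funext l
    by_cases h1 : l = i
    · subst h1
      rw [P.f_ne _ _ hij, f_self, f_self, P.c_ne _ _ hij, P.f_ne _ _ hij,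
        P.ex_ne hji (P.Mt_symm h)]
    · by_cases h2 : l = j
      · subst h2
        rw [f_self, P.f_ne _ _ hji, P.f_ne _ _ hji, f_self, P.c_ne _ _ hji, P.ex_ne hij h]
      · rw [P.f_ne _ _ h2, P.f_ne _ _ h1, P.f_ne _ _ h1, P.f_ne _ _ h2]
  · by_cases h1 : i = 0
    · subst h1
      funext q
      rw [P.z_ne _ _ hji, z_zero, z_zero, P.z_ne _ _ hji, P.c_ne _ _ hij, P.low2_ne _ _ hji]
    · by_cases h2 : j = 0
      · subst h2
        funext q
        rw [z_zero, P.z_ne _ _ h1, P.z_ne _ _ h1, z_zero, P.c_ne _ _ hji, P.low2_ne _ _ h1]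
      · rw [P.z_ne _ _ h2, P.z_ne _ _ h1, P.z_ne _ _ h1, P.z_ne _ _ h2]

/-- the permutation turning names into labels -/
def perm (_P : Par S T F R) (b : St S T F) (i : Fin 3) (τ : T) : Equiv.Perm (Let S) :=
  if i = 0 then b.p1 τ else if i = 1 then b.p2 τ else 1

def lb (b : St S T F) (i : Fin 3) (ν : Nm S T) : Let S :=
  if b.c i then bar (P.perm b i ν.1 ν.2.2) else P.perm b i ν.1 ν.2.2

theorem perm_self (τ : T) : P.perm (P.mv b i ν) i τ = P.perm b i τ := by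
  unfold perm
  split_ifs with h1 h2
  · rw [P.p1_ne b ν (by omega)]
  · rw [P.p2_ne b ν h1]
  · rfl

theorem lb_self : P.lb (P.mv b i ν) i ν = bar (P.lb b i ν) := by
  unfold lb
  rw [c_self, perm_self]
  cases b.c i <;> simp [bar_bar]

theorem lb_mixed {i j : Fin 3} (hij : i ≠ j) (h : i = 2 ∨ j = 2) :
    P.lb (P.mv b j μ) i ν = P.lb b i ν := by
  unfold lb
  rw [P.c_ne b μ hij]
  have : P.perm (P.mv b j μ) i ν.1 = P.perm b i ν.1 := by
    unfold perm
    split_ifs with h1 h2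
    · rw [P.p1_ne b μ (by omega)]
    · rw [P.p2_ne b μ (by omega)]
    · rfl
  rw [this]

theorem swap_iff (x a d : Let S) : Equiv.swap a d x = a ↔ x = d := by
  rw [Equiv.swap_apply_eq_iff, Equiv.swap_apply_left]

theorem M_iff : P.M b ν μ ↔ P.lb b 0 ν = (view (b.c 0) (b.c 1) (P.dec (ν.1 + μ.1))).1 ∧
    P.lb b 1 μ = (view (b.c 0) (b.c 1) (P.dec (ν.1 + μ.1))).2.2.1 := by
  unfold M mt lb low1 low2 perm
  cases b.c 0 <;> cases b.c 1 <;>
    simp [view, tw1, tw2, swap_iff, (show Function.Injective (bar (S := S)) from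
      fun _ _ h => bar_inj h).eq_iff]

theorem M_labels (h : P.M b ν μ) :
    (P.lb b 0 ν, P.lb (P.mv b 0 ν) 1 μ, P.lb b 1 μ, P.lb (P.mv b 1 μ) 0 ν) =
      view (b.c 0) (b.c 1) (P.dec (ν.1 + μ.1)) := by
  have h0 := (P.M_iff b ν μ).1 h
  have h1 := ((P.M_iff _ ν μ).1 ((P.M_zero b ν μ).2 h)).2
  have h2 := ((P.M_iff _ ν μ).1 ((P.M_one b ν μ).2 h)).1
  rw [c_self, P.c_ne b ν (by decide)] at h1
  rw [c_self, P.c_ne b μ (by decide)] at h2
  rw [h0.1, h0.2, h1, h2]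
  cases b.c 0 <;> cases b.c 1 <;> simp [view]

/-- the name with given `τ`, `m` whose label is `x` -/
def nmFor (b : St S T F) (i : Fin 3) (τ : T) (m : Fin 3) (x : Let S) : Nm S T :=
  (τ, m, (P.perm b i τ).symm (if b.c i then bar x else x))

theorem lb_nmFor (τ : T) (m : Fin 3) (x : Let S) : P.lb b i (P.nmFor b i τ m x) = x := by
  unfold lb nmFor
  cases b.c i <;> simp [bar_bar]

theorem nmFor_lb : P.nmFor b i ν.1 ν.2.1 (P.lb b i ν) = ν := by
  obtain ⟨τ, m, x⟩ := ν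
  unfold lb nmFor
  cases b.c i <;> simp [bar_bar]

end Par

end

end Cx

end Pool.Agent.Lib.MP_28a49a_al
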