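import Pool.Agent.Lib.MP_28a49a_al.CxSq

/-! Block D, part 3: the branched cover contains no large geodesic grid. -/

namespace Pool.Agent.Lib.MP_28a49a_al

namespace Cx

section generic

variable {E : Type} (X : SqSys E)

theorem g_inv (e : E) : X.gen e * X.gen (X.inv e) = 1 := by
  have : PresentedGroup.mk X.rels (FreeGroup.of e * FreeGroup.of (X.inv e)) = 1 :=
    PresentedGroup.one_of_mem (Or.inl ⟨e, rfl⟩)
  rw [map_mul] at this
  exact this

theorem g_sq {a b c d : E} (h : X.S a b c d) : X.gen a * X.gen b = X.gen c * X.gen d := by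
  have : PresentedGroup.mk X.rels
      (FreeGroup.of a * FreeGroup.of b * (FreeGroup.of c * FreeGroup.of d)⁻¹) = 1 :=
    PresentedGroup.one_of_mem (Or.inr ⟨a, b, c, d, h, rfl⟩)
  rw [map_mul, map_inv, map_mul, map_mul, mul_inv_eq_one] at this
  exact this

theorem geo_sub {l1 l l2 : List E} (h : X.Geo (l1 ++ l ++ l2)) : X.Geo l := by
  intro l' e
  have := h (l1 ++ l' ++ l2) (by
    simp only [SqSys.ev, List.map_append, List.prod_append] at e ⊢
    rw [e])
  simp only [List.length_append] at this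
  omega

theorem geo_range {f : ℕ → E} {k : ℕ} (h : X.Geo ((List.range k).map f)) (j r : ℕ)
    (hj : j + r ≤ k) : X.Geo ((List.range r).map fun t => f (j + t)) := by
  obtain ⟨m, rfl⟩ := Nat.exists_eq_add_of_le hj
  rw [List.range_add, List.range_add, List.map_append, List.map_append, List.map_map] at h
  exact geo_sub X h

theorem geo2 {a : E} (h : X.Geo [a, X.inv a]) : False := by
  have := h [] (by simp [SqSys.ev, g_inv])
  simp at this

theorem geo3 {a g t g' : E} (h : X.Geo [a, g, t]) (s : X.S (X.inv a) g' g t) : False := by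
  have := h [g'] (by
    simp only [SqSys.ev, List.map_cons, List.map_nil, List.prod_cons, List.prod_nil, mul_one]
    rw [← g_sq X s, ← mul_assoc, g_inv, one_mul])
  simp at this

theorem geo4 {a g1 g2 t g1' a' g2' : E} (h : X.Geo [a, g1, g2, t]) (s : X.S (X.inv a) g1' g1 a')
    (s' : X.S a' g2' g2 t) : False := by
  have := h [g1', g2'] (by
    simp only [SqSys.ev, List.map_cons, List.map_nil, List.prod_cons, List.prod_nil, mul_one]
    rw [← g_sq X s', ← mul_assoc (X.gen g1), ← g_sq X s, mul_assoc, ← mul_assoc (X.gen a), g_inv,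
      one_mul])
  simp at this

end generic

theorem comb (Q cs cp : ℕ → Bool) (h1 : ∀ j < 9, cs (j + 1) = xor (cs j) (Q j))
    (h2 : ∀ j < 9, cp (j + 1) = xor (cp j) (!Q j))
    (c1 : ∀ j < 8, Q j = true → Q (j + 1) = true → cs (j + 1) = true → False)
    (c2 : ∀ j < 8, Q j = false → cp j = true → Q (j + 1) = false → False)
    (c3 : ∀ j < 7, Q j = false → cp j = true → Q (j + 1) = true → Q (j + 2) = false → False)
    (c4 : ∀ j < 6, Q j = false → cp j = true → Q (j + 1) = true → Q (j + 2) = true →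
      cs (j + 2) = false → Q (j + 3) = false → False) : False := by
  have n3 : ∀ j < 7, Q j = true → Q (j + 1) = true → Q (j + 2) = true → False := by
    intro j hj a b c
    have e := h1 (j + 1) (by omega)
    rw [b] at e
    cases h : cs (j + 1)
    · rw [h] at e
      exact c1 (j + 1) (by omega) b c (by simpa using e)
    · exact c1 j (by omega) a b h
  have key : ∀ j < 6, Q j = false → cp j = true → False := by
    intro j hj a b
    cases q1 : Q (j + 1)
    · exact c2 j (by omega) a b q1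
    cases q2 : Q (j + 2)
    · exact c3 j (by omega) a b q1 q2
    cases q3 : Q (j + 3)
    · cases h : cs (j + 2)
      · exact c4 j hj a b q1 q2 h q3
      · exact c1 (j + 1) (by omega) q1 q2 h
    · exact n3 (j + 1) (by omega) q1 q2 q3
  have nxt : ∀ j < 4, cp j = true → False := by
    intro j hj b
    cases q0 : Q j
    · exact key j (by omega) q0 b
    have b1 : cp (j + 1) = true := by rw [h2 j (by omega), q0, b]; rfl
    cases q1 : Q (j + 1)
    · exact key (j + 1) (by omega) q1 b1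
    have b2 : cp (j + 2) = true := by rw [h2 (j + 1) (by omega), q1, b1]; rfl
    cases q2 : Q (j + 2)
    · exact key (j + 2) (by omega) q2 b2
    · exact n3 j (by omega) q0 q1 q2
  cases b0 : cp 0
  · cases q0 : Q 0
    · exact nxt 1 (by omega) (by rw [h2 0 (by omega), q0, b0]; rfl)
    have b1 : cp 1 = false := by rw [h2 0 (by omega), q0, b0]; rfl
    cases q1 : Q 1
    · exact nxt 2 (by omega) (by rw [h2 1 (by omega), q1, b1]; rfl)
    have b2 : cp 2 = false := by rw [h2 1 (by omega), q1, b1]; rfl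
    cases q2 : Q 2
    · exact nxt 3 (by omega) (by rw [h2 2 (by omega), q2, b2]; rfl)
    · exact n3 0 (by omega) q0 q1 q2
  · exact nxt 0 (by omega) b0

variable {S T F : Type} [AddCommGroup T] [Field F] {R : Set (Tup S)} {P : Par S T F R}

theorem fin3_add (s : Fin 3) : s + 1 + 1 = s + 2 ∧ s + 1 + 2 = s ∧ s + 2 + 1 = s ∧
    s + 2 + 2 = s + 1 := by
  revert s
  decide

theorem det_of_ff {y y1 y2 : Vx S T F} {i : Fin 3} {ν : Nm S T} (h1 : P.Ed y y1 i ν)
    (h2 : P.Ed y y2 i ν) (c0 : y.b.c i = false) (c1 : y.b.c (i + 1) = false) : y1 = y2 := by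
  refine P.Ed_ext h1 h2 fun s hs hi => ?_
  exfalso
  rcases fin3_cases i s with e | e | e
  · exact hi e
  · subst e
    have := hs.2
    rw [(fin3_add i).2.1, c0] at this
    simp at this
  · subst e
    have := hs.2
    rw [(fin3_add i).2.2.2, c1] at this
    simp at this

theorem det_of_tt {y y1 y2 : Vx S T F} {i : Fin 3} {ν : Nm S T} (h1 : P.Ed y y1 i ν)
    (h2 : P.Ed y y2 i ν) (c0 : y.b.c i = true) (c1 : y.b.c (i + 2) = true) : y1 = y2 := by
  refine P.Ed_ext h1 h2 fun s hs hi => ?_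
  exfalso
  rcases fin3_cases i s with e | e | e
  · exact hi e
  · subst e
    have := hs.1
    rw [(fin3_add i).1, c1] at this
    simp at this
  · subst e
    have := hs.1
    rw [(fin3_add i).2.2.1, c0] at this
    simp at this

theorem col_step {y y' : Vx S T F} {s i : Fin 3} {ν : Nm S T} (h : P.Ed y y' i ν)
    (hi : i ≠ s + 2) (hc : y.b.c (s + 2) = false) : y'.k s = y.k s := by
  have h1 : ¬ br s y.b := fun hb => by simpa [hc] using hb.2
  have h2 : ¬ br s y'.b := fun hb => by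
    have := hb.2
    rw [h.1, P.c_ne _ _ hi.symm, hc] at this
    simp at this
  rw [h.2 s h1 h2, P.Del_of_ne s _ ν hi, add_zero]

theorem row_step {y y' : Vx S T F} {s : Fin 3} {ν : Nm S T} (h : P.Ed y y' (s + 2) ν)
    (hc : y.b.c (s + 2) = false) (hp : y.b.c (s + 1) = true) :
    y'.k s = y.k s + y.b.xi (s + 2) • hi y.b (s + 1) := by
  have h1 : ¬ br s y.b := fun hb => by simpa [hc] using hb.2
  have h2 : ¬ br s y'.b := fun hb => by
    have := hb.1
    rw [h.1, P.c_ne _ _ (fin3_ne12 s), hp] at this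
    simp at this
  rw [h.2 s h1 h2, Par.Del, if_pos ⟨rfl, hp⟩, Par.lo, hc]
  simp

theorem block_alg {L0 M0 R0 L1 M1 R1 : Vx S T F} {s : Fin 3} {ν μ : Nm S T}
    (a0 : P.Ed L0 M0 (s + 2) ν) (b0 : P.Ed R0 M0 (s + 2) μ) (a1 : P.Ed L1 M1 (s + 2) ν)
    (b1 : P.Ed R1 M1 (s + 2) μ) (m0 : M0.b.c (s + 2) = true) (m1 : M1.b.c (s + 2) = true)
    (p0 : L0.b.c (s + 1) = true) (p1 : L1.b.c (s + 1) = true) (kL : L0.k s = L1.k s)
    (kR : R0.k s = R1.k s) (xL : L0.b.xi (s + 2) = L1.b.xi (s + 2)) :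
    (ν = μ ∧ L1 = R1) ∨ hi L0.b (s + 1) = hi L1.b (s + 1) := by
  have low : ∀ {L M : Vx S T F} {ν : Nm S T}, P.Ed L M (s + 2) ν → M.b.c (s + 2) = true →
      L.b.c (s + 2) = false ∧ M.b.xi (s + 2) = L.b.xi (s + 2) + P.n ν ∧
        M.b.c (s + 1) = L.b.c (s + 1) ∧ hi M.b (s + 1) = hi L.b (s + 1) := by
    intro L M ν a m
    have hc : L.b.c (s + 2) = false := by
      rw [a.1, Par.c_self] at m
      simpa using m
    refine ⟨hc, ?_, ?_, ?_⟩
    · rw [a.1, Par.xi_self, hc]
      simp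
    · rw [a.1, P.c_ne _ _ (fin3_ne12 s)]
    · rw [a.1, P.hi_ne _ _ (fin3_ne12 s)]
  obtain ⟨cL0, xL0, pL0, hL0⟩ := low a0 m0
  obtain ⟨cR0, xR0, pR0, hR0⟩ := low b0 m0
  obtain ⟨cL1, xL1, pL1, hL1⟩ := low a1 m1
  obtain ⟨cR1, xR1, pR1, hR1⟩ := low b1 m1
  have e0 := row_step a0 cL0 p0
  have f0 := row_step b0 cR0 (pR0.symm.trans (pL0.trans p0))
  have e1 := row_step a1 cL1 p1
  have f1 := row_step b1 cR1 (pR1.symm.trans (pL1.trans p1))
  rw [← hR0, hL0] at f0
  rw [← hR1, hL1] at f1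
  have xR0' : R0.b.xi (s + 2) = L0.b.xi (s + 2) + (P.n ν - P.n μ) := by
    linear_combination xL0 - xR0
  have xR1' : R1.b.xi (s + 2) = L0.b.xi (s + 2) + (P.n ν - P.n μ) := by
    linear_combination xL1 - xR1 - xL
  rw [xR0'] at f0
  rw [xR1'] at f1
  rw [← xL] at e1
  have key : (P.n ν - P.n μ) • (hi L0.b (s + 1) - hi L1.b (s + 1)) = 0 := by
    have h0 := e0.symm.trans f0
    have h1 := e1.symm.trans f1
    rw [kL, kR, add_smul] at h0
    rw [add_smul] at h1
    rw [smul_sub]
    linear_combination (exp := 1) h1 - h0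
  rcases smul_eq_zero.1 key with h | h
  · left
    obtain rfl : ν = μ := P.n_inj (sub_eq_zero.1 h)
    refine ⟨rfl, det_of_tt (P.Ed_symm a1) (P.Ed_symm b1) m1 ?_⟩
    rw [(fin3_add s).2.2.2, pL1, p1]
  · exact Or.inr (sub_eq_zero.1 h)

theorem slide {s : Fin 3} (u g : Eg P) (hs : g.src = u.src) (du : u.dir = s + 1) (dg : g.dir = s)
    (c1 : u.src.b.c (s + 1) = false) (hm : P.Mt u.src.b (s + 1) u.nm s g.nm) :
    ∃ g' u', Sq u g' g u' := by
  refine adj_of u g hs (by rw [du, dg]; exact fin3_ne1 s) (by rw [du, dg]; exact hm) ?_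
  intro t ht h1 h2
  exfalso
  rw [du] at h1
  rw [dg] at h2
  rcases fin3_cases s t with e | e | e
  · exact h2 e
  · exact h1 e
  · subst e
    have := ht.2
    rw [(fin3_add s).2.2.2, c1] at this
    simp at this

theorem eg_eq {s : Fin 3} {u t : Eg P} (hs : u.src = t.src) (du : u.dir = s + 1)
    (dt : t.dir = s + 1) (hn : u.nm = t.nm) (c1 : u.src.b.c (s + 1) = false)
    (c2 : u.src.b.c (s + 2) = false) : u = t := by
  refine Eg.ext hs ?_ (du.trans dt.symm) hn
  have e1 := u.ed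
  have e2 := t.ed
  rw [du] at e1
  rw [dt, ← hs, ← hn] at e2
  exact det_of_ff e1 e2 c1 (by rw [(fin3_add s).1]; exact c2)

theorem up_hi {b b' : St S T F} {i : Fin 3} {ν μ : Nm S T} (c : b.c i = false)
    (c' : b'.c i = false) (e : hi b i = hi b' i)
    (h : hi (P.mv b i ν) i = hi (P.mv b' i μ) i) : ν = μ ∧ P.ex b i ν = P.ex b' i ν := by
  unfold hi at e h
  rw [Par.xi_self, Par.xi_self, Par.f_self, Par.f_self, c, c'] at h
  simp only [Prod.mk.injEq, sg_false, one_mul] at e h
  obtain rfl : ν = μ := P.n_inj (by linear_combination h.1 - e.1)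
  exact ⟨rfl, by linear_combination h.2 - e.2⟩

theorem Mt_of {b : St S T F} {s : Fin 3} {ν μ : Nm S T} (h : s = 0 → P.M b μ ν) :
    P.Mt b (s + 1) ν s μ :=
  ⟨fun h1 h2 => by omega, fun _ h2 => h h2⟩

theorem r0 {s : Fin 3} {a t : Eg P} (da : a.dir = s + 1) (dt : t.dir = s + 1)
    (st : t.src = a.tgt) (c1 : a.tgt.b.c (s + 1) = false) (c2 : a.tgt.b.c (s + 2) = false)
    (hh : hi a.src.b (s + 1) = hi t.tgt.b (s + 1)) (geo : (sys P).Geo [a, t]) : False := by
  have ea := a.inv.ed.1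
  have et := t.ed.1
  simp only [Eg.inv] at ea
  rw [ea, et, da, dt, st] at hh
  have hn := (up_hi c1 c1 rfl hh).1
  have : a.inv = t := eg_eq st.symm da dt hn c1 c2
  subst this
  exact geo2 (sys P) geo

theorem r1 {s : Fin 3} {a g t : Eg P} (da : a.dir = s + 1) (dg : g.dir = s) (dt : t.dir = s + 1)
    (sg' : g.src = a.tgt) (st : t.src = g.tgt) (c1 : a.tgt.b.c (s + 1) = false)
    (c2 : a.tgt.b.c (s + 2) = false) (hh : hi a.src.b (s + 1) = hi t.tgt.b (s + 1))
    (geo : (sys P).Geo [a, g, t]) : False := by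
  have ea := a.inv.ed.1
  have et := t.ed.1
  have eg := g.ed.1
  simp only [Eg.inv] at ea
  rw [dg, sg'] at eg
  rw [ea, et, da, dt, st] at hh
  have c1' : g.tgt.b.c (s + 1) = false := by rw [eg, P.c_ne _ _ (fin3_ne1 s), c1]
  have c2' : g.tgt.b.c (s + 2) = false := by rw [eg, P.c_ne _ _ (fin3_ne2 s), c2]
  obtain ⟨hn, hx⟩ := up_hi c1 c1' (by rw [eg, P.hi_ne _ _ (fin3_ne1 s)]) hh
  have hm : P.Mt a.tgt.b (s + 1) a.nm s g.nm := by
    refine Mt_of fun h0 => ?_
    subst h0
    rw [eg] at hx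
    simp only [Par.ex, zero_add, if_true] at hx
    rw [P.low1_ne _ _ (by decide), Par.z_zero] at hx
    have h3 : P.wt ((a.nm.1, a.nm.2.2), P.low1 a.tgt.b a.nm.1) g.nm (P.low2 a.tgt.b g.nm.1) = 0 :=
      (mul_eq_zero.1 (left_eq_add.1 hx)).resolve_left (sg_ne _)
    unfold Par.wt at h3
    by_contra hc
    unfold Par.M at hc
    rw [if_neg hc] at h3
    exact P.ph_ne _ h3
  obtain ⟨g', u', sq⟩ := slide a.inv g sg' da dg c1 hm
  have : u' = t := eg_eq (sq.sd.trans st.symm) (sq.dd.trans da) dt (sq.dn.trans hn)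
    (by rw [sq.sd]; exact c1') (by rw [sq.sd]; exact c2')
  subst this
  exact geo3 (sys P) geo sq

theorem r2 {s : Fin 3} {a g1 g2 t : Eg P} (da : a.dir = s + 1) (d1 : g1.dir = s) (d2 : g2.dir = s)
    (dt : t.dir = s + 1) (s1 : g1.src = a.tgt) (s2 : g2.src = g1.tgt) (st : t.src = g2.tgt)
    (c1 : a.tgt.b.c (s + 1) = false) (c2 : a.tgt.b.c (s + 2) = false)
    (c0 : g1.tgt.b.c s = false) (hh : hi a.src.b (s + 1) = hi t.tgt.b (s + 1))
    (geo : (sys P).Geo [a, g1, g2, t]) : False := by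
  have ea := a.inv.ed.1
  have et := t.ed.1
  have e1 := g1.ed.1
  have e1' := g1.inv.ed
  have e2 := g2.ed
  simp only [Eg.inv] at ea e1'
  rw [d1, s1] at e1 e1'
  rw [d2, s2] at e2
  rw [ea, et, da, dt, st] at hh
  have c1' : g1.tgt.b.c (s + 1) = false := by rw [e1, P.c_ne _ _ (fin3_ne1 s), c1]
  have c2' : g1.tgt.b.c (s + 2) = false := by rw [e1, P.c_ne _ _ (fin3_ne2 s), c2]
  have c1'' : g2.tgt.b.c (s + 1) = false := by rw [e2.1, P.c_ne _ _ (fin3_ne1 s), c1']
  have c2'' : g2.tgt.b.c (s + 2) = false := by rw [e2.1, P.c_ne _ _ (fin3_ne2 s), c2']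
  obtain ⟨hn, hx⟩ := up_hi c1 c1''
    (by rw [e2.1, P.hi_ne _ _ (fin3_ne1 s), e1, P.hi_ne _ _ (fin3_ne1 s)]) hh
  have hne : g1.nm ≠ g2.nm := by
    intro h
    have : g1.inv = g2 := by
      refine Eg.ext s2.symm ?_ (d1.trans d2.symm) h
      rw [← h] at e2
      exact s1.trans (det_of_ff e1' e2 c0 c1')
    subst this
    exact geo2 (sys P) (geo_sub (sys P) (l1 := [a]) (l2 := [t]) geo)
  have hm : s = 0 → P.M g1.tgt.b g1.nm a.nm ∧ P.M g1.tgt.b g2.nm a.nm := by
    intro h0
    subst h0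
    rw [e2.1, e1'.1] at hx
    simp only [Par.ex, zero_add, if_true] at hx
    rw [P.low1_ne _ _ (by decide), P.low1_ne _ _ (by decide), Par.z_zero, Par.z_zero, c0] at hx
    simp only [sg_false, one_mul, add_right_inj] at hx
    have l1 : P.low2 g1.tgt.b g1.nm.1 = P.low2 g1.tgt.b g2.nm.1 := by simp [Par.low2, c0]
    unfold Par.M
    unfold Par.wt at hx
    split_ifs at hx with m1 m2 m2
    · exact ⟨m1, m2⟩
    · exact absurd hx.symm (P.ph_ne _)
    · exact absurd hx (P.ph_ne _)
    · exact absurd (congrArg Prod.fst (P.ph_inj hx)) hne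
  have hm1 : P.Mt a.tgt.b (s + 1) a.nm s g1.nm := by
    refine Mt_of fun h0 => ?_
    have := (hm h0).1
    subst h0
    rwa [e1, Par.M_zero] at this
  obtain ⟨g1', u', sq⟩ := slide a.inv g1 s1 da d1 c1 hm1
  obtain ⟨g2', u'', sq'⟩ := slide u' g2 (s2.trans sq.sd.symm) (sq.dd.trans da) d2
    (by rw [sq.sd]; exact c1') (by
      rw [sq.sd, sq.dn]
      exact Mt_of fun h0 => (hm h0).2)
  have : u'' = t := eg_eq (sq'.sd.trans st.symm) (sq'.dd.trans (sq.dd.trans da)) dt
    (sq'.dn.trans (sq.dn.trans hn)) (by rw [sq'.sd]; exact c1'') (by rw [sq'.sd]; exact c2'')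
  subst this
  exact geo4 (sys P) geo sq sq'

structure Grid (h v : ℕ → ℕ → Eg P) : Prop where
  sq : ∀ i < 10, ∀ j < 10, Sq (h i j) (v (i + 1) j) (v i j) (h i (j + 1))
  row : ∀ j ≤ 10, (sys P).Geo ((List.range 10).map fun i => h i j)
  col : ∀ i ≤ 10, (sys P).Geo ((List.range 10).map fun j => v i j)

namespace Grid

variable {h v : ℕ → ℕ → Eg P}

theorem tr (G : Grid h v) : Grid (fun i j => v j i) (fun i j => h j i) :=
  ⟨fun i hi j hj => (G.sq j hj i hi).symm, G.col, G.row⟩

theorem hd (G : Grid h v) {i : ℕ} (hi : i < 10) :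
    ∀ j ≤ 10, (h i j).dir = (h i 0).dir ∧ (h i j).nm = (h i 0).nm := by
  intro j
  induction j with
  | zero => exact fun _ => ⟨rfl, rfl⟩
  | succ j ih =>
    intro hj
    have sq := G.sq i hi j (by omega)
    exact ⟨sq.dd.trans (ih (by omega)).1, sq.dn.trans (ih (by omega)).2⟩

theorem vd (G : Grid h v) {j : ℕ} (hj : j < 10) {i : ℕ} (hi : i ≤ 10) :
    (v i j).dir = (v 0 j).dir := (G.tr.hd hj i hi).1

theorem pq (G : Grid h v) {i j : ℕ} (hi : i < 10) (hj : j < 10) : (h i 0).dir ≠ (v 0 j).dir := by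
  have := (G.sq i hi j hj).ne
  rwa [(G.hd hi j hj.le).1, G.vd hj hi.le] at this

theorem vsrc (G : Grid h v) {i j : ℕ} (hi : i < 10) (hj : j < 10) : (v i j).src = (h i j).src :=
  (G.sq i hi j hj).sc

theorem vtgt (G : Grid h v) {i j : ℕ} (hi : i < 10) (hj : j < 10) :
    (v i j).tgt = (h i (j + 1)).src := (G.sq i hi j hj).sd.symm

theorem htgt (G : Grid h v) {i j : ℕ} (hi : i < 9) (hj : j < 10) :
    (h i j).tgt = (h (i + 1) j).src :=
  (G.sq i (by omega) j hj).sb.symm.trans (G.sq (i + 1) (by omega) j hj).sc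

theorem hed (G : Grid h v) {i j : ℕ} (hi : i < 9) (hj : j < 10) :
    P.Ed (h i j).src (h (i + 1) j).src (h i 0).dir (h i 0).nm := by
  rw [← G.htgt hi hj, ← (G.hd (by omega) j hj.le).1, ← (G.hd (by omega) j hj.le).2]
  exact (h i j).ed

theorem ved (G : Grid h v) {i j : ℕ} (hi : i < 10) (hj : j < 10) :
    P.Ed (h i j).src (h i (j + 1)).src (v 0 j).dir (v i j).nm := by
  rw [← G.vtgt hi hj, ← G.vsrc hi hj, ← G.vd hj hi.le]
  exact (v i j).ed

theorem colc (G : Grid h v) {i : ℕ} (hi : i < 10) {l : Fin 3} (hq : ∀ j < 10, (v 0 j).dir ≠ l) :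
    ∀ j ≤ 10, (h i j).src.b.c l = (h i 0).src.b.c l ∧ (h i j).src.b.xi l = (h i 0).src.b.xi l := by
  intro j
  induction j with
  | zero => exact fun _ => ⟨rfl, rfl⟩
  | succ j ih =>
    intro hj
    have e := (G.ved hi (show j < 10 by omega)).1
    rw [e, P.c_ne _ _ (hq j (by omega)).symm, P.xi_ne _ _ (hq j (by omega)).symm]
    exact ih (by omega)

theorem colk (G : Grid h v) {i : ℕ} (hi : i < 10) {s : Fin 3}
    (hq : ∀ j < 10, (v 0 j).dir ≠ s + 2) (hc : (h i 0).src.b.c (s + 2) = false) :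
    ∀ j ≤ 10, (h i j).src.k s = (h i 0).src.k s := by
  intro j
  induction j with
  | zero => exact fun _ => rfl
  | succ j ih =>
    intro hj
    rw [col_step (G.ved hi (show j < 10 by omega)) (hq j (by omega))
      ((G.colc hi hq j (by omega)).1.trans hc)]
    exact ih (by omega)

theorem lemA (G : Grid h v) {s : Fin 3} {i : ℕ} (hi' : i < 8) (p0 : (h i 0).dir = s + 2)
    (p1 : (h (i + 1) 0).dir = s + 2) (cm : (h (i + 1) 0).src.b.c (s + 2) = true) {j j' : ℕ}
    (hj : j < 10) (hj' : j' < 10) (c0 : (h i j).src.b.c (s + 1) = true)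
    (c1 : (h i j').src.b.c (s + 1) = true) :
    hi (h i j).src.b (s + 1) = hi (h i j').src.b (s + 1) ∧
      ∀ t ≤ 10, (h i t).src.b.c (s + 2) = false := by
  have hq : ∀ j < 10, (v 0 j).dir ≠ s + 2 := fun j hj => p0 ▸ (G.pq (by omega) hj).symm
  have eL := fun j hj => G.hed (i := i) (j := j) (by omega) hj
  have eR := fun j hj => P.Ed_symm (G.hed (i := i + 1) (j := j) (by omega) hj)
  rw [p0] at eL
  rw [p1] at eR
  have cL : (h i 0).src.b.c (s + 2) = false := by
    rw [(eL 0 (by omega)).1, Par.c_self] at cm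
    simpa using cm
  have cR : (h (i + 1 + 1) 0).src.b.c (s + 2) = false := by
    rw [(eR 0 (by omega)).1, Par.c_self] at cm
    simpa using cm
  refine ⟨?_, fun t ht => (G.colc (by omega) hq t ht).1.trans cL⟩
  rcases block_alg (eL j hj) (eR j hj) (eL j' hj') (eR j' hj')
    ((G.colc (by omega) hq j hj.le).1.trans cm) ((G.colc (by omega) hq j' hj'.le).1.trans cm) c0 c1
    ((G.colk (by omega) hq cL j hj.le).trans (G.colk (by omega) hq cL j' hj'.le).symm)
    ((G.colk (by omega) hq cR j hj.le).trans (G.colk (by omega) hq cR j' hj'.le).symm)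
    ((G.colc (by omega) hq j hj.le).2.trans (G.colc (by omega) hq j' hj'.le).2.symm) with
    ⟨e1, e2⟩ | e
  · exfalso
    have geo := geo_range (sys P) (G.row j' hj'.le) i 2 (by omega)
    have : (h i j').inv = h (i + 1) j' := by
      refine Eg.ext (G.htgt (by omega) hj') (e2.trans (G.htgt (by omega) hj').symm) ?_ ?_
      · exact (G.hd (by omega) j' hj'.le).1.trans
          (p0.trans ((G.hd (by omega) j' hj'.le).1.trans p1).symm)
      · exact (G.hd (by omega) j' hj'.le).2.trans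
          (e1.trans (G.hd (by omega) j' hj'.le).2.symm)
    refine geo2 (sys P) (a := h i j') ?_
    simp only [List.range_succ, List.range_zero, List.nil_append, List.map_cons, List.map_nil,
      List.cons_append, add_zero] at geo
    rw [← this] at geo
    exact geo
  · exact e

theorem cflip (G : Grid h v) {i j : ℕ} (hi : i < 10) (hj : j < 10) {l : Fin 3}
    (hq : (v 0 j).dir = l) : (h i (j + 1)).src.b.c l = !(h i j).src.b.c l := by
  rw [(G.ved hi hj).1, hq, Par.c_self]

theorem ckeep (G : Grid h v) {i j : ℕ} (hi : i < 10) (hj : j < 10) {l : Fin 3}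
    (hq : l ≠ (v 0 j).dir) : (h i (j + 1)).src.b.c l = (h i j).src.b.c l := by
  rw [(G.ved hi hj).1, P.c_ne _ _ hq]

theorem blk0 (G : Grid h v) {s : Fin 3} {i : ℕ} (hi' : i < 8) (p0 : (h i 0).dir = s + 2)
    (p1 : (h (i + 1) 0).dir = s + 2) (cm : (h (i + 1) 0).src.b.c (s + 2) = true) {j : ℕ}
    (hj : j < 8) (q0 : (v 0 j).dir = s + 1) (c0 : (h i j).src.b.c (s + 1) = true)
    (q1 : (v 0 (j + 1)).dir = s + 1) : False := by
  have hi10 : i < 10 := by omega
  have a1 : (h i (j + 1)).src.b.c (s + 1) = false := by rw [G.cflip hi10 (by omega) q0, c0]; rfl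
  have a2 : (h i (j + 2)).src.b.c (s + 1) = true := by rw [G.cflip hi10 (by omega) q1, a1]; rfl
  obtain ⟨hh, cc⟩ := G.lemA hi' p0 p1 cm (by omega) (by omega) c0 a2
  have geo := geo_range (sys P) (G.col i hi10.le) j 2 (by omega)
  simp only [List.range_succ, List.range_zero, List.nil_append, List.map_cons, List.map_nil,
    List.cons_append, add_zero] at geo
  refine r0 ((G.vd (by omega) hi10.le).trans q0) ((G.vd (by omega) hi10.le).trans q1)
    ((G.vsrc hi10 (by omega)).trans (G.vtgt hi10 (by omega)).symm) ?_ ?_ ?_ geo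
  · rwa [G.vtgt hi10 (by omega)]
  · rw [G.vtgt hi10 (by omega)]
    exact cc _ (by omega)
  · rwa [G.vtgt hi10 (by omega), G.vsrc hi10 (by omega)]

theorem blk1 (G : Grid h v) {s : Fin 3} {i : ℕ} (hi' : i < 8) (p0 : (h i 0).dir = s + 2)
    (p1 : (h (i + 1) 0).dir = s + 2) (cm : (h (i + 1) 0).src.b.c (s + 2) = true) {j : ℕ}
    (hj : j < 7) (q0 : (v 0 j).dir = s + 1) (c0 : (h i j).src.b.c (s + 1) = true)
    (q1 : (v 0 (j + 1)).dir = s) (q2 : (v 0 (j + 2)).dir = s + 1) : False := by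
  have hi10 : i < 10 := by omega
  have a1 : (h i (j + 1)).src.b.c (s + 1) = false := by rw [G.cflip hi10 (by omega) q0, c0]; rfl
  have a2 : (h i (j + 2)).src.b.c (s + 1) = false := by
    rw [G.ckeep hi10 (by omega) (by rw [q1]; exact fin3_ne1 s), a1]
  have a3 : (h i (j + 3)).src.b.c (s + 1) = true := by rw [G.cflip hi10 (by omega) q2, a2]; rfl
  obtain ⟨hh, cc⟩ := G.lemA hi' p0 p1 cm (by omega) (by omega) c0 a3
  have geo := geo_range (sys P) (G.col i hi10.le) j 3 (by omega)
  simp only [List.range_succ, List.range_zero, List.nil_append, List.map_cons, List.map_nil,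
    List.cons_append, add_zero] at geo
  refine r1 ((G.vd (by omega) hi10.le).trans q0) ((G.vd (by omega) hi10.le).trans q1)
    ((G.vd (by omega) hi10.le).trans q2)
    ((G.vsrc hi10 (by omega)).trans (G.vtgt hi10 (by omega)).symm)
    ((G.vsrc hi10 (by omega)).trans (G.vtgt hi10 (by omega)).symm) ?_ ?_ ?_ geo
  · rwa [G.vtgt hi10 (by omega)]
  · rw [G.vtgt hi10 (by omega)]
    exact cc _ (by omega)
  · rwa [G.vtgt hi10 (by omega), G.vsrc hi10 (by omega)]

theorem blk2 (G : Grid h v) {s : Fin 3} {i : ℕ} (hi' : i < 8) (p0 : (h i 0).dir = s + 2)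
    (p1 : (h (i + 1) 0).dir = s + 2) (cm : (h (i + 1) 0).src.b.c (s + 2) = true) {j : ℕ}
    (hj : j < 6) (q0 : (v 0 j).dir = s + 1) (c0 : (h i j).src.b.c (s + 1) = true)
    (q1 : (v 0 (j + 1)).dir = s) (q2 : (v 0 (j + 2)).dir = s)
    (cz : (h i (j + 2)).src.b.c s = false) (q3 : (v 0 (j + 3)).dir = s + 1) : False := by
  have hi10 : i < 10 := by omega
  have a1 : (h i (j + 1)).src.b.c (s + 1) = false := by rw [G.cflip hi10 (by omega) q0, c0]; rfl
  have a2 : (h i (j + 2)).src.b.c (s + 1) = false := by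
    rw [G.ckeep hi10 (by omega) (by rw [q1]; exact fin3_ne1 s), a1]
  have a3 : (h i (j + 3)).src.b.c (s + 1) = false := by
    rw [G.ckeep hi10 (by omega) (by rw [q2]; exact fin3_ne1 s), a2]
  have a4 : (h i (j + 4)).src.b.c (s + 1) = true := by rw [G.cflip hi10 (by omega) q3, a3]; rfl
  obtain ⟨hh, cc⟩ := G.lemA hi' p0 p1 cm (by omega) (by omega) c0 a4
  have geo := geo_range (sys P) (G.col i hi10.le) j 4 (by omega)
  simp only [List.range_succ, List.range_zero, List.nil_append, List.map_cons, List.map_nil,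
    List.cons_append, add_zero] at geo
  refine r2 ((G.vd (by omega) hi10.le).trans q0) ((G.vd (by omega) hi10.le).trans q1)
    ((G.vd (by omega) hi10.le).trans q2) ((G.vd (by omega) hi10.le).trans q3)
    ((G.vsrc hi10 (by omega)).trans (G.vtgt hi10 (by omega)).symm)
    ((G.vsrc hi10 (by omega)).trans (G.vtgt hi10 (by omega)).symm)
    ((G.vsrc hi10 (by omega)).trans (G.vtgt hi10 (by omega)).symm) ?_ ?_ ?_ ?_ geo
  · rwa [G.vtgt hi10 (by omega)]
  · rw [G.vtgt hi10 (by omega)]
    exact cc _ (by omega)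
  · rwa [G.vtgt hi10 (by omega)]
  · rwa [G.vtgt hi10 (by omega), G.vsrc hi10 (by omega)]

theorem centre (G : Grid h v) {l : Fin 3} (hp : ∀ i < 10, (h i 0).dir = l) (x : Bool) {j : ℕ}
    (hj : j < 10) : ∃ i < 2, (h (i + 1) j).src.b.c l = x := by
  have e := (G.hed (i := 1) (by omega) hj).1
  rw [hp 1 (by omega)] at e
  have e2 : (h (1 + 1) j).src.b.c l = !(h (0 + 1) j).src.b.c l := by rw [e, Par.c_self]
  by_cases h1 : (h (0 + 1) j).src.b.c l = x
  · exact ⟨0, by omega, h1⟩
  · refine ⟨1, by omega, ?_⟩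
    rw [e2]
    cases x <;> simpa using h1

theorem main (G : Grid h v) {s : Fin 3} (hp : ∀ i < 10, (h i 0).dir = s + 2) : False := by
  obtain ⟨i, hi2, cm⟩ := G.centre hp true (j := 0) (by omega)
  have hi10 : i < 10 := by omega
  have hq : ∀ j < 10, (v 0 j).dir = s ∨ (v 0 j).dir = s + 1 := by
    intro j hj
    have := G.pq (i := 0) (by omega) hj
    rw [hp 0 (by omega)] at this
    rcases fin3_cases s (v 0 j).dir with e | e | e
    · exact Or.inl e
    · exact Or.inr e
    · exact absurd e.symm this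
  have qf : ∀ j < 10, decide ((v 0 j).dir = s) = false → (v 0 j).dir = s + 1 :=
    fun j hj e => (hq j hj).resolve_left (by simpa using e)
  refine comb (fun j => decide ((v 0 j).dir = s)) (fun j => (h i j).src.b.c s)
    (fun j => (h i j).src.b.c (s + 1)) ?_ ?_ ?_ ?_ ?_ ?_
  · intro j hj
    rcases hq j (by omega) with e | e
    · rw [G.cflip hi10 (by omega) e]
      simp [e]
    · rw [G.ckeep hi10 (by omega) (by rw [e]; exact (fin3_ne1 s).symm)]
      simp [e]
  · intro j hj
    rcases hq j (by omega) with e | e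
    · rw [G.ckeep hi10 (by omega) (by rw [e]; exact fin3_ne1 s)]
      simp [e]
    · rw [G.cflip hi10 (by omega) e]
      simp [e]
  · intro j hj a b c
    simp only [decide_eq_true_eq] at a b c
    obtain ⟨i'', hi'', cz'⟩ := G.centre hp false (j := j) (by omega)
    have hrow := G.tr.colc (i := j + 1) (by omega) (l := s) (fun t ht => by
      show (h t 0).dir ≠ s
      rw [hp t ht]
      exact fin3_ne2 s)
    have c' : (v 0 (j + 1)).src.b.c s = true := by
      rw [← (hrow i hi10.le).1, G.vsrc hi10 (by omega)]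
      exact c
    have ct : (v i'' j).src.b.c (s + 2) = true := by
      have e := (G.hed (i := i'') (j := j) (by omega) (by omega)).1
      rw [hp i'' (by omega)] at e
      rw [e, Par.c_self] at cz'
      rw [G.vsrc (by omega) (by omega)]
      simpa using cz'
    refine G.tr.blk0 (s := s + 1) (i := j) hj ?_ ?_ ?_ (j := i'') (by omega) ?_ ?_ ?_
    · rw [(fin3_add s).2.1]
      exact a
    · rw [(fin3_add s).2.1]
      exact b
    · rw [(fin3_add s).2.1]
      exact c'
    · rw [(fin3_add s).1]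
      exact hp i'' (by omega)
    · rw [(fin3_add s).1]
      exact ct
    · rw [(fin3_add s).1]
      exact hp (i'' + 1) (by omega)
  · intro j hj a b c
    exact G.blk0 (by omega) (hp i hi10) (hp (i + 1) (by omega)) cm hj (qf j (by omega) a) b
      (qf (j + 1) (by omega) c)
  · intro j hj a b c d
    exact G.blk1 (by omega) (hp i hi10) (hp (i + 1) (by omega)) cm hj (qf j (by omega) a) b
      (by simpa using c) (qf (j + 2) (by omega) d)
  · intro j hj a b c d e f
    exact G.blk2 (by omega) (hp i hi10) (hp (i + 1) (by omega)) cm hj (qf j (by omega) a) b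
      (by simpa using c) (by simpa using d) e (qf (j + 3) (by omega) f)

theorem false (G : Grid h v) : False := by
  by_cases hp : ∀ i < 10, (h i 0).dir = (h 0 0).dir
  · exact G.main (s := (h 0 0).dir + 1) (by rw [(fin3_add _).2.1]; exact hp)
  · push Not at hp
    obtain ⟨i, hi, hne⟩ := hp
    refine G.tr.main (s := (v 0 0).dir + 1) fun j hj => ?_
    rw [(fin3_add _).2.1]
    have h1 := G.pq hi hj
    have h2 := G.pq (i := 0) (by omega) hj
    have h3 := G.pq hi (j := 0) (by omega)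
    have h4 := G.pq (i := 0) (j := 0) (by omega) (by omega)
    show (v 0 j).dir = (v 0 0).dir
    omega

end Grid

theorem noGrid (P : Par S T F R) : (sys P).NoGrid 10 :=
  fun _ _ h1 h2 h3 => Grid.false ⟨h1, h2, h3⟩

end Cx

end Pool.Agent.Lib.MP_28a49a_al
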