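import Pool.Agent.Lib.MP_28a49a_al.CxBase

/-! Block D, part 2: the branched cover and its system of squares. -/

namespace Pool.Agent.Lib.MP_28a49a_al

namespace Cx

open Classical

noncomputable section

variable {S T F : Type}

/-- the state lies on the branching locus of direction `s` -/
def br (s : Fin 3) (b : St S T F) : Prop := b.c (s + 1) = false ∧ b.c (s + 2) = true

theorem fin3_cases (s i : Fin 3) : i = s ∨ i = s + 1 ∨ i = s + 2 := by
  revert s i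
  decide

theorem fin3_ne1 (s : Fin 3) : s + 1 ≠ s := by
  revert s
  decide

theorem fin3_ne2 (s : Fin 3) : s + 2 ≠ s := by
  revert s
  decide

theorem fin3_ne12 (s : Fin 3) : s + 1 ≠ s + 2 := by
  revert s
  decide

theorem br_unique {s t : Fin 3} {b : St S T F} (h1 : br s b) (h2 : br t b) : s = t := by
  unfold br at h1 h2
  rcases fin3_cases s t with h | h | h
  · exact h.symm
  · subst h
    have e : s + 1 + 1 = s + 2 := by omega
    rw [e, h1.2] at h2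
    exact absurd h2.1 (by simp)
  · subst h
    have e : s + 2 + 2 = s + 1 := by omega
    rw [e, h1.1] at h2
    exact absurd h2.2 (by simp)

def hi (b : St S T F) (i : Fin 3) : F × F := (b.xi i, b.f i)

variable [AddCommGroup T] [Field F] {R : Set (Tup S)}

/-- vertices of the branched cover -/
@[ext]
structure Vx (S T F : Type) [Field F] where
  b : St S T F
  k : Fin 3 → F × F
  hk : ∀ s, br s b → k s = 0

instance [Finite S] [Finite T] [Finite F] : Finite (Vx S T F) :=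
  Finite.of_injective (fun y : Vx S T F => (y.b, y.k)) (by
    intro a b h
    simp only [Prod.mk.injEq] at h
    exact Vx.ext h.1 h.2)

namespace Par

variable (P : Par S T F R)

theorem hi_ne (b : St S T F) (ν : Nm S T) {i j : Fin 3} (h : j ≠ i) :
    hi (P.mv b i ν) j = hi b j := by
  unfold hi
  rw [P.xi_ne b ν h, P.f_ne b ν h]

theorem br_self (s : Fin 3) (b : St S T F) (ν : Nm S T) : br s (P.mv b s ν) ↔ br s b := by
  unfold br
  rw [P.c_ne b ν (fin3_ne1 s), P.c_ne b ν (fin3_ne2 s)]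

theorem br_ne {s i : Fin 3} {b : St S T F} (ν : Nm S T) (h : br s b) (hi : s ≠ i) :
    ¬ br s (P.mv b i ν) := by
  unfold br at h ⊢
  rcases fin3_cases s i with e | e | e
  · exact absurd e.symm hi
  · subst e
    rw [c_self, h.1]
    simp
  · subst e
    rw [c_self, h.2]
    simp

theorem br_opp {s i j : Fin 3} {b : St S T F} (ν μ : Nm S T) (hij : i ≠ j)
    (h1 : br s (P.mv b i ν)) (h2 : br s (P.mv b j μ)) : False := by
  by_cases hi : s = i
  · subst hi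
    exact P.br_ne μ ((P.br_self s b ν).1 h1) hij h2
  · have h3 := P.br_ne ν h1 hi
    rw [mv_mv] at h3
    by_cases hj : s = j
    · subst hj
      exact h3 ((P.br_self s b μ).1 h2)
    · unfold br at h1 h2
      rcases fin3_cases s i with e | e | e
      · exact hi e.symm
      · subst e
        rw [c_self] at h1
        rw [P.c_ne b μ hij] at h2
        rw [h2.1] at h1
        simp at h1
      · subst e
        rw [c_self] at h1
        rw [P.c_ne b μ hij] at h2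
        rw [h2.2] at h1
        simp at h1

theorem br_far {s i j : Fin 3} {b : St S T F} (ν μ : Nm S T) (hij : i ≠ j)
    (h1 : br s b) (h2 : br s (P.mv (P.mv b i ν) j μ)) : False := by
  refine P.br_opp (b := P.mv b i ν) ν μ hij ?_ h2
  rwa [mv_mv]

def lo (b : St S T F) (i : Fin 3) (ν : Nm S T) : F := if b.c i then P.n ν - b.xi i else b.xi i

def Del (s : Fin 3) (b : St S T F) (i : Fin 3) (ν : Nm S T) : F × F :=
  if i = s + 2 ∧ b.c (s + 1) = true then P.lo b i ν • hi b (s + 1) else 0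

theorem lo_self (b : St S T F) (i : Fin 3) (ν : Nm S T) :
    P.lo (P.mv b i ν) i ν = - P.lo b i ν := by
  unfold lo
  rw [c_self, xi_self]
  cases b.c i
  · simp
  · simp
    ring

theorem lo_ne (b : St S T F) {i j : Fin 3} (ν μ : Nm S T) (h : i ≠ j) :
    P.lo (P.mv b j μ) i ν = P.lo b i ν := by
  unfold lo
  rw [P.c_ne b μ h, P.xi_ne b μ h]

theorem Del_self (s : Fin 3) (b : St S T F) (i : Fin 3) (ν : Nm S T) :
    P.Del s (P.mv b i ν) i ν = - P.Del s b i ν := by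
  unfold Del
  by_cases h : i = s + 2
  · subst h
    rw [P.c_ne b ν (fin3_ne12 s), lo_self, P.hi_ne b ν (fin3_ne12 s)]
    split_ifs <;> simp
  · simp [h]

theorem Del_of_ne (s : Fin 3) (b : St S T F) {i : Fin 3} (ν : Nm S T) (h : i ≠ s + 2) :
    P.Del s b i ν = 0 := by
  simp [Del, h]

theorem Del_ne (s : Fin 3) (b : St S T F) {i j : Fin 3} (ν μ : Nm S T) (hij : i ≠ j)
    (h : ¬ (j = s + 1 ∧ i = s + 2)) : P.Del s (P.mv b j μ) i ν = P.Del s b i ν := by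
  by_cases hi : i = s + 2
  · have hj : s + 1 ≠ j := fun e => h ⟨e.symm, hi⟩
    unfold Del
    rw [P.c_ne b μ hj, P.lo_ne b ν μ hij, P.hi_ne b μ hj]
  · rw [P.Del_of_ne s _ ν hi, P.Del_of_ne s _ ν hi]

theorem face_br (s : Fin 3) (b : St S T F) (ν μ : Nm S T) :
    br s b ∨ br s (P.mv b (s + 1) ν) ∨ br s (P.mv b (s + 2) μ) ∨
      br s (P.mv (P.mv b (s + 1) ν) (s + 2) μ) := by
  unfold br
  simp only [c_self, P.c_ne _ _ (fin3_ne12 s), P.c_ne _ _ (fin3_ne12 s).symm]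
  cases b.c (s + 1) <;> cases b.c (s + 2) <;> simp

/-- trivial holonomy around a face without branching corner -/
theorem Del_face {s i j : Fin 3} {b : St S T F} {ν μ : Nm S T} (hij : i ≠ j)
    (hm : P.Mt b i ν j μ) (h0 : ¬ br s b) (h1 : ¬ br s (P.mv b i ν)) (h2 : ¬ br s (P.mv b j μ))
    (h3 : ¬ br s (P.mv (P.mv b i ν) j μ)) :
    P.Del s b i ν + P.Del s (P.mv b i ν) j μ = P.Del s b j μ + P.Del s (P.mv b j μ) i ν := by
  have e1 : ¬ (j = s + 1 ∧ i = s + 2) := by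
    rintro ⟨rfl, rfl⟩
    rw [P.mv_comm hij hm] at h3
    rcases P.face_br s b μ ν with h | h | h | h <;> contradiction
  have e2 : ¬ (i = s + 1 ∧ j = s + 2) := by
    rintro ⟨rfl, rfl⟩
    rcases P.face_br s b ν μ with h | h | h | h <;> contradiction
  rw [P.Del_ne s b ν μ hij e1, P.Del_ne s b μ ν hij.symm e2, add_comm]

/-- edges of the branched cover -/
def Ed (y y' : Vx S T F) (i : Fin 3) (ν : Nm S T) : Prop :=
  y'.b = P.mv y.b i ν ∧ ∀ s, ¬ br s y.b → ¬ br s y'.b → y'.k s = y.k s + P.Del s y.b i ν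

theorem Ed_symm {y y' : Vx S T F} {i : Fin 3} {ν : Nm S T} (h : P.Ed y y' i ν) :
    P.Ed y' y i ν := by
  refine ⟨by rw [h.1, mv_mv], fun s h1 h2 => ?_⟩
  rw [h.2 s h2 h1, h.1, Del_self]
  abel

theorem Ed_ext {y y1 y2 : Vx S T F} {i : Fin 3} {ν : Nm S T} (h1 : P.Ed y y1 i ν)
    (h2 : P.Ed y y2 i ν) (h : ∀ s, br s y.b → s ≠ i → y1.k s = y2.k s) : y1 = y2 := by
  have e : y1.b = y2.b := h1.1.trans h2.1.symm
  refine Vx.ext e (funext fun s => ?_)
  by_cases hb : br s y1.b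
  · rw [y1.hk s hb, y2.hk s (e ▸ hb)]
  · by_cases h0 : br s y.b
    · refine h s h0 ?_
      rintro rfl
      rw [h1.1, br_self] at hb
      exact hb h0
    · rw [h1.2 s h0 hb, h2.2 s h0 (e ▸ hb)]

/-- filling in a common neighbour -/
theorem fill {ι : Type} (b : St S T F) (y : ι → Vx S T F) (i : ι → Fin 3) (ν : ι → Nm S T)
    (hb : ∀ t, b = P.mv (y t).b (i t) (ν t))
    (hk : ∀ s t t', ¬ br s b → ¬ br s (y t).b → ¬ br s (y t').b →
      (y t).k s + P.Del s (y t).b (i t) (ν t) = (y t').k s + P.Del s (y t').b (i t') (ν t')) :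
    ∃ w : Vx S T F, ∀ t, P.Ed (y t) w (i t) (ν t) := by
  refine ⟨⟨b, fun s => if br s b then 0 else if h : ∃ t, ¬ br s (y t).b then
    (y h.choose).k s + P.Del s (y h.choose).b (i h.choose) (ν h.choose) else 0,
    fun s hs => by simp [hs]⟩, fun t => ⟨hb t, fun s h1 h2 => ?_⟩⟩
  have hex : ∃ t, ¬ br s (y t).b := ⟨t, h1⟩
  simp only at h2 ⊢
  rw [if_neg h2, dif_pos hex]
  exact hk s _ _ h2 hex.choose_spec h1

theorem face_ok {y y1 y2 : Vx S T F} {s i j : Fin 3} {ν μ : Nm S T} (hij : i ≠ j)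
    (hm : P.Mt y.b i ν j μ) (e1 : P.Ed y y1 i ν) (e2 : P.Ed y y2 j μ) (h0 : ¬ br s y.b)
    (h1 : ¬ br s y1.b) (h2 : ¬ br s y2.b) (h3 : ¬ br s (P.mv y1.b j μ)) :
    y1.k s + P.Del s y1.b j μ = y2.k s + P.Del s y2.b i ν := by
  rw [e1.2 s h0 h1, e2.2 s h0 h2, add_assoc, add_assoc, e1.1, e2.1]
  rw [e1.1] at h1 h3
  rw [e2.1] at h2
  rw [P.Del_face hij hm h0 h1 h2 h3]

theorem exists_far {y y1 y2 : Vx S T F} {i j : Fin 3} {ν μ : Nm S T} (hij : i ≠ j)
    (hm : P.Mt y.b i ν j μ) (e1 : P.Ed y y1 i ν) (e2 : P.Ed y y2 j μ)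
    (hb : ∀ s, br s y.b → s ≠ i → s ≠ j →
      y1.k s + P.Del s y1.b j μ = y2.k s + P.Del s y2.b i ν) :
    ∃ w : Vx S T F, P.Ed y1 w j μ ∧ P.Ed y2 w i ν := by
  have key : ∀ s, ¬ br s (P.mv y1.b j μ) → ¬ br s y1.b → ¬ br s y2.b →
      y1.k s + P.Del s y1.b j μ = y2.k s + P.Del s y2.b i ν := by
    intro s h3 h1 h2
    by_cases h0 : br s y.b
    · refine hb s h0 ?_ ?_
      · rintro rfl
        rw [e1.1, br_self] at h1
        exact h1 h0
      · rintro rfl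
        rw [e2.1, br_self] at h2
        exact h2 h0
    · exact P.face_ok hij hm e1 e2 h0 h1 h2 h3
  obtain ⟨w, hw⟩ := P.fill (ι := Bool) (P.mv y1.b j μ) (fun t => cond t y1 y2)
    (fun t => cond t j i) (fun t => cond t μ ν) (by
      intro t
      cases t
      · simp only [cond_false]
        rw [e1.1, e2.1, P.mv_comm hij hm]
      · rfl) (by
      intro s t t' h3 h1 h2
      cases t <;> cases t'
      · rfl
      · exact (key s h3 h2 h1).symm
      · exact key s h3 h1 h2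
      · rfl)
  exact ⟨w, hw true, hw false⟩

theorem far_unique {y y1 y2 w w' : Vx S T F} {i j : Fin 3} {ν μ : Nm S T} (hij : i ≠ j)
    (e1 : P.Ed y y1 i ν) (e2 : P.Ed y y2 j μ) (f1 : P.Ed y1 w j μ) (f2 : P.Ed y2 w i ν)
    (g1 : P.Ed y1 w' j μ) (g2 : P.Ed y2 w' i ν) : w = w' := by
  refine P.Ed_ext f1 g1 fun s hs hj => ?_
  have h2 : ¬ br s y2.b := by
    intro h2
    rw [e1.1] at hs
    rw [e2.1] at h2
    exact P.br_opp ν μ hij hs h2
  have h3 : ¬ br s w.b := f1.1 ▸ P.br_ne μ hs hj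
  have h4 : ¬ br s w'.b := g1.1 ▸ P.br_ne μ hs hj
  rw [f2.2 s h2 h3, g2.2 s h2 h4]

/-- comparison of two neighbours of the eighth vertex of a cube -/
theorem cube_cmp {y1 y2 y3 y12 y13 y23 : Vx S T F} {s i j l : Fin 3} {ν μ lam : Nm S T}
    (hij : i ≠ j) (hil : i ≠ l) (hjl : j ≠ l)
    (m1 : P.Mt y1.b j μ l lam) (m2 : P.Mt y2.b i ν l lam) (m3 : P.Mt y3.b i ν j μ)
    (e12 : P.Ed y1 y12 j μ) (e13 : P.Ed y1 y13 l lam) (e21 : P.Ed y2 y12 i ν)
    (e23 : P.Ed y2 y23 l lam) (e31 : P.Ed y3 y13 i ν) (e32 : P.Ed y3 y23 j μ)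
    (h0 : ¬ br s (P.mv y12.b l lam)) (h1 : ¬ br s y12.b) (h2 : ¬ br s y13.b) :
    y12.k s + P.Del s y12.b l lam = y13.k s + P.Del s y13.b j μ := by
  by_cases hb : br s y1.b
  · have hj : s ≠ j := by
      rintro rfl
      rw [e12.1, br_self] at h1
      exact h1 hb
    have hl : s ≠ l := by
      rintro rfl
      rw [e13.1, br_self] at h2
      exact h2 hb
    obtain rfl : s = i := by omega
    have w1 : P.mv y12.b l lam = P.mv y23.b s ν := by
      rw [e21.1, e23.1, P.mv_comm hil m2]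
    have w2 : P.mv y13.b j μ = P.mv y23.b s ν := by
      rw [e31.1, e32.1, P.mv_comm hij m3]
    have n23 : ¬ br s y23.b := by
      rwa [w1, br_self] at h0
    have n2 : ¬ br s y2.b := by
      rwa [e21.1, br_self] at h1
    have n3 : ¬ br s y3.b := by
      rwa [e31.1, br_self] at h2
    rw [P.face_ok hil m2 e21 e23 n2 h1 n23 h0,
      P.face_ok hij m3 e31 e32 n3 h2 n23 (by rw [w2, br_self]; exact n23)]
  · exact P.face_ok hjl m1 e12 e13 hb h1 h2 h0

theorem cube_fill {y1 y2 y3 y12 y13 y23 : Vx S T F} {i j l : Fin 3} {ν μ lam : Nm S T}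
    (hij : i ≠ j) (hil : i ≠ l) (hjl : j ≠ l)
    (m1 : P.Mt y1.b j μ l lam) (m2 : P.Mt y2.b i ν l lam) (m3 : P.Mt y3.b i ν j μ)
    (e12 : P.Ed y1 y12 j μ) (e13 : P.Ed y1 y13 l lam) (e21 : P.Ed y2 y12 i ν)
    (e23 : P.Ed y2 y23 l lam) (e31 : P.Ed y3 y13 i ν) (e32 : P.Ed y3 y23 j μ) :
    ∃ w : Vx S T F, P.Ed y12 w l lam ∧ P.Ed y13 w j μ ∧ P.Ed y23 w i ν := by
  have w1 : P.mv y12.b l lam = P.mv y13.b j μ := by
    rw [e12.1, e13.1, P.mv_comm hjl m1]
  have w2 : P.mv y12.b l lam = P.mv y23.b i ν := by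
    rw [e21.1, e23.1, P.mv_comm hil m2]
  have c1 := fun s => P.cube_cmp (s := s) hij hil hjl m1 m2 m3 e12 e13 e21 e23 e31 e32
  have c2 := fun s => P.cube_cmp (s := s) hij.symm hjl hil m2 m1 (P.Mt_symm m3) e21 e23 e12 e13
    e32 e31
  have c3 := fun s => P.cube_cmp (s := s) hil.symm hjl.symm hij m3 (P.Mt_symm m1)
    (P.Mt_symm m2) e31 e32 e13 e12 e23 e21
  obtain ⟨w, hw⟩ := P.fill (ι := Fin 3) (P.mv y12.b l lam) ![y12, y13, y23] ![l, j, i]
    ![lam, μ, ν] (by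
      intro t
      fin_cases t
      · rfl
      · exact w1
      · exact w2) (by
      intro s t t' h0 h1 h2
      fin_cases t <;> fin_cases t'
      · rfl
      · exact c1 s h0 h1 h2
      · exact c2 s h0 h1 h2
      · exact (c1 s h0 h2 h1).symm
      · rfl
      · exact c3 s (w1 ▸ h0) h1 h2
      · exact (c2 s h0 h2 h1).symm
      · exact (c3 s (w1 ▸ h0) h2 h1).symm
      · rfl)
  exact ⟨w, hw 0, hw 1, hw 2⟩

end Par

/-- oriented edges -/
@[ext]
structure Eg (P : Par S T F R) where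
  src : Vx S T F
  tgt : Vx S T F
  dir : Fin 3
  nm : Nm S T
  ed : P.Ed src tgt dir nm

instance [Finite S] [Finite T] [Finite F] (P : Par S T F R) : Finite (Eg P) :=
  Finite.of_injective (fun e : Eg P => (e.src, e.tgt, e.dir, e.nm)) (by
    intro a b h
    simp only [Prod.mk.injEq] at h
    exact Eg.ext h.1 h.2.1 h.2.2.1 h.2.2.2)

variable {P : Par S T F R}

def Eg.inv (e : Eg P) : Eg P := ⟨e.tgt, e.src, e.dir, e.nm, P.Ed_symm e.ed⟩

structure Sq (a b c d : Eg P) : Prop where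
  ne : a.dir ≠ c.dir
  dd : d.dir = a.dir
  dn : d.nm = a.nm
  bd : b.dir = c.dir
  bn : b.nm = c.nm
  sc : c.src = a.src
  sb : b.src = a.tgt
  sd : d.src = c.tgt
  tt : b.tgt = d.tgt
  mt : P.Mt a.src.b a.dir a.nm c.dir c.nm

theorem Sq.symm {a b c d : Eg P} (h : Sq a b c d) : Sq c d a b :=
  ⟨h.ne.symm, h.bd, h.bn, h.dd, h.dn, h.sc.symm, h.sd, h.sb, h.tt.symm, h.sc ▸ P.Mt_symm h.mt⟩

theorem Sq.rot {a b c d : Eg P} (h : Sq a b c d) : Sq a.inv c b d.inv := by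
  refine ⟨?_, h.dd, h.dn, h.bd.symm, h.bn.symm, h.sb, h.sc, h.tt.symm, h.sd.symm, ?_⟩
  · show a.dir ≠ b.dir
    rw [h.bd]
    exact h.ne
  · show P.Mt a.tgt.b a.dir a.nm b.dir b.nm
    rw [a.ed.1, h.bd, h.bn]
    exact P.Mt_rot h.mt

theorem Sq.edc {a b c d : Eg P} (h : Sq a b c d) : P.Ed a.src c.tgt c.dir c.nm := h.sc ▸ c.ed

theorem Sq.edb {a b c d : Eg P} (h : Sq a b c d) : P.Ed a.tgt b.tgt c.dir c.nm := by
  rw [← h.sb, ← h.bd, ← h.bn]
  exact b.ed

theorem Sq.edd {a b c d : Eg P} (h : Sq a b c d) : P.Ed c.tgt b.tgt a.dir a.nm := by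
  rw [← h.sd, ← h.dd, ← h.dn, h.tt]
  exact d.ed

theorem Sq.uniq {a b c d b' d' : Eg P} (h : Sq a b c d) (h' : Sq a b' c d') :
    b = b' ∧ d = d' := by
  have e : b.tgt = b'.tgt := P.far_unique h.ne a.ed h.edc h.edb h.edd h'.edb h'.edd
  exact ⟨Eg.ext (h.sb.trans h'.sb.symm) e (h.bd.trans h'.bd.symm) (h.bn.trans h'.bn.symm),
    Eg.ext (h.sd.trans h'.sd.symm) (h.tt.symm.trans (e.trans h'.tt)) (h.dd.trans h'.dd.symm)
      (h.dn.trans h'.dn.symm)⟩

theorem Sq.cube {a1 a2 a3 b12 b21 b13 b31 b23 b32 : Eg P} (h12 : Sq a1 b12 a2 b21)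
    (h13 : Sq a1 b13 a3 b31) (h23 : Sq a2 b23 a3 b32) :
    ∃ x y z, Sq b12 x b13 y ∧ Sq b21 x b23 z ∧ Sq b31 y b32 z := by
  have m1 : P.Mt a1.tgt.b a2.dir a2.nm a3.dir a3.nm := by
    rw [a1.ed.1, ← h12.sc]
    exact P.Mt_third h23.mt _ h12.ne h13.ne
  have m2 : P.Mt a2.tgt.b a1.dir a1.nm a3.dir a3.nm := by
    rw [a2.ed.1, h12.sc]
    exact P.Mt_third h13.mt _ h12.ne.symm h23.ne
  have m3 : P.Mt a3.tgt.b a1.dir a1.nm a2.dir a2.nm := by
    rw [a3.ed.1, h13.sc]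
    exact P.Mt_third h12.mt _ h13.ne.symm h23.ne.symm
  obtain ⟨w, e1, e2, e3⟩ := P.cube_fill h12.ne h13.ne h23.ne m1 m2 m3 h12.edb h13.edb h12.edd
    h23.edb h13.edd h23.edd
  refine ⟨⟨_, w, _, _, e1⟩, ⟨_, w, _, _, e2⟩, ⟨_, w, _, _, e3⟩, ?_, ?_, ?_⟩
  · refine ⟨?_, h12.bd.symm, h12.bn.symm, h13.bd.symm, h13.bn.symm, h13.sb.trans h12.sb.symm, rfl,
      rfl, rfl, ?_⟩
    · rw [h12.bd, h13.bd]
      exact h23.ne
    · rw [h12.bd, h13.bd, h12.bn, h13.bn, h12.sb]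
      exact m1
  · refine ⟨?_, h12.dd.symm, h12.dn.symm, h23.bd.symm, h23.bn.symm, h23.sb.trans h12.sd.symm,
      h12.tt, rfl, rfl, ?_⟩
    · rw [h12.dd, h23.bd]
      exact h13.ne
    · rw [h12.dd, h23.bd, h12.dn, h23.bn, h12.sd]
      exact m2
  · refine ⟨?_, h13.dd.symm, h13.dn.symm, h23.dd.symm, h23.dn.symm, h23.sd.trans h13.sd.symm,
      h13.tt, h23.tt, rfl, ?_⟩
    · rw [h13.dd, h23.dd]
      exact h12.ne
    · rw [h13.dd, h23.dd, h13.dn, h23.dn, h13.sd]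
      exact m3

/-- the system of squares -/
def sys (P : Par S T F R) : SqSys (Eg P) where
  inv := Eg.inv
  inv_inv := fun _ => rfl
  S := Sq
  symm := Sq.symm
  rot := Sq.rot
  uniq := Sq.uniq
  irrefl := fun h e => h.ne (by rw [e])
  cube := Sq.cube

theorem adj_of (a c : Eg P) (hs : c.src = a.src) (hd : a.dir ≠ c.dir)
    (hm : P.Mt a.src.b a.dir a.nm c.dir c.nm)
    (hb : ∀ s, br s a.src.b → s ≠ a.dir → s ≠ c.dir →
      a.tgt.k s + P.Del s a.tgt.b c.dir c.nm = c.tgt.k s + P.Del s c.tgt.b a.dir a.nm) :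
    ∃ b d, Sq a b c d := by
  obtain ⟨w, e1, e2⟩ := P.exists_far hd hm a.ed (hs ▸ c.ed) hb
  exact ⟨⟨_, w, _, _, e1⟩, ⟨_, w, _, _, e2⟩, hd, rfl, rfl, rfl, rfl, hs, rfl, rfl, rfl, hm⟩

end

end Cx

end Pool.Agent.Lib.MP_28a49a_al
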