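import Mathlib

namespace Pool.Agent.Lib.MP_28a49a_al

/-- a system of squares `a b = c d` on a set of oriented edges (one-vertex cube complex) -/
structure SqSys (E : Type) where
  inv : E → E
  inv_inv : ∀ e, inv (inv e) = e
  S : E → E → E → E → Prop
  symm : ∀ {a b c d}, S a b c d → S c d a b
  rot : ∀ {a b c d}, S a b c d → S (inv a) c b (inv d)
  uniq : ∀ {a b c d b' d'}, S a b c d → S a b' c d' → b = b' ∧ d = d'
  irrefl : ∀ {a b c d}, S a b c d → a ≠ c
  cube : ∀ {a1 a2 a3 b12 b21 b13 b31 b23 b32}, S a1 b12 a2 b21 → S a1 b13 a3 b31 →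
    S a2 b23 a3 b32 → ∃ x y z, S b12 x b13 y ∧ S b21 x b23 z ∧ S b31 y b32 z

namespace SqSys
variable {E : Type} (X : SqSys E)

def rels : Set (FreeGroup E) :=
  {r | (∃ e, r = FreeGroup.of e * FreeGroup.of (X.inv e)) ∨
    ∃ a b c d, X.S a b c d ∧
      r = FreeGroup.of a * FreeGroup.of b * (FreeGroup.of c * FreeGroup.of d)⁻¹}

abbrev G : Type := PresentedGroup X.rels

def gen (e : E) : X.G := PresentedGroup.of e

def ev (l : List E) : X.G := (l.map X.gen).prod

def Geo (l : List E) : Prop := ∀ l' : List E, X.ev l' = X.ev l → l.length ≤ l'.length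

def Adj (a c : E) : Prop := ∃ b d, X.S a b c d

/-- no `k × k` grid of squares whose rows and columns are geodesic words -/
def NoGrid (k : ℕ) : Prop :=
  ∀ h v : ℕ → ℕ → E,
    (∀ i < k, ∀ j < k, X.S (h i j) (v (i + 1) j) (v i j) (h i (j + 1))) →
    (∀ j ≤ k, X.Geo ((List.range k).map fun i => h i j)) →
    (∀ i ≤ k, X.Geo ((List.range k).map fun j => v i j)) → False

end SqSys

/-- letters and their inverses -/
abbrev Let (S : Type) := S × Bool

def bar {S : Type} (x : Let S) : Let S := (x.1, !x.2)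

def fl {S : Type} (x : Let S) : FreeGroup S := FreeGroup.mk [x]

abbrev Tup (S : Type) := Let S × Let S × Let S × Let S

def tupWord {S : Type} (r : Tup S) : FreeGroup S := fl r.1 * fl r.2.1 * (fl r.2.2.1 * fl r.2.2.2)⁻¹

/-- labelled square system with the link conditions -/
structure Lab {E : Type} (X : SqSys E) (V S : Type) (R : Set (Tup S)) where
  src : E → V
  lft : E → Prop
  lab : E → Let S
  rank : V → ℕ
  lft_inv : ∀ e, lft (X.inv e) ↔ lft e
  lab_inv : ∀ e, lab (X.inv e) = bar (lab e)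
  sq_src : ∀ {a b c d}, X.S a b c d → src c = src a ∧ src b = src (X.inv a)
  sq_rank : ∀ {a b c d}, X.S a b c d → rank (src a) ≠ rank (src (X.inv b))
  sq_side : ∀ {a b c d}, X.S a b c d → (lft d ↔ lft a) ∧ (lft a ∨ lft c)
  sq_mixed : ∀ {a b c d}, X.S a b c d → ¬ (lft a ↔ lft c) → lab d = lab a
  sq_left : ∀ {a b c d}, X.S a b c d → lft a → lft c → (lab a, lab b, lab c, lab d) ∈ R
  ex_left : ∀ y x, ∃ a, src a = y ∧ lft a ∧ lab a = x
  ex_adj : ∀ a z, lft a → ∃ e, ¬ lft e ∧ lab e = z ∧ X.Adj a e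
  ex_cube : ∀ a c z, lft a → lft c → X.Adj a c → ∃ e, ¬ lft e ∧ lab e = z ∧ X.Adj a e ∧ X.Adj c e
  ex_sq : ∀ y, ∀ r ∈ R, ∃ a b c d, X.S a b c d ∧ src a = y ∧ lft a ∧ lft c ∧
    (lab a, lab b, lab c, lab d) = r
  conn_left : ∀ x x' a a', lft a → lft a' → src a = src a' → lab a = x → lab a' = x →
    Relation.EqvGen (fun a c => ∃ b d, X.S a b c d ∧ lft a ∧ lft c ∧
      (lab a, lab b, lab c, lab d) = (x, x', x, x')) a a'
  conn_right : ∀ r ∈ R, ∀ e e', ¬ lft e → ¬ lft e' → src e = src e' → lab e = lab e' →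
    Relation.EqvGen (fun e e' => ¬ lft e ∧ ¬ lft e' ∧ lab e = lab e' ∧
      ∃ a b c d, X.S a b c d ∧ lft a ∧ lft c ∧ (lab a, lab b, lab c, lab d) = r ∧
        X.Adj a e ∧ X.Adj c e ∧ X.Adj a e' ∧ X.Adj c e') e e'
  apex : ∀ y, (∀ a e, src a = y → src e = y → lft a → ¬ lft e → X.Adj a e) ∨
    ∃ P : E → Prop,
      (∀ u e, src u = y → src e = y → lft u → P u → ¬ lft e → X.Adj u e) ∧
      (∀ a c, src a = y → lft a → lft c → X.Adj a c → (P a ↔ ¬ P c)) ∧
      ∀ x x' z u u', src u = y → src u' = y → lft u → lft u' → P u → P u' →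
        lab u = x → lab u' = x →
        Relation.EqvGen (fun u u' => src u = y ∧ src u' = y ∧ lft u ∧ lft u' ∧ P u ∧ P u' ∧
          lab u = x ∧ lab u' = x ∧
          ∀ e e', src e = y → src e' = y → ¬ lft e → ¬ lft e' → lab e = z → lab e' = z →
            Relation.EqvGen (fun e e' => ¬ lft e ∧ ¬ lft e' ∧ lab e = z ∧ lab e' = z ∧
              ∃ h b d b' d', X.S u b h d ∧ X.S u' b' h d' ∧ lft h ∧ lab h = x ∧
                lab b = x' ∧ lab d = x' ∧ lab b' = x' ∧ lab d' = x' ∧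
                X.Adj h e ∧ X.Adj h e') e e') u u'
  ex_flat : ∀ a x', lft a → ∃ b c d, X.S a b c d ∧ lft c ∧ lab c = lab a ∧ lab b = x' ∧ lab d = x'

/-- a VH square complex through which the left labels factor -/
structure VHData {E : Type} {X : SqSys E} {V S : Type} {R : Set (Tup S)} (L : Lab X V S R)
    (E1 : Type) where
  inv : E1 → E1
  inv_inv : ∀ e, inv (inv e) = e
  vert : E1 → Prop
  vert_inv : ∀ e, vert (inv e) ↔ vert e
  T : E1 → E1 → E1 → E1 → Prop
  symm : ∀ {a b c d}, T a b c d → T c d a b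
  rot : ∀ {a b c d}, T a b c d → T (inv a) c b (inv d)
  uniq : ∀ {a b c d b' d'}, T a b c d → T a b' c d' → b = b' ∧ d = d'
  vh : ∀ {a b c d}, T a b c d → (vert a ↔ ¬ vert c)
  lab : E1 → Let S
  lab_inv : ∀ e, lab (inv e) = bar (lab e)
  sq_lab : ∀ {a b c d}, T a b c d → (lab a, lab b, lab c, lab d) ∈ R
  pr : E → E1
  pr_inv : ∀ e, L.lft e → pr (X.inv e) = inv (pr e)
  pr_lab : ∀ e, L.lft e → lab (pr e) = L.lab e
  pr_sq : ∀ {a b c d}, X.S a b c d → L.lft a → L.lft c → T (pr a) (pr b) (pr c) (pr d)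
  pr_mixed : ∀ {a b c d}, X.S a b c d → L.lft a → ¬ L.lft c → pr d = pr a

/-- boundary map of the free pre-crossed module on the relators `w` -/
def bdry {S ρ : Type} (w : ρ → FreeGroup S) : FreeGroup (FreeGroup S × ρ) →* FreeGroup S :=
  FreeGroup.lift fun p => p.1 * w p.2 * p.1⁻¹

def shift {S ρ : Type} (g : FreeGroup S) :
    FreeGroup (FreeGroup S × ρ) →* FreeGroup (FreeGroup S × ρ) :=
  FreeGroup.map fun p => (g * p.1, p.2)

/-- finitely many identities among relations generate all of them -/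
def T3 {S ρ : Type} (w : ρ → FreeGroup S) : Prop :=
  ∃ K : Set (FreeGroup (FreeGroup S × ρ)), K.Finite ∧ (∀ k ∈ K, bdry w k = 1) ∧
    ∀ N : Subgroup (FreeGroup (FreeGroup S × ρ)), N.Normal →
      (∀ g a, a ∈ N → shift g a ∈ N) →
      (∀ u r u' r', FreeGroup.of (u, r) * FreeGroup.of (u', r') * (FreeGroup.of (u, r))⁻¹ *
        (FreeGroup.of (u * w r * u⁻¹ * u', r'))⁻¹ ∈ N) →
      K ⊆ N → (bdry w).ker ≤ N

/-- the relators of length four of a generating family -/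
def Rel4 {S Q : Type} [Group Q] (s : S → Q) : Set (Tup S) :=
  {r | FreeGroup.lift s (tupWord r) = 1}

/-- cost calculus -/
structure CostCalc {Λ Ω : Type} [Group Ω] (o : Λ → Ω) (Cost : Ω → ℕ → Prop) (C : ℕ) : Prop where
  one : Cost 1 0
  mul : ∀ {a b m n}, Cost a m → Cost b n → Cost (a * b) (m + n)
  inv : ∀ {a m}, Cost a m → Cost a⁻¹ m
  mono : ∀ {a m n}, Cost a m → m ≤ n → Cost a n
  conj : ∀ {a m} (l : Λ), Cost a m → Cost (o l * a * (o l)⁻¹) (C * m)
  conj' : ∀ {a m} (l : Λ), Cost a m → Cost ((o l)⁻¹ * a * o l) (C * m)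

/-- an extension of `Q` detecting spheres with huge three dimensional fillings -/
structure QData (Q : Type) [Group Q] (Qs M Mb : Type) [Group Qs] [AddCommGroup M]
    [AddCommGroup Mb] [DistribMulAction Q M] [DistribMulAction Q Mb] where
  π : Qs →* Q
  π_surj : Function.Surjective π
  jb : Multiplicative Mb →* Qs
  jb_inj : Function.Injective jb
  jb_range : jb.range = π.ker
  jb_conj : ∀ g m, g * jb (Multiplicative.ofAdd m) * g⁻¹ = jb (Multiplicative.ofAdd (π g • m))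
  ϖ : M →+ Mb
  ϖ_surj : Function.Surjective ϖ
  ϖ_smul : ∀ (q : Q) m, ϖ (q • m) = q • ϖ m
  lam : M →+ ℤ
  bdd : ∀ m, ϖ m = 0 → ∃ B : ℕ, ∀ q : Q, |lam (q • m)| ≤ B
  test : ∀ N : ℕ, 0 < N → ∃ (Λ : Type) (_ : Finite Λ) (g : Λ → Qs) (δ : M) (σ : FreeGroup Λ),
    (∀ l, ∃ h, g l = h ^ N) ∧ FreeGroup.lift g σ = jb (Multiplicative.ofAdd (ϖ δ)) ∧
    ∀ (Ω : Type) (_ : Group Ω) (o : Λ → Ω) (Cost : Ω → ℕ → Prop) (C : ℕ), CostCalc o Cost C →
      (∀ w, FreeGroup.lift g w = 1 → ∃ n, Cost (FreeGroup.lift o w) n) →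
      ∃ K : ℕ, ∀ k : ℕ, ∃ l : List (Λ × Bool), l.length ≤ K * (k + 1) ∧
        Cost (FreeGroup.lift o (FreeGroup.mk l * σ * (FreeGroup.mk l)⁻¹ * σ⁻¹)) (K ^ (k + 1)) ∧
        (2 : ℤ) ^ 2 ^ 2 ^ k ≤ |lam (π (FreeGroup.lift g (FreeGroup.mk l)) • δ - δ)|

/-- `G` is the amalgamated product of its subgroups `A`, `B` over their intersection -/
def IsAmalgam {G : Type} [Group G] (A B : Subgroup G) : Prop :=
  A ⊔ B = ⊤ ∧ ∀ (H : Type) [Group H] (f : A →* H) (g : B →* H),
    (∀ x (ha : x ∈ A) (hb : x ∈ B), f ⟨x, ha⟩ = g ⟨x, hb⟩) →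
    ∃ F : G →* H, (∀ a : A, F a = f a) ∧ ∀ b : B, F b = g b

/-- groups built from the integers by extensions and amalgamated products -/
inductive Good : (G : Type) → [Group G] → Prop
  | int : Good (Multiplicative ℤ)
  | equiv {G H : Type} [Group G] [Group H] (e : G ≃* H) : Good G → Good H
  | ext {G H : Type} [Group G] [Group H] (p : G →* H) : Function.Surjective p →
      Good p.ker → Good H → Good G
  | amalgam {G : Type} [Group G] (A B : Subgroup G) : IsAmalgam A B → Good A → Good B →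
      Good (A ⊓ B : Subgroup G) → Good G

/-- type `FP3`, in the form: every partial finite free resolution has finitely generated
second syzygy -/
def HomFP3 (Q : Type) [Group Q] : Prop :=
  ∀ (ι κ : Type) [Finite ι] [Finite κ]
    (d₂ : (κ →₀ MonoidAlgebra ℤ Q) →ₗ[MonoidAlgebra ℤ Q] (ι →₀ MonoidAlgebra ℤ Q))
    (d₁ : (ι →₀ MonoidAlgebra ℤ Q) →ₗ[MonoidAlgebra ℤ Q] MonoidAlgebra ℤ Q),
    LinearMap.range d₁ = Submodule.span (MonoidAlgebra ℤ Q)
      (Set.range fun g : Q => MonoidAlgebra.of ℤ Q g - 1) →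
    LinearMap.range d₂ = LinearMap.ker d₁ → (LinearMap.ker d₂).FG

end Pool.Agent.Lib.MP_28a49a_al
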