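import Mathlib

namespace Pool.Agent.Lib.MP_28a49a_al

open Function LinearMap

/-- modules of type `FP n` -/
def FPn (R : Type) [Ring R] : ℕ → (M : Type) → [AddCommGroup M] → [Module R M] → Prop
  | 0, M, _, _ => Module.Finite R M
  | n + 1, M, _, _ => ∃ (F : Type) (_ : AddCommGroup F) (_ : Module R F) (f : F →ₗ[R] M),
      Module.Finite R F ∧ Module.Projective R F ∧ Surjective f ∧ FPn R n (ker f)

namespace FPn
variable {R : Type} [Ring R]

theorem equiv {n : ℕ} {M N : Type} [AddCommGroup M] [Module R M] [AddCommGroup N] [Module R N]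
    (e : M ≃ₗ[R] N) (h : FPn R n M) : FPn R n N := by
  cases n with
  | zero =>
    have : Module.Finite R M := h
    exact Module.Finite.equiv e
  | succ n =>
    obtain ⟨F, _, _, f, h1, h2, h3, h4⟩ := h
    refine ⟨F, inferInstance, inferInstance, e.toLinearMap ∘ₗ f, h1, h2,
      e.surjective.comp h3, ?_⟩
    rw [LinearEquiv.ker_comp]
    exact h4

theorem of_subsingleton (n : ℕ) : ∀ (M : Type) [AddCommGroup M] [Module R M] [Subsingleton M],
    FPn R n M := by
  induction n with
  | zero => intro M _ _ _; exact (inferInstance : Module.Finite R M)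
  | succ n ih =>
    intro M _ _ _
    exact ⟨M, inferInstance, inferInstance, LinearMap.id, inferInstance, inferInstance,
      surjective_id, ih _⟩

theorem of_projective (n : ℕ) (M : Type) [AddCommGroup M] [Module R M] [Module.Finite R M]
    [Module.Projective R M] : FPn R n M := by
  cases n with
  | zero => exact (inferInstance : Module.Finite R M)
  | succ n =>
    refine ⟨M, inferInstance, inferInstance, LinearMap.id, inferInstance, inferInstance,
      surjective_id, ?_⟩
    have : Subsingleton (ker (LinearMap.id : M →ₗ[R] M)) :=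
      ⟨fun a b => Subtype.ext ((show a.1 = 0 from a.2).trans (show b.1 = 0 from b.2).symm)⟩
    exact of_subsingleton n _

/-- extensions -/
theorem mid (n : ℕ) : ∀ {A B C : Type} [AddCommGroup A] [Module R A] [AddCommGroup B] [Module R B]
    [AddCommGroup C] [Module R C] (f : A →ₗ[R] B) (g : B →ₗ[R] C), Injective f → Exact f g →
    Surjective g → FPn R n A → FPn R n C → FPn R n B := by
  induction n with
  | zero =>
    intro A B C _ _ _ _ _ _ f g _ hfg hg hA hC
    have : Module.Finite R A := hA
    have : Module.Finite R C := hC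
    exact Module.Finite.of_exact hfg hg
  | succ n ih =>
    intro A B C _ _ _ _ _ _ f g hf hfg hg hA hC
    obtain ⟨FA, _, _, α, a1, a2, a3, a4⟩ := hA
    obtain ⟨FC, _, _, γ, c1, c2, c3, c4⟩ := hC
    obtain ⟨γ', hγ'⟩ := Module.projective_lifting_property g γ hg
    have hγ : ∀ y, g (γ' y) = γ y := fun y => LinearMap.congr_fun hγ' y
    have hgf : ∀ a, g (f a) = 0 := fun a => hfg.apply_apply_eq_zero a
    refine ⟨FA × FC, inferInstance, inferInstance, (f ∘ₗ α).coprod γ', inferInstance,
      inferInstance, ?_, ?_⟩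
    · intro b
      obtain ⟨y, hy⟩ := c3 (g b)
      obtain ⟨a, ha⟩ := (hfg (b - γ' y)).1 (by simp [hγ, hy])
      obtain ⟨x, rfl⟩ := a3 a
      exact ⟨(x, y), by simp [ha]⟩
    · let j : ker α →ₗ[R] ker ((f ∘ₗ α).coprod γ') :=
        ((LinearMap.inl R FA FC) ∘ₗ (ker α).subtype).codRestrict _ (by
          intro x
          have : α x = 0 := x.2
          simp [this])
      let k : ker ((f ∘ₗ α).coprod γ') →ₗ[R] ker γ :=
        ((LinearMap.snd R FA FC) ∘ₗ (ker _).subtype).codRestrict _ (by
          intro x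
          have h1 : f (α x.1.1) + γ' x.1.2 = 0 := x.2
          have h2 := congrArg g h1
          simpa [hgf, hγ] using h2)
      refine ih j k ?_ ?_ ?_ a4 c4
      · intro x y hxy
        have := congrArg (fun z => z.1.1) hxy
        exact Subtype.ext this
      · intro x
        constructor
        · intro hx
          have h0 : x.1.2 = 0 := congrArg Subtype.val hx
          have h1 : f (α x.1.1) + γ' x.1.2 = 0 := x.2
          rw [h0, map_zero, add_zero] at h1
          have h2 : α x.1.1 = 0 := hf (by simpa using h1)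
          exact ⟨⟨x.1.1, h2⟩, Subtype.ext (Prod.ext rfl h0.symm)⟩
        · rintro ⟨y, rfl⟩
          exact Subtype.ext rfl
      · intro y
        have hy : γ y.1 = 0 := y.2
        obtain ⟨a, ha⟩ := (hfg (γ' y.1)).1 (by rw [hγ, hy])
        obtain ⟨x, rfl⟩ := a3 a
        exact ⟨⟨(-x, y.1), by simp [ha]⟩, Subtype.ext rfl⟩

/-- quotients -/
theorem quot (n : ℕ) {A B C : Type} [AddCommGroup A] [Module R A] [AddCommGroup B] [Module R B]
    [AddCommGroup C] [Module R C] (f : A →ₗ[R] B) (g : B →ₗ[R] C) (hf : Injective f)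
    (hfg : Exact f g) (hg : Surjective g) (hA : FPn R n A) (hB : FPn R (n + 1) B) :
    FPn R (n + 1) C := by
  obtain ⟨F, _, _, β, b1, b2, b3, b4⟩ := hB
  refine ⟨F, inferInstance, inferInstance, g ∘ₗ β, b1, b2, hg.comp b3, ?_⟩
  have hr : ∀ x : ker (g ∘ₗ β), β x.1 ∈ range f := fun x => (hfg (β x.1)).1 x.2
  let j : ker β →ₗ[R] ker (g ∘ₗ β) := (ker β).subtype.codRestrict _ (by
    intro x
    have : β x = 0 := x.2
    simp [this])
  let k : ker (g ∘ₗ β) →ₗ[R] A := (LinearEquiv.ofInjective f hf).symm.toLinearMap ∘ₗ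
    ((β ∘ₗ (ker (g ∘ₗ β)).subtype).codRestrict _ hr)
  have hk : ∀ x, f (k x) = β x.1 := by
    intro x
    have := LinearEquiv.ofInjective_apply f (h := hf) (k x)
    rw [← this]
    simp [k]
  refine mid n j k ?_ ?_ ?_ b4 hA
  · intro x y hxy
    have := congrArg (fun z => z.1) hxy
    exact Subtype.ext this
  · intro x
    constructor
    · intro hx
      have h1 : β x.1 = 0 := by rw [← hk, hx, map_zero]
      exact ⟨⟨x.1, h1⟩, Subtype.ext rfl⟩
    · rintro ⟨y, rfl⟩
      apply hf
      rw [hk, map_zero]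
      exact y.2
  · intro a
    obtain ⟨x, hx⟩ := b3 (f a)
    refine ⟨⟨x, ?_⟩, hf ?_⟩
    · simp [hx, hfg.apply_apply_eq_zero a]
    · rw [hk]; exact hx

/-- kernels -/
theorem sub (n : ℕ) {A B C : Type} [AddCommGroup A] [Module R A] [AddCommGroup B] [Module R B]
    [AddCommGroup C] [Module R C] (f : A →ₗ[R] B) (g : B →ₗ[R] C) (hf : Injective f)
    (hfg : Exact f g) (hg : Surjective g) (hB : FPn R n B) (hC : FPn R (n + 1) C) :
    FPn R n A := by
  obtain ⟨F, _, _, γ, c1, c2, c3, c4⟩ := hC
  obtain ⟨γ', hγ'⟩ := Module.projective_lifting_property g γ hg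
  have hγ : ∀ y, g (γ' y) = γ y := fun y => LinearMap.congr_fun hγ' y
  have hgf : ∀ a, g (f a) = 0 := fun a => hfg.apply_apply_eq_zero a
  have hr : ∀ x : ker γ, γ' x.1 ∈ range f := fun x => (hfg (γ' x.1)).1 (by rw [hγ]; exact x.2)
  let k : ker γ →ₗ[R] A := (LinearEquiv.ofInjective f hf).symm.toLinearMap ∘ₗ
    ((γ' ∘ₗ (ker γ).subtype).codRestrict _ hr)
  have hk : ∀ x, f (k x) = γ' x.1 := by
    intro x
    have := LinearEquiv.ofInjective_apply f (h := hf) (k x)
    rw [← this]
    simp [k]
  have hP : FPn R n (A × F) := by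
    refine mid n ((-k).prod (ker γ).subtype) (f.coprod γ') ?_ ?_ ?_ c4 hB
    · intro x y hxy
      have := congrArg (fun z => z.2) hxy
      exact Subtype.ext this
    · intro x
      constructor
      · intro hx
        have h1 : f x.1 + γ' x.2 = 0 := hx
        have h2 : γ x.2 = 0 := by simpa [hgf, hγ] using congrArg g h1
        refine ⟨⟨x.2, h2⟩, Prod.ext (hf ?_) rfl⟩
        have : f (k ⟨x.2, h2⟩) = γ' x.2 := hk _
        simp [this, eq_neg_of_add_eq_zero_left h1]
      · rintro ⟨y, rfl⟩
        simp [hk]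
    · intro b
      obtain ⟨y, hy⟩ := c3 (g b)
      obtain ⟨a, ha⟩ := (hfg (b - γ' y)).1 (by simp [hγ, hy])
      exact ⟨(a, y), by simp [ha]⟩
  cases n with
  | zero =>
    have : Module.Finite R (A × F) := hP
    exact Module.Finite.of_surjective (LinearMap.fst R A F) Prod.fst_surjective
  | succ n =>
    exact quot n (LinearMap.inr R A F) (LinearMap.fst R A F) LinearMap.inr_injective
      Function.Exact.inr_fst Prod.fst_surjective (of_projective n F) hP

end FPn

/-- modules of type `FP n` for every `n` -/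
def FPinf (R : Type) [Ring R] (M : Type) [AddCommGroup M] [Module R M] : Prop := ∀ n, FPn R n M

namespace FPinf
variable {R : Type} [Ring R] {A B C : Type} [AddCommGroup A] [Module R A] [AddCommGroup B]
  [Module R B] [AddCommGroup C] [Module R C]

theorem equiv (e : A ≃ₗ[R] B) (h : FPinf R A) : FPinf R B := fun n => (h n).equiv e

theorem mid (f : A →ₗ[R] B) (g : B →ₗ[R] C) (hf : Injective f) (hfg : Exact f g)
    (hg : Surjective g) (hA : FPinf R A) (hC : FPinf R C) : FPinf R B :=
  fun n => FPn.mid n f g hf hfg hg (hA n) (hC n)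

theorem quot (f : A →ₗ[R] B) (g : B →ₗ[R] C) (hf : Injective f) (hfg : Exact f g)
    (hg : Surjective g) (hA : FPinf R A) (hB : FPinf R B) : FPinf R C := by
  intro n
  cases n with
  | zero =>
    have : Module.Finite R B := hB 0
    exact Module.Finite.of_surjective g hg
  | succ n => exact FPn.quot n f g hf hfg hg (hA n) (hB _)

theorem sub (f : A →ₗ[R] B) (g : B →ₗ[R] C) (hf : Injective f) (hfg : Exact f g)
    (hg : Surjective g) (hB : FPinf R B) (hC : FPinf R C) : FPinf R A :=
  fun n => FPn.sub n f g hf hfg hg (hB n) (hC _)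

theorem of_projective (M : Type) [AddCommGroup M] [Module R M] [Module.Finite R M]
    [Module.Projective R M] : FPinf R M := fun n => FPn.of_projective n M

theorem prod (hA : FPinf R A) (hB : FPinf R B) : FPinf R (A × B) :=
  mid (LinearMap.inl R A B) (LinearMap.snd R A B) LinearMap.inl_injective
    Function.Exact.inl_snd Prod.snd_surjective hA hB

theorem ker_of_range (d : A →ₗ[R] B) (W : Submodule R B) (hW : range d = W) (hA : FPinf R A)
    (h : FPinf R W) : FPinf R (ker d) := by
  subst hW
  refine sub (ker d).subtype d.rangeRestrict Subtype.val_injective ?_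
    d.surjective_rangeRestrict hA h
  intro x
  constructor
  · intro hx
    exact ⟨⟨x, congrArg Subtype.val hx⟩, rfl⟩
  · rintro ⟨y, rfl⟩
    exact Subtype.ext y.2

end FPinf

end Pool.Agent.Lib.MP_28a49a_al
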