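import Pool.Agent.Lib.MP_28a49a_al.Defs

namespace Pool.Agent.Lib.MP_28a49a_al

open Subgroup

theorem fg_of_finPres (G : Type) [Group G] [h : Group.IsFinitelyPresented G] : Group.FG G := by
  obtain ⟨n, φ, hφ, -⟩ := h.out
  exact Group.fg_of_surjective hφ

theorem exists_gen (G : Type) [Group G] [Group.IsFinitelyPresented G] :
    ∃ T : Set G, T.Finite ∧ closure T = ⊤ := by
  obtain ⟨T, hT, hf⟩ := Group.fg_iff.mp (fg_of_finPres G)
  exact ⟨T, hf, hT⟩

theorem finPres_amalgam {G : Type} [Group G] (A B : Subgroup G) (h : IsAmalgam A B)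
    [Group.IsFinitelyPresented A] [Group.IsFinitelyPresented B]
    [Group.IsFinitelyPresented (A ⊓ B : Subgroup G)] : Group.IsFinitelyPresented G := by
  obtain ⟨T, hTf, hT⟩ := exists_gen (A ⊓ B : Subgroup G)
  let iA : (A ⊓ B : Subgroup G) →* A := inclusion inf_le_left
  let iB : (A ⊓ B : Subgroup G) →* B := inclusion inf_le_right
  let φ : Monoid.Coprod A B →* G := Monoid.Coprod.lift A.subtype B.subtype
  let R : Set (Monoid.Coprod A B) :=
    (fun c => Monoid.Coprod.inl (iA c) * (Monoid.Coprod.inr (iB c))⁻¹) '' T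
  refine Group.IsFinitelyPresented.of_surjective φ ?_ ⟨R, hTf.image _, ?_⟩
  · rw [← MonoidHom.range_eq_top, eq_top_iff, ← h.1]
    refine sup_le ?_ ?_
    · intro a ha
      exact ⟨Monoid.Coprod.inl ⟨a, ha⟩, by simp [φ]⟩
    · intro b hb
      exact ⟨Monoid.Coprod.inr ⟨b, hb⟩, by simp [φ]⟩
  · refine le_antisymm (normalClosure_le_normal ?_) ?_
    · rintro _ ⟨c, -, rfl⟩
      simp [φ, iA, iB, MonoidHom.mem_ker]
    · let q := QuotientGroup.mk' (normalClosure R)
      have hag : (q.comp Monoid.Coprod.inl).comp iA = (q.comp Monoid.Coprod.inr).comp iB := by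
        refine MonoidHom.eq_of_eqOn_dense hT ?_
        intro c hc
        have : q (Monoid.Coprod.inl (iA c) * (Monoid.Coprod.inr (iB c))⁻¹) = 1 :=
          (QuotientGroup.eq_one_iff _).mpr (subset_normalClosure ⟨c, hc, rfl⟩)
        rw [map_mul, map_inv, mul_inv_eq_one] at this
        exact this
      obtain ⟨F, hFA, hFB⟩ := h.2 _ (q.comp Monoid.Coprod.inl) (q.comp Monoid.Coprod.inr)
        (fun x ha hb => DFunLike.congr_fun hag ⟨x, ha, hb⟩)
      have hF : F.comp φ = q := by
        refine Monoid.Coprod.hom_ext ?_ ?_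
        · ext a
          simpa [φ] using hFA a
        · ext b
          simpa [φ] using hFB b
      intro x hx
      have : q x = 1 := by
        rw [← hF, MonoidHom.comp_apply, (MonoidHom.mem_ker).mp hx, map_one]
      exact (QuotientGroup.eq_one_iff _).mp this

/-- conjugation on a normal subgroup -/
def cj {G : Type} [Group G] (K : Subgroup G) [K.Normal] (g : G) : K →* K :=
  (MulAut.conjNormal g : MulAut K).toMonoidHom

theorem cj_coe {G : Type} [Group G] (K : Subgroup G) [K.Normal] (g : G) (k : K) :
    (cj K g k : G) = g * k * g⁻¹ := rfl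

theorem finPres_ext {G H : Type} [Group G] [Group H] (p : G →* H) (hp : Function.Surjective p)
    [Group.IsFinitelyPresented p.ker] [hH : Group.IsFinitelyPresented H] :
    Group.IsFinitelyPresented G := by
  obtain ⟨T, hTf, hT⟩ := exists_gen p.ker
  obtain ⟨n, ψ, hψ, R, hRf, hR⟩ := hH.out
  choose t ht using fun i : Fin n => hp (ψ (FreeGroup.of i))
  let σ : FreeGroup (Fin n) →* G := FreeGroup.lift t
  have hσ : ∀ w, p (σ w) = ψ w := by
    have : p.comp σ = ψ := by
      ext i
      simp [σ, ht]
    exact fun w => DFunLike.congr_fun this w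
  let C := Monoid.Coprod p.ker (FreeGroup (Fin n))
  let φ : C →* G := Monoid.Coprod.lift p.ker.subtype σ
  let L : Set (FreeGroup (Fin n)) :=
    Set.range FreeGroup.of ∪ Set.range fun i => (FreeGroup.of i)⁻¹
  have hLf : L.Finite := (Set.finite_range _).union (Set.finite_range _)
  have hRk : ∀ r : R, σ r ∈ p.ker := fun r => by
    rw [MonoidHom.mem_ker, hσ]
    exact (MonoidHom.mem_ker).mp (hR ▸ subset_normalClosure r.2)
  have : Finite R := hRf
  let R1 : Set C := (fun x : FreeGroup (Fin n) × p.ker =>
    Monoid.Coprod.inr x.1 * Monoid.Coprod.inl x.2 * (Monoid.Coprod.inr x.1)⁻¹ *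
      (Monoid.Coprod.inl (cj p.ker (σ x.1) x.2))⁻¹) '' (L ×ˢ T)
  let R2 : Set C := Set.range fun r : R =>
    Monoid.Coprod.inr (r : FreeGroup (Fin n)) * (Monoid.Coprod.inl (⟨σ r, hRk r⟩ : p.ker))⁻¹
  refine Group.IsFinitelyPresented.of_surjective φ ?_
    ⟨R1 ∪ R2, ((hLf.prod hTf).image _).union (Set.finite_range _), ?_⟩
  · intro g
    obtain ⟨w, hw⟩ := hψ (p g)
    have : g * (σ w)⁻¹ ∈ p.ker := by
      rw [MonoidHom.mem_ker, map_mul, map_inv, hσ, hw, mul_inv_cancel]
    exact ⟨Monoid.Coprod.inl ⟨_, this⟩ * Monoid.Coprod.inr w, by simp [φ, C]⟩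
  · refine le_antisymm (normalClosure_le_normal ?_) ?_
    · rintro _ (⟨x, -, rfl⟩ | ⟨r, rfl⟩)
      · simp [φ, C, MonoidHom.mem_ker, cj_coe]
      · simp [φ, C, MonoidHom.mem_ker]
    · let q := QuotientGroup.mk' (normalClosure (R1 ∪ R2))
      let i : p.ker →* _ := q.comp Monoid.Coprod.inl
      let j : FreeGroup (Fin n) →* _ := q.comp Monoid.Coprod.inr
      have h0 : ∀ w ∈ L, ∀ k, j w * i k * (j w)⁻¹ = i (cj p.ker (σ w) k) := by
        intro w hw k
        have : (MulAut.conj (j w)).toMonoidHom.comp i = i.comp (cj p.ker (σ w)) := by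
          refine MonoidHom.eq_of_eqOn_dense hT ?_
          intro c hc
          have : q (Monoid.Coprod.inr w * Monoid.Coprod.inl c * (Monoid.Coprod.inr w)⁻¹ *
              (Monoid.Coprod.inl (cj p.ker (σ w) c))⁻¹) = 1 :=
            (QuotientGroup.eq_one_iff _).mpr
              (subset_normalClosure (Or.inl ⟨(w, c), ⟨hw, hc⟩, rfl⟩))
          rw [map_mul, map_inv, mul_inv_eq_one, map_mul, map_mul, map_inv] at this
          exact this
        exact DFunLike.congr_fun this k
      have hmul : ∀ u v, (∀ k, j u * i k * (j u)⁻¹ = i (cj p.ker (σ u) k)) →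
          (∀ k, j v * i k * (j v)⁻¹ = i (cj p.ker (σ v) k)) →
          ∀ k, j (u * v) * i k * (j (u * v))⁻¹ = i (cj p.ker (σ (u * v)) k) := by
        intro u v hu hv k
        have e : cj p.ker (σ (u * v)) k = cj p.ker (σ u) (cj p.ker (σ v) k) := by
          apply Subtype.ext
          simp only [cj_coe, map_mul, mul_inv_rev, mul_assoc]
        rw [e, ← hu, ← hv]
        simp only [map_mul, mul_inv_rev, mul_assoc]
      have h1 : ∀ w k, j w * i k * (j w)⁻¹ = i (cj p.ker (σ w) k) := by
        intro w
        induction w using FreeGroup.induction_on with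
        | C1 =>
          intro k
          have e : cj p.ker (σ 1) k = k := by
            apply Subtype.ext
            simp [cj_coe]
          rw [e]
          simp
        | of x => exact h0 _ (Or.inl ⟨x, rfl⟩)
        | inv_of x _ => exact h0 _ (Or.inr ⟨x, rfl⟩)
        | mul u v hu hv => exact hmul u v hu hv
      let N : Subgroup (FreeGroup (Fin n)) :=
        { carrier := {w | ∃ k : p.ker, σ w = k ∧ j w = i k}
          one_mem' := ⟨1, by simp, by simp⟩
          mul_mem' := by
            rintro a b ⟨k, hk, hk'⟩ ⟨l, hl, hl'⟩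
            exact ⟨k * l, by simp [hk, hl], by rw [map_mul, map_mul, hk', hl']⟩
          inv_mem' := by
            rintro a ⟨k, hk, hk'⟩
            exact ⟨k⁻¹, by simp [hk], by rw [map_inv, map_inv, hk']⟩ }
      have : N.Normal := ⟨by
        rintro a ⟨k, hk, hk'⟩ g
        refine ⟨cj p.ker (σ g) k, by simp [cj_coe, hk], ?_⟩
        rw [map_mul, map_mul, map_inv, hk', h1]⟩
      have h2 : ψ.ker ≤ N := by
        rw [← hR]
        refine normalClosure_le_normal ?_
        intro r hr
        refine ⟨⟨σ r, hRk ⟨r, hr⟩⟩, rfl, ?_⟩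
        have : q (Monoid.Coprod.inr r *
            (Monoid.Coprod.inl (⟨σ r, hRk ⟨r, hr⟩⟩ : p.ker))⁻¹) = 1 :=
          (QuotientGroup.eq_one_iff _).mpr (subset_normalClosure (Or.inr ⟨⟨r, hr⟩, rfl⟩))
        rw [map_mul, map_inv, mul_inv_eq_one] at this
        exact this
      have h3 : ∀ x : C, ∃ (k : p.ker) (w : FreeGroup (Fin n)),
          q x = i k * j w ∧ φ x = k * σ w := by
        intro x
        induction x using Monoid.Coprod.induction_on with
        | inl k => exact ⟨k, 1, by simp [i], by simp [φ, C]⟩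
        | inr w => exact ⟨1, w, by simp [j], by simp [φ, C]⟩
        | mul x y hx hy =>
          obtain ⟨k, u, e1, e2⟩ := hx
          obtain ⟨l, v, e3, e4⟩ := hy
          refine ⟨k * cj p.ker (σ u) l, u * v, ?_, ?_⟩
          · rw [map_mul, e1, e3, map_mul, map_mul, ← h1]
            simp only [mul_assoc, inv_mul_cancel_left]
          · rw [map_mul, e2, e4, map_mul]
            simp only [Subgroup.coe_mul, cj_coe, mul_assoc, inv_mul_cancel_left]
      intro x hx
      obtain ⟨k, w, e1, e2⟩ := h3 x
      rw [(MonoidHom.mem_ker).mp hx] at e2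
      have hw : w ∈ ψ.ker := by
        have := congrArg p e2
        rw [map_one, map_mul, (MonoidHom.mem_ker).mp k.2, one_mul, hσ] at this
        exact this.symm
      obtain ⟨l, hl, hl'⟩ := h2 hw
      have hkl : k * l = 1 := by
        apply Subtype.ext
        rw [Subgroup.coe_mul, ← hl, ← e2]
        rfl
      have : q x = 1 := by rw [e1, hl', ← map_mul, hkl, map_one]
      exact (QuotientGroup.eq_one_iff _).mp this

theorem Good.finPres {Q : Type} [Group Q] (h : Good Q) : Group.IsFinitelyPresented Q := by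
  induction h with
  | int => infer_instance
  | equiv e _ ih => exact Group.IsFinitelyPresented.equiv e
  | ext p hp _ _ ih1 ih2 => exact finPres_ext p hp
  | amalgam A B h _ _ _ ih1 ih2 ih3 => exact finPres_amalgam A B h

theorem exists_rel4 (Q : Type) [Group Q] [Group.IsFinitelyPresented Q] :
    ∃ (S : Type) (_ : Finite S) (_ : Nonempty S) (s : S → Q × Multiplicative ℤ),
      Function.Surjective (FreeGroup.lift s) ∧
      (FreeGroup.lift s).ker = Subgroup.normalClosure (tupWord '' Rel4 s) := by
  classical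
  obtain ⟨n, φ, hφ, R, hRf, hR⟩ := (inferInstance : Group.IsFinitelyPresented Q).out
  obtain ⟨N0, hN0⟩ := (hRf.image fun r => r.toWord.length).bddAbove
  let N := N0 + 1
  let S := {l : List (Fin n × Bool) // l.length ≤ N}
  have : Finite S := List.finite_length_le (Fin n × Bool) N
  let e0 : S := ⟨[], by simp⟩
  let s : S → Q × Multiplicative ℤ := fun l => (φ (FreeGroup.mk l.1), Multiplicative.ofAdd 1)
  let lt : Fin n × Bool → S := fun a => ⟨[a], by simp [N]⟩
  have hs0 : s e0 = (1, Multiplicative.ofAdd 1) := by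
    simp [s, e0, ← FreeGroup.one_eq_mk]
  refine ⟨S, inferInstance, ⟨e0⟩, s, ?_, ?_⟩
  · rw [← MonoidHom.range_eq_top, eq_top_iff]
    have h1 : ((1 : Q), Multiplicative.ofAdd (1 : ℤ)) ∈ (FreeGroup.lift s).range :=
      ⟨FreeGroup.of e0, by rw [FreeGroup.lift_apply_of, hs0]⟩
    have h2 : ∀ w, (φ w, (1 : Multiplicative ℤ)) ∈ (FreeGroup.lift s).range := by
      intro w
      induction w using FreeGroup.induction_on with
      | C1 => rw [map_one]; exact one_mem _
      | of x =>
        have h3 : s (lt (x, true)) ∈ (FreeGroup.lift s).range :=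
          ⟨FreeGroup.of (lt (x, true)), by rw [FreeGroup.lift_apply_of]⟩
        have := mul_mem h3 (inv_mem h1)
        simpa [s, lt, FreeGroup.of] using this
      | inv_of x ih => simpa using inv_mem ih
      | mul u v hu hv => simpa using mul_mem hu hv
    rintro ⟨x, m⟩ -
    obtain ⟨w, rfl⟩ := hφ x
    have := mul_mem (h2 w) (zpow_mem h1 m.toAdd)
    have e : Multiplicative.ofAdd (1 : ℤ) ^ m.toAdd = m := by
      rw [← ofAdd_zsmul]
      simp
    simpa [e] using this
  · refine le_antisymm ?_ (normalClosure_le_normal ?_)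
    swap
    · rintro _ ⟨r, hr, rfl⟩
      exact hr
    let q := QuotientGroup.mk' (normalClosure (tupWord '' Rel4 s))
    let e : S → _ := fun x => q (FreeGroup.of x)
    have rel : ∀ a b c d : S, φ (FreeGroup.mk a.1) * φ (FreeGroup.mk b.1) =
        φ (FreeGroup.mk c.1) * φ (FreeGroup.mk d.1) → e a * e b = e c * e d := by
      intro a b c d h
      have hw : tupWord ((a, true), (b, true), (c, true), (d, true)) =
          FreeGroup.of a * FreeGroup.of b * (FreeGroup.of c * FreeGroup.of d)⁻¹ := rfl
      have hm : ((a, true), (b, true), (c, true), (d, true)) ∈ Rel4 s := by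
        change FreeGroup.lift s _ = 1
        rw [hw, map_mul, map_inv, mul_inv_eq_one, map_mul, map_mul]
        simp only [FreeGroup.lift_apply_of, s, Prod.mk_mul_mk, h]
      have : q (tupWord ((a, true), (b, true), (c, true), (d, true))) = 1 :=
        (QuotientGroup.eq_one_iff _).mpr (subset_normalClosure ⟨_, hm, rfl⟩)
      rw [hw, map_mul, map_inv, mul_inv_eq_one, map_mul, map_mul] at this
      exact this
    have h0 : φ (FreeGroup.mk e0.1) = 1 := by simp [e0, ← FreeGroup.one_eq_mk]
    have hc : ∀ x, Commute (e x) (e e0) := fun x => rel x e0 e0 x (by simp [h0])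
    let hat : S → _ := fun x => e x * (e e0)⁻¹
    have hmul : ∀ a b c : S, φ (FreeGroup.mk a.1) * φ (FreeGroup.mk b.1) =
        φ (FreeGroup.mk c.1) → hat a * hat b = hat c := by
      intro a b c h
      have h1 := rel a b c e0 (by rw [h, h0, mul_one])
      have h2 : (e e0)⁻¹ * e b = e b * (e e0)⁻¹ := (hc b).symm.inv_left.eq
      calc hat a * hat b = e a * ((e e0)⁻¹ * e b) * (e e0)⁻¹ := by simp only [hat, mul_assoc]
        _ = (e a * e b) * (e e0)⁻¹ * (e e0)⁻¹ := by rw [h2]; simp only [mul_assoc]
        _ = hat c := by rw [h1]; simp only [hat, mul_inv_cancel_right]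
    have hat0 : hat e0 = 1 := mul_inv_cancel _
    let θ : FreeGroup (Fin n) →* _ := FreeGroup.lift fun i => hat (lt (i, true))
    have hlt : ∀ a, θ (FreeGroup.mk [a]) = hat (lt a) := by
      rintro ⟨i, b⟩
      cases b
      · have e1 : (FreeGroup.mk [(i, false)] : FreeGroup (Fin n)) = (FreeGroup.of i)⁻¹ := rfl
        have e2 : (FreeGroup.mk [(i, true)] : FreeGroup (Fin n)) = FreeGroup.of i := rfl
        rw [e1, map_inv, FreeGroup.lift_apply_of, inv_eq_iff_mul_eq_one, ← hat0]
        apply hmul
        rw [h0]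
        simp only [lt, e1, e2, map_inv, mul_inv_cancel]
      · exact FreeGroup.lift_apply_of
    have hθ : ∀ (l : List (Fin n × Bool)) (hl : l.length ≤ N),
        θ (FreeGroup.mk l) = hat ⟨l, hl⟩ := by
      intro l
      induction l with
      | nil =>
        intro hl
        rw [← FreeGroup.one_eq_mk, map_one]
        exact hat0.symm
      | cons a l ih =>
        intro hl
        have hl' : l.length ≤ N := le_trans (Nat.le_succ _) hl
        have e1 : FreeGroup.mk (a :: l) = FreeGroup.mk [a] * FreeGroup.mk l := by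
          rw [FreeGroup.mul_mk]; rfl
        rw [e1, map_mul, hlt, ih hl']
        apply hmul
        simp only [lt, e1, map_mul]
    have hker : φ.ker ≤ θ.ker := by
      rw [← hR]
      refine normalClosure_le_normal ?_
      intro r hr
      have hl : r.toWord.length ≤ N := le_trans (hN0 ⟨r, hr, rfl⟩) (Nat.le_succ _)
      have hr1 : φ r = 1 := (MonoidHom.mem_ker).mp (hR ▸ subset_normalClosure hr)
      have h1 := hmul ⟨_, hl⟩ e0 e0 (by simp [h0, FreeGroup.mk_toWord, hr1])
      rw [hat0, mul_one, ← hθ, FreeGroup.mk_toWord] at h1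
      exact h1
    have hz : ∀ y, Commute y (e e0) := by
      intro y
      obtain ⟨w, rfl⟩ := QuotientGroup.mk'_surjective _ y
      induction w using FreeGroup.induction_on with
      | C1 => rw [map_one]; exact Commute.one_left _
      | of x => exact hc x
      | inv_of x ih => rw [map_inv]; exact ih.inv_left
      | mul u v hu hv => rw [map_mul]; exact hu.mul_left hv
    let θ' := φ.liftOfSurjective hφ ⟨θ, hker⟩
    have hθ' : ∀ w, θ' (φ w) = θ w := fun w => φ.liftOfRightInverse_comp_apply _ _ _ w
    let ζ : Multiplicative ℤ →* _ := zpowersHom _ (e e0)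
    let Ψ := θ'.noncommCoprod ζ fun x m => (hz (θ' x)).zpow_right _
    have hΨ : Ψ.comp (FreeGroup.lift s) = q := by
      ext x
      have : Ψ (s x) = e x := by
        change θ' (φ (FreeGroup.mk x.1)) * ζ (Multiplicative.ofAdd 1) = e x
        rw [hθ', hθ x.1 x.2]
        simp [ζ, hat]
      simpa using this
    intro w hw
    have : q w = 1 := by
      rw [← hΨ, MonoidHom.comp_apply, (MonoidHom.mem_ker).mp hw, map_one]
    exact (QuotientGroup.eq_one_iff _).mp this

end Pool.Agent.Lib.MP_28a49a_al
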