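import Pool.Agent.Lib.MP_28a49a_al.Rho

namespace Pool.Agent.Lib.MP_28a49a_al

theorem bdry_of {S ρ : Type} (w : ρ → FreeGroup S) (u : FreeGroup S) (r : ρ) :
    bdry w (FreeGroup.of (u, r)) = u * w r * u⁻¹ := FreeGroup.lift_apply_of

theorem shift_of {S ρ : Type} (g u : FreeGroup S) (r : ρ) :
    shift g (FreeGroup.of (u, r)) = FreeGroup.of (g * u, r) := by simp [shift]

theorem bdry_shift {S ρ : Type} (w : ρ → FreeGroup S) (g : FreeGroup S)
    (p : FreeGroup (FreeGroup S × ρ)) : bdry w (shift g p) = g * bdry w p * g⁻¹ := by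
  induction p using FreeGroup.induction_on with
  | C1 => simp
  | of p => obtain ⟨u, r⟩ := p; rw [shift_of, bdry_of, bdry_of]; group
  | inv_of p ih => rw [map_inv, map_inv, ih, map_inv]; group
  | mul p q ih1 ih2 => rw [map_mul, map_mul, ih1, ih2, map_mul]; group

theorem shift_shift {S ρ : Type} (g h : FreeGroup S) (p : FreeGroup (FreeGroup S × ρ)) :
    shift g (shift h p) = shift (g * h) p := by
  have : (shift (ρ := ρ) g).comp (shift h) = shift (g * h) := by
    ext ⟨u, r⟩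
    simp only [MonoidHom.comp_apply, shift_of, mul_assoc]
  exact DFunLike.congr_fun this p

theorem shift_one {S ρ : Type} (p : FreeGroup (FreeGroup S × ρ)) : shift 1 p = p := by
  have : shift (S := S) (ρ := ρ) 1 = MonoidHom.id _ := by
    ext ⟨u, r⟩
    simp only [shift_of, one_mul, MonoidHom.id_apply]
  rw [this]; rfl

theorem bdry_range {S ρ : Type} (w : ρ → FreeGroup S) {f : FreeGroup S}
    (hf : f ∈ Subgroup.normalClosure (Set.range w)) : ∃ p, bdry w p = f := by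
  have hn : (bdry w).range.Normal := ⟨by
    rintro _ ⟨p, rfl⟩ g
    exact ⟨shift g p, bdry_shift w g p⟩⟩
  refine Subgroup.normalClosure_le_normal (N := (bdry w).range) ?_ hf
  rintro _ ⟨r, rfl⟩
  exact ⟨FreeGroup.of (1, r), by rw [bdry_of]; group⟩

namespace Lab
variable {E V S : Type} {X : SqSys E} {R : Set (Tup S)} {L : Lab X V S R}
variable {Γ : Type} [Group Γ] {φ : Γ →* L.Xp.G}

/-- the relators as words -/
abbrev tw (R : Set (Tup S)) : R → FreeGroup S := fun r => tupWord r.1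

namespace Coc2
variable (C : L.Coc2 φ)

def genPerm (y : V) (p : FreeGroup S × R) : Equiv.Perm (FreeGroup S × Γ) where
  toFun s := (p.1 * tupWord p.2.1 * p.1⁻¹ * s.1, s.2 * C.ρ y p.1 p.2 (p.1⁻¹ * s.1))
  invFun s := ((p.1 * tupWord p.2.1 * p.1⁻¹)⁻¹ * s.1,
    s.2 * (C.ρ y p.1 p.2 (p.1⁻¹ * ((p.1 * tupWord p.2.1 * p.1⁻¹)⁻¹ * s.1)))⁻¹)
  left_inv s := by simp only [inv_mul_cancel_left, mul_inv_cancel_right]
  right_inv s := by simp only [mul_inv_cancel_left, inv_mul_cancel_right]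

def Psi (y : V) : FreeGroup (FreeGroup S × R) →* Equiv.Perm (FreeGroup S × Γ) :=
  FreeGroup.lift (C.genPerm y)

def D (y : V) (p : FreeGroup (FreeGroup S × R)) (f : FreeGroup S) : Γ := (C.Psi y p (f, 1)).2

theorem Psi_apply (y : V) (p : FreeGroup (FreeGroup S × R)) : ∀ f g,
    C.Psi y p (f, g) = (bdry (tw R) p * f, g * C.D y p f) := by
  induction p using FreeGroup.induction_on with
  | C1 => intro f g; simp [D]
  | of p =>
    intro f g
    simp only [D, Psi, FreeGroup.lift_apply_of, bdry]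
    simp [genPerm]
  | inv_of p ih =>
    have key : ∀ f g, C.Psi y (FreeGroup.of p)⁻¹ (f, g) = ((bdry (tw R) (FreeGroup.of p))⁻¹ * f,
        g * (C.D y (FreeGroup.of p) ((bdry (tw R) (FreeGroup.of p))⁻¹ * f))⁻¹) := by
      intro f g
      rw [map_inv, Equiv.Perm.inv_eq_iff_eq, ih]
      simp
    intro f g
    unfold D
    rw [key, key, map_inv, one_mul]
  | mul p q ih1 ih2 =>
    intro f g
    unfold D
    simp only [map_mul, Equiv.Perm.mul_apply, ih1, ih2, one_mul, mul_assoc]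

theorem D_one (y : V) (f : FreeGroup S) : C.D y 1 f = 1 := by simp [D]

theorem D_mul (y : V) (p q : FreeGroup (FreeGroup S × R)) (f : FreeGroup S) :
    C.D y (p * q) f = C.D y q f * C.D y p (bdry (tw R) q * f) := by
  conv_lhs => unfold D
  rw [map_mul, Equiv.Perm.mul_apply, Psi_apply, Psi_apply, one_mul]

theorem D_inv (y : V) (p : FreeGroup (FreeGroup S × R)) (f : FreeGroup S) :
    C.D y p⁻¹ f = (C.D y p ((bdry (tw R) p)⁻¹ * f))⁻¹ := by
  have := C.D_mul y p p⁻¹ f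
  rw [mul_inv_cancel, D_one, map_inv] at this
  exact eq_inv_of_mul_eq_one_left this.symm

theorem D_of (y : V) (u : FreeGroup S) (r : R) (f : FreeGroup S) :
    C.D y (FreeGroup.of (u, r)) f = C.ρ y u r (u⁻¹ * f) := by
  simp [D, Psi, genPerm]

theorem D_left {a : E} (ha : L.lft a) (p : FreeGroup (FreeGroup S × R)) : ∀ f,
    C.D (L.src a) p f = C.c f a * C.D (L.tgt a) (shift (fl (L.lab a))⁻¹ p) ((fl (L.lab a))⁻¹ * f) *
      (C.c (bdry (tw R) p * f) a)⁻¹ := by
  induction p using FreeGroup.induction_on with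
  | C1 => intro f; simp [D_one]
  | of p =>
    intro f
    obtain ⟨u, r⟩ := p
    rw [shift_of, D_of, D_of, bdry_of, C.ρ_left a u r _ ha, mul_inv_cancel_left]
    congr 3
    · group
    · simp only [mul_assoc]
  | inv_of p ih =>
    intro f
    rw [map_inv, D_inv, D_inv, ih, bdry_shift, map_inv, mul_inv_cancel_left]
    have : ((fl (L.lab a))⁻¹ * bdry (tw R) (FreeGroup.of p) * (fl (L.lab a))⁻¹⁻¹)⁻¹ *
        ((fl (L.lab a))⁻¹ * f) = (fl (L.lab a))⁻¹ * ((bdry (tw R) (FreeGroup.of p))⁻¹ * f) := by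
      group
    rw [this]; group
  | mul p q ih1 ih2 =>
    intro f
    rw [map_mul, D_mul, D_mul, ih1, ih2, bdry_shift, map_mul]
    have : (fl (L.lab a))⁻¹ * bdry (tw R) q * (fl (L.lab a))⁻¹⁻¹ * ((fl (L.lab a))⁻¹ * f) =
        (fl (L.lab a))⁻¹ * (bdry (tw R) q * f) := by group
    rw [this, mul_assoc (bdry (tw R) p)]; group

theorem D_right {e : E} (he : ¬ L.lft e) (p : FreeGroup (FreeGroup S × R)) : ∀ f,
    C.D (L.src e) p f = C.c f e * C.D (L.tgt e) p (f * fl (L.lab e)) *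
      (C.c (bdry (tw R) p * f) e)⁻¹ := by
  induction p using FreeGroup.induction_on with
  | C1 => intro f; simp [D_one]
  | of p =>
    intro f
    obtain ⟨u, r⟩ := p
    rw [D_of, D_of, bdry_of, C.ρ_right e u r _ he, mul_inv_cancel_left]
    simp only [mul_assoc]
  | inv_of p ih =>
    intro f
    rw [D_inv, D_inv, ih, map_inv, mul_inv_cancel_left, mul_assoc _ f]; group
  | mul p q ih1 ih2 =>
    intro f
    rw [D_mul, D_mul, ih1, ih2, map_mul, mul_assoc (bdry (tw R) p), mul_assoc (bdry (tw R) q)]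
    group

theorem D_gauge (y : V) (p : FreeGroup (FreeGroup S × R)) : ∀ f,
    φ (C.D y p f) = C.τ y f * (C.τ y (bdry (tw R) p * f))⁻¹ := by
  induction p using FreeGroup.induction_on with
  | C1 => intro f; simp [D_one]
  | of p =>
    intro f
    obtain ⟨u, r⟩ := p
    rw [D_of, bdry_of, C.ρ_gauge, mul_inv_cancel_left]
    simp only [mul_assoc]
  | inv_of p ih => intro f; rw [D_inv, map_inv, ih, map_inv, mul_inv_cancel_left]; group
  | mul p q ih1 ih2 =>
    intro f; rw [D_mul, map_mul, ih1, ih2, map_mul, mul_assoc (bdry (tw R) p)]; group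

theorem D_map {Γ' : Type} [Group Γ'] (q : Γ →* Γ') (φ' : Γ' →* L.Xp.G) (h : ∀ g, φ' (q g) = φ g)
    (y : V) (p : FreeGroup (FreeGroup S × R)) : ∀ f, (C.map q φ' h).D y p f = q (C.D y p f) := by
  induction p using FreeGroup.induction_on with
  | C1 => intro f; simp [D_one]
  | of p => intro f; obtain ⟨u, r⟩ := p; rw [D_of, D_of]; rfl
  | inv_of p ih => intro f; rw [D_inv, D_inv, ih, map_inv]
  | mul p q ih1 ih2 => intro f; rw [D_mul, D_mul, ih1, ih2, map_mul]

def NN : Subgroup (FreeGroup (FreeGroup S × R)) := ⨅ y, (C.Psi y).ker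

theorem mem_NN {p : FreeGroup (FreeGroup S × R)} (y0 : V) :
    p ∈ C.NN ↔ bdry (tw R) p = 1 ∧ ∀ y f, C.D y p f = 1 := by
  simp only [NN, Subgroup.mem_iInf, MonoidHom.mem_ker]
  constructor
  · intro h
    refine ⟨?_, fun y f => by simp [D, h y]⟩
    have := C.Psi_apply y0 p 1 1
    rw [h y0, mul_one] at this
    exact (congrArg Prod.fst this).symm
  · rintro ⟨h1, h2⟩ y
    refine Equiv.ext fun s => ?_
    obtain ⟨f, g⟩ := s
    rw [Psi_apply, h1, h2]; simp

theorem NN_shift_fl (y0 : V) (x : Let S) {p : FreeGroup (FreeGroup S × R)} (hp : p ∈ C.NN) :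
    shift (fl x) p ∈ C.NN := by
  rw [C.mem_NN y0] at hp ⊢
  refine ⟨by rw [bdry_shift, hp.1]; group, fun y f => ?_⟩
  obtain ⟨a, a1, a2, a3⟩ := L.ex_left y x
  rw [← a1, C.D_left a2, a3, shift_shift, inv_mul_cancel, shift_one, hp.2, bdry_shift, hp.1]
  simp

theorem NN_shift (y0 : V) (g : FreeGroup S) : ∀ p ∈ C.NN, shift g p ∈ C.NN := by
  induction g using FreeGroup.induction_on with
  | C1 => intro p hp; rwa [shift_one]
  | of x => intro p hp; exact C.NN_shift_fl y0 (x, true) hp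
  | inv_of x _ =>
    intro p hp
    have := C.NN_shift_fl y0 (bar (x, true)) hp
    rwa [fl_bar] at this
  | mul g h ih1 ih2 => intro p hp; rw [← shift_shift]; exact ih1 _ (ih2 _ hp)

theorem ρ_two {a b : E} (ha : L.lft a) (hb : L.lft b) (hab : L.src b = L.tgt a)
    (u : FreeGroup S) (r : R) (v : FreeGroup S) :
    C.ρ (L.src a) u r v = C.c (u * v) a * C.c (L.pos (u * v) a) b *
      C.ρ (L.tgt b) (L.pos (L.pos u a) b) r v *
      (C.c (u * tupWord r.1 * v) a * C.c (L.pos (u * tupWord r.1 * v) a) b)⁻¹ := by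
  rw [C.ρ_left a u r v ha, ← hab, C.ρ_left b _ r v hb]
  simp only [L.pos_left ha, L.pos_left hb, mul_assoc]
  group

theorem peiffer_one (y : V) (r r' : R) (u v : FreeGroup S) :
    C.ρ y 1 r (u * v) * C.ρ y (tupWord r.1 * u) r' v =
      C.ρ y u r' v * C.ρ y 1 r (u * tupWord r'.1 * v) := by
  obtain ⟨a, b, c, d, h, rfl, ha, hc, hr⟩ := L.ex_sq y r.1 r.2
  have hq : L.LSq r.1 a b c d := ⟨h, ha, hc, hr⟩
  rw [C.ρ_sq r _ a b c d hq, C.ρ_sq r _ a b c d hq,
    C.ρ_two ha ((lft_bb h).2 hc) (src_b h) (tupWord r.1 * u), hq.far]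
  conv_rhs => rw [← src_c h, C.ρ_two hc ((lft_d h).2 ha) (src_d h) u, tgt_d h]
  simp only [mul_assoc]
  group

theorem NN_peiffer (y0 : V) (u : FreeGroup S) (r : R) (u' : FreeGroup S) (r' : R) :
    FreeGroup.of (u, r) * FreeGroup.of (u', r') * (FreeGroup.of (u, r))⁻¹ *
      (FreeGroup.of (u * tw R r * u⁻¹ * u', r'))⁻¹ ∈ C.NN := by
  have key : ∀ u' : FreeGroup S, FreeGroup.of ((1 : FreeGroup S), r) * FreeGroup.of (u', r') *
      (FreeGroup.of ((1 : FreeGroup S), r))⁻¹ * (FreeGroup.of (tw R r * u', r'))⁻¹ ∈ C.NN := by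
    intro u'
    rw [C.mem_NN y0]
    refine ⟨by simp only [map_mul, map_inv, bdry_of]; group, fun y f => ?_⟩
    obtain ⟨v, rfl⟩ : ∃ v, f = tupWord r.1 * u' * tupWord r'.1 * v :=
      ⟨(tupWord r.1 * u' * tupWord r'.1)⁻¹ * f, by group⟩
    simp only [D_mul, D_inv, D_of, map_inv, bdry_of, tw]
    have e1 : (tupWord r.1 * u')⁻¹ * ((tupWord r.1 * u' * tupWord r'.1 * (tupWord r.1 * u')⁻¹)⁻¹ *
        (tupWord r.1 * u' * tupWord r'.1 * v)) = v := by group
    have e2 : (1 : FreeGroup S)⁻¹ * ((1 * tupWord r.1 * 1⁻¹)⁻¹ *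
        ((tupWord r.1 * u' * tupWord r'.1 * (tupWord r.1 * u')⁻¹)⁻¹ *
        (tupWord r.1 * u' * tupWord r'.1 * v))) = u' * v := by group
    have e3 : u'⁻¹ * ((1 * tupWord r.1 * 1⁻¹)⁻¹ *
        ((tupWord r.1 * u' * tupWord r'.1 * (tupWord r.1 * u')⁻¹)⁻¹ *
        (tupWord r.1 * u' * tupWord r'.1 * v))) = v := by group
    have e4 : (1 : FreeGroup S)⁻¹ * (u' * tupWord r'.1 * u'⁻¹ * ((1 * tupWord r.1 * 1⁻¹)⁻¹ *
        ((tupWord r.1 * u' * tupWord r'.1 * (tupWord r.1 * u')⁻¹)⁻¹ *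
        (tupWord r.1 * u' * tupWord r'.1 * v)))) = u' * tupWord r'.1 * v := by group
    rw [e1, e2, e3, e4, ← C.peiffer_one y r r' u' v]
    group
  have := C.NN_shift y0 u _ (key (u⁻¹ * u'))
  simp only [map_mul, map_inv, shift_of, mul_one, mul_inv_cancel_left] at this
  simpa only [mul_assoc] using this

theorem NN_of_one (y0 : V) {p : FreeGroup (FreeGroup S × R)} (h : bdry (tw R) p = 1)
    (h1 : ∀ y, C.D y p 1 = 1) : p ∈ C.NN := by
  rw [C.mem_NN y0]
  refine ⟨h, fun y f => ?_⟩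
  have key : ∀ n, ∀ f, nrm f = n → ∀ y, C.D y p f = 1 := by
    intro n
    induction n with
    | zero => intro f hf y; rw [eq_one_of_nrm hf, h1]
    | succ n ih =>
      intro f hf y
      obtain ⟨z, hz⟩ := exists_right (f := f) (by omega)
      obtain ⟨e, e1, e2, e3⟩ := L.ex_right y z
      rw [← e1, C.D_right e2, e3, ih _ (by omega), h]
      simp
  exact key _ f rfl y

end Coc2

section final
variable {Q : Type} [Group Q] {s : S → Q} {L : Lab X V S (Rel4 s)} {φ : Γ →* L.Xp.G}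

theorem injective_of (hs : Function.Surjective (FreeGroup.lift s))
    (hker : (FreeGroup.lift s).ker = Subgroup.normalClosure (tupWord '' Rel4 s))
    (C : L.Coc2 φ) (hN : ∀ p, bdry (tw (Rel4 s)) p = 1 → ∀ y f, C.D y p f = 1)
    (mk : FreeGroup L.Core →* Γ)
    (hc : ∀ x : L.Core, C.c (cp x.1.1) x.1.2.1 = mk (FreeGroup.of x)) :
    (FreeGroup.lift L.eta).ker ≤ mk.ker := by
  classical
  let π : FreeGroup S →* Q := FreeGroup.lift s
  choose σ hσ using hs
  have hex : ∀ f g, π f = π g → ∃ p, bdry (tw (Rel4 s)) p * f = g := by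
    intro f g h
    obtain ⟨p, hp⟩ := bdry_range (tw (Rel4 s)) (f := g * f⁻¹) (by
      rw [← Set.image_eq_range, ← hker, MonoidHom.mem_ker, map_mul, map_inv]
      show π g * (π f)⁻¹ = 1
      rw [h, mul_inv_cancel])
    exact ⟨p, by rw [hp, inv_mul_cancel_right]⟩
  let Dd : V → FreeGroup S → FreeGroup S → Γ := fun y f g =>
    if h : ∃ p, bdry (tw (Rel4 s)) p * f = g then C.D y h.choose f else 1
  have Dd_eq : ∀ y p f, Dd y f (bdry (tw (Rel4 s)) p * f) = C.D y p f := by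
    intro y p f
    have h : ∃ p', bdry (tw (Rel4 s)) p' * f = bdry (tw (Rel4 s)) p * f := ⟨p, rfl⟩
    simp only [Dd, dif_pos h]
    have e := mul_right_cancel h.choose_spec
    have := C.D_mul y (h.choose * p⁻¹) p f
    rw [inv_mul_cancel_right, hN (h.choose * p⁻¹) (by rw [map_mul, map_inv, e, mul_inv_cancel]),
      mul_one] at this
    exact this
  have Dd_self : ∀ y f, Dd y f f = 1 := by
    intro y f
    have := Dd_eq y 1 f
    rwa [map_one, one_mul, C.D_one] at this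
  have Dd_trans : ∀ y f g h, π f = π g → π g = π h → Dd y f g * Dd y g h = Dd y f h := by
    intro y f g h h1 h2
    obtain ⟨p, rfl⟩ := hex f g h1
    obtain ⟨q, rfl⟩ := hex _ h h2
    rw [Dd_eq, Dd_eq, ← mul_assoc, ← map_mul, Dd_eq, C.D_mul]
  have Dd_nat : ∀ e f g, π f = π g →
      Dd (L.src e) f g * C.c g e = C.c f e * Dd (L.tgt e) (L.pos f e) (L.pos g e) := by
    intro e f g h
    obtain ⟨p, rfl⟩ := hex f g h
    rw [Dd_eq]
    by_cases he : L.lft e
    · have : (fl (L.lab e))⁻¹ * (bdry (tw (Rel4 s)) p * f) =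
          bdry (tw (Rel4 s)) (shift (fl (L.lab e))⁻¹ p) * ((fl (L.lab e))⁻¹ * f) := by
        rw [bdry_shift]; group
      rw [C.D_left he, L.pos_left he, L.pos_left he, this, Dd_eq, inv_mul_cancel_right]
    · rw [C.D_right he, L.pos_right he, L.pos_right he, mul_assoc _ f, Dd_eq, inv_mul_cancel_right]
  have pos_congr : ∀ e f g, π f = π g → π (L.pos f e) = π (L.pos g e) := by
    intro e f g h
    by_cases he : L.lft e
    · rw [L.pos_left he, L.pos_left he, map_mul, map_mul, h]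
    · rw [L.pos_right he, L.pos_right he, map_mul, map_mul, h]
  let qp : Q → E → Q := fun q e => π (L.pos (σ q) e)
  have qp_eq : ∀ f e, qp (π f) e = π (L.pos f e) := fun f e => pos_congr e _ _ (hσ _)
  let Cq : Q → E → Γ := fun q e => C.c (σ q) e * Dd (L.tgt e) (L.pos (σ q) e) (σ (qp q e))
  have Cq_eq : ∀ f e, Cq (π f) e =
      Dd (L.src e) (σ (π f)) f * C.c f e * Dd (L.tgt e) (L.pos f e) (σ (π (L.pos f e))) := by
    intro f e
    simp only [Cq]
    rw [Dd_nat e _ f (hσ _), mul_assoc, Dd_trans _ _ _ _ (pos_congr e _ _ (hσ _)) (hσ _).symm,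
      qp_eq]
  have Cq_two : ∀ f a b, L.src b = L.tgt a → Cq (π f) a * Cq (π (L.pos f a)) b =
      Dd (L.src a) (σ (π f)) f * (C.c f a * C.c (L.pos f a) b) *
        Dd (L.tgt b) (L.pos (L.pos f a) b) (σ (π (L.pos (L.pos f a) b))) := by
    intro f a b h
    have := Dd_trans (L.tgt a) (L.pos f a) (σ (π (L.pos f a))) (L.pos f a) (hσ _).symm (hσ _)
    rw [Dd_self] at this
    rw [Cq_eq, Cq_eq, h, eq_inv_of_mul_eq_one_left this]
    group
  have Cq_inv : ∀ f e, Cq (π f) e * Cq (π (L.pos f e)) (X.inv e) = 1 := by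
    intro f e
    rw [Cq_two f e _ rfl, C.c_inv, L.pos_inv, L.tgt_inv0, mul_inv_cancel, mul_one,
      Dd_trans _ _ _ _ (hσ _) (hσ _).symm, Dd_self]
  have Cq_sq : ∀ a b c d, X.S a b c d → ∀ f, π (L.pos (L.pos f a) b) = π (L.pos (L.pos f c) d) ∧
      Cq (π f) a * Cq (π (L.pos f a)) b = Cq (π f) c * Cq (π (L.pos f c)) d := by
    intro a b c d h f
    have flat : L.pos (L.pos f a) b = L.pos (L.pos f c) d →
        π (L.pos (L.pos f a) b) = π (L.pos (L.pos f c) d) ∧
        Cq (π f) a * Cq (π (L.pos f a)) b = Cq (π f) c * Cq (π (L.pos f c)) d := by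
      intro hf
      refine ⟨by rw [hf], ?_⟩
      rw [Cq_two f a b (src_b h), Cq_two f c d (src_d h), C.c_sq f a b c d h hf, hf, src_c h,
        tgt_d h]
    by_cases ha : L.lft a
    · by_cases hc : L.lft c
      · let r : Rel4 s := ⟨_, L.sq_left h ha hc⟩
        have hq : L.LSq r.1 a b c d := ⟨h, ha, hc, rfl⟩
        have hr : π (tupWord r.1 * f) = π f := by
          rw [map_mul, show π (tupWord r.1) = 1 from r.2, one_mul]
        have hfar := hq.far f
        refine ⟨by rw [← hfar]; exact pos_congr _ _ _ (pos_congr _ _ _ hr.symm), ?_⟩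
        have e1 := Cq_two (tupWord r.1 * f) a b (src_b h)
        rw [hr, pos_congr a _ _ hr] at e1
        have e2 := Dd_eq (L.src a) (FreeGroup.of (1, r)) f
        rw [bdry_of, C.D_of, C.ρ_sq r _ a b c d hq] at e2
        simp only [one_mul, inv_one, mul_one, tw] at e2
        rw [e1, Cq_two f c d (src_d h), hfar, src_c h, tgt_d h,
          ← Dd_trans (L.src a) (σ (π f)) f (tupWord r.1 * f) (hσ _) hr.symm, e2]
        group
      · exact flat (mixed_flat h ha hc f)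
    · exact flat (mixed_flat (X.symm h) (((L.sq_side h).2).resolve_left ha) ha f).symm
  let A : E → Option Q × Γ → Option Q × Γ := fun e t => match t with
    | (none, g) => (none, g)
    | (some q, g) => (some (qp q (X.inv e)), Cq (qp q (X.inv e)) e * g)
  have A_eq : ∀ e f g, A e (some (π (L.pos f e)), g) = (some (π f), Cq (π f) e * g) := by
    intro e f g
    simp only [A]
    rw [qp_eq, L.pos_inv]
  have A_inv : ∀ e t, A e (A (X.inv e) t) = t := by
    rintro e ⟨_ | q, g⟩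
    · rfl
    · obtain ⟨f, rfl⟩ : ∃ f, π f = q := ⟨σ q, hσ q⟩
      have h1 := A_eq (X.inv e) (L.pos f e) g
      rw [L.pos_inv] at h1
      rw [h1, A_eq, ← mul_assoc, Cq_inv, one_mul]
  let AP : E → Equiv.Perm (Option Q × Γ) := fun e =>
    ⟨A e, A (X.inv e), fun t => by
      have := A_inv (X.inv e) t
      rwa [X.inv_inv] at this, A_inv e⟩
  have AP_eq : ∀ e t, AP e t = A e t := fun _ _ => rfl
  let TP : V → Option (Let S) → Equiv.Perm (Option Q × Γ) := fun y o =>
    { toFun := fun t => match t with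
        | (none, g) => (some (π (cp o)), g)
        | (some q, g) => if q = π (cp o) then (none, Dd y (cp o) (σ (π (cp o))) * g) else (some q, g)
      invFun := fun t => match t with
        | (none, g) => (some (π (cp o)), (Dd y (cp o) (σ (π (cp o))))⁻¹ * g)
        | (some q, g) => if q = π (cp o) then (none, g) else (some q, g)
      left_inv := by
        rintro ⟨_ | q, g⟩
        · simp
        · by_cases h : q = π (cp o) <;> simp [h]
      right_inv := by
        rintro ⟨_ | q, g⟩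
        · simp
        · by_cases h : q = π (cp o) <;> simp [h] }
  let Φ : L.Xp.G →* Equiv.Perm (Option Q × Γ) := L.liftP AP TP
    (fun e => Equiv.ext fun t => A_inv e t) (by
      intro a b c d h
      refine Equiv.ext ?_
      rintro ⟨_ | q, g⟩
      · rfl
      · obtain ⟨f, rfl⟩ : ∃ f, π (L.pos (L.pos f a) b) = q :=
          ⟨L.pos (L.pos (σ q) (X.inv b)) (X.inv a), by rw [L.pos_inv', L.pos_inv']; exact hσ q⟩
        simp only [Equiv.Perm.mul_apply, AP_eq]
        obtain ⟨k1, k2⟩ := Cq_sq a b c d h f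
        rw [A_eq, A_eq, k1, A_eq, A_eq, ← mul_assoc, k2, mul_assoc])
  have gen : ∀ (x : L.Core) g, Φ (L.eta x) (none, g) = (none, mk (FreeGroup.of x) * g) := by
    rintro ⟨⟨o, e, o'⟩, hx⟩ g
    simp only at hx
    have t1 : (TP (L.tgt e) o')⁻¹ (none, g) =
        (some (π (cp o')), (Dd (L.tgt e) (cp o') (σ (π (cp o'))))⁻¹ * g) := rfl
    have t2 : ∀ g, TP (L.src e) o (some (π (cp o)), g) =
        (none, Dd (L.src e) (cp o) (σ (π (cp o))) * g) := fun g => by simp [TP]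
    simp only [eta, map_mul, map_inv, Φ, liftP_ee, liftP_tt, Equiv.Perm.mul_apply]
    rw [t1, ← hx]
    rw [AP_eq, A_eq, t2, Cq_eq, ← hc ⟨(o, e, o'), hx⟩]
    have := Dd_trans (L.src e) (cp o) (σ (π (cp o))) (cp o) (hσ _).symm (hσ _)
    rw [Dd_self] at this
    rw [eq_inv_of_mul_eq_one_left this]
    congr 1
    group
  have all : ∀ (w : FreeGroup L.Core) g,
      Φ (FreeGroup.lift L.eta w) (none, g) = (none, mk w * g) := by
    intro w
    induction w using FreeGroup.induction_on with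
    | C1 => intro g; simp
    | of x => intro g; rw [FreeGroup.lift_apply_of, gen]
    | inv_of x ih =>
      intro g
      rw [map_inv, map_inv, Equiv.Perm.inv_eq_iff_eq, ih, map_inv, mul_inv_cancel_left]
    | mul a b ih1 ih2 =>
      intro g
      rw [map_mul, map_mul, Equiv.Perm.mul_apply, ih2, ih1, map_mul, mul_assoc]
  intro w hw
  have := all w 1
  rw [MonoidHom.mem_ker.1 hw, map_one, mul_one] at this
  exact (congrArg Prod.snd this).symm

end final
end Lab

open Lab in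
/-- BLOCK B: the fibre subgroup is finitely presented -/
theorem finpres {E V S Q : Type} [Finite E] [Finite V] [Finite S] [Group Q] (s : S → Q)
    (hs : Function.Surjective (FreeGroup.lift s))
    (hker : (FreeGroup.lift s).ker = Subgroup.normalClosure (tupWord '' Rel4 s))
    (hT : T3 (fun r : Rel4 s => tupWord r.1))
    {X : SqSys E} (L : Lab X V S (Rel4 s)) :
    ∃ R : Finset (FreeGroup L.Core),
      (FreeGroup.lift L.eta).ker = Subgroup.normalClosure (R : Set (FreeGroup L.Core)) := by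
  obtain ⟨K, hK, hK1, hK2⟩ := hT
  have : Finite K := hK
  -- stage 0
  obtain ⟨Γ0, _, q0, φ0, s0, f0, c0, r0⟩ := refine_model (ι := L.Core)
    (MonoidHom.id (FreeGroup L.Core)) Function.surjective_id
    (by rw [MonoidHom.ker_id]; exact Subgroup.IsFinitelyNormallyGenerated.bot)
    (FreeGroup.lift L.eta) (fun x => FreeGroup.of (Core.rev L x)) (fun x => (FreeGroup.of x)⁻¹)
    (fun x => by simp [eta_rev])
  obtain ⟨Γ1, _, q1, φ1, s1, f1, c1, r1⟩ := refine_model
    (ι := {p : L.Core × L.Core × L.Core × L.Core //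
      L.eta p.1 * L.eta p.2.1 = L.eta p.2.2.1 * L.eta p.2.2.2}) _ s0 f0 φ0
    (fun p => q0 (FreeGroup.of p.1.1) * q0 (FreeGroup.of p.1.2.1))
    (fun p => q0 (FreeGroup.of p.1.2.2.1) * q0 (FreeGroup.of p.1.2.2.2))
    (fun p => by simpa only [map_mul, c0, FreeGroup.lift_apply_of] using p.2)
  have g1 : ∀ x, φ1 (q1 (q0 (FreeGroup.of x))) = L.eta x := fun x => by
    rw [c1, c0, FreeGroup.lift_apply_of]
  obtain ⟨C1, hC1⟩ := exists_coc φ1 (fun x => q1 (q0 (FreeGroup.of x))) g1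
    (fun x => by rw [r0 x, map_inv, map_inv]) (fun x1 x2 x3 x4 h => by
      simp only [map_mul, g1] at h
      simpa only [map_mul] using r1 ⟨(x1, x2, x3, x4), h⟩)
  -- stage 1
  obtain ⟨Γ2, _, q2, φ2, s2, f2, c2, r2⟩ := refine_model
    (ι := {p : Tup S × (E × E × E × E) × (E × E × E × E) //
      L.LSq p.1 p.2.1.1 p.2.1.2.1 p.2.1.2.2.1 p.2.1.2.2.2 ∧
      L.LSq p.1 p.2.2.1 p.2.2.2.1 p.2.2.2.2.1 p.2.2.2.2.2 ∧ L.src p.2.1.1 = L.src p.2.2.1}) _ s1 f1 φ1
    (fun p => C1.sqv (tupWord p.1.1) 1 p.1.2.1.1 p.1.2.1.2.1 p.1.2.1.2.2.1 p.1.2.1.2.2.2)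
    (fun p => C1.sqv (tupWord p.1.1) 1 p.1.2.2.1 p.1.2.2.2.1 p.1.2.2.2.2.1 p.1.2.2.2.2.2)
    (fun p => by rw [C1.sqv_gauge p.2.1, C1.sqv_gauge p.2.2.1, p.2.2.2])
  obtain ⟨Γ3, _, q3, φ3, s3, f3, c3, r3⟩ := refine_model
    (ι := {p : Tup S × (E × E) × (E × E × E × E) × (E × E × E × E) //
      L.lft p.2.1.1 ∧ L.lft p.2.1.2 ∧ L.src p.2.1.1 = L.src p.2.1.2 ∧
      L.lab p.2.1.1 = L.lab p.2.1.2 ∧
      L.LSq p.1 p.2.2.1.1 p.2.2.1.2.1 p.2.2.1.2.2.1 p.2.2.1.2.2.2 ∧
      L.LSq p.1 p.2.2.2.1 p.2.2.2.2.1 p.2.2.2.2.2.1 p.2.2.2.2.2.2 ∧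
      L.src p.2.2.1.1 = L.tgt p.2.1.1 ∧ L.src p.2.2.2.1 = L.tgt p.2.1.2}) _ s2 f2 φ2
    (fun p => q2 (C1.c (fl (L.lab p.1.2.1.1)) p.1.2.1.1 * C1.sqv (tupWord p.1.1) 1 p.1.2.2.1.1
      p.1.2.2.1.2.1 p.1.2.2.1.2.2.1 p.1.2.2.1.2.2.2 *
      (C1.c (fl (L.lab p.1.2.1.1) * tupWord p.1.1) p.1.2.1.1)⁻¹))
    (fun p => q2 (C1.c (fl (L.lab p.1.2.1.1)) p.1.2.1.2 * C1.sqv (tupWord p.1.1) 1 p.1.2.2.2.1
      p.1.2.2.2.2.1 p.1.2.2.2.2.2.1 p.1.2.2.2.2.2.2 *
      (C1.c (fl (L.lab p.1.2.1.1) * tupWord p.1.1) p.1.2.1.2)⁻¹))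
    (by
      rintro ⟨⟨r, ⟨p, p'⟩, ⟨a, b, c, d⟩, ⟨a', b', c', d'⟩⟩, k1, k2, k3, k4, k5, k6, k7, k8⟩
      simp only at k1 k2 k3 k4 k5 k6 k7 k8 ⊢
      simp only [c2, map_mul, map_inv, C1.sqv_gauge k5, C1.sqv_gauge k6, C1.gauge, k7, k8, k3,
        L.pos_left k1, L.pos_left k2, ← k4, inv_mul_cancel, inv_mul_cancel_left, mul_one]
      group)
  let C3 : L.Coc φ3 := (C1.map q2 φ2 c2).map q3 φ3 c3
  have sq3 : ∀ w v a b c d, C3.sqv w v a b c d = q3 (q2 (C1.sqv w v a b c d)) := by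
    intro w v a b c d
    simp only [Coc.sqv, map_mul, map_inv]; rfl
  have b1 : C3.Base1 := by
    intro r _ a b c d a' b' c' d' k1 k2 k3
    rw [sq3, sq3]
    exact congrArg q3 (r2 ⟨(r, (a, b, c, d), (a', b', c', d')), k1, k2, k3⟩)
  have b2 : C3.Base2 := by
    intro r _ p p' a b c d a' b' c' d' k1 k2 k3 k4 k5 k6 k7 k8
    have := r3 ⟨(r, (p, p'), (a, b, c, d), (a', b', c', d')), k1, k2, k3, k4, k5, k6, k7, k8⟩
    simp only [map_mul, map_inv] at this
    rw [sq3, sq3]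
    exact this
  -- stage 2
  let C4 := C3.toCoc2 b1 b2
  obtain ⟨Γ5, _, q5, φ5, s5, f5, c5, r5⟩ := refine_model (ι := K × V) _ s3 f3 φ3
    (fun p => C4.D p.2 p.1.1 1) (fun _ => 1)
    (fun p => by
      rw [C4.D_gauge, show bdry (tw (Rel4 s)) p.1.1 = 1 from hK1 _ p.1.2]; simp)
  let C5 := C4.map q5 φ5 c5
  have hN : ∀ p, bdry (tw (Rel4 s)) p = 1 → ∀ y f, C5.D y p f = 1 := by
    intro p hp y
    have hn : C5.NN.Normal := Subgroup.normal_iInf_normal fun _ => inferInstance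
    have := hK2 C5.NN hn (C5.NN_shift y) (C5.NN_peiffer y) (fun k hk =>
      C5.NN_of_one y (hK1 k hk) fun y' => by
        rw [C4.D_map, r5 (⟨k, hk⟩, y'), map_one]) (MonoidHom.mem_ker.2 hp)
    exact ((C5.mem_NN y).1 this).2 y
  obtain ⟨R, hR, hR'⟩ := f5
  refine ⟨hR.toFinset, ?_⟩
  rw [hR.coe_toFinset, hR']
  have g5 : ∀ x, φ5 ((q5.comp (q3.comp (q2.comp (q1.comp (q0.comp (MonoidHom.id _))))))
      (FreeGroup.of x)) = L.eta x := fun x => by
    simp only [MonoidHom.comp_apply, MonoidHom.id_apply, c5, c3, c2, g1]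
  refine le_antisymm (injective_of hs hker C5 hN _ fun x => ?_) ?_
  · exact congrArg (fun t => q5 (q3 (q2 t))) (hC1 x)
  · intro w hw
    have : FreeGroup.lift L.eta = φ5.comp
        (q5.comp (q3.comp (q2.comp (q1.comp (q0.comp (MonoidHom.id _)))))) := by
      ext x
      rw [FreeGroup.lift_apply_of, MonoidHom.comp_apply, g5]
    rw [MonoidHom.mem_ker, this, MonoidHom.comp_apply, MonoidHom.mem_ker.1 hw, map_one]

end Pool.Agent.Lib.MP_28a49a_al
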