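import Pool.Agent.Lib.MP_28a49a_al.Garside

namespace Pool.Agent.Lib.MP_28a49a_al
namespace SqSys
variable {E : Type} {X : SqSys E}

theorem key_lemma {a e : E} {p q : X.G} (ha : X.Desc a p) (hq : ¬ X.Desc a q)
    (h1 : X.Desc e ((X.gen a)⁻¹ * p)) (h2 : X.Desc e ((X.gen a)⁻¹ * q)) :
    ∃ x, X.Desc x p ∧ X.Desc x q := by
  have h3 := not_desc hq
  have h4 : X.Desc (X.inv a) ((X.gen a)⁻¹ * q) := by
    unfold Desc
    rw [gen_inv, _root_.inv_inv, mul_inv_cancel_left, h3]
  have h5 : X.inv a ≠ e := by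
    rintro rfl
    unfold Desc at h1 ha
    rw [gen_inv, _root_.inv_inv, mul_inv_cancel_left] at h1
    omega
  obtain ⟨x, y, hS, h6, _⟩ := quad h4 h2 h5
  rw [gen_inv, _root_.inv_inv, mul_inv_cancel_left] at h6
  refine ⟨x, desc_of_le ?_, h6⟩
  have h7 := gen_sq hS
  rw [gen_inv] at h7
  have h8 : (X.gen x)⁻¹ * p = (X.gen y)⁻¹ * ((X.gen e)⁻¹ * ((X.gen a)⁻¹ * p)) := by
    have : X.gen x = X.gen a * (X.gen e * X.gen y) := by rw [← h7, mul_inv_cancel_left]
    rw [this]; group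
  rw [h8]
  have h9 := len_mul (X.gen y)⁻¹ ((X.gen e)⁻¹ * ((X.gen a)⁻¹ * p))
  rw [len_inv] at h9
  have := len_gen_le (X := X) y
  unfold Desc at h1 ha
  omega

variable (X) in
def Cop (p q : X.G) : Prop := ∀ a, X.Desc a p → X.Desc a q → False

theorem len_cop (n : ℕ) : ∀ p q : X.G, X.len p = n → X.Cop p q →
    X.len (p⁻¹ * q) = X.len p + X.len q := by
  induction n with
  | zero =>
    intro p q hp _
    rw [eq_one_of_len hp]; simp
  | succ n ih =>
    intro p q hp h
    obtain ⟨a, ha⟩ := exists_desc (g := p) (by omega)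
    have hq : ¬ X.Desc a q := h a ha
    have h1 := ih ((X.gen a)⁻¹ * p) ((X.gen a)⁻¹ * q) (by unfold Desc at ha; omega)
      (fun e h1 h2 => by
        obtain ⟨x, h3, h4⟩ := key_lemma ha hq h1 h2
        exact h x h3 h4)
    have h2 : ((X.gen a)⁻¹ * p)⁻¹ * ((X.gen a)⁻¹ * q) = p⁻¹ * q := by group
    rw [h2, not_desc hq] at h1
    unfold Desc at ha
    omega

variable (X) in
def Pre (m g : X.G) : Prop := X.len m + X.len (m⁻¹ * g) = X.len g

theorem exists_gcd (n : ℕ) : ∀ p q : X.G, X.len p = n →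
    ∃ m, X.Pre m p ∧ X.Pre m q ∧ X.Cop (m⁻¹ * p) (m⁻¹ * q) := by
  induction n with
  | zero =>
    intro p q hp
    refine ⟨1, by simp [Pre], by simp [Pre], fun a h _ => ?_⟩
    unfold Desc at h
    rw [inv_one, one_mul] at h
    omega
  | succ n ih =>
    intro p q hp
    by_cases h : X.Cop p q
    · exact ⟨1, by simp [Pre], by simp [Pre], by simpa using h⟩
    · obtain ⟨a, ha, hb⟩ : ∃ a, X.Desc a p ∧ X.Desc a q := by
        by_contra h1
        exact h fun a h2 h3 => h1 ⟨a, h2, h3⟩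
      obtain ⟨m, h1, h2, h3⟩ := ih ((X.gen a)⁻¹ * p) ((X.gen a)⁻¹ * q)
        (by unfold Desc at ha; omega)
      have e1 : ∀ g : X.G, (X.gen a * m)⁻¹ * g = m⁻¹ * ((X.gen a)⁻¹ * g) := fun g => by group
      have e2 := len_mul (X.gen a) m
      have e3 := len_gen_le (X := X) a
      have e4 : ∀ g : X.G, X.len g ≤ X.len (X.gen a * m) + X.len ((X.gen a * m)⁻¹ * g) := by
        intro g
        have := len_mul (X.gen a * m) ((X.gen a * m)⁻¹ * g)
        rwa [mul_inv_cancel_left] at this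
      refine ⟨X.gen a * m, ?_, ?_, by rw [e1, e1]; exact h3⟩
      · have := e4 p
        unfold Pre Desc at *
        rw [e1] at this ⊢
        omega
      · have := e4 q
        unfold Pre Desc at *
        rw [e1] at this ⊢
        omega

def W (k : ℕ) (q : ℕ → E) : List E := (List.range k).map q

theorem W_zero (q : ℕ → E) : W 0 q = [] := rfl

theorem W_succ (k : ℕ) (q : ℕ → E) : W (k + 1) q = q 0 :: W k fun j => q (j + 1) := by
  simp [W, List.range_succ_eq_map, Function.comp_def]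

theorem W_succ' (k : ℕ) (q : ℕ → E) : W (k + 1) q = W k q ++ [q k] := by
  simp [W, List.range_succ]

theorem W_length (k : ℕ) (q : ℕ → E) : (W k q).length = k := by simp [W]

theorem W_add (j m : ℕ) (q : ℕ → E) : W (j + m) q = W j q ++ W m fun i => q (j + i) := by
  induction m with
  | zero => simp [W]
  | succ m ih => rw [← add_assoc, W_succ', ih, W_succ', List.append_assoc]

theorem len_W (k : ℕ) (q : ℕ → E) : X.len (X.ev (W k q)) ≤ k := by
  simpa [W_length] using len_ev (X := X) (W k q)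

variable (X) in
/-- the word `W k q` is the beginning of a geodesic word for `g` -/
def PreL (k : ℕ) (q : ℕ → E) (g : X.G) : Prop := X.len ((X.ev (W k q))⁻¹ * g) + k = X.len g

theorem PreL.len_eq {k : ℕ} {q : ℕ → E} {g : X.G} (h : X.PreL k q g) :
    X.len (X.ev (W k q)) = k := by
  have h1 := len_W (X := X) k q
  have h2 := len_mul (X.ev (W k q)) ((X.ev (W k q))⁻¹ * g)
  rw [mul_inv_cancel_left] at h2
  unfold PreL at h
  omega

theorem PreL.succ {k : ℕ} {q : ℕ → E} {g : X.G} (h : X.PreL (k + 1) q g) :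
    X.Desc (q 0) g ∧ X.PreL k (fun j => q (j + 1)) ((X.gen (q 0))⁻¹ * g) := by
  unfold PreL at h
  rw [W_succ, ev_cons, mul_inv_rev, mul_assoc] at h
  have h1 := len_W (X := X) k fun j => q (j + 1)
  have h2 := len_mul (X.ev (W k fun j => q (j + 1)))
    ((X.ev (W k fun j => q (j + 1)))⁻¹ * ((X.gen (q 0))⁻¹ * g))
  rw [mul_inv_cancel_left] at h2
  have h3 : X.Desc (q 0) g := desc_of_le (by omega)
  refine ⟨h3, ?_⟩
  unfold PreL Desc at *
  omega

theorem PreL.desc {k : ℕ} {q : ℕ → E} {g : X.G} (h : X.PreL (k + 1) q g) :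
    X.Desc (q 0) (X.ev (W (k + 1) q)) := by
  have h1 := h.len_eq
  have h2 := h.succ.2.len_eq
  unfold Desc
  rw [h1, W_succ, ev_cons, inv_mul_cancel_left, h2]

theorem push (k : ℕ) : ∀ (q : ℕ → E) (g : X.G) (a : E), X.PreL k q g → X.Desc a g →
    ¬ X.Desc a (X.ev (W k q)) → ∃ q' h : ℕ → E, h 0 = a ∧
      (∀ j < k, X.S (h j) (q' j) (q j) (h (j + 1))) ∧ X.PreL k q' ((X.gen a)⁻¹ * g) ∧
      X.gen a * X.ev (W k q') = X.ev (W k q) * X.gen (h k) := by
  induction k with
  | zero =>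
    intro q g a _ _ _
    exact ⟨q, fun _ => a, rfl, fun j hj => absurd hj (by omega), by simp [PreL, W_zero],
      by simp [W_zero]⟩
  | succ k ih =>
    intro q g a h1 h2 h3
    obtain ⟨h4, h5⟩ := h1.succ
    have hac : a ≠ q 0 := by
      rintro rfl
      exact h3 h1.desc
    obtain ⟨b, d, hS, h6, h7⟩ := quad h2 h4 hac
    have hsq := gen_sq hS
    have h8 : ¬ X.Desc d (X.ev (W k fun j => q (j + 1))) := by
      intro h8
      apply h3
      apply desc_of_le
      have e : (X.gen a)⁻¹ * X.ev (W (k + 1) q) =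
          X.gen b * ((X.gen d)⁻¹ * X.ev (W k fun j => q (j + 1))) := by
        rw [W_succ, ev_cons]
        have : X.gen (q 0) = X.gen a * X.gen b * (X.gen d)⁻¹ := by rw [hsq]; group
        rw [this]; group
      rw [e, h1.len_eq]
      have := len_mul (X.gen b) ((X.gen d)⁻¹ * X.ev (W k fun j => q (j + 1)))
      have := len_gen_le (X := X) b
      have := h5.len_eq
      unfold Desc at h8
      omega
    obtain ⟨q1, h1', k1, k2, k3, k4⟩ := ih _ _ d h5 h7 h8
    refine ⟨fun j => Nat.casesOn j b q1, fun j => Nat.casesOn j a h1', rfl, ?_, ?_, ?_⟩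
    · intro j hj
      cases j with
      | zero => simpa [k1] using hS
      | succ j => exact k2 j (by omega)
    · unfold PreL at k3 ⊢
      rw [W_succ, ev_cons]
      have e : (X.gen b * X.ev (W k q1))⁻¹ * ((X.gen a)⁻¹ * g) =
          (X.ev (W k q1))⁻¹ * ((X.gen d)⁻¹ * ((X.gen (q 0))⁻¹ * g)) := by
        have : X.gen b = (X.gen a)⁻¹ * (X.gen (q 0) * X.gen d) := by rw [← hsq]; group
        rw [this]; group
      show X.len ((X.gen b * X.ev (W k q1))⁻¹ * ((X.gen a)⁻¹ * g)) + (k + 1) = _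
      rw [e]
      unfold Desc at *
      omega
    · rw [W_succ, W_succ, ev_cons, ev_cons]
      show X.gen a * (X.gen b * X.ev (W k q1)) = _ * X.gen (h1' k)
      rw [← mul_assoc, hsq, mul_assoc, k4, mul_assoc]

theorem rect (k m : ℕ) : ∀ (p q : ℕ → E) (g : X.G), X.PreL m p g → X.PreL k q g →
    X.Cop (X.ev (W m p)) (X.ev (W k q)) → ∃ h v : ℕ → ℕ → E, (∀ i < m, h i 0 = p i) ∧ v 0 = q ∧
      (∀ i < m, ∀ j < k, X.S (h i j) (v (i + 1) j) (v i j) (h i (j + 1))) ∧
      X.PreL k (v m) ((X.ev (W m p))⁻¹ * g) := by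
  induction m with
  | zero =>
    intro p q g _ h _
    exact ⟨fun _ => q, fun _ => q, fun i hi => absurd hi (by omega), rfl,
      fun i hi => absurd hi (by omega), by simpa [W_zero] using h⟩
  | succ m ih =>
    intro p q g h1 h2 h3
    obtain ⟨h4, h5⟩ := h1.succ
    have h6 := h1.desc
    have h7 : ¬ X.Desc (p 0) (X.ev (W k q)) := h3 _ h6
    obtain ⟨q', h0, k1, k2, k3, k4⟩ := push k q g (p 0) h2 h4 h7
    have h8 : X.Cop (X.ev (W m fun j => p (j + 1))) (X.ev (W k q')) := by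
      intro e e1 e2
      have e3 : X.Desc e ((X.gen (p 0))⁻¹ * X.ev (W (m + 1) p)) := by
        rw [W_succ, ev_cons, inv_mul_cancel_left]; exact e1
      have e4 : X.Desc e ((X.gen (p 0))⁻¹ * X.ev (W k q)) := by
        apply desc_of_le
        have e5 : (X.gen e)⁻¹ * ((X.gen (p 0))⁻¹ * X.ev (W k q)) =
            ((X.gen e)⁻¹ * X.ev (W k q')) * (X.gen (h0 k))⁻¹ := by
          have : X.ev (W k q) = X.gen (p 0) * X.ev (W k q') * (X.gen (h0 k))⁻¹ := by
            rw [k4]; group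
          rw [this]; group
        rw [e5, not_desc h7, h2.len_eq]
        have := len_mul ((X.gen e)⁻¹ * X.ev (W k q')) (X.gen (h0 k))⁻¹
        rw [len_inv] at this
        have := len_gen_le (X := X) (h0 k)
        have := k3.len_eq
        unfold Desc at e2
        omega
      obtain ⟨x, e5, e6⟩ := key_lemma h6 h7 e3 e4
      exact h3 x e5 e6
    obtain ⟨h, v, l1, l2, l3, l4⟩ := ih _ q' _ h5 k3 h8
    refine ⟨fun i => Nat.casesOn i h0 h, fun i => Nat.casesOn i q v, ?_, rfl, ?_, ?_⟩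
    · intro i hi
      cases i with
      | zero => exact k1
      | succ i => exact l1 i (by omega)
    · intro i hi j hj
      cases i with
      | zero =>
        show X.S (h0 j) (v 0 j) (q j) (h0 (j + 1))
        rw [l2]; exact k2 j hj
      | succ i => exact l3 i (by omega) j hj
    · rw [W_succ, ev_cons, mul_inv_rev, mul_assoc]
      exact l4

theorem exists_preL (k : ℕ) [Nonempty E] : ∀ g : X.G, k ≤ X.len g → ∃ p, X.PreL k p g := by
  induction k with
  | zero => intro g _; exact ⟨fun _ => Classical.arbitrary E, by simp [PreL, W_zero]⟩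
  | succ k ih =>
    intro g hg
    obtain ⟨a, ha⟩ := exists_desc (g := g) (by omega)
    obtain ⟨p, hp⟩ := ih ((X.gen a)⁻¹ * g) (by unfold Desc at ha; omega)
    refine ⟨fun j => Nat.casesOn j a p, ?_⟩
    unfold PreL at hp ⊢
    rw [W_succ, ev_cons, mul_inv_rev, mul_assoc]
    show X.len ((X.ev (W k p))⁻¹ * ((X.gen a)⁻¹ * g)) + (k + 1) = _
    unfold Desc at ha
    omega

theorem PreL.trans {k : ℕ} {p : ℕ → E} {g w : X.G} (h : X.PreL k p g) (h' : X.Pre g w) :
    X.PreL k p w := by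
  have h1 := len_mul ((X.ev (W k p))⁻¹ * g) (g⁻¹ * w)
  have h2 := len_mul (X.ev (W k p)) ((X.ev (W k p))⁻¹ * w)
  have h3 := len_W (X := X) k p
  rw [mul_inv_cancel_left] at h2
  rw [mul_assoc, mul_inv_cancel_left] at h1
  unfold PreL Pre at *
  omega

theorem PreL.desc_of {k : ℕ} {p : ℕ → E} {g : X.G} (h : X.PreL k p g) {a : E}
    (ha : X.Desc a (X.ev (W k p))) : X.Desc a g := by
  apply desc_of_le
  have h1 := len_mul ((X.gen a)⁻¹ * X.ev (W k p)) ((X.ev (W k p))⁻¹ * g)
  rw [mul_assoc, mul_inv_cancel_left] at h1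
  have := h.len_eq
  unfold PreL Desc at *
  omega

theorem grid_rows {k : ℕ} (h v : ℕ → ℕ → E)
    (hS : ∀ i < k, ∀ j < k, X.S (h i j) (v (i + 1) j) (v i j) (h i (j + 1)))
    (i j : ℕ) (hi : i ≤ k) (hj : j ≤ k) :
    X.ev (W i fun i => h i 0) * X.ev (W j (v i)) = X.ev (W j (v 0)) * X.ev (W i fun i => h i j) := by
  have strip : ∀ i < k, ∀ j ≤ k,
      X.gen (h i 0) * X.ev (W j (v (i + 1))) = X.ev (W j (v i)) * X.gen (h i j) := by
    intro i hi j hj
    induction j with
    | zero => simp [W_zero]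
    | succ j ih =>
      rw [W_succ', W_succ', ev_append, ev_append, ← mul_assoc, ih (by omega)]
      simp only [ev_cons, ev_nil, mul_one]
      rw [mul_assoc, gen_sq (hS i hi j (by omega)), mul_assoc]
  induction i with
  | zero => simp [W_zero]
  | succ i ih =>
    rw [W_succ', W_succ', ev_append, ev_append]
    simp only [ev_cons, ev_nil, mul_one]
    rw [mul_assoc, strip i (by omega) j hj, ← mul_assoc, ih (by omega), mul_assoc]

theorem grid_geo {k : ℕ} (h v : ℕ → ℕ → E)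
    (hS : ∀ i < k, ∀ j < k, X.S (h i j) (v (i + 1) j) (v i j) (h i (j + 1)))
    (hl : X.len (X.ev (W k fun i => h i 0) * X.ev (W k (v k))) = k + k) (j : ℕ) (hj : j ≤ k) :
    X.Geo (W k fun i => h i j) := by
  apply geo_of_len
  rw [W_length]
  refine le_antisymm (len_W _ _) ?_
  obtain ⟨m, rfl⟩ := Nat.exists_eq_add_of_le hj
  rw [W_add j m (v (j + m)), ev_append, ← mul_assoc,
    grid_rows h v hS (j + m) j le_rfl hj] at hl
  have h1 := len_mul (X.ev (W j (v 0)) * X.ev (W (j + m) fun i => h i j))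
    (X.ev (W m fun i => v (j + m) (j + i)))
  have h2 := len_mul (X.ev (W j (v 0))) (X.ev (W (j + m) fun i => h i j))
  have h3 := len_W (X := X) j (v 0)
  have h4 := len_W (X := X) m fun i => v (j + m) (j + i)
  omega

theorem thin {k : ℕ} (hk : X.NoGrid k) {p q w : X.G} (hp : X.Pre p w) (hq : X.Pre q w)
    (h : X.Cop p q) : X.len p ≤ k ∨ X.len q ≤ k := by
  by_contra hc
  obtain ⟨a0, _⟩ := exists_desc (g := p) (by omega)
  have : Nonempty E := ⟨a0⟩
  obtain ⟨p', h1⟩ := exists_preL k p (by omega)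
  obtain ⟨q', h2⟩ := exists_preL k q (by omega)
  obtain ⟨hh, v, l1, l2, l3, l4⟩ := rect k k p' q' w (h1.trans hp) (h2.trans hq)
    fun a e1 e2 => h a (h1.desc_of e1) (h2.desc_of e2)
  have e1 : (W k fun i => hh i 0) = W k p' := by
    unfold W
    exact List.map_congr_left fun i hi => l1 i (List.mem_range.1 hi)
  have hl : X.len (X.ev (W k fun i => hh i 0) * X.ev (W k (v k))) = k + k := by
    rw [e1]
    have h3 := len_mul (X.ev (W k p')) (X.ev (W k (v k)))
    have h4 := len_W (X := X) k p'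
    have h5 := len_W (X := X) k (v k)
    have h6 := len_mul (X.ev (W k p') * X.ev (W k (v k)))
      ((X.ev (W k (v k)))⁻¹ * ((X.ev (W k p'))⁻¹ * w))
    rw [mul_assoc, mul_inv_cancel_left, mul_inv_cancel_left] at h6
    have h7 := h1.trans hp
    unfold PreL at l4 h7
    omega
  refine hk hh v l3 (fun j hj => grid_geo hh v l3 hl j hj) fun i hi => ?_
  refine grid_geo (fun j i => v i j) (fun j i => hh i j)
    (fun j hj i hi => X.symm (l3 i hi j hj)) ?_ i hi
  rw [← hl, grid_rows hh v l3 k k le_rfl le_rfl]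

theorem four_one {k : ℕ} (hk : X.NoGrid k) (a b c : X.G) :
    X.len (a⁻¹ * b) + X.len c ≤
      max (X.len (a⁻¹ * c) + X.len b) (X.len (c⁻¹ * b) + X.len a) + 2 * k := by
  obtain ⟨m1, p1, p2, p3⟩ := exists_gcd _ a c rfl
  obtain ⟨m2, q1, q2, q3⟩ := exists_gcd _ c b rfl
  obtain ⟨m, r1, r2, r3⟩ := exists_gcd _ m1 m2 rfl
  have e1 := len_cop _ _ _ rfl p3
  have e2 := len_cop _ _ _ rfl q3
  have e3 : ∀ m x y : X.G, (m⁻¹ * x)⁻¹ * (m⁻¹ * y) = x⁻¹ * y := fun m x y => by group
  rw [e3] at e1 e2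
  have tri : ∀ x y z : X.G, X.len (x⁻¹ * z) ≤ X.len (x⁻¹ * y) + X.len (y⁻¹ * z) := by
    intro x y z
    have := len_mul (x⁻¹ * y) (y⁻¹ * z)
    rwa [mul_assoc, mul_inv_cancel_left] at this
  have sym : ∀ x y : X.G, X.len (x⁻¹ * y) = X.len (y⁻¹ * x) := by
    intro x y
    rw [← len_inv]; congr 1; group
  have t0 : ∀ x y : X.G, X.len y ≤ X.len x + X.len (x⁻¹ * y) := by
    intro x y
    have := len_mul x (x⁻¹ * y)
    rwa [mul_inv_cancel_left] at this
  have t1 := tri m m1 c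
  have t2 := tri m m2 c
  have t3 := t0 m c
  have t4 := tri a m b
  have t5 := tri m m1 a
  have t6 := tri m m2 b
  have t7 := sym a m
  have h := thin hk (p := m⁻¹ * m1) (q := m⁻¹ * m2) (w := m⁻¹ * c)
    (by unfold Pre at *; rw [e3]; omega) (by unfold Pre at *; rw [e3]; omega) r3
  unfold Pre at *
  omega

theorem four_point {k : ℕ} (hk : X.NoGrid k) (x y z w : X.G) :
    X.len (x⁻¹ * z) + X.len (y⁻¹ * w) ≤
      max (X.len (x⁻¹ * y) + X.len (z⁻¹ * w)) (X.len (x⁻¹ * w) + X.len (y⁻¹ * z)) + 2 * k := by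
  have h := four_one hk (y⁻¹ * x) (y⁻¹ * z) (y⁻¹ * w)
  have e3 : ∀ m x y : X.G, (m⁻¹ * x)⁻¹ * (m⁻¹ * y) = x⁻¹ * y := fun m x y => by group
  have sym : ∀ x y : X.G, X.len (x⁻¹ * y) = X.len (y⁻¹ * x) := by
    intro x y
    rw [← len_inv]; congr 1; group
  rw [e3, e3, e3, sym w z, sym y x] at h
  omega

theorem lift_mk (l : List (E × Bool)) : FreeGroup.lift X.gen (FreeGroup.mk l) =
    X.ev (l.map fun p => if p.2 then p.1 else X.inv p.1) := by
  rw [FreeGroup.lift_mk]
  induction l with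
  | nil => simp
  | cons p l ih =>
    obtain ⟨e, b⟩ := p
    simp only [List.map_cons, List.prod_cons, ev_cons, ih]
    cases b <;> simp [gen_inv]

theorem len_eq_sInf (g : X.G) : X.len g = sInf {k : ℕ | ∃ l : List (E × Bool),
    l.length = k ∧ FreeGroup.lift X.gen (FreeGroup.mk l) = g} := by
  obtain ⟨l, hl, rfl⟩ := exists_len g
  have hm : X.len (X.ev l) ∈ {k : ℕ | ∃ l' : List (E × Bool),
      l'.length = k ∧ FreeGroup.lift X.gen (FreeGroup.mk l') = X.ev l} := by
    refine ⟨l.map fun e => (e, true), by simpa using hl, ?_⟩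
    rw [lift_mk, List.map_map]
    simp [Function.comp_def]
  refine le_antisymm ?_ (Nat.sInf_le hm)
  obtain ⟨l', h1, h2⟩ := Nat.sInf_mem ⟨_, hm⟩
  rw [← h1, ← h2, lift_mk]
  simpa using len_ev (X := X) (l'.map fun p => if p.2 then p.1 else X.inv p.1)

/-- BLOCK A: the group of a finite square system without large grids is hyperbolic -/
theorem hyperbolic [Finite E] {k : ℕ} (hk : X.NoGrid k) :
    ∃ (β : Type) (_ : Finite β) (s : β → X.G),
      Function.Surjective (FreeGroup.lift s) ∧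
      ∃ (d : X.G → X.G → ℕ),
        (∀ x y : X.G, d x y = sInf {k : ℕ | ∃ l : List (β × Bool),
            l.length = k ∧ FreeGroup.lift s (FreeGroup.mk l) = x⁻¹ * y}) ∧
        ∃ δ : ℕ, ∀ x y z w : X.G,
          d x z + d y w ≤ max (d x y + d z w) (d x w + d y z) + 2 * δ := by
  refine ⟨E, inferInstance, X.gen, fun g => ?_, fun x y => X.len (x⁻¹ * y),
    fun x y => len_eq_sInf _, k, four_point hk⟩
  obtain ⟨l, rfl⟩ := exists_ev g
  refine ⟨FreeGroup.mk (l.map fun e => (e, true)), ?_⟩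
  rw [lift_mk, List.map_map]
  simp [Function.comp_def]

variable (X) in
/-- free product with a free group -/
def addFree (T : Type) : SqSys (E ⊕ T × Bool) where
  inv := Sum.map X.inv fun p => (p.1, !p.2)
  inv_inv := by rintro (e | ⟨t, b⟩) <;> simp [X.inv_inv]
  S a b c d := ∃ a' b' c' d', X.S a' b' c' d' ∧ a = Sum.inl a' ∧ b = Sum.inl b' ∧
    c = Sum.inl c' ∧ d = Sum.inl d'
  symm := by
    rintro _ _ _ _ ⟨a, b, c, d, h, rfl, rfl, rfl, rfl⟩
    exact ⟨c, d, a, b, X.symm h, rfl, rfl, rfl, rfl⟩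
  rot := by
    rintro _ _ _ _ ⟨a, b, c, d, h, rfl, rfl, rfl, rfl⟩
    exact ⟨_, _, _, _, X.rot h, rfl, rfl, rfl, rfl⟩
  uniq := by
    rintro _ _ _ _ _ _ ⟨a, b, c, d, h, rfl, rfl, rfl, rfl⟩ ⟨a', b', c', d', h', e1, rfl, e2, rfl⟩
    obtain rfl := Sum.inl.inj e1
    obtain rfl := Sum.inl.inj e2
    obtain ⟨rfl, rfl⟩ := X.uniq h h'
    exact ⟨rfl, rfl⟩
  irrefl := by
    rintro _ _ _ _ ⟨a, b, c, d, h, rfl, rfl, rfl, rfl⟩ e
    exact X.irrefl h (Sum.inl.inj e)
  cube := by
    rintro _ _ _ _ _ _ _ _ _ ⟨a1, b12, a2, b21, h, rfl, rfl, rfl, rfl⟩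
      ⟨a1', b13, a3, b31, h', e1, rfl, rfl, rfl⟩ ⟨a2', b23, a3', b32, h'', e2, rfl, e3, rfl⟩
    obtain rfl := Sum.inl.inj e1
    obtain rfl := Sum.inl.inj e2
    obtain rfl := Sum.inl.inj e3
    obtain ⟨x, y, z, k1, k2, k3⟩ := X.cube h h' h''
    exact ⟨Sum.inl x, Sum.inl y, Sum.inl z, ⟨_, _, _, _, k1, rfl, rfl, rfl, rfl⟩,
      ⟨_, _, _, _, k2, rfl, rfl, rfl, rfl⟩, ⟨_, _, _, _, k3, rfl, rfl, rfl, rfl⟩⟩

variable (X) in
noncomputable def incl (T : Type) : X.G →* (X.addFree T).G :=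
  liftG (fun e => (X.addFree T).gen (Sum.inl e)) (fun e => gen_mul_inv (X := X.addFree T) (Sum.inl e))
    fun a b c d h => gen_sq (X := X.addFree T) ⟨a, b, c, d, h, rfl, rfl, rfl, rfl⟩

theorem incl_ev (T : Type) (l : List E) :
    X.incl T (X.ev l) = (X.addFree T).ev (l.map Sum.inl) := by
  induction l with
  | nil => simp
  | cons e l ih => rw [ev_cons, map_mul, ih, List.map_cons, ev_cons, incl, liftG_gen]

theorem geo_of_addFree (T : Type) (l : List E) (h : (X.addFree T).Geo (l.map Sum.inl)) :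
    X.Geo l := by
  intro l' hl'
  have := h (l'.map Sum.inl) (by rw [← incl_ev, ← incl_ev, hl'])
  simpa using this

theorem noGrid_addFree (T : Type) {k : ℕ} (hk : X.NoGrid k) :
    (X.addFree T).NoGrid (k + 1) := by
  intro h v hS h1 h2
  have hh : ∀ i j, i < k + 1 → j < k + 1 → ∃ e, h i j = Sum.inl e := by
    intro i j hi hj
    obtain ⟨a, b, c, d, _, e, _⟩ := hS i hi j hj
    exact ⟨a, e⟩
  have hv : ∀ i j, i < k + 1 → j < k + 1 → ∃ e, v i j = Sum.inl e := by
    intro i j hi hj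
    obtain ⟨a, b, c, d, _, _, _, e, _⟩ := hS i hi j hj
    exact ⟨c, e⟩
  obtain ⟨e0, _⟩ := hh 0 0 (by omega) (by omega)
  have eh : ∀ i j, i < k + 1 → j < k + 1 →
      h i j = Sum.inl ((h i j).elim id fun _ => e0) := by
    intro i j hi hj
    obtain ⟨e, he⟩ := hh i j hi hj
    rw [he]; rfl
  have ev' : ∀ i j, i < k + 1 → j < k + 1 →
      v i j = Sum.inl ((v i j).elim id fun _ => e0) := by
    intro i j hi hj
    obtain ⟨e, he⟩ := hv i j hi hj
    rw [he]; rfl
  have pre : ∀ (f : ℕ → E ⊕ T × Bool), (X.addFree T).Geo ((List.range (k + 1)).map f) →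
      (X.addFree T).Geo ((List.range k).map f) := by
    intro f hf l' hl'
    have := hf (l' ++ [f k]) (by rw [List.range_succ, List.map_append, ev_append, ev_append, hl']; rfl)
    simpa using this
  refine hk (fun i j => (h i j).elim id fun _ => e0) (fun i j => (v i j).elim id fun _ => e0)
    ?_ ?_ ?_
  · intro i hi j hj
    obtain ⟨a, b, c, d, hs, e1, e2, e3, e4⟩ := hS i (by omega) j (by omega)
    simpa only [e1, e2, e3, e4, Sum.elim_inl, id] using hs
  · intro j hj
    apply geo_of_addFree T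
    rw [List.map_map]
    have := pre _ (h1 j (by omega))
    rwa [List.map_congr_left (g := Sum.inl ∘ fun i => (h i j).elim id fun _ => e0)
      fun i hi => eh i j (by have := List.mem_range.1 hi; omega) (by omega)] at this
  · intro i hi
    apply geo_of_addFree T
    rw [List.map_map]
    have := pre _ (h2 i (by omega))
    rwa [List.map_congr_left (g := Sum.inl ∘ fun j => (v i j).elim id fun _ => e0)
      fun j hj => ev' i j (by omega) (by have := List.mem_range.1 hj; omega)] at this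

end SqSys
end Pool.Agent.Lib.MP_28a49a_al
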