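import Pool.Agent.Lib.MP_28a49a_al.Defs

set_option autoImplicit false

namespace Pool.Agent.Lib.MP_28a49a_al

namespace Fox

section Cocycle
variable {S Q B : Type} [Group Q] [Group B]

/-- cocycles on a free group with a state in `Q` (Schreier rewriting) -/
def IsCoc (π : FreeGroup S →* Q) (J : Q → FreeGroup S → B) : Prop :=
  ∀ q g h, J q (g * h) = J q g * J (q * π g) h

theorem IsCoc.one {π : FreeGroup S →* Q} {J : Q → FreeGroup S → B} (h : IsCoc π J) (q : Q) :
    J q 1 = 1 := by
  have := h q 1 1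
  simp only [mul_one, map_one] at this
  exact left_eq_mul.mp this

theorem IsCoc.inv {π : FreeGroup S →* Q} {J : Q → FreeGroup S → B} (h : IsCoc π J) (q : Q)
    (g : FreeGroup S) : J q g⁻¹ = (J (q * (π g)⁻¹) g)⁻¹ := by
  have := h q g⁻¹ g
  rw [inv_mul_cancel, h.one, map_inv] at this
  exact eq_inv_of_mul_eq_one_left this.symm

theorem IsCoc.ext {π : FreeGroup S →* Q} {J J' : Q → FreeGroup S → B} (h : IsCoc π J)
    (h' : IsCoc π J') (hx : ∀ q x, J q (FreeGroup.of x) = J' q (FreeGroup.of x))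
    (g : FreeGroup S) : ∀ q, J q g = J' q g := by
  induction g using FreeGroup.induction_on with
  | C1 => intro q; rw [h.one, h'.one]
  | of x => intro q; exact hx q x
  | inv_of x ih => intro q; rw [h.inv, h'.inv, ih]
  | mul g g' ih ih' => intro q; rw [h, h', ih, ih']

theorem exists_coc (π : FreeGroup S →* Q) (a : Q → S → B) :
    ∃ J : Q → FreeGroup S → B, IsCoc π J ∧ ∀ q x, J q (FreeGroup.of x) = a q x := by
  let Φ : FreeGroup S →* RegularWreathProduct B Q :=
    FreeGroup.lift fun x => ⟨fun y => a y⁻¹ x, π (FreeGroup.of x)⟩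
  have hr : ∀ g, (Φ g).right = π g := by
    intro g
    have : RegularWreathProduct.rightHom.comp Φ = π := by
      ext x
      simp [Φ]
    exact DFunLike.congr_fun this g
  refine ⟨fun q g => (Φ g).left q⁻¹, ?_, ?_⟩
  · intro q g h
    simp [map_mul, hr]
  · intro q x
    simp [Φ]

end Cocycle

section AddCocycle
variable {S Q M : Type} [Group Q] [AddCommGroup M]

def IsDer (π : FreeGroup S →* Q) (J : Q → FreeGroup S → M) : Prop :=
  ∀ q g h, J q (g * h) = J q g + J (q * π g) h

theorem IsDer.coc {π : FreeGroup S →* Q} {J : Q → FreeGroup S → M} (h : IsDer π J) :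
    IsCoc π (fun q g => Multiplicative.ofAdd (J q g)) := by
  intro q g g'
  simp only [h q g g', ofAdd_add]

theorem IsDer.one {π : FreeGroup S →* Q} {J : Q → FreeGroup S → M} (h : IsDer π J) (q : Q) :
    J q 1 = 0 := by
  simpa using h.coc.one q

theorem IsDer.inv {π : FreeGroup S →* Q} {J : Q → FreeGroup S → M} (h : IsDer π J) (q : Q)
    (g : FreeGroup S) : J q g⁻¹ = - J (q * (π g)⁻¹) g := by
  have := h.coc.inv q g
  rw [← ofAdd_neg] at this
  exact Multiplicative.ofAdd.injective this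

theorem IsDer.ext {π : FreeGroup S →* Q} {J J' : Q → FreeGroup S → M} (h : IsDer π J)
    (h' : IsDer π J') (hx : ∀ q x, J q (FreeGroup.of x) = J' q (FreeGroup.of x))
    (q : Q) (g : FreeGroup S) : J q g = J' q g :=
  Multiplicative.ofAdd.injective (h.coc.ext h'.coc (fun q x => by rw [hx]) g q)

theorem exists_der (π : FreeGroup S →* Q) (a : Q → S → M) :
    ∃ J : Q → FreeGroup S → M, IsDer π J ∧ ∀ q x, J q (FreeGroup.of x) = a q x := by
  obtain ⟨J, h1, h2⟩ := exists_coc π (fun q x => Multiplicative.ofAdd (a q x))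
  refine ⟨fun q g => Multiplicative.toAdd (J q g), ?_, ?_⟩
  · intro q g h
    simp only [h1 q g h, toAdd_mul]
  · intro q x
    simp [h2]

end AddCocycle

section Ring
variable {Q M : Type} [Group Q] [AddCommGroup M]

theorem exists_add1 (v : Q → M) :
    ∃ f : MonoidAlgebra ℤ Q →+ M, ∀ q, f (MonoidAlgebra.of ℤ Q q) = v q := by
  refine ⟨((MonoidAlgebra.basis Q ℤ).constr ℤ v).toAddMonoidHom, fun q => ?_⟩
  have := (MonoidAlgebra.basis Q ℤ).constr_basis ℤ v q
  simpa using this

theorem add1_ext {f g : MonoidAlgebra ℤ Q →+ M}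
    (h : ∀ q, f (MonoidAlgebra.of ℤ Q q) = g (MonoidAlgebra.of ℤ Q q)) : f = g := by
  ext q
  simpa using h q

theorem exists_add {ι : Type} (v : ι → Q → M) :
    ∃ f : (ι →₀ MonoidAlgebra ℤ Q) →+ M,
      ∀ i q, f (Finsupp.single i (MonoidAlgebra.of ℤ Q q)) = v i q := by
  choose f hf using fun i => exists_add1 (v i)
  exact ⟨Finsupp.liftAddHom f, fun i q => by simp only [Finsupp.liftAddHom_apply_single, hf]⟩

theorem add_ext {ι : Type} {f g : (ι →₀ MonoidAlgebra ℤ Q) →+ M}
    (h : ∀ i q, f (Finsupp.single i (MonoidAlgebra.of ℤ Q q)) =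
      g (Finsupp.single i (MonoidAlgebra.of ℤ Q q))) : f = g := by
  refine Finsupp.addHom_ext' fun i => add1_ext fun q => ?_
  simpa using h i q

/-- an additive subgroup stable under the group is a submodule -/
def toSub [Module (MonoidAlgebra ℤ Q) M] (H : AddSubgroup M)
    (h : ∀ q, ∀ m ∈ H, MonoidAlgebra.of ℤ Q q • m ∈ H) : Submodule (MonoidAlgebra ℤ Q) M where
  carrier := H
  add_mem' := H.add_mem
  zero_mem' := H.zero_mem
  smul_mem' := by
    intro c m hm
    have : ∀ c : MonoidAlgebra ℤ Q, c • m ∈ H := by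
      intro c
      induction c using MonoidAlgebra.induction_on with
      | of q => exact h q m hm
      | add x y hx hy => rw [add_smul]; exact H.add_mem hx hy
      | smul r x hx => rw [smul_assoc]; exact H.zsmul_mem hx r
    exact this c

end Ring

section Crossed
variable {S ρ : Type} (w : ρ → FreeGroup S)

theorem bdry_of (u : FreeGroup S) (r : ρ) : bdry w (FreeGroup.of (u, r)) = u * w r * u⁻¹ := by
  simp [bdry]

theorem shift_of (g u : FreeGroup S) (r : ρ) :
    shift g (FreeGroup.of (u, r)) = FreeGroup.of (g * u, r) := by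
  simp [shift]

theorem shift_shift (g h : FreeGroup S) (a : FreeGroup (FreeGroup S × ρ)) :
    shift g (shift h a) = shift (g * h) a := by
  have : (shift g).comp (shift h) = (shift (g * h) : FreeGroup (FreeGroup S × ρ) →* _) := by
    ext ⟨u, r⟩
    simp [shift_of, mul_assoc]
  exact DFunLike.congr_fun this a

theorem shift_one (a : FreeGroup (FreeGroup S × ρ)) : shift 1 a = a := by
  have : (shift 1 : FreeGroup (FreeGroup S × ρ) →* _) = MonoidHom.id _ := by
    ext ⟨u, r⟩
    simp [shift_of]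
  exact DFunLike.congr_fun this a

theorem bdry_shift (g : FreeGroup S) (a : FreeGroup (FreeGroup S × ρ)) :
    bdry w (shift g a) = g * bdry w a * g⁻¹ := by
  have : (bdry w).comp (shift g) = (MulAut.conj g).toMonoidHom.comp (bdry w) := by
    ext ⟨u, r⟩
    simp [shift_of, bdry_of, mul_assoc]
  exact DFunLike.congr_fun this a

theorem range_bdry : (bdry w).range = Subgroup.normalClosure (Set.range w) := by
  apply le_antisymm
  · rw [bdry, FreeGroup.range_lift_eq_closure, Subgroup.closure_le]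
    rintro _ ⟨⟨u, r⟩, rfl⟩
    exact Subgroup.normalClosure_normal.conj_mem _
      (Subgroup.subset_normalClosure (Set.mem_range_self r)) u
  · have : (bdry w).range.Normal := ⟨by
      rintro _ ⟨a, rfl⟩ g
      exact ⟨shift g a, bdry_shift w g a⟩⟩
    refine Subgroup.normalClosure_le_normal ?_
    rintro _ ⟨r, rfl⟩
    exact ⟨FreeGroup.of (1, r), by simp [bdry_of]⟩

/-- the crossed module identity modulo the Peiffer elements -/
theorem peiffer {C : Type} [Group C] (φ : FreeGroup (FreeGroup S × ρ) →* C)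
    (hP : ∀ u r u' r', φ (FreeGroup.of (u, r) * FreeGroup.of (u', r') * (FreeGroup.of (u, r))⁻¹ *
        (FreeGroup.of (u * w r * u⁻¹ * u', r'))⁻¹) = 1)
    (a : FreeGroup (FreeGroup S × ρ)) :
    ∀ b, φ a * φ b * (φ a)⁻¹ = φ (shift (bdry w a) b) := by
  have hinv : ∀ a, (∀ b, φ a * φ b * (φ a)⁻¹ = φ (shift (bdry w a) b)) →
      ∀ b, φ a⁻¹ * φ b * (φ a⁻¹)⁻¹ = φ (shift (bdry w a⁻¹) b) := by
    intro a ih b
    have := ih (shift (bdry w a⁻¹) b)
    rw [shift_shift, ← map_mul (bdry w), mul_inv_cancel, map_one, shift_one] at this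
    rw [← this, map_inv φ]
    group
  induction a using FreeGroup.induction_on with
  | C1 => intro b; simp [shift_one]
  | of x =>
    obtain ⟨u, r⟩ := x
    intro b
    have : (MulAut.conj (φ (FreeGroup.of (u, r)))).toMonoidHom.comp φ =
        φ.comp (shift (bdry w (FreeGroup.of (u, r)))) := by
      ext ⟨u', r'⟩
      have := hP u r u' r'
      rw [map_mul, map_inv, mul_inv_eq_one, map_mul, map_mul, map_inv] at this
      simpa [shift_of, bdry_of] using this
    exact DFunLike.congr_fun this b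
  | inv_of x ih => exact hinv _ ih
  | mul a a' ih ih' =>
    intro b
    rw [map_mul, map_mul, ← shift_shift, ← ih, ← ih']
    group

end Crossed

end Fox

open Fox in
theorem T3_of_homFP3 {Q S ρ : Type} [Group Q] [Finite S] [Finite ρ] (s : S → Q)
    (hs : Function.Surjective (FreeGroup.lift s)) (w : ρ → FreeGroup S)
    (hker : (FreeGroup.lift s).ker = Subgroup.normalClosure (Set.range w))
    (h : HomFP3 Q) : T3 w := by
  classical
  set π : FreeGroup S →* Q := FreeGroup.lift s with hπ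
  have hπb : ∀ a, π (bdry w a) = 1 := by
    intro a
    rw [← MonoidHom.mem_ker, hker, ← range_bdry]
    exact ⟨a, rfl⟩
  have hπw : ∀ r, π (w r) = 1 := by
    intro r
    simpa [bdry_of] using hπb (FreeGroup.of (1, r))
  have hlift : ∀ n, π n = 1 → ∃ a, bdry w a = n := by
    intro n hn
    rw [← MonoidHom.mem_ker, hker, ← range_bdry] at hn
    exact hn
  -- a section
  obtain ⟨sg, hsg, hsg1⟩ : ∃ sg : Q → FreeGroup S, (∀ q, π (sg q) = q) ∧ sg 1 = 1 := by
    choose t ht using hs
    refine ⟨fun q => t q * (t 1)⁻¹, fun q => by simp [ht], by simp⟩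
  -- Schreier rewriting
  choose a ha using fun (q : Q) (x : S) =>
    hlift (sg q * FreeGroup.of x * (sg (q * π (FreeGroup.of x)))⁻¹) (by simp [hsg])
  obtain ⟨J, hJ, hJx⟩ := exists_coc π a
  have hbJ : ∀ g q, bdry w (J q g) = sg q * g * (sg (q * π g))⁻¹ := by
    intro g
    refine IsCoc.ext (π := π) (J := fun q g => bdry w (J q g))
      (J' := fun q g => sg q * g * (sg (q * π g))⁻¹) ?_ ?_ ?_ g
    · intro q g h
      simp only [hJ q g h, map_mul]
    · intro q g h
      simp only [map_mul, mul_assoc, inv_mul_cancel_left]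
    · intro q x
      simp only [hJx, ha]
  have hbJ1 : ∀ n, π n = 1 → bdry w (J 1 n) = n := by
    intro n hn
    rw [hbJ, hn]
    simp [hsg1]
  -- Fox derivation
  obtain ⟨D, hD, hDx⟩ := exists_der (M := S →₀ MonoidAlgebra ℤ Q) π
    (fun q x => Finsupp.single x (MonoidAlgebra.of ℤ Q q))
  have hDs : ∀ q g, D q g = MonoidAlgebra.of ℤ Q q • D 1 g := by
    intro q g
    have := IsDer.ext (π := π) (J := fun q' g => D (q * q') g)
      (J' := fun q' g => MonoidAlgebra.of ℤ Q q • D q' g) ?_ ?_ ?_ 1 g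
    · simpa only [mul_one] using this
    · intro q' g h
      simp only [hD (q * q') g h, mul_assoc]
    · intro q' g h
      simp only [hD q' g h, smul_add]
    · intro q' x
      simp only [hDx, Finsupp.smul_single, smul_eq_mul, map_mul]
  let d1 : (S →₀ MonoidAlgebra ℤ Q) →ₗ[MonoidAlgebra ℤ Q] MonoidAlgebra ℤ Q :=
    Finsupp.linearCombination _ fun x => MonoidAlgebra.of ℤ Q (π (FreeGroup.of x)) - 1
  let d2 : (ρ →₀ MonoidAlgebra ℤ Q) →ₗ[MonoidAlgebra ℤ Q] (S →₀ MonoidAlgebra ℤ Q) :=
    Finsupp.linearCombination _ fun r => D 1 (w r)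
  have hd1x : ∀ x q, d1 (Finsupp.single x (MonoidAlgebra.of ℤ Q q)) =
      MonoidAlgebra.of ℤ Q (q * π (FreeGroup.of x)) - MonoidAlgebra.of ℤ Q q := by
    intro x q
    simp only [d1, Finsupp.linearCombination_single, smul_eq_mul, mul_sub, mul_one, map_mul]
  have hd1 : ∀ q g, d1 (D q g) = MonoidAlgebra.of ℤ Q (q * π g) - MonoidAlgebra.of ℤ Q q := by
    refine IsDer.ext (π := π) (J := fun q g => d1 (D q g))
      (J' := fun q g => MonoidAlgebra.of ℤ Q (q * π g) - MonoidAlgebra.of ℤ Q q) ?_ ?_ ?_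
    · intro q g h
      simp only [hD q g h, map_add]
    · intro q g h
      simp only [map_mul π, ← mul_assoc]
      abel
    · intro q x
      simp only [hDx, hd1x]
  -- abelianisation
  let ab : FreeGroup (FreeGroup S × ρ) →* Multiplicative (ρ →₀ MonoidAlgebra ℤ Q) :=
    FreeGroup.lift fun p =>
      Multiplicative.ofAdd (Finsupp.single p.2 (MonoidAlgebra.of ℤ Q (π p.1)))
  have habx : ∀ u r, (ab (FreeGroup.of (u, r))).toAdd =
      Finsupp.single r (MonoidAlgebra.of ℤ Q (π u)) := by
    intro u r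
    simp only [ab, FreeGroup.lift_apply_of, toAdd_ofAdd]
  have hind : ∀ {M : Type} [AddCommGroup M] (f g : FreeGroup (FreeGroup S × ρ) → M),
      (∀ a b, f (a * b) = f a + f b) → (∀ a b, g (a * b) = g a + g b) →
      (∀ u r, f (FreeGroup.of (u, r)) = g (FreeGroup.of (u, r))) → ∀ a, f a = g a := by
    intro M _ f g hf hg hx b
    refine IsDer.ext (Q := Unit) (π := 1) (J := fun _ => f) (J' := fun _ => g)
      (fun _ => hf) (fun _ => hg) (fun _ x => hx x.1 x.2) () b
  have habs : ∀ g b, (ab (shift g b)).toAdd = MonoidAlgebra.of ℤ Q (π g) • (ab b).toAdd := by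
    intro g
    refine hind _ _ ?_ ?_ ?_
    · intro a b
      simp only [map_mul, toAdd_mul]
    · intro a b
      simp only [map_mul, toAdd_mul, smul_add]
    · intro u r
      simp only [shift_of, habx, Finsupp.smul_single, smul_eq_mul, map_mul]
  have hd2 : ∀ b, d2 (ab b).toAdd = D 1 (bdry w b) := by
    refine hind _ _ ?_ ?_ ?_
    · intro a b
      simp only [map_mul, toAdd_mul, map_add]
    · intro a b
      simp only [map_mul, hD 1 _ _, hπb, mul_one]
    · intro u r
      rw [habx, bdry_of, hD, hD, hD.inv, map_mul, hπw]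
      simp only [d2, Finsupp.linearCombination_single, one_mul, mul_one, mul_inv_cancel]
      rw [hDs (π u)]
      abel
  -- images of shift invariant subgroups are submodules
  have hsub : ∀ N : Subgroup (FreeGroup (FreeGroup S × ρ)), (∀ g a, a ∈ N → shift g a ∈ N) →
      ∃ P : Submodule (MonoidAlgebra ℤ Q) (ρ →₀ MonoidAlgebra ℤ Q),
        ∀ m, m ∈ P ↔ ∃ k ∈ N, (ab k).toAdd = m := by
    intro N hN
    refine ⟨toSub (Subgroup.toAddSubgroup' (N.map ab)) ?_, fun m => ?_⟩
    · rintro q m ⟨k, hk, hkm⟩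
      refine ⟨shift (sg q) k, hN _ _ hk, ?_⟩
      apply Multiplicative.toAdd.injective
      rw [habs, hsg, hkm]
      rfl
    · constructor
      · rintro ⟨k, hk, hkm⟩
        exact ⟨k, hk, by rw [hkm]; rfl⟩
      · rintro ⟨k, hk, hkm⟩
        exact ⟨k, hk, by rw [← hkm]; rfl⟩
  have habsurj : ∀ m, ∃ k, (ab k).toAdd = m := by
    obtain ⟨P, hP⟩ := hsub ⊤ (fun _ _ _ => trivial)
    have : P = ⊤ := by
      rw [eq_top_iff, ← (Finsupp.basisSingleOne (R := MonoidAlgebra ℤ Q) (ι := ρ)).span_eq,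
        Submodule.span_le]
      rintro _ ⟨r, rfl⟩
      refine (hP _).2 ⟨FreeGroup.of (1, r), trivial, ?_⟩
      rw [habx, map_one, map_one]
      simp
    intro m
    obtain ⟨k, -, hk⟩ := (hP m).1 (by rw [this]; trivial)
    exact ⟨k, hk⟩
  -- contracting homotopy
  obtain ⟨Θ, hΘ⟩ := exists_add (ι := S) (fun x q => (ab (a q x)).toAdd)
  obtain ⟨σ, hσ⟩ := exists_add1 (fun q => D 1 (sg q))
  have hhom : ∀ m, d2 (Θ m) = m - σ (d1 m) := by
    have : d2.toAddMonoidHom.comp Θ = AddMonoidHom.id _ - σ.comp d1.toAddMonoidHom := by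
      refine add_ext fun x q => ?_
      simp only [AddMonoidHom.comp_apply, LinearMap.toAddMonoidHom_coe, AddMonoidHom.sub_apply,
        AddMonoidHom.id_apply]
      rw [hΘ, hd2, ha, hd1x, map_sub, hσ, hσ, hD, hD, hD.inv, hDx]
      simp only [map_mul, hsg, one_mul, mul_inv_cancel]
      abel
    exact fun m => DFunLike.congr_fun this m
  have hΘD : ∀ q g, (ab (J q g)).toAdd = Θ (D q g) := by
    refine IsDer.ext (π := π) (J := fun q g => (ab (J q g)).toAdd)
      (J' := fun q g => Θ (D q g)) ?_ ?_ ?_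
    · intro q g h
      simp only [hJ q g h, map_mul, toAdd_mul]
    · intro q g h
      simp only [hD q g h, map_add]
    · intro q x
      simp only [hJx, hDx, hΘ]
  have hfg : (LinearMap.ker d2).FG := by
    refine h S ρ d2 d1 ?_ ?_
    · apply le_antisymm
      · rw [Finsupp.range_linearCombination]
        refine Submodule.span_mono ?_
        rintro _ ⟨x, rfl⟩
        exact ⟨_, rfl⟩
      · rw [Submodule.span_le]
        rintro _ ⟨q, rfl⟩
        refine ⟨D 1 (sg q), ?_⟩
        rw [hd1, hsg, one_mul, map_one]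
    · apply le_antisymm
      · rw [Finsupp.range_linearCombination, Submodule.span_le]
        rintro _ ⟨r, rfl⟩
        show d1 (D 1 (w r)) = 0
        rw [hd1, hπw, mul_one, sub_self]
      · intro m hm
        refine ⟨Θ m, ?_⟩
        rw [hhom, LinearMap.mem_ker.1 hm, map_zero, sub_zero]
  -- every second syzygy comes from an identity among relations
  have hcyc : ∀ m, d2 m = 0 → ∃ k, bdry w k = 1 ∧ (ab k).toAdd = m := by
    intro m hm
    obtain ⟨b, rfl⟩ := habsurj m
    refine ⟨b * (J 1 (bdry w b))⁻¹, ?_, ?_⟩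
    · rw [map_mul, map_inv, hbJ1 _ (hπb b), mul_inv_cancel]
    · rw [map_mul, map_inv, toAdd_mul, toAdd_inv, hΘD, ← hd2, hm, map_zero, neg_zero, add_zero]
  obtain ⟨T, hT⟩ := hfg
  choose! κ hκ1 hκ2 using hcyc
  have hTk : ∀ m ∈ (T : Set (ρ →₀ MonoidAlgebra ℤ Q)), d2 m = 0 := by
    intro m hm
    have : m ∈ LinearMap.ker d2 := by rw [← hT]; exact Submodule.subset_span hm
    exact this
  refine ⟨κ '' (T : Set _), T.finite_toSet.image _, ?_, ?_⟩
  · rintro _ ⟨m, hm, rfl⟩
    exact hκ1 m (hTk m hm)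
  intro N0 hN0 hsh0 hP0 hK0
  -- replace `N0` by its intersection with the kernel
  let N := N0 ⊓ (bdry w).ker
  have : N.Normal := Subgroup.normal_inf_normal _ _
  have hsh : ∀ g a, a ∈ N → shift g a ∈ N := by
    rintro g b ⟨h1, h2⟩
    refine ⟨hsh0 g b h1, ?_⟩
    have h3 : bdry w b = 1 := h2
    show bdry w (shift g b) = 1
    rw [bdry_shift, h3, mul_one, mul_inv_cancel]
  let φ := QuotientGroup.mk' N
  have hφ : ∀ b, φ b = 1 ↔ b ∈ N := fun b => QuotientGroup.eq_one_iff b
  have hpf := peiffer w φ (fun u r u' r' => (hφ _).2 ⟨hP0 u r u' r', by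
    show bdry w _ = 1
    simp only [map_mul, map_inv, bdry_of]
    group⟩)
  have hcen : ∀ k, bdry w k = 1 → φ k ∈ Subgroup.center _ := by
    intro k hk
    rw [Subgroup.mem_center_iff]
    intro c
    obtain ⟨b, rfl⟩ := QuotientGroup.mk'_surjective N c
    have := hpf k b
    rw [hk, shift_one] at this
    calc φ b * φ k = (φ k * φ b * (φ k)⁻¹) * φ k := by rw [this]
      _ = φ k * φ b := by group
  have hk0 : ∀ b, bdry w (b * (J 1 (bdry w b))⁻¹) = 1 := fun b => by
    rw [map_mul, map_inv, hbJ1 _ (hπb b), mul_inv_cancel]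
  let _ : CommGroup (Subgroup.center (FreeGroup (FreeGroup S × ρ) ⧸ N)) :=
    { (inferInstance : Group _) with mul_comm := fun a b => mul_comm' a b }
  let τ : FreeGroup (FreeGroup S × ρ) → Additive (Subgroup.center (FreeGroup (FreeGroup S × ρ) ⧸ N)) :=
    fun b => Additive.ofMul ⟨φ (b * (J 1 (bdry w b))⁻¹), hcen _ (hk0 b)⟩
  have hτmul : ∀ b c, τ (b * c) = τ b + τ c := by
    intro b c
    apply Additive.toMul.injective
    apply Subtype.ext
    show φ (b * c * (J 1 (bdry w (b * c)))⁻¹) =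
      φ (b * (J 1 (bdry w b))⁻¹) * φ (c * (J 1 (bdry w c))⁻¹)
    have h1 := Subgroup.mem_center_iff.1 (hcen _ (hk0 c)) (φ (J 1 (bdry w b)))⁻¹
    rw [map_mul (bdry w), hJ, hπb, mul_one, map_mul φ b, map_inv, mul_assoc (φ b), h1]
    simp only [map_mul, map_inv, mul_inv_rev, mul_assoc]
  have hτker : ∀ k, bdry w k = 1 → (τ k = 0 ↔ k ∈ N) := by
    intro k hk
    rw [← hφ]
    constructor
    · intro h0
      have h1 : φ (k * (J 1 (bdry w k))⁻¹) = 1 := congrArg (fun x => (Additive.toMul x).1) h0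
      rwa [hk, hJ.one, inv_one, mul_one] at h1
    · intro h0
      apply Additive.toMul.injective
      apply Subtype.ext
      show φ (k * (J 1 (bdry w k))⁻¹) = 1
      rwa [hk, hJ.one, inv_one, mul_one]
  have hτof : ∀ u r, τ (FreeGroup.of (u, r)) = τ (FreeGroup.of (sg (π u), r)) := by
    intro u r
    obtain ⟨b, hb⟩ := hlift (u * (sg (π u))⁻¹) (by simp [hsg])
    have h1 := hpf b (FreeGroup.of (sg (π u), r))
    rw [hb, shift_of, inv_mul_cancel_right] at h1
    have h2 : b * FreeGroup.of (sg (π u), r) * (FreeGroup.of (u, r) * b)⁻¹ ∈ N := by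
      rw [← hφ]
      simp only [map_mul, map_inv, ← h1]
      group
    have h3 := (hτker _ h2.2).2 h2
    have h4 := hτmul (b * FreeGroup.of (sg (π u), r) * (FreeGroup.of (u, r) * b)⁻¹)
      (FreeGroup.of (u, r) * b)
    rw [inv_mul_cancel_right, h3, zero_add, hτmul, hτmul, add_comm] at h4
    exact (add_right_cancel h4).symm
  obtain ⟨lam, hlam⟩ := exists_add (ι := ρ) (fun r q => τ (FreeGroup.of (sg q, r)))
  have hlamab : ∀ b, lam (ab b).toAdd = τ b := by
    refine hind _ _ ?_ hτmul ?_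
    · intro a b
      simp only [map_mul, toAdd_mul, map_add]
    · intro u r
      rw [habx, hlam, ← hτof]
  obtain ⟨P, hP⟩ := hsub N hsh
  have hle : LinearMap.ker d2 ≤ P := by
    rw [← hT, Submodule.span_le]
    intro m hm
    exact (hP m).2 ⟨κ m, ⟨hK0 ⟨m, hm, rfl⟩, hκ1 m (hTk m hm)⟩, hκ2 m (hTk m hm)⟩
  intro k hk
  have hk1 : bdry w k = 1 := hk
  obtain ⟨k', hk', hkk⟩ := (hP _).1 (hle (show d2 (ab k).toAdd = 0 by rw [hd2, hk1, hD.one]))
  have h5 : τ k = 0 := by
    rw [← hlamab, ← hkk, hlamab]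
    exact (hτker _ hk'.2).2 hk'
  exact ((hτker k hk1).1 h5).1

end Pool.Agent.Lib.MP_28a49a_al
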