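import Pool.Agent.Lib.MP_28a49a_al.Defs

namespace Pool.Agent.Lib.MP_28a49a_al
namespace SqSys
variable {E : Type} (X : SqSys E)

inductive Step : List E → List E → Prop
  | head {a b c d : E} {w : List E} : X.S a b c d → Step (a :: b :: w) (c :: d :: w)
  | tail {e : E} {u v : List E} : Step u v → Step (e :: u) (e :: v)

def Eqv : List E → List E → Prop := Relation.ReflTransGen X.Step

variable {X}

theorem Step.symm' {u v : List E} (h : X.Step u v) : X.Step v u := by
  induction h with
  | head h => exact Step.head (X.symm h)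
  | tail _ ih => exact Step.tail ih

theorem Step.length_eq {u v : List E} (h : X.Step u v) : u.length = v.length := by
  induction h with
  | head h => rfl
  | tail _ ih => simp [ih]

theorem Eqv.refl (u : List E) : X.Eqv u u := Relation.ReflTransGen.refl

theorem Eqv.trans {u v w : List E} (h : X.Eqv u v) (h' : X.Eqv v w) : X.Eqv u w :=
  Relation.ReflTransGen.trans h h'

theorem Eqv.step {u v : List E} (h : X.Step u v) : X.Eqv u v := Relation.ReflTransGen.single h

theorem Eqv.symm {u v : List E} (h : X.Eqv u v) : X.Eqv v u := by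
  induction h with
  | refl => exact Eqv.refl _
  | tail _ h ih => exact (Eqv.step h.symm').trans ih

theorem Eqv.cons (e : E) {u v : List E} (h : X.Eqv u v) : X.Eqv (e :: u) (e :: v) := by
  induction h with
  | refl => exact Eqv.refl _
  | tail _ h ih => exact ih.trans (Eqv.step (Step.tail h))

theorem Eqv.sq {a b c d : E} (h : X.S a b c d) (w : List E) :
    X.Eqv (a :: b :: w) (c :: d :: w) := Eqv.step (Step.head h)

theorem Eqv.length_eq {u v : List E} (h : X.Eqv u v) : u.length = v.length := by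
  induction h with
  | refl => rfl
  | tail _ h ih => exact ih.trans h.length_eq

theorem inv_inj {a b : E} (h : X.inv a = X.inv b) : a = b := by
  rw [← X.inv_inv a, h, X.inv_inv]

/-- undo a rotation -/
theorem rot' {a b c d : E} (h : X.S (X.inv a) c b d) : X.S a b c (X.inv d) := by
  have := X.rot h
  rwa [X.inv_inv] at this

theorem garside (n : ℕ) : ∀ (u : List E) (a : E) (l : List E), u.length = n → X.Eqv (a :: u) l →
    ∀ c v, l = c :: v → (a = c ∧ X.Eqv u v) ∨
      ∃ b d w, X.S a b c d ∧ X.Eqv u (b :: w) ∧ X.Eqv v (d :: w) := by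
  induction n using Nat.strong_induction_on with
  | _ n IH =>
  intro u a l hn h
  induction h with
  | refl =>
    intro c v hl
    obtain ⟨rfl, rfl⟩ := List.cons.inj hl
    exact Or.inl ⟨rfl, Eqv.refl _⟩
  | @tail l1 l2 h1 hs ih =>
    intro c' v' hl
    have hlen : l1.length = n + 1 := by
      have := Eqv.length_eq (X := X) h1
      simp at this; omega
    cases hs with
    | @tail e u1 v1 hs =>
      obtain ⟨rfl, rfl⟩ := List.cons.inj hl
      rcases ih e u1 rfl with ⟨rfl, h2⟩ | ⟨b, d, w, hS, h2, h3⟩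
      · exact Or.inl ⟨rfl, h2.trans (Eqv.step hs)⟩
      · exact Or.inr ⟨b, d, w, hS, h2, (Eqv.step hs.symm').trans h3⟩
    | @head c d0 c'' d' w0 hS0 =>
      obtain ⟨rfl, rfl⟩ := List.cons.inj hl
      rcases ih c (d0 :: w0) rfl with ⟨rfl, h2⟩ | ⟨b, d, w, hS, h2, h3⟩
      · exact Or.inr ⟨d0, d', w0, hS0, h2, Eqv.refl _⟩
      · have hw : w.length + 1 = n := by
          have := h2.length_eq
          simp at this; omega
        rcases IH w.length (by omega) w d _ rfl h3.symm d0 w0 rfl with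
          ⟨rfl, h4⟩ | ⟨x, y', w1, hS1, h4, h5⟩
        · obtain ⟨e1, e2⟩ := X.uniq (X.rot (X.symm hS)) (X.rot hS0)
          have e3 := inv_inj e2
          subst e1 e3
          exact Or.inl ⟨rfl, h2.trans (h4.cons _)⟩
        · obtain ⟨p, q, r, k1, k2, k3⟩ := X.cube (X.rot (X.symm hS)) (X.rot hS0) hS1
          refine Or.inr ⟨p, q, X.inv r :: w1, k1, ?_, ?_⟩
          · exact h2.trans ((h4.cons _).trans (Eqv.sq (rot' k2) _))
          · exact (h5.cons _).trans (Eqv.sq (rot' k3) _)

theorem gar {a c : E} {u v : List E} (h : X.Eqv (a :: u) (c :: v)) : (a = c ∧ X.Eqv u v) ∨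
      ∃ b d w, X.S a b c d ∧ X.Eqv u (b :: w) ∧ X.Eqv v (d :: w) :=
  garside _ u a _ rfl h c v rfl

theorem Eqv.cancel {a : E} {u v : List E} (h : X.Eqv (a :: u) (a :: v)) : X.Eqv u v := by
  rcases gar h with ⟨_, h⟩ | ⟨b, d, w, hS, _⟩
  · exact h
  · exact absurd rfl (X.irrefl hS)

variable (X) in
def Red : List E → Prop
  | [] => True
  | e :: w => Red w ∧ ¬ ∃ w', X.Eqv w (X.inv e :: w')

/-- the four views of a square -/
theorem view_b {a b c d : E} (h : X.S a b c d) : X.S b (X.inv d) (X.inv a) c :=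
  X.symm (X.rot h)

theorem view_far {a b c d : E} (h : X.S a b c d) :
    X.S (X.inv b) (X.inv a) (X.inv d) (X.inv c) := X.rot (view_b h)

theorem Red.step {u v : List E} (h : X.Step u v) (hu : X.Red u) : X.Red v := by
  induction h with
  | @tail e u v h ih =>
    exact ⟨ih hu.1, fun ⟨w', hw⟩ => hu.2 ⟨w', (Eqv.step h).trans hw⟩⟩
  | @head a b c d w h =>
    obtain ⟨⟨hw, hb⟩, ha⟩ := hu
    refine ⟨⟨hw, fun ⟨w1, h1⟩ => ha ⟨c :: w1, (h1.cons _).trans (Eqv.sq (view_b h) _)⟩⟩, ?_⟩
    rintro ⟨w1, h1⟩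
    rcases gar h1 with ⟨e, _⟩ | ⟨x, y, w2, hS, h2, _⟩
    · exact X.irrefl (view_b (X.symm h)) e
    · obtain ⟨rfl, _⟩ := X.uniq hS (view_b (X.symm h))
      exact hb ⟨w2, h2⟩

theorem Red.eqv {u v : List E} (h : X.Eqv u v) (hu : X.Red u) : X.Red v := by
  induction h with
  | refl => exact hu
  | tail _ h ih => exact ih.step h

open Classical in
variable (X) in
noncomputable def actL (e : E) (w : List E) : List E :=
  if h : ∃ w', X.Eqv w (X.inv e :: w') then h.choose else e :: w

theorem actL_pos {e : E} {w w' : List E} (h : X.Eqv w (X.inv e :: w')) : X.Eqv (X.actL e w) w' := by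
  have h0 : ∃ w', X.Eqv w (X.inv e :: w') := ⟨w', h⟩
  unfold actL
  rw [dif_pos h0]
  exact (h0.choose_spec.symm.trans h).cancel

theorem actL_neg {e : E} {w : List E} (h : ¬ ∃ w', X.Eqv w (X.inv e :: w')) :
    X.actL e w = e :: w := by
  unfold actL
  rw [dif_neg h]

theorem actL_red (e : E) {w : List E} (hw : X.Red w) : X.Red (X.actL e w) := by
  by_cases h : ∃ w', X.Eqv w (X.inv e :: w')
  · obtain ⟨w', h⟩ := h
    exact Red.eqv (actL_pos h).symm (Red.eqv h hw).1
  · rw [actL_neg h]; exact ⟨hw, h⟩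

theorem actL_eqv (e : E) {u v : List E} (h : X.Eqv u v) : X.Eqv (X.actL e u) (X.actL e v) := by
  by_cases h1 : ∃ w', X.Eqv u (X.inv e :: w')
  · obtain ⟨w', h1⟩ := h1
    exact (actL_pos h1).trans (actL_pos (h.symm.trans h1)).symm
  · rw [actL_neg h1, actL_neg fun ⟨w', h2⟩ => h1 ⟨w', h.trans h2⟩]
    exact h.cons _

theorem actL_inv (e : E) {w : List E} (hw : X.Red w) :
    X.Eqv (X.actL (X.inv e) (X.actL e w)) w := by
  by_cases h : ∃ w', X.Eqv w (X.inv e :: w')
  · obtain ⟨w', h⟩ := h
    refine (actL_eqv _ (actL_pos h)).trans ?_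
    rw [actL_neg (Red.eqv h hw).2]
    exact h.symm
  · rw [actL_neg h]
    apply actL_pos
    rw [X.inv_inv]
    exact Eqv.refl _

theorem actL_sq_aux {a b c d : E} (h : X.S a b c d) {w w1 : List E}
    (h1 : X.Eqv w (X.inv b :: w1)) :
    X.Eqv (X.actL a (X.actL b w)) (X.actL c (X.actL d w)) := by
  refine (actL_eqv _ (actL_pos h1)).trans ?_
  by_cases h2 : ∃ w', X.Eqv w (X.inv d :: w')
  · obtain ⟨w2, h2⟩ := h2
    refine Eqv.trans ?_ (actL_eqv _ (actL_pos h2)).symm
    rcases gar (h1.symm.trans h2) with ⟨e, _⟩ | ⟨x, y, w3, hS, h3, h4⟩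
    · exact absurd e (X.irrefl (view_far h))
    · obtain ⟨rfl, rfl⟩ := X.uniq hS (view_far h)
      exact (actL_pos h3).trans (actL_pos h4).symm
  · rw [actL_neg h2]
    have h3 : X.Eqv (d :: w) (X.inv c :: a :: w1) :=
      (h1.cons _).trans (Eqv.sq (view_b (X.symm h)) _)
    refine Eqv.trans ?_ (actL_pos h3).symm
    rw [actL_neg]
    · exact Eqv.refl _
    · rintro ⟨w3, h4⟩
      exact h2 ⟨_, h1.trans ((h4.cons _).trans (Eqv.sq (view_far h) _))⟩

theorem actL_sq {a b c d : E} (h : X.S a b c d) (w : List E) :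
    X.Eqv (X.actL a (X.actL b w)) (X.actL c (X.actL d w)) := by
  by_cases h1 : ∃ w', X.Eqv w (X.inv b :: w')
  · obtain ⟨w1, h1⟩ := h1
    exact actL_sq_aux h h1
  by_cases h2 : ∃ w', X.Eqv w (X.inv d :: w')
  · obtain ⟨w2, h2⟩ := h2
    exact (actL_sq_aux (X.symm h) h2).symm
  have key : ∀ {a b c d : E}, X.S a b c d → (¬ ∃ w', X.Eqv w (X.inv d :: w')) →
      ¬ ∃ w', X.Eqv (b :: w) (X.inv a :: w') := by
    rintro a b c d h h2 ⟨w1, h3⟩
    rcases gar h3 with ⟨e, _⟩ | ⟨x, y, w3, hS, h4, _⟩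
    · exact X.irrefl (view_b h) e
    · obtain ⟨rfl, _⟩ := X.uniq hS (view_b h)
      exact h2 ⟨_, h4⟩
  rw [actL_neg h1, actL_neg h2, actL_neg (key h h2), actL_neg (key (X.symm h) h1)]
  exact Eqv.sq h _

variable (X) in
def redSetoid : Setoid {w : List E // X.Red w} where
  r u v := X.Eqv u.1 v.1
  iseqv := ⟨fun _ => Eqv.refl _, Eqv.symm, Eqv.trans⟩

variable (X) in
def RC : Type := Quotient X.redSetoid

variable (X) in
noncomputable def act (e : E) : X.RC → X.RC :=
  Quotient.map (fun w => ⟨X.actL e w.1, actL_red e w.2⟩) fun _ _ h => actL_eqv e h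

theorem act_inv (e : E) (r : X.RC) : X.act (X.inv e) (X.act e r) = r := by
  induction r using Quotient.inductionOn with
  | _ w => exact Quotient.sound (actL_inv e w.2)

variable (X) in
noncomputable def actP (e : E) : Equiv.Perm X.RC where
  toFun := X.act e
  invFun := X.act (X.inv e)
  left_inv := act_inv e
  right_inv r := by
    have := act_inv (X.inv e) r
    rwa [X.inv_inv] at this

/-- universal property of the group of a square system -/
noncomputable def liftG {H : Type} [Group H] (f : E → H) (h1 : ∀ e, f e * f (X.inv e) = 1)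
    (h2 : ∀ a b c d, X.S a b c d → f a * f b = f c * f d) : X.G →* H :=
  PresentedGroup.toGroup (f := f) (by
    rintro r (⟨e, rfl⟩ | ⟨a, b, c, d, h, rfl⟩)
    · simp [h1]
    · simp only [map_mul, map_inv, FreeGroup.lift_apply_of, h2 a b c d h, mul_inv_cancel])

@[simp] theorem liftG_gen {H : Type} [Group H] (f : E → H) (h1 : ∀ e, f e * f (X.inv e) = 1)
    (h2 : ∀ a b c d, X.S a b c d → f a * f b = f c * f d) (e : E) :
    liftG f h1 h2 (X.gen e) = f e := PresentedGroup.toGroup.of _

theorem gen_mul_inv (e : E) : X.gen e * X.gen (X.inv e) = 1 := by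
  have : PresentedGroup.mk X.rels (FreeGroup.of e * FreeGroup.of (X.inv e)) = 1 :=
    PresentedGroup.one_of_mem (Or.inl ⟨e, rfl⟩)
  rwa [map_mul] at this

theorem gen_inv (e : E) : X.gen (X.inv e) = (X.gen e)⁻¹ :=
  eq_inv_of_mul_eq_one_right (gen_mul_inv e)

theorem gen_sq {a b c d : E} (h : X.S a b c d) : X.gen a * X.gen b = X.gen c * X.gen d := by
  have : PresentedGroup.mk X.rels
      (FreeGroup.of a * FreeGroup.of b * (FreeGroup.of c * FreeGroup.of d)⁻¹) = 1 :=
    PresentedGroup.one_of_mem (Or.inr ⟨a, b, c, d, h, rfl⟩)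
  rw [map_mul, map_inv, map_mul, map_mul, mul_inv_eq_one] at this
  exact this

@[simp] theorem ev_nil : X.ev [] = 1 := rfl

@[simp] theorem ev_cons (e : E) (l : List E) : X.ev (e :: l) = X.gen e * X.ev l := by
  simp [ev]

@[simp] theorem ev_append (l l' : List E) : X.ev (l ++ l') = X.ev l * X.ev l' := by
  simp [ev]

theorem ev_step {u v : List E} (h : X.Step u v) : X.ev u = X.ev v := by
  induction h with
  | head h => simp only [ev_cons, ← mul_assoc, gen_sq h]
  | tail _ ih => simp only [ev_cons, ih]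

theorem ev_eqv {u v : List E} (h : X.Eqv u v) : X.ev u = X.ev v := by
  induction h with
  | refl => rfl
  | tail _ h ih => exact ih.trans (ev_step h)

theorem ev_rev (l : List E) : X.ev (l.map X.inv).reverse = (X.ev l)⁻¹ := by
  induction l with
  | nil => simp
  | cons e l ih =>
    simp only [List.map_cons, List.reverse_cons, ev_append, ih, ev_cons, ev_nil, mul_one,
      gen_inv, mul_inv_rev]

theorem exists_ev (g : X.G) : ∃ l, X.ev l = g := by
  obtain ⟨w, rfl⟩ := PresentedGroup.mk_surjective X.rels g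
  induction w using FreeGroup.induction_on with
  | C1 => exact ⟨[], by simp⟩
  | of e => exact ⟨[e], by simp [gen, PresentedGroup.of]⟩
  | inv_of e ih =>
    obtain ⟨l, hl⟩ := ih
    exact ⟨(l.map X.inv).reverse, by rw [ev_rev, hl, map_inv]⟩
  | mul a b iha ihb =>
    obtain ⟨l, hl⟩ := iha
    obtain ⟨l', hl'⟩ := ihb
    exact ⟨l ++ l', by rw [ev_append, hl, hl', map_mul]⟩

theorem hom_ext {H : Type} [Group H] {f g : X.G →* H} (h : ∀ e, f (X.gen e) = g (X.gen e)) :
    f = g := PresentedGroup.ext h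

variable (X) in
noncomputable def toPerm : X.G →* Equiv.Perm X.RC :=
  liftG X.actP (fun e => by
      ext r
      have := act_inv (X.inv e) r
      rwa [X.inv_inv] at this)
    (fun a b c d h => by
      ext r
      induction r using Quotient.inductionOn with
      | _ w => exact Quotient.sound (actL_sq h w.1))

variable (X) in
def rc0 : X.RC := Quotient.mk _ ⟨[], trivial⟩

variable (X) in
def rcLen : X.RC → ℕ := Quotient.lift (fun w => w.1.length) fun _ _ h => Eqv.length_eq h

variable (X) in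
def rcEv : X.RC → X.G := Quotient.lift (fun w => X.ev w.1) fun _ _ h => ev_eqv h

variable (X) in
/-- word length -/
noncomputable def len (g : X.G) : ℕ := X.rcLen (X.toPerm g X.rc0)

theorem toPerm_red {l : List E} (hl : X.Red l) :
    X.toPerm (X.ev l) X.rc0 = Quotient.mk _ ⟨l, hl⟩ := by
  induction l with
  | nil => simp [rc0]
  | cons e l ih =>
    rw [ev_cons, map_mul, Equiv.Perm.mul_apply, ih hl.1, toPerm, liftG_gen]
    apply Quotient.sound
    show X.Eqv (X.actL e l) (e :: l)
    rw [actL_neg hl.2]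
    exact Eqv.refl _

theorem rcEv_act (e : E) (r : X.RC) : X.rcEv (X.act e r) = X.gen e * X.rcEv r := by
  induction r using Quotient.inductionOn with
  | _ w =>
    show X.ev (X.actL e w.1) = X.gen e * X.ev w.1
    by_cases h : ∃ w', X.Eqv w.1 (X.inv e :: w')
    · obtain ⟨w', h⟩ := h
      rw [ev_eqv (actL_pos h), ev_eqv h, ev_cons, gen_inv, mul_inv_cancel_left]
    · rw [actL_neg h, ev_cons]

theorem rcEv_toPerm (g : X.G) (r : X.RC) : X.rcEv (X.toPerm g r) = g * X.rcEv r := by
  obtain ⟨l, rfl⟩ := exists_ev g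
  induction l with
  | nil => simp
  | cons e l ih =>
    rw [ev_cons, map_mul, Equiv.Perm.mul_apply, mul_assoc, ← ih, toPerm, liftG_gen]
    exact rcEv_act e _

theorem exists_red (g : X.G) : ∃ l, X.Red l ∧ X.ev l = g := by
  have h := rcEv_toPerm g X.rc0
  generalize X.toPerm g X.rc0 = r at h
  induction r using Quotient.inductionOn with
  | _ w => exact ⟨w.1, w.2, by simpa [rcEv, rc0] using h⟩

theorem len_red {l : List E} (hl : X.Red l) : X.len (X.ev l) = l.length := by
  rw [len, toPerm_red hl]; rfl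

theorem eqv_of_ev {u v : List E} (hu : X.Red u) (hv : X.Red v) (h : X.ev u = X.ev v) :
    X.Eqv u v := by
  have h1 := toPerm_red hu
  rw [h, toPerm_red hv] at h1
  exact Eqv.symm (Quotient.exact h1)

@[simp] theorem len_one : X.len 1 = 0 := len_red (l := []) trivial

theorem len_gen_mul (e : E) (g : X.G) :
    X.len (X.gen e * g) = X.len g + 1 ∨ X.len (X.gen e * g) + 1 = X.len g := by
  obtain ⟨l, hl, rfl⟩ := exists_red g
  by_cases h : ∃ w', X.Eqv l (X.inv e :: w')
  · obtain ⟨w', h⟩ := h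
    right
    rw [len_red hl, ev_eqv h, ev_cons, gen_inv, mul_inv_cancel_left, len_red (Red.eqv h hl).1,
      h.length_eq]
    rfl
  · left
    rw [← ev_cons, len_red (l := e :: l) ⟨hl, h⟩, len_red hl]
    rfl

theorem len_ev_mul (l : List E) (g : X.G) : X.len (X.ev l * g) ≤ l.length + X.len g := by
  induction l with
  | nil => simp
  | cons e l ih =>
    rw [ev_cons, mul_assoc]
    have := len_gen_mul e (X.ev l * g)
    simp only [List.length_cons]
    omega

theorem len_ev (l : List E) : X.len (X.ev l) ≤ l.length := by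
  simpa using len_ev_mul l 1

theorem exists_len (g : X.G) : ∃ l, l.length = X.len g ∧ X.ev l = g := by
  obtain ⟨l, hl, rfl⟩ := exists_red g
  exact ⟨l, (len_red hl).symm, rfl⟩

theorem len_mul (g h : X.G) : X.len (g * h) ≤ X.len g + X.len h := by
  obtain ⟨l, hl, rfl⟩ := exists_len g
  rw [← hl]; exact len_ev_mul l h

theorem len_inv (g : X.G) : X.len g⁻¹ = X.len g := by
  have key : ∀ g : X.G, X.len g⁻¹ ≤ X.len g := by
    intro g
    obtain ⟨l, hl, rfl⟩ := exists_len g
    rw [← ev_rev, ← hl]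
    simpa using len_ev (X := X) (l.map X.inv).reverse
  refine le_antisymm (key g) ?_
  simpa using key g⁻¹

theorem len_gen_le (e : E) : X.len (X.gen e) ≤ 1 := by
  simpa using len_ev (X := X) [e]

theorem geo_of_len {l : List E} (h : X.len (X.ev l) = l.length) : X.Geo l := by
  intro l' hl'
  rw [← h, ← hl']
  exact len_ev l'

variable (X) in
/-- `a` is the first letter of some geodesic word for `g` -/
def Desc (a : E) (g : X.G) : Prop := X.len ((X.gen a)⁻¹ * g) + 1 = X.len g

theorem not_desc {a : E} {g : X.G} (h : ¬ X.Desc a g) :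
    X.len ((X.gen a)⁻¹ * g) = X.len g + 1 := by
  have := len_gen_mul (X.inv a) g
  rw [gen_inv] at this
  unfold Desc at h
  omega

theorem desc_of_le {a : E} {g : X.G} (h : X.len ((X.gen a)⁻¹ * g) ≤ X.len g) : X.Desc a g := by
  by_contra h1
  have := not_desc h1
  omega

theorem exists_desc {g : X.G} (h : X.len g ≠ 0) : ∃ a, X.Desc a g := by
  obtain ⟨l, hl, rfl⟩ := exists_red g
  cases l with
  | nil => simp at h
  | cons a l =>
    refine ⟨a, ?_⟩
    unfold Desc
    rw [len_red hl, ev_cons, inv_mul_cancel_left, len_red hl.1]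
    rfl

theorem eq_one_of_len {g : X.G} (h : X.len g = 0) : g = 1 := by
  obtain ⟨l, hl, rfl⟩ := exists_len g
  rw [h, List.length_eq_zero_iff] at hl
  rw [hl]; rfl

theorem desc_red {a : E} {g : X.G} (h : X.Desc a g) :
    ∃ u, X.Red (a :: u) ∧ X.ev (a :: u) = g := by
  obtain ⟨u, hu, h1⟩ := exists_red ((X.gen a)⁻¹ * g)
  refine ⟨u, ⟨hu, ?_⟩, by rw [ev_cons, h1, mul_inv_cancel_left]⟩
  rintro ⟨w', h2⟩
  have h3 : X.ev w' = g := by
    have := ev_eqv h2
    rw [h1, ev_cons, gen_inv] at this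
    exact (mul_left_cancel this).symm
  have h4 := len_ev (X := X) w'
  have h5 := len_red hu
  have h6 := h2.length_eq
  unfold Desc at h
  rw [h1] at h5
  rw [h3] at h4
  simp only [List.length_cons] at h6
  omega

/-- two descending edges span a square -/
theorem quad {a c : E} {g : X.G} (ha : X.Desc a g) (hc : X.Desc c g) (hac : a ≠ c) :
    ∃ b d, X.S a b c d ∧ X.Desc b ((X.gen a)⁻¹ * g) ∧ X.Desc d ((X.gen c)⁻¹ * g) := by
  obtain ⟨u, hu, h1⟩ := desc_red ha
  obtain ⟨v, hv, h2⟩ := desc_red hc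
  rcases gar (eqv_of_ev hu hv (h1.trans h2.symm)) with ⟨e, _⟩ | ⟨b, d, w, hS, h3, h4⟩
  · exact absurd e hac
  · refine ⟨b, d, hS, ?_, ?_⟩
    · unfold Desc
      rw [← h1, ev_cons, inv_mul_cancel_left, ev_eqv h3, len_red (Red.eqv h3 hu.1), ev_cons,
        inv_mul_cancel_left, len_red (Red.eqv h3 hu.1).1]
      rfl
    · unfold Desc
      rw [← h2, ev_cons, inv_mul_cancel_left, ev_eqv h4, len_red (Red.eqv h4 hv.1), ev_cons,
        inv_mul_cancel_left, len_red (Red.eqv h4 hv.1).1]
      rfl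

end SqSys
end Pool.Agent.Lib.MP_28a49a_al
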