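import Pool.Agent.Lib.MP_28a49a_al.FPn

namespace Pool.Agent.Lib.MP_28a49a_al

open Function LinearMap

/-- the permutation module of a `Q`-set -/
def PM (_Q X : Type) : Type := X →₀ ℤ

namespace PM
variable {Q X Y : Type}

noncomputable instance : AddCommGroup (PM Q X) := inferInstanceAs (AddCommGroup (X →₀ ℤ))

/-- basis vectors -/
noncomputable def e (Q : Type) (x : X) : PM Q X := Finsupp.single x (1 : ℤ)

theorem ind {P : PM Q X → Prop} (m : PM Q X) (h0 : P 0) (hadd : ∀ a b, P a → P b → P (a + b))
    (hs : ∀ (n : ℤ) (x : X), P (n • e Q x)) : P m := by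
  refine Finsupp.induction_linear (motive := P) m h0 hadd fun x n => ?_
  have := hs n x
  have h : (n • e Q x : PM Q X) = Finsupp.single x n := by
    change n • Finsupp.single x (1 : ℤ) = _
    simp
  rwa [h] at this

theorem add_ext {M : Type} [AddCommGroup M] {f g : PM Q X →+ M} (h : ∀ x, f (e Q x) = g (e Q x)) :
    f = g := by
  ext m
  induction m using ind with
  | h0 => simp
  | hadd a b ha hb => simp [ha, hb]
  | hs n x => simp [h]

/-- additive maps out of the permutation module -/
noncomputable def alift {M : Type} [AddCommGroup M] (f : X → M) : PM Q X →+ M :=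
  (Finsupp.linearCombination ℤ f).toAddMonoidHom

@[simp] theorem alift_e {M : Type} [AddCommGroup M] (f : X → M) (x : X) :
    alift f (e Q x) = f x := by
  change Finsupp.linearCombination ℤ f (Finsupp.single x 1) = f x
  simp

/-- coefficients -/
def co (x : X) : PM Q X →+ ℤ := Finsupp.applyAddHom x

theorem co_e [DecidableEq X] (x y : X) : co x (e Q y) = if y = x then 1 else 0 := by
  change Finsupp.single y (1 : ℤ) x = _
  rw [Finsupp.single_apply]

theorem co_ext {m : PM Q X} (h : ∀ x, co x m = 0) : m = 0 := Finsupp.ext h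

theorem co_finite (m : PM Q X) : {x | co x m ≠ 0}.Finite :=
  Finsupp.hasFiniteSupport (m : X →₀ ℤ)

variable [Group Q] [MulAction Q X] [MulAction Q Y]

/-- the permutation representation -/
noncomputable def rho (Q X : Type) [Group Q] [MulAction Q X] : Q →* Module.End ℤ (PM Q X) where
  toFun g := (alift fun x => e Q (g • x)).toIntLinearMap
  map_one' := by
    apply LinearMap.toAddMonoidHom_injective
    apply add_ext
    intro x
    simp
  map_mul' g h := by
    apply LinearMap.toAddMonoidHom_injective
    apply add_ext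
    intro x
    simp [mul_smul]

noncomputable instance : Module (MonoidAlgebra ℤ Q) (PM Q X) :=
  Module.compHom (PM Q X) (MonoidAlgebra.lift ℤ (Module.End ℤ (PM Q X)) Q (rho Q X)).toRingHom

theorem of_smul (g : Q) (x : X) : MonoidAlgebra.of ℤ Q g • e Q x = e Q (g • x) := by
  change MonoidAlgebra.lift ℤ (Module.End ℤ (PM Q X)) Q (rho Q X) (MonoidAlgebra.of ℤ Q g)
    (e Q x) = _
  rw [MonoidAlgebra.lift_of]
  simp [rho]

end PM

/-- an additive map commuting with the group elements is linear -/
noncomputable def linOf {Q M N : Type} [Group Q] [AddCommGroup M] [AddCommGroup N]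
    [Module (MonoidAlgebra ℤ Q) M] [Module (MonoidAlgebra ℤ Q) N] (f : M →+ N)
    (hf : ∀ (g : Q) m, f (MonoidAlgebra.of ℤ Q g • m) = MonoidAlgebra.of ℤ Q g • f m) :
    M →ₗ[MonoidAlgebra ℤ Q] N where
  toFun := f
  map_add' := f.map_add
  map_smul' r m := by
    induction r using MonoidAlgebra.induction_on with
    | of g => exact hf g m
    | add x y hx hy =>
      simp only [RingHom.id_apply] at hx hy ⊢
      rw [add_smul, add_smul, map_add, hx, hy]
    | smul n x hx =>
      simp only [RingHom.id_apply] at hx ⊢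
      rw [smul_assoc, smul_assoc, map_zsmul, hx]

namespace PM
variable {Q X Y : Type} [Group Q] [MulAction Q X] [MulAction Q Y]

/-- linear maps out of the permutation module -/
noncomputable def lift {M : Type} [AddCommGroup M] [Module (MonoidAlgebra ℤ Q) M] (f : X → M)
    (hf : ∀ (g : Q) x, f (g • x) = MonoidAlgebra.of ℤ Q g • f x) :
    PM Q X →ₗ[MonoidAlgebra ℤ Q] M :=
  linOf (alift f) (by
    intro g m
    induction m using ind with
    | h0 => simp
    | hadd a b ha hb => simp only [smul_add, map_add, ha, hb]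
    | hs n x => rw [smul_comm, map_zsmul, map_zsmul, of_smul, alift_e, alift_e, hf, smul_comm])

@[simp] theorem lift_e {M : Type} [AddCommGroup M] [Module (MonoidAlgebra ℤ Q) M] (f : X → M)
    (hf : ∀ (g : Q) x, f (g • x) = MonoidAlgebra.of ℤ Q g • f x) (x : X) :
    lift f hf (e Q x) = f x := alift_e f x

theorem lin_ext {M : Type} [AddCommGroup M] [Module (MonoidAlgebra ℤ Q) M]
    {f g : PM Q X →ₗ[MonoidAlgebra ℤ Q] M} (h : ∀ x, f (e Q x) = g (e Q x)) : f = g :=
  LinearMap.toAddMonoidHom_injective (add_ext h)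

/-- the map induced by an equivariant map -/
noncomputable def map (π : X → Y) (hπ : ∀ (g : Q) x, π (g • x) = g • π x) :
    PM Q X →ₗ[MonoidAlgebra ℤ Q] PM Q Y :=
  lift (fun x => e Q (π x)) fun g x => by rw [hπ, of_smul]

@[simp] theorem map_e (π : X → Y) (hπ : ∀ (g : Q) x, π (g • x) = g • π x) (x : X) :
    map π hπ (e Q x) = e Q (π x) := lift_e _ _ x

theorem map_surj (π : X → Y) (hπ : ∀ (g : Q) x, π (g • x) = g • π x) (hs : Surjective π) :
    Surjective (map π hπ) := by
  intro m
  induction m using ind with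
  | h0 => exact ⟨0, map_zero _⟩
  | hadd a b ha hb =>
    obtain ⟨a, rfl⟩ := ha
    obtain ⟨b, rfl⟩ := hb
    exact ⟨a + b, map_add _ _ _⟩
  | hs n y =>
    obtain ⟨x, rfl⟩ := hs y
    exact ⟨n • e Q x, by rw [map_zsmul, map_e]⟩

theorem ker_map (π : X → Y) (hπ : ∀ (g : Q) x, π (g • x) = g • π x) (hs : Surjective π)
    (W : Submodule (MonoidAlgebra ℤ Q) (PM Q X))
    (hW : ∀ x x', π x = π x' → e Q x - e Q x' ∈ W) (m : PM Q X) (hm : map π hπ m = 0) : m ∈ W := by
  let s : PM Q Y →+ (PM Q X ⧸ W) := alift fun y => W.mkQ (e Q (surjInv hs y))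
  have h : s.comp (map π hπ).toAddMonoidHom = W.mkQ.toAddMonoidHom := by
    apply add_ext
    intro x
    simp only [AddMonoidHom.comp_apply, LinearMap.toAddMonoidHom_coe, map_e, s, alift_e,
      Submodule.mkQ_apply]
    exact (Submodule.Quotient.eq W).2 (hW _ _ (surjInv_eq hs _))
  have h2 := DFunLike.congr_fun h m
  simp only [AddMonoidHom.comp_apply, LinearMap.toAddMonoidHom_coe, hm, map_zero] at h2
  exact (Submodule.Quotient.mk_eq_zero W).1 h2.symm

/-- quotient by a free equivariant action of the integers -/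
theorem fp_int (π : X → Y) (hπ : ∀ (g : Q) x, π (g • x) = g • π x) (hs : Surjective π)
    (τ : Equiv.Perm X) (hτ : ∀ (g : Q) x, τ (g • x) = g • τ x)
    (hfib : ∀ x x', π x = π x' ↔ ∃ k : ℤ, (τ ^ k) x = x')
    (hfree : ∀ x (k : ℤ), (τ ^ k) x = x → k = 0)
    (hX : FPinf (MonoidAlgebra ℤ Q) (PM Q X)) : FPinf (MonoidAlgebra ℤ Q) (PM Q Y) := by
  classical
  let d : PM Q X →ₗ[MonoidAlgebra ℤ Q] PM Q X := map τ hτ - LinearMap.id
  have hd : ∀ x, d (e Q x) = e Q (τ x) - e Q x := fun x => by simp [d]
  refine FPinf.quot d (map π hπ) ?_ ?_ (map_surj π hπ hs) hX hX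
  · rw [injective_iff_map_eq_zero]
    intro m hm
    have h1 : ∀ x, co (τ x) (map τ hτ m) = co x m := by
      intro x
      have : (co (τ x)).comp (map τ hτ).toAddMonoidHom = co x := by
        apply add_ext
        intro y
        simp [co_e]
      exact DFunLike.congr_fun this m
    have h2 : map τ hτ m = m := sub_eq_zero.1 hm
    rw [h2] at h1
    have h3 : ∀ (n : ℕ) x, co ((τ ^ n) x) m = co x m := by
      intro n
      induction n with
      | zero => simp
      | succ n ih => intro x; rw [pow_succ', Equiv.Perm.mul_apply, h1, ih]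
    apply co_ext
    intro x
    by_contra hx
    have hinj : Injective fun n : ℕ => (τ ^ n) x := by
      intro a b hab
      have : (τ ^ (-(b : ℤ) + a)) x = x := by
        have hab' : (τ ^ a) x = (τ ^ b) x := hab
        rw [zpow_add, Equiv.Perm.mul_apply, zpow_natCast, hab', ← Equiv.Perm.mul_apply,
          ← zpow_natCast, ← zpow_add]
        simp
      have := hfree x _ this
      omega
    exact Set.infinite_of_injective_forall_mem hinj
      (fun n => show co ((τ ^ n) x) m ≠ 0 by rw [h3]; exact hx) (co_finite m)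
  · intro m
    constructor
    · intro hm
      refine ker_map π hπ hs (range d) ?_ m hm
      intro x x' hxx
      obtain ⟨k, rfl⟩ := (hfib x x').1 hxx
      clear hxx
      induction k using Int.induction_on with
      | zero => simp
      | succ k ih =>
        have : e Q x - e Q ((τ ^ ((k : ℤ) + 1)) x) =
            (e Q x - e Q ((τ ^ (k : ℤ)) x)) - d (e Q ((τ ^ (k : ℤ)) x)) := by
          rw [hd, add_comm, zpow_add, zpow_one, Equiv.Perm.mul_apply]
          abel
        rw [this]
        exact sub_mem ih ⟨_, rfl⟩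
      | pred k ih =>
        have : e Q x - e Q ((τ ^ (-(k : ℤ) - 1)) x) =
            (e Q x - e Q ((τ ^ (-(k : ℤ))) x)) + d (e Q ((τ ^ (-(k : ℤ) - 1)) x)) := by
          rw [hd, ← Equiv.Perm.mul_apply τ, ← zpow_one_add]
          simp
        rw [this]
        exact add_mem ih ⟨_, rfl⟩
    · rintro ⟨m, rfl⟩
      have : (map π hπ) ∘ₗ d = 0 := by
        apply lin_ext
        intro x
        have : π x = π (τ x) := (hfib x (τ x)).2 ⟨1, by simp⟩
        simp [hd, this]
      exact LinearMap.congr_fun this m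

theorem fp_sum (hX : FPinf (MonoidAlgebra ℤ Q) (PM Q X)) (hY : FPinf (MonoidAlgebra ℤ Q) (PM Q Y)) :
    FPinf (MonoidAlgebra ℤ Q) (PM Q (X ⊕ Y)) := by
  refine FPinf.equiv ?_ (hX.prod hY)
  refine LinearEquiv.ofLinearMap
    ((map Sum.inl fun _ _ => rfl).coprod (map Sum.inr fun _ _ => rfl))
    (lift (Sum.elim (fun x => (e Q x, 0)) fun y => (0, e Q y)) ?_) ?_ ?_
  · rintro g (x | y)
    · change (e Q (g • x), (0 : PM Q Y)) = _
      simp only [Sum.elim_inl, Prod.smul_mk, of_smul, smul_zero]
    · change ((0 : PM Q X), e Q (g • y)) = _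
      simp only [Sum.elim_inr, Prod.smul_mk, of_smul, smul_zero]
  · apply lin_ext
    rintro (x | y) <;> simp
  · apply LinearMap.prod_ext
    · apply lin_ext
      intro x
      simp
    · apply lin_ext
      intro y
      simp

/-- the vertex and edge modules of a forest -/
theorem fp_tree {E V : Type} [MulAction Q E] [MulAction Q V] (s t : E → V)
    (hs : ∀ (g : Q) x, s (g • x) = g • s x) (ht : ∀ (g : Q) x, t (g • x) = g • t x)
    (π : V → Y) (hπ : ∀ (g : Q) x, π (g • x) = g • π x) (hsurj : Surjective π)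
    (hst : ∀ x, π (s x) = π (t x))
    (hconn : ∀ v v', π v = π v' → Relation.EqvGen (fun a b => ∃ x, s x = a ∧ t x = b) v v')
    (h : V → PM Q E) (hh : ∀ x, h (t x) - h (s x) = e Q x)
    (hE : FPinf (MonoidAlgebra ℤ Q) (PM Q E)) (hV : FPinf (MonoidAlgebra ℤ Q) (PM Q V)) :
    FPinf (MonoidAlgebra ℤ Q) (PM Q Y) := by
  let d : PM Q E →ₗ[MonoidAlgebra ℤ Q] PM Q V := map t ht - map s hs
  have hd : ∀ x, d (e Q x) = e Q (t x) - e Q (s x) := fun x => by simp [d]
  refine FPinf.quot d (map π hπ) ?_ ?_ (map_surj π hπ hsurj) hE hV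
  · have : (alift h).comp d.toAddMonoidHom = AddMonoidHom.id _ := by
      apply add_ext
      intro x
      simp [hd, hh]
    exact LeftInverse.injective (g := alift h) fun m => DFunLike.congr_fun this m
  · intro m
    constructor
    · intro hm
      refine ker_map π hπ hsurj (range d) ?_ m hm
      intro v v' hvv
      have := hconn v v' hvv
      clear hvv
      induction this with
      | rel a b hab =>
        obtain ⟨x, rfl, rfl⟩ := hab
        exact ⟨-e Q x, by rw [map_neg, hd, neg_sub]⟩
      | refl a => simp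
      | symm a b _ ih => rw [← neg_sub]; exact neg_mem ih
      | trans a b c _ _ ih1 ih2 =>
        rw [← sub_add_sub_cancel _ (e Q b)]
        exact add_mem ih1 ih2
    · rintro ⟨m, rfl⟩
      have : (map π hπ) ∘ₗ d = 0 := by
        apply lin_ext
        intro x
        simp [hd, hst]
      exact LinearMap.congr_fun this m

end PM

end Pool.Agent.Lib.MP_28a49a_al
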