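import Pool.Agent.Lib.MP_28a49a_al.Defs
import Pool.Agent.Lib.MP_28a49a_al.PermMod

namespace Pool.Agent.Lib.MP_28a49a_al

open Function

namespace HomFP

/-- the coset module of `S` is of type `FP n` for all `n` -/
def FPS {Q : Type} [Group Q] (S : Subgroup Q) : Prop :=
  FPinf (MonoidAlgebra ℤ Q) (PM Q (Q ⧸ S))

/-- finiteness passes from `N` to `H` whenever `H / N` is the given group -/
def Cls (G : Type) [Group G] : Prop :=
  ∀ (Q H : Type) [Group Q] [Group H] (i : H →* Q) (p : H →* G), Injective i → Surjective p →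
    FPS (p.ker.map i) → FPS i.range

theorem Cls.sub {G Q H : Type} [Group G] [Group Q] [Group H] (B : Subgroup G) (hB : Cls B)
    (i : H →* Q) (p : H →* G) (hi : Injective i) (hp : Surjective p) (h : FPS (p.ker.map i)) :
    FPS ((B.comap p).map i) := by
  have h1 := hB Q (B.comap p) (i.comp (B.comap p).subtype) (p.subgroupComap B)
    (hi.comp Subtype.val_injective) (p.subgroupComap_surjective_of_surjective B hp)
  have e1 : (p.subgroupComap B).ker.map (i.comp (B.comap p).subtype) = p.ker.map i := by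
    ext x
    simp only [Subgroup.mem_map, MonoidHom.mem_ker, MonoidHom.comp_apply, Subgroup.coe_subtype]
    constructor
    · rintro ⟨y, hy, rfl⟩
      exact ⟨y.1, congrArg Subtype.val hy, rfl⟩
    · rintro ⟨y, hy, rfl⟩
      exact ⟨⟨y, by simp [hy]⟩, Subtype.ext hy, rfl⟩
  have e2 : (i.comp (B.comap p).subtype).range = (B.comap p).map i := by
    rw [MonoidHom.range_comp, Subgroup.range_subtype]
  rw [e1, e2] at h1
  exact h1 h

theorem qmap_smul {Q : Type} [Group Q] {S T : Subgroup Q} (h : S ≤ T) (g : Q) (x : Q ⧸ S) :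
    Subgroup.quotientMapOfLE h (g • x) = g • Subgroup.quotientMapOfLE h x := by
  induction x using QuotientGroup.induction_on with
  | H q => rfl

theorem qmap_surj {Q : Type} [Group Q] {S T : Subgroup Q} (h : S ≤ T) :
    Surjective (Subgroup.quotientMapOfLE h) := by
  intro y
  induction y using QuotientGroup.induction_on with
  | H q => exact ⟨(q : Q ⧸ S), rfl⟩

theorem cls_int : Cls (Multiplicative ℤ) := by
  intro Q H _ _ i p hi hp hN
  obtain ⟨t, ht⟩ := hp (Multiplicative.ofAdd 1)
  have hle : p.ker.map i ≤ i.range := Subgroup.map_le_range i _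
  let r : H → Q ⧸ p.ker.map i → Q ⧸ p.ker.map i := fun h =>
    Quotient.map' (fun q => q * i h) (by
      intro a b hab
      rw [QuotientGroup.leftRel_apply] at hab ⊢
      obtain ⟨n, hn, e⟩ := hab
      refine ⟨h⁻¹ * n * h, ?_, ?_⟩
      · have : p n = 1 := hn
        simp [this]
      · rw [map_mul, map_mul, e, map_inv]
        group)
  have hr : ∀ h (q : Q), r h (q : Q ⧸ p.ker.map i) = (q * i h : Q) := fun _ _ => rfl
  let τ : Equiv.Perm (Q ⧸ p.ker.map i) :=
    { toFun := r t
      invFun := r t⁻¹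
      left_inv := by
        intro x
        induction x using QuotientGroup.induction_on with
        | H q => rw [hr, hr]; simp
      right_inv := by
        intro x
        induction x using QuotientGroup.induction_on with
        | H q => rw [hr, hr]; simp }
  have hτ : ∀ (k : ℤ) (q : Q), (τ ^ k) (q : Q ⧸ p.ker.map i) = (q * i (t ^ k) : Q) := by
    intro k
    induction k using Int.induction_on with
    | zero => simp
    | succ k ih =>
      intro q
      rw [add_comm, zpow_add, zpow_one, Equiv.Perm.mul_apply, ih]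
      refine (hr t _).trans ?_
      rw [add_comm, zpow_add, zpow_one, map_mul, mul_assoc]
    | pred k ih =>
      intro q
      rw [sub_eq_neg_add, zpow_add, zpow_neg_one, Equiv.Perm.mul_apply, ih]
      refine (hr t⁻¹ _).trans ?_
      rw [add_comm, zpow_add, zpow_neg_one, map_mul, mul_assoc]
  have hpt : ∀ k : ℤ, p (t ^ k) = Multiplicative.ofAdd k := by
    intro k
    rw [map_zpow, ht, ← ofAdd_zsmul]
    simp
  refine PM.fp_int (Subgroup.quotientMapOfLE hle) (qmap_smul hle) (qmap_surj hle) τ ?_ ?_ ?_ hN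
  · intro g x
    induction x using QuotientGroup.induction_on with
    | H q =>
      change ((g * q * i t : Q) : Q ⧸ p.ker.map i) = (g * (q * i t) : Q)
      rw [mul_assoc]
  · intro x x'
    induction x using QuotientGroup.induction_on with
    | H q =>
    induction x' using QuotientGroup.induction_on with
    | H q' =>
    simp only [Subgroup.quotientMapOfLE_apply_mk, hτ, QuotientGroup.eq]
    constructor
    · rintro ⟨h, hh⟩
      refine ⟨(p h).toAdd, (t ^ (p h).toAdd)⁻¹ * h, ?_, ?_⟩
      · change p _ = 1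
        rw [map_mul, map_inv, hpt]
        simp
      · rw [map_mul, map_inv, hh]
        group
    · rintro ⟨k, n, _, hn⟩
      refine ⟨t ^ k * n, ?_⟩
      rw [map_mul, hn]
      group
  · intro x k
    induction x using QuotientGroup.induction_on with
    | H q =>
    rw [hτ, QuotientGroup.eq]
    rintro ⟨n, hn, e⟩
    have h1 : n = (t ^ k)⁻¹ := hi (by rw [e, map_inv]; group)
    have h2 : p n = 1 := hn
    rw [h1, map_inv, hpt] at h2
    simpa using h2

/-- an affine action on functions -/
def act {G M : Type} [Group G] [AddCommGroup M] (κ : G → M) : G →* Equiv.Perm (G × M) :=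
  MonoidHom.toHomPerm
    { toFun := fun x z => (z.1 * x⁻¹, z.2 + κ z.1 - κ (z.1 * x⁻¹))
      map_one' := by
        funext z
        simp [Function.End.one_def]
      map_mul' := by
        intro x y
        funext z
        simp [Function.End.mul_def, mul_assoc] }

theorem act_apply {G M : Type} [Group G] [AddCommGroup M] (κ : G → M) (x : G) (z : G × M) :
    act κ x z = (z.1 * x⁻¹, z.2 + κ z.1 - κ (z.1 * x⁻¹)) := rfl

theorem cocycle {G M : Type} [Group G] [AddCommGroup M] {A B : Subgroup G} (h : IsAmalgam A B)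
    (κ : G → M) (hκ : ∀ g c, c ∈ A → c ∈ B → κ (g * c) = κ g) :
    ∃ δ : G → M, (∀ g, ∀ a ∈ A, δ (g * a) = δ g) ∧
      ∀ g, ∀ b ∈ B, δ (g * b) + κ (g * b) = δ g + κ g := by
  obtain ⟨F, hA, hB⟩ := h.2 (Equiv.Perm (G × M)) ((act fun _ => 0).comp A.subtype)
    ((act κ).comp B.subtype) (by
      intro x ha hb
      ext1 z
      simp [act_apply, hκ _ _ (A.inv_mem ha) (B.inv_mem hb)])
  have h1 : ∀ x z, (F x z).1 = z.1 * x⁻¹ := by
    let K : Subgroup G :=
      { carrier := {x | ∀ z, (F x z).1 = z.1 * x⁻¹}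
        one_mem' := by intro z; simp
        mul_mem' := by
          intro x y hx hy z
          rw [map_mul, Equiv.Perm.mul_apply, hx, hy, mul_inv_rev, mul_assoc]
        inv_mem' := by
          intro x hx z
          have := hx (F x⁻¹ z)
          rw [← Equiv.Perm.mul_apply, ← map_mul, mul_inv_cancel, map_one,
            Equiv.Perm.one_apply] at this
          rw [this]
          simp }
    have : A ⊔ B ≤ K := sup_le (fun a ha z => by rw [hA ⟨a, ha⟩]; rfl)
      (fun b hb z => by rw [hB ⟨b, hb⟩]; rfl)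
    intro x
    exact this (h.1 ▸ Subgroup.mem_top x)
  refine ⟨fun g => (F g⁻¹ (1, 0)).2, ?_, ?_⟩
  · intro g a ha
    simp only [mul_inv_rev, map_mul, Equiv.Perm.mul_apply]
    rw [hA ⟨a⁻¹, A.inv_mem ha⟩, MonoidHom.comp_apply, act_apply]
    simp only [add_zero, sub_zero]
  · intro g b hb
    simp only [mul_inv_rev, map_mul, Equiv.Perm.mul_apply]
    rw [hB ⟨b⁻¹, B.inv_mem hb⟩, MonoidHom.comp_apply, act_apply, h1]
    simp only [Subgroup.coe_subtype, inv_inv, one_mul, sub_add_cancel]

theorem cls_amalgam {G : Type} [Group G] {A B : Subgroup G} (h : IsAmalgam A B) (hA : Cls A)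
    (hB : Cls B) (hC : Cls (A ⊓ B : Subgroup G)) : Cls G := by
  intro Q H _ _ i p hi hp hN
  have fA := hA.sub A i p hi hp hN
  have fB := hB.sub B i p hi hp hN
  have fC := hC.sub (A ⊓ B) i p hi hp hN
  set A' := (A.comap p).map i
  set B' := (B.comap p).map i
  set C' := ((A ⊓ B).comap p).map i
  have lA : C' ≤ A' := Subgroup.map_mono (Subgroup.comap_mono inf_le_left)
  have lB : C' ≤ B' := Subgroup.map_mono (Subgroup.comap_mono inf_le_right)
  have uA : A' ≤ i.range := Subgroup.map_le_range i _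
  have uB : B' ≤ i.range := Subgroup.map_le_range i _
  let κ : Q → G → PM Q (Q ⧸ C') := fun r g => PM.e Q ((r * i (surjInv hp g) : Q) : Q ⧸ C')
  have hκ : ∀ r (x : H), κ r (p x) = PM.e Q ((r * i x : Q) : Q ⧸ C') := by
    intro r x
    simp only [κ]
    congr 1
    rw [QuotientGroup.eq]
    refine ⟨(surjInv hp (p x))⁻¹ * x, ?_, ?_⟩
    · change p _ ∈ A ⊓ B
      rw [map_mul, map_inv, surjInv_eq hp, inv_mul_cancel]
      exact one_mem _
    · rw [map_mul, map_inv]
      group
  have hκ' : ∀ r g c, c ∈ A → c ∈ B → κ r (g * c) = κ r g := by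
    intro r g c ha hb
    obtain ⟨x, rfl⟩ := hp g
    obtain ⟨y, rfl⟩ := hp c
    rw [← map_mul, hκ, hκ]
    congr 1
    rw [QuotientGroup.eq]
    refine ⟨y⁻¹, ?_, ?_⟩
    · change p _ ∈ A ⊓ B
      rw [map_inv]
      exact inv_mem ⟨ha, hb⟩
    · rw [map_mul, map_inv]
      group
  choose δ hδA hδB using fun r => cocycle h (κ r) (hκ' r)
  let rep : Q → Q := fun q => (q : Q ⧸ i.range).out
  have hrep : ∀ q, ∃ x, rep q * i x = q := by
    intro q
    obtain ⟨y, hy⟩ := QuotientGroup.mk_out_eq_mul i.range q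
    obtain ⟨x, hx⟩ := y.2
    exact ⟨x⁻¹, by simp only [rep]; rw [hy, map_inv, hx]; group⟩
  choose j hj using hrep
  have hrep2 : ∀ q x, rep (q * i x) = rep q := by
    intro q x
    simp only [rep]
    congr 1
    rw [QuotientGroup.eq]
    exact ⟨x⁻¹, by rw [map_inv]; group⟩
  have hj2 : ∀ q x, j (q * i x) = j q * x := by
    intro q x
    apply hi
    apply mul_left_cancel (a := rep q)
    rw [map_mul, ← mul_assoc, hj, ← hrep2 q x, hj]
  let φ : Q → PM Q (Q ⧸ C') := fun q => δ (rep q) (p (j q))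
  have hφA : ∀ q x, p x ∈ A → φ (q * i x) = φ q := by
    intro q x hx
    simp only [φ]
    rw [hrep2, hj2, map_mul, hδA _ _ _ hx]
  have hφB : ∀ q x, p x ∈ B → φ (q * i x) + PM.e Q ((q * i x : Q) : Q ⧸ C') =
      φ q + PM.e Q (q : Q ⧸ C') := by
    intro q x hx
    have := hδB (rep q) (p (j q)) (p x) hx
    rw [← map_mul, hκ, hκ, map_mul i, ← mul_assoc, hj] at this
    simp only [φ]
    rw [hrep2, hj2]
    exact this
  let hAq : Q ⧸ A' → PM Q (Q ⧸ C') := Quotient.lift φ (by
    intro a b hab
    obtain ⟨x, hx, e⟩ := QuotientGroup.leftRel_apply.1 hab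
    have : b = a * i x := by rw [e]; group
    rw [this, hφA _ _ hx])
  let hBq : Q ⧸ B' → PM Q (Q ⧸ C') := Quotient.lift (fun q => φ q + PM.e Q (q : Q ⧸ C')) (by
    intro a b hab
    obtain ⟨x, hx, e⟩ := QuotientGroup.leftRel_apply.1 hab
    have : b = a * i x := by rw [e]; group
    rw [this, hφB _ _ hx])
  let s : Q ⧸ C' → (Q ⧸ A') ⊕ (Q ⧸ B') := fun x => Sum.inl (Subgroup.quotientMapOfLE lA x)
  let t : Q ⧸ C' → (Q ⧸ A') ⊕ (Q ⧸ B') := fun x => Sum.inr (Subgroup.quotientMapOfLE lB x)
  refine PM.fp_tree s t ?_ ?_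
    (Sum.elim (Subgroup.quotientMapOfLE uA) (Subgroup.quotientMapOfLE uB)) ?_ ?_ ?_ ?_
    (Sum.elim hAq hBq) ?_ fC (PM.fp_sum fA fB)
  · intro g x
    simp only [s, qmap_smul, Sum.smul_inl]
  · intro g x
    simp only [t, qmap_smul, Sum.smul_inr]
  · rintro g (x | x)
    · exact qmap_smul uA g x
    · exact qmap_smul uB g x
  · intro y
    obtain ⟨x, rfl⟩ := qmap_surj uA y
    exact ⟨Sum.inl x, rfl⟩
  · intro x
    induction x using QuotientGroup.induction_on with
    | H q => rfl
  · let rel : (Q ⧸ A') ⊕ (Q ⧸ B') → (Q ⧸ A') ⊕ (Q ⧸ B') → Prop :=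
      Relation.EqvGen fun a b => ∃ x, s x = a ∧ t x = b
    have r1 : ∀ q : Q, rel (Sum.inl (q : Q ⧸ A')) (Sum.inr (q : Q ⧸ B')) := fun q =>
      Relation.EqvGen.rel _ _ ⟨(q : Q ⧸ C'), rfl, rfl⟩
    let K : Subgroup H :=
      { carrier := {x | ∀ q : Q, rel (Sum.inl (q : Q ⧸ A')) (Sum.inl ((q * i x : Q) : Q ⧸ A'))}
        one_mem' := by
          intro q
          rw [map_one, mul_one]
          exact Relation.EqvGen.refl _
        mul_mem' := by
          intro x y hx hy q
          rw [map_mul, ← mul_assoc]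
          exact Relation.EqvGen.trans _ _ _ (hx q) (hy _)
        inv_mem' := by
          intro x hx q
          have := hx (q * i x⁻¹)
          rw [mul_assoc, ← map_mul, inv_mul_cancel, map_one, mul_one] at this
          exact Relation.EqvGen.symm _ _ this }
    have hK : A.comap p ⊔ B.comap p ≤ K := by
      refine sup_le (fun x hx q => ?_) fun x hx q => ?_
      · have : ((q * i x : Q) : Q ⧸ A') = q := by
          rw [eq_comm, QuotientGroup.eq]
          exact ⟨x, hx, by group⟩
        rw [this]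
        exact Relation.EqvGen.refl _
      · have : ((q * i x : Q) : Q ⧸ B') = q := by
          rw [eq_comm, QuotientGroup.eq]
          exact ⟨x, hx, by group⟩
        have h2 := r1 (q * i x)
        rw [this] at h2
        exact Relation.EqvGen.trans _ _ _ (r1 q) (Relation.EqvGen.symm _ _ h2)
    rw [Subgroup.comap_sup_eq p A B hp, h.1, Subgroup.comap_top] at hK
    have r2 : ∀ q q' : Q, (q : Q ⧸ i.range) = q' →
        rel (Sum.inl (q : Q ⧸ A')) (Sum.inl (q' : Q ⧸ A')) := by
      intro q q' hq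
      obtain ⟨x, hx⟩ := QuotientGroup.eq.1 hq
      have : q' = q * i x := by rw [hx]; group
      rw [this]
      exact hK (Subgroup.mem_top x) q
    rintro (v | v) (v' | v') <;> induction v using QuotientGroup.induction_on <;>
      induction v' using QuotientGroup.induction_on <;> intro hv
    · exact r2 _ _ hv
    · exact Relation.EqvGen.trans _ _ _ (r2 _ _ hv) (r1 _)
    · exact Relation.EqvGen.trans _ _ _ (Relation.EqvGen.symm _ _ (r1 _)) (r2 _ _ hv)
    · exact Relation.EqvGen.trans _ _ _ (Relation.EqvGen.symm _ _ (r1 _))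
        (Relation.EqvGen.trans _ _ _ (r2 _ _ hv) (r1 _))
  · intro x
    induction x using QuotientGroup.induction_on with
    | H q =>
      change φ q + PM.e Q (q : Q ⧸ C') - φ q = _
      abel

theorem cls_of_good {G : Type} [Group G] (h : Good G) : Cls G := by
  induction h with
  | int => exact cls_int
  | equiv e _ ih =>
    intro Q K _ _ i p hi hp hN
    refine ih Q K i (e.symm.toMonoidHom.comp p) hi (e.symm.surjective.comp hp) ?_
    have : (e.symm.toMonoidHom.comp p).ker = p.ker := by
      ext x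
      simp
    rwa [this]
  | ext π hπ _ _ ih1 ih2 =>
    intro Q K _ _ i p hi hp hN
    refine ih2 Q K i (π.comp p) hi (hπ.comp hp) ?_
    rw [← MonoidHom.comap_ker]
    exact ih1.sub _ i p hi hp hN
  | amalgam A B h _ _ _ ihA ihB ihC => exact cls_amalgam h ihA ihB ihC

theorem fps_bot (Q : Type) [Group Q] : FPS (⊥ : Subgroup Q) := by
  refine FPinf.equiv ?_ (FPinf.of_projective (MonoidAlgebra ℤ Q))
  refine LinearEquiv.ofLinearMap
    (LinearMap.toSpanSingleton _ _ (PM.e Q ((1 : Q) : Q ⧸ (⊥ : Subgroup Q))))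
    (PM.lift (Quotient.lift (fun q => MonoidAlgebra.of ℤ Q q) ?_) ?_) ?_ ?_
  · intro a b hab
    have := QuotientGroup.leftRel_apply.1 hab
    rw [Subgroup.mem_bot, inv_mul_eq_one] at this
    rw [this]
  · intro g x
    induction x using QuotientGroup.induction_on with
    | H q => exact map_mul (MonoidAlgebra.of ℤ Q) g q
  · apply PM.lin_ext
    intro x
    induction x using QuotientGroup.induction_on with
    | H q =>
      rw [LinearMap.comp_apply, PM.lift_e]
      change MonoidAlgebra.of ℤ Q q • PM.e Q ((1 : Q) : Q ⧸ (⊥ : Subgroup Q)) = PM.e Q _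
      rw [PM.of_smul]
      congr 1
      change ((q * 1 : Q) : Q ⧸ (⊥ : Subgroup Q)) = _
      rw [mul_one]
  · apply LinearMap.ext_ring
    rw [LinearMap.comp_apply, LinearMap.toSpanSingleton_apply, one_smul, PM.lift_e]
    rfl

theorem fp_aug {Q : Type} [Group Q] (h : FPS (⊤ : Subgroup Q)) :
    FPinf (MonoidAlgebra ℤ Q) (Submodule.span (MonoidAlgebra ℤ Q)
      (Set.range fun g : Q => MonoidAlgebra.of ℤ Q g - 1)) := by
  set I := Submodule.span (MonoidAlgebra ℤ Q) (Set.range fun g : Q => MonoidAlgebra.of ℤ Q g - 1)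
  let x₀ : Q ⧸ (⊤ : Subgroup Q) := (1 : Q)
  have hx : ∀ x : Q ⧸ (⊤ : Subgroup Q), x = x₀ := fun x =>
    QuotientGroup.subsingleton_quotient_top.elim _ _
  let ε := LinearMap.toSpanSingleton (MonoidAlgebra ℤ Q) _ (PM.e Q x₀)
  have hε : ∀ g, ε (MonoidAlgebra.of ℤ Q g) = PM.e Q x₀ := by
    intro g
    rw [LinearMap.toSpanSingleton_apply, PM.of_smul, hx (g • x₀)]
  refine FPinf.sub I.subtype ε Subtype.val_injective ?_ ?_ (FPinf.of_projective _) h
  · intro r
    constructor
    · intro hr
      let ψ : PM Q (Q ⧸ (⊤ : Subgroup Q)) →+ (MonoidAlgebra ℤ Q ⧸ I) := PM.alift fun _ => I.mkQ 1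
      have : ∀ r, ψ (ε r) = I.mkQ r := by
        intro r
        induction r using MonoidAlgebra.induction_on with
        | of g =>
          rw [hε, PM.alift_e, eq_comm]
          exact (Submodule.Quotient.eq I).2 (Submodule.subset_span ⟨g, rfl⟩)
        | add x y hx hy => rw [map_add, map_add, map_add, hx, hy]
        | smul n x hx => rw [map_zsmul, map_zsmul, map_zsmul, hx]
      have h2 := this r
      rw [hr, map_zero] at h2
      exact ⟨⟨r, (Submodule.Quotient.mk_eq_zero I).1 h2.symm⟩, rfl⟩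
    · rintro ⟨y, rfl⟩
      have : I ≤ LinearMap.ker ε := by
        rw [Submodule.span_le]
        rintro _ ⟨g, rfl⟩
        change ε _ = 0
        rw [map_sub, hε, LinearMap.toSpanSingleton_apply, one_smul, sub_self]
      exact this y.2
  · intro m
    induction m using PM.ind with
    | h0 => exact ⟨0, map_zero _⟩
    | hadd a b ha hb =>
      obtain ⟨a, rfl⟩ := ha
      obtain ⟨b, rfl⟩ := hb
      exact ⟨a + b, map_add _ _ _⟩
    | hs n x => exact ⟨n • MonoidAlgebra.of ℤ Q 1, by rw [map_zsmul, hε, hx x]⟩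

end HomFP

theorem Good.homFP3 {Q : Type} [Group Q] (h : Good Q) : HomFP3 Q := by
  have h1 := HomFP.cls_of_good h Q Q (MonoidHom.id Q) (MonoidHom.id Q) injective_id surjective_id
  rw [MonoidHom.ker_id, Subgroup.map_bot, MonoidHom.range_eq_top.2 surjective_id] at h1
  have h2 := HomFP.fp_aug (h1 (HomFP.fps_bot Q))
  intro ι κ _ _ d₂ d₁ e1 e2
  have h3 := FPinf.ker_of_range d₁ _ e1 (FPinf.of_projective _) h2
  have h4 : Module.Finite _ _ := FPinf.ker_of_range d₂ _ e2 (FPinf.of_projective _) h3 0
  exact Module.Finite.iff_fg.1 h4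

end Pool.Agent.Lib.MP_28a49a_al
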