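import Pool.Agent.Lib.MP_28a49a_al.VHExt

namespace Pool.Agent.Lib.MP_28a49a_al

open Function

section Free
variable {S : Type} [DecidableEq S]

theorem top_letter {f : FreeGroup S} {x : Let S} {t : List (Let S)} (hf : f.toWord = x :: t)
    {z : Let S} (hz : ((fl z)⁻¹ * f).norm ≤ f.norm) : z = x := by
  by_contra hne
  have e : (fl z)⁻¹ * f = FreeGroup.mk (bar z :: f.toWord) := by
    rw [← fl_bar]
    conv_lhs => rw [← FreeGroup.mk_toWord (x := f)]
    rfl
  have e2 : FreeGroup.reduce (bar z :: f.toWord) = bar z :: f.toWord := by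
    rw [FreeGroup.reduce.cons, FreeGroup.reduce_toWord, hf]
    simp only
    rw [if_neg]
    rintro ⟨h1, h2⟩
    exact hne (Prod.ext h1 (by simpa [bar] using h2))
  rw [e, FreeGroup.norm, FreeGroup.toWord_mk, e2, FreeGroup.norm] at hz
  simp at hz

omit [DecidableEq S] in
theorem fl_inv_mul_mk (x : Let S) (t : List (Let S)) :
    (fl x)⁻¹ * FreeGroup.mk (x :: t) = FreeGroup.mk t := by
  rw [inv_mul_eq_iff_eq_mul]
  rfl

/-- the first letter of a position -/
def oc (f : FreeGroup S) : Option (Let S) := f.toWord.head?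

theorem cp_oc {f : FreeGroup S} (h : f.norm ≤ 1) : cp (oc f) = f := by
  have e := FreeGroup.mk_toWord (x := f)
  unfold oc
  unfold FreeGroup.norm at h
  rcases hw : f.toWord with _ | ⟨x, _ | ⟨y, t⟩⟩
  · rw [hw] at e
    exact e
  · rw [hw] at e
    exact e
  · rw [hw] at h
    simp at h

end Free

namespace Lab
variable {E V S : Type} {X : SqSys E} {R : Set (Tup S)} (L : Lab X V S R)

theorem tgt_inv (e : E) : L.tgt (X.inv e) = L.src e := by rw [tgt, X.inv_inv]

/-- left paths with positions in `U` -/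
inductive LP (U : FreeGroup S → Prop) : V → FreeGroup S → L.Xp.G → V → FreeGroup S → Prop
  | nil (y f) : U f → LP U y f 1 y f
  | cons (e f g y' f') : L.lft e → U f → LP U (L.tgt e) ((fl (L.lab e))⁻¹ * f) g y' f' →
      LP U (L.src e) f (L.ee e * g) y' f'

variable {L}

namespace LP
variable {U : FreeGroup S → Prop}

theorem start {y f g y' f'} (h : L.LP U y f g y' f') : U f := by
  cases h <;> assumption

theorem trans {y f g y' f' g' y'' f''} (h : L.LP U y f g y' f') (h' : L.LP U y' f' g' y'' f'') :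
    L.LP U y f (g * g') y'' f'' := by
  induction h with
  | nil y f _ => rwa [one_mul]
  | cons e f g y' f' he hf _ ih =>
    rw [mul_assoc]
    exact cons e f _ _ _ he hf (ih h')

theorem step {e f} (he : L.lft e) (hf : U f) (hf' : U ((fl (L.lab e))⁻¹ * f)) :
    L.LP U (L.src e) f (L.ee e) (L.tgt e) ((fl (L.lab e))⁻¹ * f) := by
  have := cons e f 1 _ _ he hf (nil _ _ hf')
  rwa [mul_one] at this

theorem symm {y f g y' f'} (h : L.LP U y f g y' f') : L.LP U y' f' g⁻¹ y f := by
  induction h with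
  | nil y f hf =>
    rw [inv_one]
    exact nil y f hf
  | cons e f g y' f' he hf h ih =>
    have e1 : (fl (L.lab (X.inv e)))⁻¹ * ((fl (L.lab e))⁻¹ * f) = f := by
      rw [L.lab_inv, fl_bar]
      group
    have := step (L := L) (U := U) ((L.lft_inv e).2 he) h.start (by rw [e1]; exact hf)
    rw [e1, L.tgt_inv, L.ee_inv] at this
    rw [mul_inv_rev]
    exact ih.trans this

theorem mono {U' : FreeGroup S → Prop} (hU : ∀ f, U f → U' f) {y f g y' f'}
    (h : L.LP U y f g y' f') : L.LP U' y f g y' f' := by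
  induction h with
  | nil y f hf => exact nil y f (hU _ hf)
  | cons e f g y' f' he hf _ ih => exact cons e f g y' f' he (hU _ hf) ih

theorem shift {y f g y' f'} (h : L.LP U y f g y' f') (u : FreeGroup S) :
    L.LP (fun _ => True) y (f * u) g y' (f' * u) := by
  induction h with
  | nil y f hf => exact nil y _ trivial
  | cons e f g y' f' he hf _ ih =>
    rw [mul_assoc] at ih
    exact cons e _ g y' _ he trivial ih

theorem beta_eq {y f g y' f'} (h : L.LP U y f g y' f') : L.beta g = 1 := by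
  induction h with
  | nil y f hf => exact map_one _
  | cons e f g y' f' he hf _ ih => rw [map_mul, ih, L.beta_left he, mul_one]

theorem bound [DecidableEq S] {y f g y' f'} (h : L.LP U y f g y' f') :
    ∃ n, L.LP (fun f => f.norm ≤ n) y f g y' f' := by
  induction h with
  | nil y f hf => exact ⟨_, nil y f le_rfl⟩
  | cons e f g y' f' he hf _ ih =>
    obtain ⟨n, hn⟩ := ih
    exact ⟨max n f.norm, cons e f g y' f' he (le_max_right _ _)
      (hn.mono fun _ h => h.trans (le_max_left _ _))⟩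

theorem sq {a b c d f} (h : X.S a b c d) (hc : L.lft c) (ha : L.lft a)
    (e : L.lab d = L.lab b) (hf : U f) (hf' : U ((fl (L.lab b))⁻¹ * f)) :
    L.LP U (L.tgt a) f ((L.ee a)⁻¹ * L.ee c) (L.tgt c) f := by
  have h1 := step (L := L) (U := U) ((L.lft_b h).2 hc) hf hf'
  have h2 := step (L := L) (U := U) ((L.sq_side h).1.2 ha) hf (by rw [e]; exact hf')
  have e1 : L.tgt d = L.tgt b := (L.sq_src (SqSys.view_far h)).1
  rw [e, e1, (L.sq_src (X.symm h)).2] at h2
  rw [(L.sq_src h).2] at h1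
  have e2 : (L.ee a)⁻¹ * L.ee c = L.ee b * (L.ee d)⁻¹ := by
    rw [inv_mul_eq_iff_eq_mul, ← mul_assoc, L.ee_sq h, mul_inv_cancel_right]
  rw [e2]
  exact h1.trans h2.symm

theorem flat {x x' a a' f} (hf : U f) (hf' : U ((fl x')⁻¹ * f))
    (h : Relation.EqvGen (fun a c => ∃ b d, X.S a b c d ∧ L.lft a ∧ L.lft c ∧
      (L.lab a, L.lab b, L.lab c, L.lab d) = (x, x', x, x')) a a') :
    L.LP U (L.tgt a) f ((L.ee a)⁻¹ * L.ee a') (L.tgt a') f := by
  induction h with
  | rel a c h =>
    obtain ⟨b, d, h, ha, hc, e⟩ := h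
    simp only [Prod.mk.injEq] at e
    exact sq h hc ha (by rw [e.2.1, e.2.2.2]) hf (by rw [e.2.1]; exact hf')
  | refl a =>
    rw [inv_mul_cancel]
    exact nil _ _ hf
  | symm a c _ ih =>
    have := ih.symm
    rwa [mul_inv_rev, inv_inv] at this
  | trans a b c _ _ ih1 ih2 =>
    have := ih1.trans ih2
    rwa [mul_assoc, mul_inv_cancel_left] at this

theorem reduce [DecidableEq S] {n : ℕ} (hn : 1 ≤ n) {y f g y' f'}
    (h : L.LP (fun f => f.norm ≤ n + 1) y f g y' f') (hf' : f'.norm ≤ n) :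
    (f.norm ≤ n → L.LP (fun f => f.norm ≤ n) y f g y' f') ∧
      ∀ a, L.lft a → L.src a = y → n < f.norm → ((fl (L.lab a))⁻¹ * f).norm ≤ n + 1 →
        L.LP (fun f => f.norm ≤ n) (L.tgt a) ((fl (L.lab a))⁻¹ * f) ((L.ee a)⁻¹ * g) y' f' := by
  induction h with
  | nil y f hf => exact ⟨fun h => nil y f h, fun a _ _ h => absurd hf' (by omega)⟩
  | cons e f g y' f' he hf h ih =>
    obtain ⟨ih1, ih2⟩ := ih hf'
    constructor
    · intro hfn
      by_cases h1 : ((fl (L.lab e))⁻¹ * f).norm ≤ n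
      · exact cons e f g y' f' he hfn (ih1 h1)
      · have e1 : (fl (L.lab (X.inv e)))⁻¹ * ((fl (L.lab e))⁻¹ * f) = f := by
          rw [L.lab_inv, fl_bar]
          group
        have := ih2 (X.inv e) ((L.lft_inv e).2 he) rfl (by omega) (by rw [e1]; exact hf)
        rwa [e1, L.tgt_inv, L.ee_inv, inv_inv] at this
    · intro a ha hsrc hlt hle
      have hf2 : f.norm = n + 1 := by omega
      have hw : f.toWord.length = n + 1 := hf2
      rcases hw' : f.toWord with _ | ⟨x, _ | ⟨x', t⟩⟩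
      · rw [hw'] at hw
        simp at hw
      · rw [hw'] at hw
        simp at hw
        omega
      rw [hw'] at hw
      simp only [List.length_cons] at hw
      have ea : L.lab a = x := top_letter hw' (by omega)
      have ee : L.lab e = x := top_letter hw' (by have := h.start; omega)
      have ef : (fl x)⁻¹ * f = FreeGroup.mk (x' :: t) := by
        rw [← fl_inv_mul_mk x, ← hw', FreeGroup.mk_toWord]
      have n1 : ((fl x)⁻¹ * f).norm ≤ n := by
        rw [ef]
        exact FreeGroup.norm_mk_le.trans (by simp only [List.length_cons]; omega)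
      have n2 : ((fl x')⁻¹ * ((fl x)⁻¹ * f)).norm ≤ n := by
        rw [ef, fl_inv_mul_mk]
        exact FreeGroup.norm_mk_le.trans (by omega)
      have := (flat (U := fun f => f.norm ≤ n) n1 n2
        (L.conn_left x x' a e ha he hsrc ea ee)).trans (by rw [← ee]; exact ih1 (by rw [ee]; exact n1))
      rw [ea, ← mul_assoc]
      exact this

theorem to_core [DecidableEq S] {y f g y' f'} (h : L.LP U y f g y' f') (hf : f.norm ≤ 1)
    (hf' : f'.norm ≤ 1) : L.LP (fun f => f.norm ≤ 1) y f g y' f' := by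
  obtain ⟨n, hn⟩ := h.bound
  induction n with
  | zero => exact hn.mono fun _ h => h.trans zero_le_one
  | succ n ih =>
    rcases Nat.eq_zero_or_pos n with rfl | h0
    · exact hn
    · exact ih ((reduce h0 hn (hf'.trans h0)).1 (hf.trans h0))

theorem mem_range [DecidableEq S] {y f g y' f'} (h : L.LP (fun f => f.norm ≤ 1) y f g y' f') :
    L.tt y (oc f) * g * (L.tt y' (oc f'))⁻¹ ∈ (FreeGroup.lift L.eta).range := by
  induction h with
  | nil y f hf =>
    rw [mul_one, mul_inv_cancel]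
    exact one_mem _
  | cons e f g y' f' he hf h ih =>
    have hp : L.pos (cp (oc f)) e = cp (oc ((fl (L.lab e))⁻¹ * f)) := by
      rw [cp_oc hf, cp_oc h.start, pos, if_pos he]
    have := mul_mem (show L.eta ⟨(oc f, e, oc ((fl (L.lab e))⁻¹ * f)), hp⟩ ∈
      (FreeGroup.lift L.eta).range from ⟨FreeGroup.of _, FreeGroup.lift_apply_of⟩) ih
    convert this using 1
    simp only [eta]
    group

theorem alpha_eq {Q : Type} [Group Q] {s : S → Q} {L : Lab X V S (Rel4 s)} {y f g y' f'}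
    (h : L.LP U y f g y' f') : L.alpha g = FreeGroup.lift s (f * f'⁻¹) := by
  induction h with
  | nil y f hf => simp
  | cons e f g y' f' he hf _ ih =>
    rw [map_mul, ih, L.alpha_left he, ← map_mul]
    congr 1
    group

end LP

variable (L)

/-- left paths with a given label -/
def LQ (y : V) (g : L.Xp.G) (w : FreeGroup S) (y' : V) : Prop :=
  ∀ f, L.LP (fun _ => True) y f g y' (w⁻¹ * f)

variable {L}

theorem LQ.nil (y : V) : L.LQ y 1 1 y := fun f => by
  rw [inv_one, one_mul]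
  exact LP.nil y f trivial

theorem LQ.step {e} (he : L.lft e) : L.LQ (L.src e) (L.ee e) (fl (L.lab e)) (L.tgt e) :=
  fun _ => LP.step he trivial trivial

theorem LQ.trans {y g w y' g' w' y''} (h : L.LQ y g w y') (h' : L.LQ y' g' w' y'') :
    L.LQ y (g * g') (w * w') y'' := fun f => by
  rw [mul_inv_rev, mul_assoc]
  exact (h f).trans (h' _)

theorem LQ.symm {y g w y'} (h : L.LQ y g w y') : L.LQ y' g⁻¹ w⁻¹ y := fun f => by
  have := (h (w * f)).symm
  rwa [inv_mul_cancel_left, ← inv_inv w] at this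

theorem LP.toLQ {U y f g y' f'} (h : L.LP U y f g y' f') : L.LQ y g (f * f'⁻¹) y' := fun u => by
  have := h.shift (f⁻¹ * u)
  rw [mul_inv_cancel_left] at this
  rwa [mul_inv_rev, inv_inv, mul_assoc]

theorem LQ.exists (w : FreeGroup S) : ∀ y, ∃ g y', L.LQ y g w y' := by
  induction w using FreeGroup.induction_on with
  | C1 => exact fun y => ⟨1, y, LQ.nil y⟩
  | of x =>
    intro y
    obtain ⟨a, rfl, ha, e⟩ := L.ex_left y (x, true)
    have := LQ.step ha
    rw [e] at this
    exact ⟨_, _, this⟩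
  | inv_of x _ =>
    intro y
    obtain ⟨a, rfl, ha, e⟩ := L.ex_left y (bar (x, true))
    have := LQ.step ha
    rw [e, fl_bar] at this
    exact ⟨_, _, this⟩
  | mul x x' ih ih' =>
    intro y
    obtain ⟨g, y', h⟩ := ih y
    obtain ⟨g', y'', h'⟩ := ih' y'
    exact ⟨_, _, h.trans h'⟩

theorem LQ.of_rel {w : FreeGroup S} (hw : w ∈ Subgroup.normalClosure (tupWord '' R)) (y : V) :
    L.LQ y 1 w y := by
  let K : Subgroup (FreeGroup S) :=
    { carrier := {w | ∀ y, L.LQ y 1 w y}
      one_mem' := fun y => LQ.nil y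
      mul_mem' := fun h h' y => by simpa using (h y).trans (h' y)
      inv_mem' := fun h y => by simpa using (h y).symm }
  have hK : K.Normal := ⟨fun w hw u y => by
    obtain ⟨g, y', h⟩ := LQ.exists (L := L) u y
    simpa using (h.trans (hw y')).trans h.symm⟩
  refine Subgroup.normalClosure_le_normal (N := K) ?_ hw y
  rintro _ ⟨r, hr, rfl⟩ y
  obtain ⟨a, b, c, d, h, rfl, ha, hc, rfl⟩ := L.ex_sq y r hr
  have h1 := LQ.step ((L.lft_b h).2 hc)
  have h2 := LQ.step ((L.sq_side h).1.2 ha)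
  have h3 := LQ.step hc
  have e1 : L.tgt d = L.tgt b := (L.sq_src (SqSys.view_far h)).1
  rw [e1, (L.sq_src (X.symm h)).2] at h2
  rw [(L.sq_src h).2] at h1
  rw [(L.sq_src h).1] at h3
  have := ((LQ.step ha).trans h1).trans (h3.trans h2).symm
  rwa [L.ee_sq h, mul_inv_cancel] at this

theorem exists_gens [Finite E] [Finite V] [Finite S] [DecidableEq S] (y0 : V) :
    ∃ N : Set L.Xp.G, N.Finite ∧ (∀ g ∈ N, L.LP (fun f => f.norm ≤ 1) y0 1 g y0 1) ∧
      ∀ g, L.LP (fun f => f.norm ≤ 1) y0 1 g y0 1 → g ∈ Subgroup.closure N := by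
  classical
  let P : V × Option (Let S) → L.Xp.G → Prop := fun u g =>
    L.LP (fun f => f.norm ≤ 1) y0 1 g u.1 (cp u.2)
  let T : V × Option (Let S) → L.Xp.G := fun u => if h : ∃ g, P u g then h.choose else 1
  have hT : ∀ y f g, L.LP (fun f => f.norm ≤ 1) y0 1 g y f →
      L.LP (fun f => f.norm ≤ 1) y0 1 (T (y, oc f)) y f := by
    intro y f g h
    have e : cp (oc f) = f := cp_oc h.symm.start
    have hx : ∃ g, P (y, oc f) g := ⟨g, by simp only [P]; rw [e]; exact h⟩
    have h2 : P (y, oc f) (T (y, oc f)) := by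
      simp only [T]
      rw [dif_pos hx]
      exact hx.choose_spec
    simp only [P] at h2
    rwa [e] at h2
  let N : Set L.Xp.G := {g | L.LP (fun f => f.norm ≤ 1) y0 1 g y0 1} ∩
    (insert (T (y0, oc 1)) (Set.range fun p : (V × Option (Let S)) × E × V × Option (Let S) =>
      T p.1 * L.ee p.2.1 * (T p.2.2)⁻¹))
  have key : ∀ y f g y' f', L.LP (fun f => f.norm ≤ 1) y f g y' f' →
      (∃ g0, L.LP (fun f => f.norm ≤ 1) y0 1 g0 y f) →
      T (y, oc f) * g * (T (y', oc f'))⁻¹ ∈ Subgroup.closure N := by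
    intro y f g y' f' h
    induction h with
    | nil y f hf =>
      intro _
      rw [mul_one, mul_inv_cancel]
      exact one_mem _
    | cons e f g y' f' he hf h ih =>
      rintro ⟨g0, h0⟩
      have h1 := (hT _ _ _ h0).trans (LP.step he hf h.start)
      have h2 : T (L.src e, oc f) * L.ee e * (T (L.tgt e, oc ((fl (L.lab e))⁻¹ * f)))⁻¹ ∈ N :=
        ⟨h1.trans (hT _ _ _ h1).symm, Or.inr ⟨(_, e, _), rfl⟩⟩
      convert mul_mem (Subgroup.subset_closure h2) (ih ⟨_, h1⟩) using 1
      group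
  refine ⟨N, ((Set.finite_range _).insert _).inter_of_right _, fun g hg => hg.1, fun g hg => ?_⟩
  have h0 : T (y0, oc 1) ∈ Subgroup.closure N :=
    Subgroup.subset_closure ⟨hT _ _ _ hg, Or.inl rfl⟩
  have := mul_mem (mul_mem (inv_mem h0) (key _ _ _ _ _ hg ⟨_, hg⟩)) h0
  convert this using 1
  group

end Lab

theorem exists_paths {E V S Q : Type} [Finite E] [Finite V] [Nonempty V] [Finite S] [Group Q]
    (s : S → Q) (hs : Surjective (FreeGroup.lift s))
    (hker : (FreeGroup.lift s).ker = Subgroup.normalClosure (tupWord '' Rel4 s))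
    {X : SqSys E} (L : Lab X V S (Rel4 s)) :
    ∃ (A : Subgroup L.Xp.G) (W : Set (FreeGroup L.Core)) (N : ℕ), W.Finite ∧
      (∀ w ∈ W, FreeGroup.lift L.eta w ∈ A ∧ L.beta (FreeGroup.lift L.eta w) = 1) ∧
      (∀ g ∈ A, L.alpha g = 1 → g ∈ Subgroup.closure (FreeGroup.lift L.eta '' W)) ∧
      0 < N ∧ ∀ q : Q, ∃ a ∈ A, L.alpha a = q ^ N := by
  classical
  obtain ⟨y0⟩ := ‹Nonempty V›
  let t0 := L.tt y0 none
  let A0 : Subgroup L.Xp.G :=
    { carrier := {g | ∃ w, L.LQ y0 g w y0}
      one_mem' := ⟨1, Lab.LQ.nil y0⟩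
      mul_mem' := fun ⟨_, h⟩ ⟨_, h'⟩ => ⟨_, h.trans h'⟩
      inv_mem' := fun ⟨_, h⟩ => ⟨_, h.symm⟩ }
  let c : L.Xp.G →* L.Xp.G := (MulAut.conj t0).toMonoidHom
  have hc : ∀ g, c g = t0 * g * t0⁻¹ := fun _ => rfl
  have hca : ∀ g, L.alpha (c g) = L.alpha g := fun g => by simp [hc, t0, L.alpha_tt]
  have hal : ∀ y g w y', L.LQ y g w y' → L.alpha g = FreeGroup.lift s w := fun y g w y' h => by
    simpa using (h 1).alpha_eq
  obtain ⟨N, hN, hN1, hN2⟩ := Lab.exists_gens (L := L) y0
  have hr : ∀ g : N, ∃ w, FreeGroup.lift L.eta w = c g := fun g => (hN1 _ g.2).mem_range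
  choose W hW using hr
  have : Finite N := hN
  have hidx : (A0.map L.alpha).index ≠ 0 := by
    have h1 : ∀ q : Q, ∃ g y', ∃ w, L.LQ y0 g w y' ∧ L.alpha g = q := by
      intro q
      obtain ⟨w, rfl⟩ := hs q
      obtain ⟨g, y', h⟩ := Lab.LQ.exists (L := L) w y0
      exact ⟨g, y', w, h, hal _ _ _ _ h⟩
    choose g y w hq hg using h1
    have : Finite (Q ⧸ A0.map L.alpha) := by
      refine Finite.of_injective (fun x : Q ⧸ A0.map L.alpha => y x.out⁻¹) fun x x' h => ?_
      rw [← x.out_eq, ← x'.out_eq]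
      have h' : y x.out⁻¹ = y x'.out⁻¹ := h
      have h2 := (hq x'.out⁻¹).symm
      rw [← h'] at h2
      refine QuotientGroup.eq.2 ⟨g x.out⁻¹ * (g x'.out⁻¹)⁻¹, ⟨_, (hq _).trans h2⟩, ?_⟩
      rw [map_mul, map_inv, hg, hg, inv_inv]
    exact Subgroup.index_ne_zero_of_finite
  refine ⟨A0.map c, Set.range W, (A0.map L.alpha).index.factorial, Set.finite_range W, ?_, ?_,
    Nat.factorial_pos _, fun q => ?_⟩
  · rintro _ ⟨g, rfl⟩
    rw [hW]
    refine ⟨⟨g, ⟨_, (hN1 _ g.2).toLQ⟩, rfl⟩, ?_⟩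
    simp [hc, t0, L.beta_tt, (hN1 _ g.2).beta_eq]
  · rintro _ ⟨g, ⟨w, hw⟩, rfl⟩ h1
    rw [hca, hal _ _ _ _ hw] at h1
    have h2 := hw.trans (Lab.LQ.of_rel (L := L) (by rw [← hker]; exact h1) y0).symm 1
    simp only [inv_one, mul_one, mul_inv_cancel] at h2
    have h3 := Subgroup.mem_map_of_mem c (hN2 g (h2.to_core (by simp) (by simp)))
    rw [MonoidHom.map_closure] at h3
    refine Subgroup.closure_mono ?_ h3
    rintro _ ⟨g, hg, rfl⟩
    exact ⟨_, ⟨⟨g, hg⟩, rfl⟩, hW _⟩
  · obtain ⟨a, ha, e⟩ := Subgroup.pow_mem_of_index_ne_zero_of_dvd hidx q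
      (n := (A0.map L.alpha).index.factorial) fun m h0 hm => Nat.dvd_factorial h0 hm
    exact ⟨c a, ⟨a, ha, rfl⟩, by rw [hca, e]⟩

end Pool.Agent.Lib.MP_28a49a_al
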