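import Pool.Agent.Lib.MP_28a49a_al.Nrm

namespace Pool.Agent.Lib.MP_28a49a_al
namespace Lab
variable {E V S : Type} {X : SqSys E} {R : Set (Tup S)} (L : Lab X V S R)

def Lt (v w : V × FreeGroup S) : Prop :=
  nrm v.2 < nrm w.2 ∨ (nrm v.2 = nrm w.2 ∧ L.rank v.1 < L.rank w.1)

theorem Lt_wf : WellFounded L.Lt := by
  have h : WellFounded (InvImage (Prod.Lex (fun a b : ℕ => a < b) (fun a b : ℕ => a < b))
      fun v : V × FreeGroup S => (nrm v.2, L.rank v.1)) :=
    InvImage.wf _ (WellFounded.prod_lex wellFounded_lt wellFounded_lt)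
  refine Subrelation.wf (fun {v w} hvw => ?_) h
  show Prod.Lex _ _ (nrm v.2, L.rank v.1) (nrm w.2, L.rank w.1)
  rcases hvw with h1 | ⟨h1, h2⟩
  · exact Prod.Lex.left _ _ h1
  · rw [h1]; exact Prod.Lex.right _ h2

theorem Lt_trans (a b c : V × FreeGroup S) (h : L.Lt a b) (h' : L.Lt b c) : L.Lt a c := by
  unfold Lt at *; omega

/-- abstract simple connectivity of the descending link -/
theorem link_abs {Γ : Type} [Group Γ] (y : V) (x x' z : Let S) (g : E → E → Γ)
    (LA : E → E → Prop) (hsym : ∀ a c, X.Adj a c → g c a = (g a c)⁻¹)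
    (hflat : ∀ a b c d, X.S a b c d → L.src a = y → L.lft a → L.lft c → L.lab a = x → L.lab c = x →
      L.lab b = x' → L.lab d = x' → LA a c)
    (tri : ∀ a c e, L.src a = y → L.lft a → L.lft c → L.lab a = x → L.lab c = x → ¬ L.lft e →
      L.lab e = z → LA a c → X.Adj a e → X.Adj c e → g a c * g c e = g a e) :
    ∃ u, L.src u = y ∧ L.lft u ∧ L.lab u = x ∧ (∀ e, L.src e = y → ¬ L.lft e → X.Adj u e) ∧
      ∀ a e e', L.src a = y → L.lft a → L.lab a = x → ¬ L.lft e → L.lab e = z → ¬ L.lft e' →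
        L.lab e' = z → X.Adj a e → X.Adj a e' → g u e * g e a = g u e' * g e' a := by
  let Rt : E → Prop := fun e => L.src e = y ∧ ¬ L.lft e ∧ L.lab e = z
  let U : E → Prop := fun a => L.src a = y ∧ L.lft a ∧ L.lab a = x ∧
    ∀ e, L.src e = y → ¬ L.lft e → X.Adj a e
  let IND : E → E → Prop := fun u a => ∀ e e', Rt e → Rt e' → g u e * g e a = g u e' * g e' a
  have hrefl : ∀ u, U u → IND u u := by
    intro u hu e e' he he'
    rw [hsym u e (hu.2.2.2 e he.1 he.2.1), hsym u e' (hu.2.2.2 e' he'.1 he'.2.1)]; simp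
  have hsymm : ∀ u a, U u → U a → IND u a → IND a u := by
    intro u a hu ha h e e' he he'
    have := h e e' he he'
    rw [hsym a e (ha.2.2.2 e he.1 he.2.1), hsym a e' (ha.2.2.2 e' he'.1 he'.2.1)] at this
    rw [hsym u e (hu.2.2.2 e he.1 he.2.1), hsym u e' (hu.2.2.2 e' he'.1 he'.2.1)]
    have h2 := congrArg (fun t => t⁻¹) this
    simpa using h2
  have htrans : ∀ u a w, U a → IND u a → IND a w → IND u w := by
    intro u a w ha h h' e e' he he'
    have h1 := h e e' he he'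
    have h2 := h' e e' he he'
    rw [hsym a e (ha.2.2.2 e he.1 he.2.1), hsym a e' (ha.2.2.2 e' he'.1 he'.2.1)] at h1
    calc g u e * g e w = (g u e * (g a e)⁻¹) * (g a e * g e w) := by group
      _ = (g u e' * (g a e')⁻¹) * (g a e' * g e' w) := by rw [h1, h2]
      _ = _ := by group
  have chain : ∀ (Q : E → Prop) (r : E → E → Prop), (∀ a, Q a → U a) →
      (∀ a c, r a c → (Q a ↔ Q c) ∧ (Q a → IND a c)) →
      ∀ a c, Relation.EqvGen r a c → (Q a ↔ Q c) ∧ (Q a → IND a c) := by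
    intro Q r hQ hr a c h
    induction h with
    | rel a c h => exact hr a c h
    | refl a => exact ⟨Iff.rfl, fun h => hrefl a (hQ a h)⟩
    | symm a c _ ih =>
      exact ⟨ih.1.symm, fun h => hsymm _ _ (hQ _ (ih.1.2 h)) (hQ _ h) (ih.2 (ih.1.2 h))⟩
    | trans a b c _ _ ih1 ih2 =>
      exact ⟨ih1.1.trans ih2.1, fun h =>
        htrans _ _ _ (hQ _ (ih1.1.1 h)) (ih1.2 h) (ih2.2 (ih1.1.1 h))⟩
  rcases L.apex y with hI | ⟨P, p1, p2, p3⟩
  · obtain ⟨u, h1, h2, h3⟩ := L.ex_left y x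
    refine ⟨u, h1, h2, h3, fun e he hl => hI u e h1 he h2 hl, ?_⟩
    intro a e e' a1 a2 a3 e1 e2 e3 e4 e5 e6
    have := chain (fun a => L.src a = y ∧ L.lft a ∧ L.lab a = x) _
      (fun a ha => ⟨ha.1, ha.2.1, ha.2.2, fun e he hl => hI a e ha.1 he ha.2.1 hl⟩)
      ?_ u a (L.conn_left x x' u a h2 a2 (h1.trans a1.symm) h3 a3)
    · exact this.2 ⟨h1, h2, h3⟩ e e' ⟨(adj_src e5).trans a1, e1, e2⟩ ⟨(adj_src e6).trans a1, e3, e4⟩
    · rintro a c ⟨b, d, hS, k1, k2, k3⟩
      simp only [Prod.mk.injEq] at k3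
      obtain ⟨k3, k4, k5, k6⟩ := k3
      refine ⟨by simp only [src_c hS, k1, k2, k3, k5], ?_⟩
      rintro ⟨q1, _, _⟩
      have key : ∀ e, Rt e → g a e * g e c = g a c := by
        intro e he
        have q2 := hI c e ((src_c hS).trans q1) he.1 k2 he.2.1
        rw [hsym c e q2, ← tri a c e q1 k1 k2 k3 k5 he.2.1 he.2.2
          (hflat a b c d hS q1 k1 k2 k3 k5 k4 k6) (hI a e q1 he.1 k1 he.2.1) q2]
        group
      intro e e' he he'
      rw [key e he, key e' he']
  · have hu : ∃ u, L.src u = y ∧ L.lft u ∧ L.lab u = x ∧ P u := by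
      obtain ⟨a, h1, h2, h3⟩ := L.ex_left y x
      by_cases hp : P a
      · exact ⟨a, h1, h2, h3, hp⟩
      · obtain ⟨b, c, d, hS, k1, k2, _⟩ := L.ex_flat a x h2
        refine ⟨c, (src_c hS).trans h1, k1, k2.trans h3, ?_⟩
        have := p2 a c h1 h2 k1 ⟨b, d, hS⟩
        tauto
    obtain ⟨u, h1, h2, h3, h4⟩ := hu
    have claimA : ∀ a, L.src a = y → L.lft a → L.lab a = x → P a → IND u a := by
      intro a a1 a2 a3 a4
      have := chain (fun a => L.src a = y ∧ L.lft a ∧ L.lab a = x ∧ P a) _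
        (fun a ha => ⟨ha.1, ha.2.1, ha.2.2.1, fun e he hl => p1 a e ha.1 he ha.2.1 ha.2.2.2 hl⟩)
        ?_ u a (p3 x x' z u a h1 a1 h2 a2 h4 a4 h3 a3)
      · exact this.2 ⟨h1, h2, h3, h4⟩
      · rintro u u' ⟨k1, k2, k3, k4, k5, k6, k7, k8, k9⟩
        refine ⟨by simp only [k1, k2, k3, k4, k5, k6, k7, k8], fun _ e e' he he' => ?_⟩
        have h := k9 e e' he.1 he'.1 he.2.1 he'.2.1 he.2.2 he'.2.2
        clear he he'
        induction h with
        | rel e e' h =>
          obtain ⟨e1, e2, e3, e4, h, b, d, b', d', s1, s2, l1, l2, l3, l4, l5, l6, l7, l8⟩ := h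
          have key : ∀ e, ¬ L.lft e → L.lab e = z → X.Adj h e →
              g u e * g e u' = g u h * (g u' h)⁻¹ := by
            intro e e1 e3 l7
            have se : L.src e = y := (adj_src l7).trans ((src_c s1).trans k1)
            have q1 := p1 u e k1 se k3 k5 e1
            have q2 := p1 u' e k2 se k4 k6 e1
            rw [hsym u' e q2, ← tri u h e k1 k3 l1 k7 l2 e1 e3
              (hflat u b h d s1 k1 k3 l1 k7 l2 l3 l4) q1 l7, ← tri u' h e k2 k4 l1 k8 l2 e1 e3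
              (hflat u' b' h d' s2 k2 k4 l1 k8 l2 l5 l6) q2 l7]
            group
          rw [key e e1 e3 l7, key e' e2 e4 l8]
        | refl e => rfl
        | symm e e' _ ih => exact ih.symm
        | trans e e' e'' _ _ ih1 ih2 => exact ih1.trans ih2
    refine ⟨u, h1, h2, h3, fun e he hl => p1 u e h1 he h2 h4 hl, ?_⟩
    intro a e e' a1 a2 a3 e1 e2 e3 e4 e5 e6
    have se : Rt e := ⟨(adj_src e5).trans a1, e1, e2⟩
    have se' : Rt e' := ⟨(adj_src e6).trans a1, e3, e4⟩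
    by_cases hp : P a
    · exact claimA a a1 a2 a3 hp e e' se se'
    · obtain ⟨b, c, d, hS, k1, k2, k3, k4⟩ := L.ex_flat a x' a2
      have hc : P c := by
        have := p2 a c a1 a2 k1 ⟨b, d, hS⟩
        tauto
      have sc : L.src c = y := (src_c hS).trans a1
      have key : ∀ e, Rt e → X.Adj a e → g e a = g e c * g c a := by
        intro e he ha
        have q := p1 c e sc he.1 k1 hc he.2.1
        rw [hsym c e q, hsym a e ha, ← tri c a e sc k1 a2 (k2.trans a3) a3 he.2.1 he.2.2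
          (hflat c d a b (X.symm hS) sc k1 a2 (k2.trans a3) a3 k4 k3) q ha]
        group
      rw [key e se e5, key e' se' e6, ← mul_assoc, ← mul_assoc,
        claimA c sc k1 (k2.trans a3) hc e e' se se']

theorem link {Γ : Type} [Group Γ] (φ : Γ →* L.Xp.G) (c0 : FreeGroup S → E → Γ)
    (τ0 : V → FreeGroup S → L.Xp.G) (y : V) (f : FreeGroup S) (hf : 2 ≤ nrm f)
    (H2 : ∀ g e, L.Lt (L.src e, g) (y, f) → L.Lt (L.tgt e, L.pos g e) (y, f) →
      φ (c0 g e) = τ0 (L.src e) g * L.ee e * (τ0 (L.tgt e) (L.pos g e))⁻¹)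
    (H3 : ∀ g a b c d, X.S a b c d → L.pos (L.pos g a) b = L.pos (L.pos g c) d →
      L.Lt (L.src a, g) (y, f) → L.Lt (L.tgt a, L.pos g a) (y, f) →
      L.Lt (L.tgt c, L.pos g c) (y, f) → L.Lt (L.tgt b, L.pos (L.pos g a) b) (y, f) →
      c0 g a * c0 (L.pos g a) b = c0 g c * c0 (L.pos g c) d) :
    ∃ (p : E → Γ) (τ : L.Xp.G),
      (∀ e, L.src e = y → nrm (L.pos f e) < nrm f →
        φ (p e) = τ * L.ee e * (τ0 (L.tgt e) (L.pos f e))⁻¹) ∧
      ∀ a b c d, X.S a b c d → L.src a = y → nrm (L.pos f a) < nrm f → nrm (L.pos f c) < nrm f →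
        L.pos (L.pos f a) b = L.pos (L.pos f c) d → L.Lt (L.tgt b, L.pos (L.pos f a) b) (y, f) →
        p a * c0 (L.pos f a) b = p c * c0 (L.pos f c) d := by
  classical
  obtain ⟨x, hx⟩ := exists_left (f := f) (by omega)
  obtain ⟨z, hz⟩ := exists_right (f := f) (by omega)
  obtain ⟨x', hx'⟩ := exists_left (f := (fl x)⁻¹ * f) (by omega)
  have hb := nrm_both (x := x) (z := z) hf (by omega) (by omega)
  let g : E → E → Γ := fun a c => if h : X.Adj a c then
    c0 (L.pos f a) h.choose * (c0 (L.pos f c) h.choose_spec.choose)⁻¹ else 1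
  have g_eq : ∀ {a b c d}, X.S a b c d → g a c = c0 (L.pos f a) b * (c0 (L.pos f c) d)⁻¹ := by
    intro a b c d h
    have h0 : X.Adj a c := ⟨b, d, h⟩
    obtain ⟨e1, e2⟩ := X.uniq h h0.choose_spec.choose_spec
    simp only [g, dif_pos h0]
    rw [← e2, ← e1]
  have hsym : ∀ a c, X.Adj a c → g c a = (g a c)⁻¹ := by
    rintro a c ⟨b, d, h⟩
    rw [g_eq h, g_eq (X.symm h)]; group
  let LA : E → E → Prop := fun a c => ∃ b d, X.S a b c d ∧
    L.pos (L.pos f a) b = L.pos (L.pos f c) d ∧ L.Lt (L.tgt b, L.pos (L.pos f a) b) (y, f)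
  have hl : ∀ a, L.lft a → L.lab a = x → nrm (L.pos f a) + 1 = nrm f := by
    intro a h1 h2; rw [L.pos_left h1, h2, hx]
  have hr : ∀ a, ¬ L.lft a → L.lab a = z → nrm (L.pos f a) + 1 = nrm f := by
    intro a h1 h2; rw [L.pos_right h1, h2, hz]
  have hl' : ∀ a, L.lft a → nrm (L.pos f a) < nrm f → L.lab a = x := by
    intro a h1 h2; rw [L.pos_left h1] at h2; exact left_unique h2 (by omega)
  have hr' : ∀ a, ¬ L.lft a → nrm (L.pos f a) < nrm f → L.lab a = z := by
    intro a h1 h2; rw [L.pos_right h1] at h2; exact right_unique h2 (by omega)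
  have hm : ∀ a b c d, X.S a b c d → L.lft a → L.lab a = x → ¬ L.lft c → L.lab c = z →
      nrm (L.pos (L.pos f a) b) + 2 = nrm f := by
    intro a b c d h h1 h2 h3 h4
    rw [mixed_pos h h1 h3, h2, h4, hb]
  have tri : ∀ a c e, L.src a = y → L.lft a → L.lft c → L.lab a = x → L.lab c = x → ¬ L.lft e →
      L.lab e = z → LA a c → X.Adj a e → X.Adj c e → g a c * g c e = g a e := by
    rintro a c e a1 a2 c2 a3 c3 e2 e3 ⟨b12, b21, s12, f12, l12⟩ ⟨b13, b31, s13⟩ ⟨b23, b32, s23⟩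
    obtain ⟨p, q, r, t1, t2, t3⟩ := X.cube s12 s13 s23
    have f13 := mixed_flat s13 a2 e2 f
    have f23 := mixed_flat s23 c2 e2 f
    have n13 := hm _ _ _ _ s13 a2 a3 e2 e3
    have n23 := hm _ _ _ _ s23 c2 c3 e2 e3
    have g1 := mixed_flat t1 ((lft_bb s12).2 c2) (fun h => e2 ((lft_bb s13).1 h)) (L.pos f a)
    have g2 := mixed_flat t2 ((lft_d s12).2 a2) (fun h => e2 ((lft_bb s23).1 h)) (L.pos f c)
    have g3 : L.pos (L.pos (L.pos f e) b31) q = L.pos (L.pos (L.pos f e) b32) r := by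
      rw [← f13, ← g1, f12, g2, f23]
    have nq := L.nrm_pos (L.pos (L.pos f a) b13) q
    have na := hl a a2 a3
    have nc := hl c c2 c3
    have ne := hr e e2 e3
    have r1 := H3 _ _ _ _ _ t1 g1 (Or.inl (by simp only; omega)) l12
      (Or.inl (by simp only; omega)) (Or.inl (by simp only; rw [g1]; omega))
    have r2 := H3 _ _ _ _ _ t2 g2 (Or.inl (by simp only; omega))
      (by rw [← f12, tgt_d s12]; exact l12)
      (Or.inl (by simp only; omega)) (Or.inl (by simp only; rw [← f12, g1]; omega))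
    have r3 := H3 _ _ _ _ _ t3 g3 (Or.inl (by simp only; omega))
      (Or.inl (by simp only; rw [← f13]; omega))
      (Or.inl (by simp only; rw [← f23]; omega)) (Or.inl (by simp only; rw [← f13]; omega))
    rw [← f12] at r2
    rw [← f13, ← f23] at r3
    rw [g_eq s12, g_eq s23, g_eq s13, eq_mul_inv_of_mul_eq r1, eq_mul_inv_of_mul_eq r2,
      eq_mul_inv_of_mul_eq r3]
    group
  obtain ⟨u, u1, u2, u3, u4, claimB⟩ := L.link_abs y x x' z g LA hsym (by
    intro a b c d h a1 a2 c2 a3 c3 b3 d3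
    have e1 : L.pos (L.pos f a) b = (fl x')⁻¹ * ((fl x)⁻¹ * f) := by
      rw [L.pos_left ((lft_bb h).2 c2), L.pos_left a2, a3, b3]
    refine ⟨b, d, h, ?_, Or.inl ?_⟩
    · rw [e1, L.pos_left ((lft_d h).2 a2), L.pos_left c2, c3, d3]
    · simp only; rw [e1]; omega) tri
  have gφ : ∀ a e, L.src a = y → L.lft a → L.lab a = x → ¬ L.lft e → L.lab e = z → X.Adj a e →
      φ (g a e) = τ0 (L.tgt a) (L.pos f a) * (L.ee a)⁻¹ * L.ee e * (τ0 (L.tgt e) (L.pos f e))⁻¹ := by
    rintro a e a1 a2 a3 e2 e3 ⟨b, d, h⟩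
    have f1 := mixed_flat h a2 e2 f
    have n1 := hm _ _ _ _ h a2 a3 e2 e3
    have na := hl a a2 a3
    have ne := hr e e2 e3
    rw [g_eq h, map_mul, map_inv, H2 _ b (Or.inl (by simp only; omega))
      (Or.inl (by simp only; omega)), H2 _ d (Or.inl (by simp only; omega))
      (Or.inl (by simp only; rw [← f1]; omega)), src_b h, src_d h, tgt_d h, ← f1]
    have := L.ee_sq h
    have e4 : L.ee b = (L.ee a)⁻¹ * L.ee e * L.ee d := by rw [mul_assoc, ← this]; group
    rw [e4]; group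
  choose ea hea using fun a : E => fun h : L.lft a => L.ex_adj a z h
  let p : E → Γ := fun a => if h : L.lft a then g u (ea a h) * g (ea a h) a else g u a
  have p_right : ∀ e, ¬ L.lft e → p e = g u e := fun e h => by simp only [p, dif_neg h]
  have p_left : ∀ a e, L.src a = y → L.lft a → L.lab a = x → ¬ L.lft e → L.lab e = z →
      X.Adj a e → p a = g u e * g e a := by
    intro a e a1 a2 a3 e2 e3 h
    simp only [p, dif_pos a2]
    exact claimB a _ e a1 a2 a3 (hea a a2).1 (hea a a2).2.1 e2 e3 (hea a a2).2.2 h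
  refine ⟨p, τ0 (L.tgt u) (L.pos f u) * (L.ee u)⁻¹, ?_, ?_⟩
  · intro e e1 e2
    by_cases h : L.lft e
    · have e3 := hl' e h e2
      obtain ⟨k1, k2, k3⟩ := hea e h
      rw [p_left e _ e1 h e3 k1 k2 k3, hsym _ _ k3, map_mul, map_inv,
        gφ u _ u1 u2 u3 k1 k2 (u4 _ ((adj_src k3).trans e1) k1), gφ e _ e1 h e3 k1 k2 k3]
      group
    · rw [p_right e h, gφ u e u1 u2 u3 h (hr' e h e2) (u4 e e1 h)]
  · intro a b c d h a1 na nc hfl hlt
    have goal : p c = p a * g a c → p a * c0 (L.pos f a) b = p c * c0 (L.pos f c) d := by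
      intro e
      rw [e, g_eq h]; group
    apply goal
    have c1 : L.src c = y := (src_c h).trans a1
    by_cases ha : L.lft a
    · by_cases hc : L.lft c
      · obtain ⟨e, k1, k2, k3, k4⟩ := L.ex_cube a c z ha hc ⟨b, d, h⟩
        rw [p_left a e a1 ha (hl' a ha na) k1 k2 k3, p_left c e c1 hc (hl' c hc nc) k1 k2 k4,
          hsym _ _ k3, hsym _ _ k4,
          ← tri a c e a1 ha hc (hl' a ha na) (hl' c hc nc) k1 k2 ⟨b, d, h, hfl, hlt⟩ k3 k4]
        group
      · rw [p_right c hc, p_left a c a1 ha (hl' a ha na) hc (hr' c hc nc) ⟨b, d, h⟩,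
          hsym a c ⟨b, d, h⟩]
        group
    · have hc : L.lft c := ((L.sq_side h).2).resolve_left ha
      rw [p_right a ha, p_left c a c1 hc (hl' c hc nc) ha (hr' a ha na) ⟨d, b, X.symm h⟩]

end Lab
end Pool.Agent.Lib.MP_28a49a_al
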