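import Pool.Agent.Lib.MP_28a49a_al.LPath

namespace Pool.Agent.Lib.MP_28a49a_al

open Function Multiplicative

theorem two_pow_big (K k : ℕ) (h : 2 * K + 2 ≤ k) : K * (k + 2) ≤ 2 ^ k := by
  induction k, h using Nat.le_induction with
  | base =>
    have h1 : K < 2 ^ K := Nat.lt_two_pow_self
    have h2 : 2 ^ (2 * K + 2) = 4 * (2 ^ K * 2 ^ K) := by ring
    rw [h2]
    nlinarith [Nat.mul_le_mul (Nat.succ_le_of_lt h1) (Nat.succ_le_of_lt h1)]
  | succ k hk ih =>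
    rw [pow_succ]
    nlinarith

theorem arith_log (K : ℕ) (hK : 2 ≤ K) :
    ∃ n1 : ℕ, ∀ n, n1 ≤ n → ∃ k, K ^ (k + 1) ≤ n ∧ n ≤ 2 ^ 2 ^ k := by
  refine ⟨K ^ (2 * K + 3), fun n hn => ?_⟩
  have hn0 : n ≠ 0 := by
    have : 0 < K ^ (2 * K + 3) := by positivity
    omega
  have h1 : 2 * K + 3 ≤ Nat.log K n := Nat.le_log_of_pow_le (by omega) hn
  obtain ⟨k, hk⟩ : ∃ k, Nat.log K n = k + 1 := ⟨Nat.log K n - 1, by omega⟩
  refine ⟨k, hk ▸ Nat.pow_log_le_self K hn0, ?_⟩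
  have h2 : n < K ^ (k + 2) := by
    have := Nat.lt_pow_succ_log_self (b := K) (by omega) n
    rwa [hk] at this
  calc n ≤ K ^ (k + 2) := h2.le
    _ ≤ (2 ^ K) ^ (k + 2) := Nat.pow_le_pow_left Nat.lt_two_pow_self.le _
    _ = 2 ^ (K * (k + 2)) := by rw [pow_mul]
    _ ≤ 2 ^ 2 ^ k := Nat.pow_le_pow_right (by norm_num) (two_pow_big K k (by omega))

theorem arith_cost (C K n0 : ℕ) (hC : 1 ≤ C) :
    ∃ K' : ℕ, 2 ≤ K' ∧ ∀ k m, m ≤ K * (k + 1) → C ^ m * n0 + K ^ (k + 1) + n0 ≤ K' ^ (k + 1) := by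
  refine ⟨(C ^ K + K + 1) * (2 * n0 + 2), by nlinarith [Nat.zero_le (C ^ K + K)], fun k m hm => ?_⟩
  have h0 : 1 ≤ (C ^ K + K + 1) ^ (k + 1) := Nat.one_le_pow _ _ (by omega)
  have h1 : C ^ m ≤ (C ^ K + K + 1) ^ (k + 1) :=
    calc C ^ m ≤ C ^ (K * (k + 1)) := Nat.pow_le_pow_right hC hm
      _ = (C ^ K) ^ (k + 1) := by rw [pow_mul]
      _ ≤ _ := Nat.pow_le_pow_left (by omega) _
  have h2 : K ^ (k + 1) ≤ (C ^ K + K + 1) ^ (k + 1) := Nat.pow_le_pow_left (by omega) _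
  have h3 : 2 * n0 + 2 ≤ (2 * n0 + 2) ^ (k + 1) := Nat.le_self_pow (by omega) _
  rw [mul_pow]
  generalize (C ^ K + K + 1) ^ (k + 1) = a at *
  nlinarith [Nat.mul_le_mul_left a h3, Nat.mul_le_mul_right n0 h1, Nat.mul_le_mul_right n0 h0]

theorem CostCalc.conj_word {Λ Ω : Type} [Group Ω] {o : Λ → Ω} {Cost : Ω → ℕ → Prop} {C : ℕ}
    (h : CostCalc o Cost C) {a : Ω} {m : ℕ} (ha : Cost a m) (l : List (Λ × Bool)) :
    Cost (FreeGroup.lift o (FreeGroup.mk l) * a * (FreeGroup.lift o (FreeGroup.mk l))⁻¹)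
      (C ^ l.length * m) := by
  induction l with
  | nil => simpa using ha
  | cons x l ih =>
    obtain ⟨x, b⟩ := x
    rw [List.length_cons, pow_succ', mul_assoc C]
    cases b
    · convert h.conj' x ih using 1
      simp only [FreeGroup.lift_mk, List.map_cons, List.prod_cons, cond_false]
      group
    · convert h.conj x ih using 1
      simp only [FreeGroup.lift_mk, List.map_cons, List.prod_cons, cond_true]
      group

theorem exists_bound {α : Type} {W : Set α} (hW : W.Finite) (P : α → ℕ → Prop)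
    (mono : ∀ a m n, P a m → m ≤ n → P a n) (h : ∀ a ∈ W, ∃ n, P a n) :
    ∃ n, ∀ a ∈ W, P a n := by
  induction W, hW using Set.Finite.induction_on with
  | empty => exact ⟨0, fun a ha => ha.elim⟩
  | @insert a s _ _ ih =>
    obtain ⟨n, hn⟩ := ih fun b hb => h b (Or.inr hb)
    obtain ⟨m, hm⟩ := h a (Or.inl rfl)
    refine ⟨max m n, ?_⟩
    rintro b (rfl | hb)
    · exact mono _ _ _ hm (le_max_left _ _)
    · exact mono _ _ _ (hn b hb) (le_max_right _ _)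

section Nm
variable {Q Qs M Mb : Type} [Group Q] [Group Qs] [AddCommGroup M] [AddCommGroup Mb]
  [DistribMulAction Q M] [DistribMulAction Q Mb] (D : QData Q Qs M Mb)

/-- bounded cycles -/
def QData.Nm (m : M) (B : ℕ) : Prop := D.ϖ m = 0 ∧ ∀ q : Q, |D.lam (q • m)| ≤ B

variable {D}

theorem QData.Nm.zero : D.Nm 0 0 := ⟨map_zero _, fun q => by simp⟩

theorem QData.Nm.add {m m' : M} {B B' : ℕ} (h : D.Nm m B) (h' : D.Nm m' B') :
    D.Nm (m + m') (B + B') :=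
  ⟨by rw [map_add, h.1, h'.1, add_zero], fun q => by
    rw [smul_add, map_add, Nat.cast_add]
    exact (abs_add_le _ _).trans (add_le_add (h.2 q) (h'.2 q))⟩

theorem QData.Nm.neg {m : M} {B : ℕ} (h : D.Nm m B) : D.Nm (-m) B :=
  ⟨by rw [map_neg, h.1, neg_zero], fun q => by rw [smul_neg, map_neg, abs_neg]; exact h.2 q⟩

theorem QData.Nm.smul {m : M} {B : ℕ} (h : D.Nm m B) (q : Q) : D.Nm (q • m) B :=
  ⟨by rw [D.ϖ_smul, h.1, smul_zero], fun q' => by rw [smul_smul]; exact h.2 _⟩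

theorem QData.Nm.mono {m : M} {B B' : ℕ} (h : D.Nm m B) (hB : B ≤ B') : D.Nm m B' :=
  ⟨h.1, fun q => (h.2 q).trans (by exact_mod_cast hB)⟩

theorem QData.exists_Nm {m : M} (h : D.jb (ofAdd (D.ϖ m)) = 1) : ∃ B, D.Nm m B := by
  have h0 : D.ϖ m = 0 := D.jb_inj (h.trans (map_one _).symm)
  obtain ⟨B, hB⟩ := D.bdd m h0
  exact ⟨B, h0, hB⟩

end Nm

theorem lower_abs {Y G Ω Q Qs M Mb : Type} [Group G] [Group Ω] [Group Q] [Group Qs]
    [AddCommGroup M] [AddCommGroup Mb] [DistribMulAction Q M] [DistribMulAction Q Mb]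
    (D : QData Q Qs M Mb) (pr : Ω →* G) (j : Multiplicative M →* Ω) (al : Ω →* Qs)
    (hj : Injective j) (hk : ∀ ω, pr ω = 1 ↔ ∃ m, ω = j (ofAdd m))
    (haj : ∀ m, al (j (ofAdd m)) = D.jb (ofAdd (D.ϖ m)))
    (hcj : ∀ ω m, ω * j (ofAdd m) * ω⁻¹ = j (ofAdd (D.π (al ω) • m)))
    (om : FreeGroup Y →* Ω) (hom : ∀ w, pr (om w) = 1 → al (om w) = 1)
    (A : Subgroup G) (W : Set (FreeGroup Y)) (hW : W.Finite)
    (hWA : ∀ w ∈ W, pr (om w) ∈ A ∧ al (om w) = 1)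
    (hgen : ∀ ω, pr ω ∈ A → al ω = 1 → pr ω ∈ Subgroup.closure (pr.comp om '' W))
    (N : ℕ) (hN : 0 < N) (hpow : ∀ h : Qs, ∃ ω, pr ω ∈ A ∧ al ω = h ^ N)
    (R : Finset (FreeGroup Y)) (hR : ∀ r ∈ R, pr (om r) = 1) :
    ∃ C : ℕ, ∀ n : ℕ, ∃ w : FreeGroup Y, pr (om w) = 1 ∧
      (∃ l : List (Y × Bool), l.length ≤ C * n + C ∧ FreeGroup.mk l = w) ∧
      ∀ P : List (FreeGroup Y × FreeGroup Y), (∀ p ∈ P, p.2 ∈ R ∨ p.2⁻¹ ∈ R) →
        (P.map (fun p => p.1 * p.2 * p.1⁻¹)).prod = w →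
        2 ^ n ≤ C * P.length + C * n + C := by
  classical
  have jadd : ∀ m m', j (ofAdd (m + m')) = j (ofAdd m) * j (ofAdd m') := fun m m' => by
    rw [ofAdd_add, map_mul]
  have jneg : ∀ m, j (ofAdd (-m)) = (j (ofAdd m))⁻¹ := fun m => by rw [ofAdd_neg, map_inv]
  have hcomm : ∀ ω m, al ω = 1 → j (ofAdd m) * ω = ω * j (ofAdd m) := fun ω m h => by
    have := hcj ω m
    rw [h, map_one, one_smul, mul_inv_eq_iff_eq_mul] at this
    exact this.symm
  let Wd : FreeGroup Y → ℕ → Prop := fun w n =>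
    ∃ l : List (FreeGroup Y), (∀ x ∈ l, x ∈ W ∨ x⁻¹ ∈ W) ∧ l.length ≤ n ∧ l.prod = w
  have Wal : ∀ w n, Wd w n → al (om w) = 1 := by
    rintro _ n ⟨l, hl, -, rfl⟩
    refine (Subgroup.list_prod_mem (al.comp om).ker fun x hx => ?_ :)
    rcases hl x hx with h | h
    · exact (hWA x h).2
    · exact (Subgroup.inv_mem_iff _).1 (hWA _ h).2
  have Wone : Wd 1 0 := ⟨[], by simp, le_rfl, rfl⟩
  have Wmul : ∀ w n w' n', Wd w n → Wd w' n' → Wd (w * w') (n + n') := by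
    rintro _ n _ n' ⟨l, hl, hn, rfl⟩ ⟨l', hl', hn', rfl⟩
    refine ⟨l ++ l', fun x hx => ?_, by rw [List.length_append]; omega, List.prod_append⟩
    rcases List.mem_append.1 hx with h | h
    exacts [hl x h, hl' x h]
  have Winv : ∀ w n, Wd w n → Wd w⁻¹ n := by
    rintro _ n ⟨l, hl, hn, rfl⟩
    refine ⟨(l.map fun x => x⁻¹).reverse, fun x hx => ?_, by simpa using hn,
      (List.prod_inv_reverse l).symm⟩
    obtain ⟨y, hy, rfl⟩ := List.mem_map.1 (List.mem_reverse.1 hx)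
    rw [inv_inv]
    exact (hl y hy).symm
  have Wmono : ∀ w n n', Wd w n → n ≤ n' → Wd w n' := by
    rintro _ n n' ⟨l, hl, hn, rfl⟩ h
    exact ⟨l, hl, hn.trans h, rfl⟩
  let Cost : Ω → ℕ → Prop := fun ω n => ∃ w m, Wd w n ∧ D.Nm m n ∧ ω = om w * j (ofAdd m)
  have cone : Cost 1 0 := ⟨1, 0, Wone, QData.Nm.zero, by simp⟩
  have cmul : ∀ a b m n, Cost a m → Cost b n → Cost (a * b) (m + n) := by
    rintro _ _ n n' ⟨w, m, hw, hm, rfl⟩ ⟨w', m', hw', hm', rfl⟩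
    refine ⟨w * w', m + m', Wmul _ _ _ _ hw hw', hm.add hm', ?_⟩
    rw [map_mul, jadd, mul_assoc, ← mul_assoc (j _), hcomm _ _ (Wal _ _ hw')]
    simp only [mul_assoc]
  have cinv : ∀ a m, Cost a m → Cost a⁻¹ m := by
    rintro _ n ⟨w, m, hw, hm, rfl⟩
    refine ⟨w⁻¹, -m, Winv _ _ hw, hm.neg, ?_⟩
    rw [← hcomm _ _ (Wal _ _ (Winv _ _ hw)), jneg, map_inv, mul_inv_rev]
  have cmono : ∀ a m n, Cost a m → m ≤ n → Cost a n := by
    rintro _ n n' ⟨w, m, hw, hm, rfl⟩ h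
    exact ⟨w, m, Wmono _ _ _ hw h, hm.mono h, rfl⟩
  have cfin : ∀ ω, pr ω ∈ A → al ω = 1 → ∃ n, Cost ω n := by
    intro ω hA h1
    have h2 : ∀ g ∈ Subgroup.closure (pr.comp om '' W), ∃ w n, Wd w n ∧ pr (om w) = g := by
      intro g hg
      induction hg using Subgroup.closure_induction with
      | mem x hx =>
        obtain ⟨w, hw, rfl⟩ := hx
        exact ⟨w, 1, ⟨[w], by simp [hw], le_rfl, by simp⟩, rfl⟩
      | one => exact ⟨1, 0, Wone, by simp⟩
      | mul x y _ _ ih ih' =>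
        obtain ⟨w, n, hw, rfl⟩ := ih
        obtain ⟨w', n', hw', rfl⟩ := ih'
        exact ⟨_, _, Wmul _ _ _ _ hw hw', by simp⟩
      | inv x _ ih =>
        obtain ⟨w, n, hw, rfl⟩ := ih
        exact ⟨_, _, Winv _ _ hw, by simp⟩
    obtain ⟨w, n, hw, e⟩ := h2 _ (hgen ω hA h1)
    obtain ⟨m, hm⟩ := (hk ((om w)⁻¹ * ω)).1 (by rw [map_mul, map_inv, e, inv_mul_cancel])
    obtain ⟨B, hB⟩ := QData.exists_Nm (D := D) (m := m) (by
      rw [← haj, ← hm, map_mul, map_inv, Wal _ _ hw, h1, inv_one, mul_one])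
    exact ⟨max n B, w, m, Wmono _ _ _ hw (le_max_left _ _), hB.mono (le_max_right _ _),
      by rw [← hm, mul_inv_cancel_left]⟩
  have cconj : ∀ U : Set Ω, U.Finite → (∀ u ∈ U, pr u ∈ A) →
      ∃ C, 1 ≤ C ∧ ∀ u ∈ U, ∀ a m, Cost a m → Cost (u * a * u⁻¹) (C * m) := by
    intro U hU hUA
    obtain ⟨C0, hC0⟩ := exists_bound (hU.prod hW)
      (fun p n => Cost (p.1 * om p.2 * p.1⁻¹) n) (fun a m n h => cmono _ _ _ h) (by
        rintro ⟨u, w⟩ ⟨hu, hw⟩
        apply cfin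
        · simp only [map_mul, map_inv]
          exact mul_mem (mul_mem (hUA u hu) (hWA w hw).1) (inv_mem (hUA u hu))
        · simp only [map_mul, map_inv, (hWA w hw).2, mul_one, mul_inv_cancel])
    refine ⟨C0 + 1, by omega, ?_⟩
    rintro u hu _ n ⟨_, m, ⟨l, hl, hn, rfl⟩, hm, rfl⟩
    have h1 : Cost (u * om l.prod * u⁻¹) (C0 * l.length) := by
      clear hn
      induction l with
      | nil => simpa using cone
      | cons x l ih =>
        have h2 : Cost (u * om x * u⁻¹) C0 := by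
          rcases hl x List.mem_cons_self with h | h
          · exact hC0 (u, x) ⟨hu, h⟩
          · convert cinv _ _ (hC0 (u, x⁻¹) ⟨hu, h⟩) using 1
            simp only [map_inv]
            group
        convert cmul _ _ _ _ h2 (ih fun y hy => hl y (List.mem_cons_of_mem _ hy)) using 1
        · simp only [List.prod_cons, map_mul]
          group
        · rw [List.length_cons]
          ring
    have h2 : Cost (u * j (ofAdd m) * u⁻¹) n :=
      ⟨1, _, Wmono _ _ _ Wone (Nat.zero_le _), hm.smul (D.π (al u)), by rw [hcj, map_one, one_mul]⟩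
    convert cmono _ _ _ (cmul _ _ _ _ h1 h2)
      (show _ ≤ (C0 + 1) * n by nlinarith [Nat.mul_le_mul_left C0 hn]) using 1
    group
  obtain ⟨Λ, hΛ, g, δ, σ, hg, hσ, htest⟩ := D.test N hN
  have ho : ∀ l, ∃ ω, pr ω ∈ A ∧ al ω = g l := fun l => by
    obtain ⟨h, e⟩ := hg l
    rw [e]
    exact hpow h
  choose o hoA hog using ho
  have hlo : ∀ w, al (FreeGroup.lift o w) = FreeGroup.lift g w := by
    have : al.comp (FreeGroup.lift o) = FreeGroup.lift g := by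
      ext x
      simp [hog]
    exact fun w => DFunLike.congr_fun this w
  have hlA : ∀ w, pr (FreeGroup.lift o w) ∈ A := by
    intro w
    have : FreeGroup.lift o w ∈ A.comap pr :=
      FreeGroup.range_lift_le (s := A.comap pr) (by rintro _ ⟨l, rfl⟩; exact hoA l) ⟨w, rfl⟩
    exact this
  obtain ⟨C, hC1, hC⟩ := cconj (Set.range o ∪ Set.range fun l => (o l)⁻¹)
    ((Set.finite_range _).union (Set.finite_range _)) (by
      rintro _ (⟨l, rfl⟩ | ⟨l, rfl⟩)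
      · exact hoA l
      · rw [map_inv]
        exact inv_mem (hoA l))
  have hcalc : CostCalc o Cost C :=
    ⟨cone, cmul _ _ _ _, cinv _ _, cmono _ _ _, fun l h => hC _ (Or.inl ⟨l, rfl⟩) _ _ h,
      fun l h => by simpa using hC _ (Or.inr ⟨l, rfl⟩) _ _ h⟩
  obtain ⟨K, hK⟩ := htest Ω inferInstance o Cost C hcalc
    fun w hw => cfin _ (hlA w) (by rw [hlo, hw])
  have hprj : ∀ m, pr (j (ofAdd m)) = 1 := fun m => (hk _).2 ⟨m, rfl⟩
  obtain ⟨n0, hn0⟩ := cfin (FreeGroup.lift o σ * (j (ofAdd δ))⁻¹)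
    (by rw [map_mul, map_inv, hprj, inv_one, mul_one]; exact hlA σ)
    (by rw [map_mul, map_inv, hlo, hσ, haj, mul_inv_cancel])
  obtain ⟨K', hK2, hK'⟩ := arith_cost C K n0 hC1
  have big : ∀ k, ∃ m, Cost (j (ofAdd m)) (K' ^ (k + 1)) ∧ (2 : ℤ) ^ 2 ^ 2 ^ k ≤ |D.lam m| := by
    intro k
    obtain ⟨l, hl, h1, h2⟩ := hK k
    refine ⟨_, ?_, h2⟩
    have h3 := cmul _ _ _ _ (cmul _ _ _ _ (cinv _ _ (hcalc.conj_word hn0 l)) h1) hn0
    convert cmono _ _ _ h3 (hK' k _ hl) using 1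
    rw [sub_eq_add_neg, jadd, jneg, ← hlo, ← hcj]
    simp only [map_mul, map_inv]
    group
  obtain ⟨n1, hn1⟩ := arith_log K' hK2
  obtain ⟨c, hc⟩ := exists_bound hW (fun w n => ∃ l : List (Y × Bool), l.length ≤ n ∧
      FreeGroup.mk l = w) (fun a m n ⟨l, h, e⟩ h' => ⟨l, h.trans h', e⟩)
    fun w _ => ⟨_, w.toWord, le_rfl, FreeGroup.mk_toWord⟩
  have Wlen : ∀ w n, Wd w n → ∃ l : List (Y × Bool), l.length ≤ c * n ∧ FreeGroup.mk l = w := by
    rintro _ n ⟨l, hl, hn, rfl⟩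
    suffices h : ∃ l' : List (Y × Bool), l'.length ≤ c * l.length ∧ FreeGroup.mk l' = l.prod by
      obtain ⟨l', h, e⟩ := h
      exact ⟨l', h.trans (Nat.mul_le_mul_left c hn), e⟩
    clear hn
    induction l with
    | nil => exact ⟨[], by simp, rfl⟩
    | cons x l ih =>
      obtain ⟨l1, h1, e1⟩ := ih fun y hy => hl y (List.mem_cons_of_mem _ hy)
      obtain ⟨l2, h2, e2⟩ : ∃ l : List (Y × Bool), l.length ≤ c ∧ FreeGroup.mk l = x := by
        rcases hl x List.mem_cons_self with h | h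
        · exact hc x h
        · obtain ⟨l2, h2, e2⟩ := hc _ h
          exact ⟨FreeGroup.invRev l2, by simpa using h2, by rw [← FreeGroup.inv_mk, e2, inv_inv]⟩
      refine ⟨l2 ++ l1, ?_, by rw [← FreeGroup.mul_mk, e1, e2, List.prod_cons]⟩
      rw [List.length_append, List.length_cons]
      nlinarith
  obtain ⟨B, hB⟩ := exists_bound R.finite_toSet (fun r n => ∃ m, D.Nm m n ∧ om r = j (ofAdd m))
    (fun a m n ⟨x, h, e⟩ h' => ⟨x, h.mono h', e⟩) (by
      intro r hr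
      obtain ⟨m, hm⟩ := (hk _).1 (hR r hr)
      obtain ⟨B, hB⟩ := QData.exists_Nm (D := D) (m := m) (by rw [← haj, ← hm, hom _ (hR r hr)])
      exact ⟨B, m, hB, hm⟩)
  have area : ∀ P : List (FreeGroup Y × FreeGroup Y), (∀ p ∈ P, p.2 ∈ R ∨ p.2⁻¹ ∈ R) →
      ∃ m, D.Nm m (B * P.length) ∧
        om (P.map (fun p => p.1 * p.2 * p.1⁻¹)).prod = j (ofAdd m) := by
    intro P hP
    induction P with
    | nil => exact ⟨0, QData.Nm.zero, by simp⟩
    | cons p P ih =>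
      obtain ⟨m, hm, e⟩ := ih fun y hy => hP y (List.mem_cons_of_mem _ hy)
      obtain ⟨m', hm', e'⟩ : ∃ m, D.Nm m B ∧ om p.2 = j (ofAdd m) := by
        rcases hP p List.mem_cons_self with h | h
        · exact hB _ h
        · obtain ⟨m', hm', e'⟩ := hB _ h
          exact ⟨-m', hm'.neg, by rw [jneg, ← e', map_inv, inv_inv]⟩
      refine ⟨D.π (al (om p.1)) • m' + m, ((hm'.smul _).add hm).mono ?_, ?_⟩
      · rw [List.length_cons]
        nlinarith
      · rw [List.map_cons, List.prod_cons, map_mul, e, jadd, ← hcj, map_mul, map_mul, map_inv, e']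
  obtain ⟨T, hT⟩ : ∃ T : ℕ, T = 2 ^ n1 := ⟨_, rfl⟩
  refine ⟨T + c + B + 1, fun n => ?_⟩
  by_cases hn : n1 ≤ n
  · obtain ⟨k, hk1, hk2⟩ := hn1 n hn
    obtain ⟨m, ⟨w, m1, hw, hm1, e⟩, hm⟩ := big k
    have e1 : pr (om w) = 1 := by
      have := congrArg pr e
      rw [map_mul, hprj, hprj, mul_one] at this
      exact this.symm
    obtain ⟨l, hl, el⟩ := Wlen _ _ (Wmono _ _ _ hw hk1)
    refine ⟨w, e1, ⟨l, hl.trans ((Nat.mul_le_mul_right n (by omega)).trans (Nat.le_add_right _ _)), el⟩,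
      fun P hP eP => ?_⟩
    obtain ⟨m2, hm2, e2⟩ := area P hP
    rw [eP] at e2
    rw [e2, ← jadd] at e
    have e3 : m = m2 + m1 := hj e
    have h4 := (hm2.add (hm1.mono hk1)).2 1
    rw [one_smul, ← e3] at h4
    have h5 : 2 ^ 2 ^ 2 ^ k ≤ B * P.length + n := by exact_mod_cast hm.trans h4
    have h6 : 2 ^ n ≤ 2 ^ 2 ^ 2 ^ k := Nat.pow_le_pow_right (by norm_num) hk2
    nlinarith [Nat.zero_le ((T + c + 1) * P.length), Nat.zero_le ((T + c + B) * n)]
  · refine ⟨1, by simp, ⟨[], by simp, rfl⟩, fun P _ _ => ?_⟩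
    have : 2 ^ n ≤ T := hT ▸ Nat.pow_le_pow_right (by norm_num) (by omega)
    omega

theorem lower_bound {E V S Q E1 Qs M Mb : Type} [Finite E] [Finite V] [Nonempty V] [Finite S]
    [Group Q] [Group Qs] [AddCommGroup M] [AddCommGroup Mb] [DistribMulAction Q M]
    [DistribMulAction Q Mb] (s : S → Q) (hs : Function.Surjective (FreeGroup.lift s))
    (hker : (FreeGroup.lift s).ker = Subgroup.normalClosure (tupWord '' Rel4 s))
    {X : SqSys E} (L : Lab X V S (Rel4 s)) (vh : VHData L E1)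
    (hnd : ∀ a b, ¬ vh.T a b (vh.inv b) (vh.inv a)) (D : QData Q Qs M Mb)
    (R : Finset (FreeGroup L.Core)) (hR : ∀ r ∈ R, FreeGroup.lift L.eta r = 1) :
    ∃ C : ℕ, ∀ n : ℕ, ∃ w : FreeGroup L.Core, FreeGroup.lift L.eta w = 1 ∧
      (∃ l : List (L.Core × Bool), l.length ≤ C * n + C ∧ FreeGroup.mk l = w) ∧
      ∀ P : List (FreeGroup L.Core × FreeGroup L.Core),
        (∀ p ∈ P, p.2 ∈ R ∨ p.2⁻¹ ∈ R) →
        (P.map (fun p => p.1 * p.2 * p.1⁻¹)).prod = w →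
        2 ^ n ≤ C * P.length + C * n + C := by
  classical
  obtain ⟨Ω, _, pr, j, al, hpr, hj, hk, haj, hal, hcj⟩ := exists_ext s L vh hnd D
  obtain ⟨A, W, N, hW, hWA, hgen, hN, hpow⟩ := exists_paths s hs hker L
  have lift : ∀ (g : L.Xp.G) (h : Qs), L.alpha g = D.π h → ∃ ω, pr ω = g ∧ al ω = h := by
    intro g h e
    obtain ⟨ω, rfl⟩ := hpr g
    obtain ⟨m, hm⟩ := D.exists_lift (g := h * (al ω)⁻¹)
      (by rw [map_mul, map_inv, hal, e, mul_inv_cancel])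
    refine ⟨j (ofAdd m) * ω, ?_, by rw [map_mul, haj, hm, inv_mul_cancel_right]⟩
    rw [map_mul, (hk _).2 ⟨m, rfl⟩, one_mul]
  let πs : FreeGroup S →* Qs := FreeGroup.lift fun x => surjInv D.π_surj (s x)
  have hπs : ∀ w, D.π (πs w) = FreeGroup.lift s w := by
    have : D.π.comp πs = FreeGroup.lift s := by
      ext x
      simp [πs, surjInv_eq]
    exact fun w => DFunLike.congr_fun this w
  have h1 : ∀ p : L.Core, ∃ ω, pr ω = L.eta p ∧ al ω = πs (L.beta (L.eta p)) := fun p =>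
    lift _ _ (by rw [hπs, L.alpha_eta])
  choose o ho1 ho2 using h1
  have e1 : pr.comp (FreeGroup.lift o) = FreeGroup.lift L.eta := by
    ext x
    simp [ho1]
  have e1' : ∀ w, pr (FreeGroup.lift o w) = FreeGroup.lift L.eta w :=
    fun w => DFunLike.congr_fun e1 w
  have e2 : ∀ w, al (FreeGroup.lift o w) = πs (L.beta (FreeGroup.lift L.eta w)) := by
    have : al.comp (FreeGroup.lift o) = πs.comp (L.beta.comp (FreeGroup.lift L.eta)) := by
      ext x
      simp [ho2]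
    exact fun w => DFunLike.congr_fun this w
  have := lower_abs D pr j al hj hk haj hcj (FreeGroup.lift o)
    (fun w hw => by rw [e2, ← e1', hw, map_one, map_one]) A W hW
    (fun w hw => ⟨by rw [e1']; exact (hWA w hw).1, by rw [e2, (hWA w hw).2, map_one]⟩)
    (fun ω hA h => by rw [e1]; exact hgen _ hA (by rw [← hal, h, map_one])) N hN
    (fun h => by
      obtain ⟨a, ha, e⟩ := hpow (D.π h)
      obtain ⟨ω, rfl, e'⟩ := lift a (h ^ N) (by rw [e, map_pow])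
      exact ⟨ω, ha, e'⟩) R (fun r hr => by rw [e1', hR r hr])
  simpa only [e1'] using this

end Pool.Agent.Lib.MP_28a49a_al
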