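import Pool.Agent.Lib.MP_28a49a_al.TowerData

namespace Pool.Agent.Lib.MP_28a49a_al

namespace W

open SemidirectProduct Multiplicative

lemma psi_pow (n : ℕ) (v : Z2) (h1 : 0 ≤ toAdd v.1) (h2 : 0 ≤ toAdd v.2) :
    2 ^ n * toAdd v.1 ≤ toAdd ((psi ^ n) v).1 ∧ 0 ≤ toAdd ((psi ^ n) v).2 := by
  induction n with
  | zero => simpa using h2
  | succ n ih =>
    have e1 : toAdd ((psi ^ (n + 1)) v).1 =
        toAdd ((psi ^ n) v).1 + toAdd ((psi ^ n) v).1 + toAdd ((psi ^ n) v).2 := by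
      rw [pow_succ']; rfl
    have e2 : toAdd ((psi ^ (n + 1)) v).2 = toAdd ((psi ^ n) v).1 + toAdd ((psi ^ n) v).2 := by
      rw [pow_succ']; rfl
    have h3 : 0 ≤ 2 ^ n * toAdd v.1 := by positivity
    rw [e1, e2, pow_succ]
    constructor <;> nlinarith [ih.1, ih.2]

/-- first basis vector -/
def a0 : Z2 := (ofAdd 1, 1)

lemma ps_growth (g : Zm) (c : ℕ) (h : (c : ℤ) ≤ toAdd g) {N : ℕ} (hN : 0 < N) :
    ((2 ^ c : ℕ) : ℤ) ≤ toAdd (ps g (a0 ^ N)).1 := by
  obtain ⟨n, hn⟩ := Int.eq_ofNat_of_zero_le ((Int.natCast_nonneg c).trans h)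
  have e : ps g = psi ^ n := by
    change psi ^ toAdd g = _
    rw [hn, zpow_natCast]
  have h1 : toAdd (a0 ^ N).1 = N := by simp [a0]
  have h2 := (psi_pow n (a0 ^ N) (by rw [h1]; positivity) (by simp [a0])).1
  rw [e]
  refine le_trans ?_ h2
  rw [hn] at h
  rw [h1]
  have h3 : (2 : ℤ) ^ c ≤ 2 ^ n := pow_le_pow_right₀ (by norm_num) (by exact_mod_cast h)
  have h4 : (1 : ℤ) ≤ N := by exact_mod_cast hN
  have h5 : (0 : ℤ) < 2 ^ n := by positivity
  push_cast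
  nlinarith

/-- top generator -/
def y0 : Sol := inr (ofAdd 1)

lemma growth (N : ℕ) (hN : 0 < N) (k : ℕ) : ∃ a' : Z2,
    wL ((inG (inG y0) : Gam) ^ N) (inG (inG (inl a0)) ^ N) (inG (inS a0) ^ N) (inS a0 ^ N) k =
      inS a' ∧ (2 : ℤ) ^ 2 ^ 2 ^ k ≤ toAdd (MonoidHom.fst Zm Zm a') := by
  let v1 := ps ((ofAdd 1 ^ N) ^ k) (a0 ^ N)
  let v2 := ph v1 (a0 ^ N)
  have e1 : wU (y0 ^ N) (inl a0 ^ N) k = inl v1 := by
    rw [wU, y0, ← map_pow inr, ← map_pow inr, ← map_pow inl, ← map_inv, ← inl_aut]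
  have e2 : wT ((inG y0 : T1) ^ N) (inG (inl a0) ^ N) (inS a0 ^ N) k = inS v2 := by
    rw [wT, ← map_pow, ← map_pow, ← map_wU, e1, ← map_pow, conj_inS]
  refine ⟨ph v2 (a0 ^ N), ?_, ?_⟩
  · rw [wL, ← map_pow (inG : T1 →* Gam), ← map_pow (inG : T1 →* Gam),
      ← map_pow (inG : T1 →* Gam), ← map_wT, e2, ← map_pow, conj_inS]
  · have h1 := ps_growth ((ofAdd 1 ^ N) ^ k) k (by
      simpa using le_mul_of_one_le_right (Int.natCast_nonneg k) (by exact_mod_cast hN)) hN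
    have h2 := ps_growth v1.1 _ h1 hN
    have h3 := ps_growth v2.1 _ h2 hN
    exact_mod_cast h3

/-- the direct product inside the big group -/
def vv : T1 × T1 × Sol →* BB := inG.comp (inG.comp inG)

/-- the letters -/
def letter : Lt → BB
  | .Y => Phi (inG (inG (inG y0)))
  | .U => Phi (inG (inG (inG (inl a0))))
  | .T => Phi (inG (inG (inS a0)))
  | .A => Phi (inG (inS a0))
  | .S => 1
  | .B => Phi (inS (ofAdd 1))
  | .X1 => vv (inG y0, inG y0, y0)
  | .z => inG (inG (inS (ofAdd 1)))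
  | .X2 => vv (inG y0, inG y0, 1)
  | .R => vv (1, 1, y0)
  | .V => vv (inG (inl a0), inG (inl a0), 1)
  | .r => vv (1, 1, inl a0)
  | .P => vv (inG y0, 1, 1)
  | .m => vv (1, inG y0, 1)
  | .p => vv (inG (inl a0), 1, 1)
  | .q => vv (1, inG (inl a0), 1)
  | .t1 => vv (inS a0, 1, 1)
  | .t2 => vv (1, inS a0, 1)

lemma rel_letter : Rel letter := by
  have eU : letter .U = vv (inG (inl a0), inG (inl a0), inl a0) := by
    change inG (inG (thT (inG (inl a0)))) = _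
    rw [thT_inG, right_inl, map_one, mul_one]
    rfl
  have eT : letter .T = vv (inS a0, inS a0, 1) := rfl
  have eA : letter .A = inG (inS a0) := rfl
  have eB : letter .B = inS (ofAdd 1) := rfl
  have k1 : ∀ a b c, Commute (letter .z) (vv (inG a, inG b, c)) := fun a b c =>
    ((comm_inS j3 (a, b, c) (ofAdd (1 : ℤ))).symm.map (inG : E →* L2)).map (inG : L2 →* BB)
  have k2 : ∀ a b c, Commute (vv (1, 1, c)) (vv (a, b, 1)) := fun a b c =>
    Commute.map (by simp [Commute, SemiconjBy]) vv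
  have k3 : ∀ a b, Commute (vv (1, b, 1)) (vv (a, 1, 1)) := fun a b =>
    Commute.map (by simp [Commute, SemiconjBy]) vv
  have k4 : ∀ b a, Commute (vv (1, b, 1)) (inG (inS a)) := fun b a => by
    have := conj_inS (j := jZ) (φ := ph.comp (MonoidHom.fst Z2 T1)) (1, b) a
    rw [jZ_apply, map_one, MonoidHom.comp_apply, MonoidHom.coe_fst, map_one, MulAut.one_apply,
      mul_inv_eq_iff_eq_mul] at this
    exact Commute.map this (inG : L2 →* BB)
  have k5 : ∀ a, Commute (inS (ofAdd 1)) (vv (a, 1, 1)) := fun a =>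
    (comm_inS io (inG a) (ofAdd (1 : ℤ))).symm
  have k6 : ∀ a, Commute (inS (ofAdd 1) : BB) (inG (inS a)) := fun a =>
    (comm_inS io (inS a) (ofAdd (1 : ℤ))).symm
  refine ⟨?_, ?_, ?_, ?_, ?_, ?_, ?_, ?_, ?_, ?_, fun _ _ => Commute.one_left _⟩
  · change inG (inG (thT (inG y0))) = _
    rw [thT_inG, map_mul, map_mul]
    rfl
  · simp [letter, ← map_mul]
  · simp [letter, ← map_mul]
  · rw [eU]; simp [letter, ← map_mul]
  · simp [letter, ← map_mul]
  · rw [eT]; simp [letter, ← map_mul]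
  · simp only [List.mem_cons, List.not_mem_nil, or_false, forall_eq_or_imp, forall_eq, eU]
    exact ⟨k1 _ _ _, k1 _ _ _⟩
  · simp only [List.mem_cons, List.not_mem_nil, or_false, forall_eq_or_imp, forall_eq, eT]
    exact ⟨⟨k2 _ _ _, k2 _ _ _, k2 _ _ _⟩, k2 _ _ _, k2 _ _ _, k2 _ _ _⟩
  · simp only [List.mem_cons, List.not_mem_nil, or_false, forall_eq_or_imp, forall_eq, eA]
    exact ⟨⟨k3 _ _, k3 _ _, k3 _ _, k4 _ _⟩, ⟨k3 _ _, k3 _ _, k3 _ _, k4 _ _⟩,
      k3 _ _, k3 _ _, k3 _ _, k4 _ _⟩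
  · simp only [List.mem_cons, List.not_mem_nil, or_false, forall_eq_or_imp, forall_eq, eA, eB]
    exact ⟨k5 _, k5 _, k5 _, k6 _⟩

lemma qdata_prod {Q Qs M Mb : Type} [Group Q] [Group Qs] [AddCommGroup M] [AddCommGroup Mb]
    [DistribMulAction Q M] [DistribMulAction Q Mb] (d : QData Q Qs M Mb) :
    ∃ (_ : DistribMulAction (Q × Zm) M) (_ : DistribMulAction (Q × Zm) Mb),
      Nonempty (QData (Q × Zm) (Qs × Zm) M Mb) := by
  let _ := DistribMulAction.compHom M (MonoidHom.fst Q Zm)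
  let _ := DistribMulAction.compHom Mb (MonoidHom.fst Q Zm)
  refine ⟨inferInstance, inferInstance, ⟨{
    π := d.π.prodMap (MonoidHom.id Zm)
    π_surj := d.π_surj.prodMap Function.surjective_id
    jb := (MonoidHom.inl Qs Zm).comp d.jb
    jb_inj := fun a b h => d.jb_inj (congrArg Prod.fst h)
    jb_range := ?_
    jb_conj := fun g m => Prod.ext (d.jb_conj g.1 m) (by simp)
    ϖ := d.ϖ
    ϖ_surj := d.ϖ_surj
    ϖ_smul := fun q m => d.ϖ_smul q.1 m
    lam := d.lam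
    bdd := fun m hm => (d.bdd m hm).imp fun B hB q => hB q.1
    test := fun N hN => ?_ }⟩⟩
  · refine le_antisymm ?_ ?_
    · rintro _ ⟨m, rfl⟩
      exact Prod.ext (d.jb_range.le ⟨m, rfl⟩) rfl
    · rintro ⟨x, n⟩ h
      obtain ⟨m, hm⟩ := d.jb_range.ge (show x ∈ d.π.ker from congrArg Prod.fst h)
      exact ⟨m, Prod.ext hm (congrArg Prod.snd h).symm⟩
  · obtain ⟨Λ, _, g, δ, σ, h1, h2, h3⟩ := d.test N hN
    have e : ∀ w, FreeGroup.lift (fun l => ((g l, 1) : Qs × Zm)) w = (FreeGroup.lift g w, 1) :=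
      fun w => DFunLike.congr_fun (FreeGroup.ext_hom _
        ((MonoidHom.inl Qs Zm).comp (FreeGroup.lift g)) (by simp)) w
    refine ⟨Λ, inferInstance, fun l => (g l, 1), δ, σ, fun l => ?_, by rw [e, h2]; rfl,
      fun Ω _ o Cost C h hf => ?_⟩
    · obtain ⟨x, hx⟩ := h1 l
      exact ⟨(x, 1), by simp [hx]⟩
    · obtain ⟨K, hK⟩ := h3 Ω _ o Cost C h fun w hw => hf w (by rw [e, hw]; rfl)
      refine ⟨K, fun k => (hK k).imp fun l hl => ⟨hl.1, hl.2.1, ?_⟩⟩
      rw [e]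
      exact hl.2.2

end W

theorem exists_tower : ∃ (Q : Type) (_ : Group Q), Good Q ∧
    ∃ (Qs M Mb : Type) (_ : Group Qs) (_ : AddCommGroup M) (_ : AddCommGroup Mb)
      (_ : DistribMulAction (Q × Multiplicative ℤ) M)
      (_ : DistribMulAction (Q × Multiplicative ℤ) Mb),
      Nonempty (QData (Q × Multiplicative ℤ) Qs M Mb) := by
  obtain ⟨d⟩ := W.qdata W.Phi (W.inS_injective (W.inS_injective SemidirectProduct.inl_injective))
    W.Phi_injective (MonoidHom.fst W.Zm W.Zm) W.letter W.rel_letter _ _ _ W.a0 rfl rfl rfl rfl rfl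
    W.growth
  exact ⟨W.Q0, inferInstance, W.good_Q0, _, _, _, _, _, _, W.qdata_prod d⟩

end Pool.Agent.Lib.MP_28a49a_al
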