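import Pool.Agent.Lib.MP_28a49a_al.FinPresH
import Pool.Agent.Lib.MP_28a49a_al.Complex
import Pool.Agent.Lib.MP_28a49a_al.Tower
import Pool.Agent.Lib.MP_28a49a_al.Fox
import Pool.Agent.Lib.MP_28a49a_al.HomFP
import Pool.Agent.Lib.MP_28a49a_al.FinPres
import Pool.Agent.Lib.MP_28a49a_al.Lower

namespace Pool.Agent.Lib.MP_28a49a_al

theorem rel4_symm {S Q : Type} [Group Q] (s : S → Q) (A B C D : Let S)
    (h : (A, B, C, D) ∈ Rel4 s) : (C, D, A, B) ∈ Rel4 s := by
  simp only [Rel4, Set.mem_ofPred_eq, tupWord, map_mul, map_inv, mul_inv_eq_one] at h ⊢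
  exact h.symm

theorem rel4_rot {S Q : Type} [Group Q] (s : S → Q) (A B C D : Let S)
    (h : (A, B, C, D) ∈ Rel4 s) : (bar A, C, B, bar D) ∈ Rel4 s := by
  simp only [Rel4, Set.mem_ofPred_eq, tupWord, map_mul, map_inv, mul_inv_eq_one, fl_bar] at h ⊢
  rw [inv_mul_eq_iff_eq_mul, ← mul_assoc, h, mul_inv_cancel_right]

theorem rel4_flat {S Q : Type} [Group Q] (s : S → Q) (x x' : Let S) :
    (x, x', x, x') ∈ Rel4 s := by
  simp only [Rel4, Set.mem_ofPred_eq, tupWord, mul_inv_cancel, map_one]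

theorem main :
    ∃ (G : Type) (_ : Group G),
      (∃ (β : Type) (_ : Finite β) (s : β → G),
        Function.Surjective (FreeGroup.lift s) ∧
        ∃ (d : G → G → ℕ),
          (∀ x y : G, d x y = sInf {k : ℕ | ∃ l : List (β × Bool),
              l.length = k ∧ FreeGroup.lift s (FreeGroup.mk l) = x⁻¹ * y}) ∧
          ∃ δ : ℕ, ∀ x y z w : G,
            d x z + d y w ≤ max (d x y + d z w) (d x w + d y z) + 2 * δ) ∧
      ∃ (α : Type) (_ : Finite α) (φ : FreeGroup α →* G) (R : Finset (FreeGroup α)),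
        φ.ker = Subgroup.normalClosure (R : Set (FreeGroup α)) ∧
        ∃ C : ℕ, ∀ n : ℕ, ∃ w : FreeGroup α, φ w = 1 ∧
          (∃ l : List (α × Bool), l.length ≤ C * n + C ∧ FreeGroup.mk l = w) ∧
          ∀ L : List (FreeGroup α × FreeGroup α),
            (∀ p ∈ L, p.2 ∈ R ∨ p.2⁻¹ ∈ R) →
            (L.map (fun p => p.1 * p.2 * p.1⁻¹)).prod = w →
            2 ^ n ≤ C * L.length + C * n + C := by
  obtain ⟨Q, _, hQ, Qs, M, Mb, _, _, _, _, _, ⟨D⟩⟩ := exists_tower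
  have := hQ.finPres
  obtain ⟨S, _, _, s, hs, hker⟩ := exists_rel4 Q
  have hQ' : Good (Q × Multiplicative ℤ) :=
    Good.ext (MonoidHom.snd Q (Multiplicative ℤ)) Prod.snd_surjective
      (Good.equiv (MulEquiv.ofBijective ((MonoidHom.inl Q (Multiplicative ℤ)).codRestrict
        (MonoidHom.snd Q (Multiplicative ℤ)).ker fun _ => rfl)
        ⟨fun a b h => congrArg (fun t => t.1.1) h, fun ⟨⟨a, b⟩, h⟩ => ⟨a, by
          obtain rfl : b = 1 := h
          rfl⟩⟩) hQ) Good.int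
  have hT : T3 (fun r : Rel4 s => tupWord r.1) :=
    T3_of_homFP3 s hs _ (by rw [hker, Set.image_eq_range]) hQ'.homFP3
  obtain ⟨E, V, E1, _, _, _, X, L, vh, k, hk, hnd⟩ :=
    exists_complex_nd S (Rel4 s) (rel4_symm s) (rel4_rot s) (rel4_flat s)
  obtain ⟨R, hR⟩ := finpres s hs hker hT L
  refine ⟨L.Xp.G, inferInstance, SqSys.hyperbolic (SqSys.noGrid_addFree _ hk), L.Core,
    inferInstance, FreeGroup.lift L.eta, R, hR, lower_bound s hs hker L vh hnd D R fun r hr => ?_⟩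
  rw [← MonoidHom.mem_ker, hR]
  exact Subgroup.subset_normalClosure hr

end Pool.Agent.Lib.MP_28a49a_al
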