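import Pool.Agent.Lib.MP_28a49a_al.Core

namespace Pool.Agent.Lib.MP_28a49a_al
variable {S : Type}

/-- the square system without squares -/
def freeSys (S : Type) : SqSys (Let S) where
  inv := bar
  inv_inv := bar_bar
  S _ _ _ _ := False
  symm h := h
  rot h := h
  uniq h := h.elim
  irrefl h := h.elim
  cube h := h.elim

def toSys : FreeGroup S →* (freeSys S).G := FreeGroup.lift fun x => (freeSys S).gen (x, true)

noncomputable def ofSys : (freeSys S).G →* FreeGroup S :=
  SqSys.liftG (X := freeSys S) fl (fun e => by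
    show fl e * fl (bar e) = 1
    rw [fl_bar, mul_inv_cancel]) fun _ _ _ _ h => h.elim

theorem toSys_fl (x : Let S) : toSys (fl x) = (freeSys S).gen x := by
  obtain ⟨x, b⟩ := x
  cases b
  · have : fl (x, false) = (fl (x, true))⁻¹ := fl_bar (x, true)
    rw [this, map_inv]
    have h2 : toSys (fl (x, true)) = (freeSys S).gen (x, true) := FreeGroup.lift_apply_of
    rw [h2]
    exact (SqSys.gen_inv (X := freeSys S) (x, true)).symm
  · exact FreeGroup.lift_apply_of

theorem ofSys_toSys (f : FreeGroup S) : ofSys (toSys f) = f := by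
  have : ofSys.comp (toSys (S := S)) = MonoidHom.id _ := by
    ext x
    simp only [MonoidHom.comp_apply, toSys, FreeGroup.lift_apply_of, ofSys, SqSys.liftG_gen]
    rfl
  exact DFunLike.congr_fun this f

/-- word length in the free group -/
noncomputable def nrm (f : FreeGroup S) : ℕ := (freeSys S).len (toSys f)

@[simp] theorem nrm_one : nrm (1 : FreeGroup S) = 0 := by simp [nrm]

theorem nrm_inv (f : FreeGroup S) : nrm f⁻¹ = nrm f := by
  unfold nrm; rw [map_inv, SqSys.len_inv]

theorem eq_one_of_nrm {f : FreeGroup S} (h : nrm f = 0) : f = 1 := by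
  rw [← ofSys_toSys f, SqSys.eq_one_of_len h, map_one]

theorem nrm_left (x : Let S) (f : FreeGroup S) :
    nrm ((fl x)⁻¹ * f) = nrm f + 1 ∨ nrm ((fl x)⁻¹ * f) + 1 = nrm f := by
  rw [← fl_bar]
  unfold nrm
  rw [map_mul, toSys_fl]
  exact SqSys.len_gen_mul _ _

theorem nrm_right_eq (x : Let S) (f : FreeGroup S) : nrm (f * fl x) = nrm ((fl x)⁻¹ * f⁻¹) := by
  rw [← nrm_inv, mul_inv_rev]

theorem nrm_right (x : Let S) (f : FreeGroup S) :
    nrm (f * fl x) = nrm f + 1 ∨ nrm (f * fl x) + 1 = nrm f := by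
  rw [nrm_right_eq, ← nrm_inv f]
  exact nrm_left _ _

theorem left_unique {x x' : Let S} {f : FreeGroup S} (h : nrm ((fl x)⁻¹ * f) < nrm f)
    (h' : nrm ((fl x')⁻¹ * f) < nrm f) : x = x' := by
  by_contra hne
  have k : ∀ x : Let S, nrm ((fl x)⁻¹ * f) < nrm f → (freeSys S).Desc x (toSys f) := by
    intro x h
    apply SqSys.desc_of_le
    unfold nrm at h
    rw [map_mul, map_inv, toSys_fl] at h
    omega
  obtain ⟨b, d, hS, _⟩ := SqSys.quad (k x h) (k x' h') hne
  exact hS

theorem right_unique {x x' : Let S} {f : FreeGroup S} (h : nrm (f * fl x) < nrm f)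
    (h' : nrm (f * fl x') < nrm f) : x = x' := by
  rw [nrm_right_eq, ← nrm_inv f] at h h'
  exact left_unique h h'

theorem exists_left {f : FreeGroup S} (h : nrm f ≠ 0) : ∃ x, nrm ((fl x)⁻¹ * f) + 1 = nrm f := by
  obtain ⟨x, hx⟩ := SqSys.exists_desc h
  refine ⟨x, ?_⟩
  unfold nrm
  rw [map_mul, map_inv, toSys_fl]
  exact hx

theorem exists_right {f : FreeGroup S} (h : nrm f ≠ 0) : ∃ x, nrm (f * fl x) + 1 = nrm f := by
  obtain ⟨x, hx⟩ := exists_left (f := f⁻¹) (by rwa [nrm_inv])
  exact ⟨x, by rw [nrm_right_eq, hx, nrm_inv]⟩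

theorem nrm_both {x z : Let S} {f : FreeGroup S} (h2 : 2 ≤ nrm f)
    (hx : nrm ((fl x)⁻¹ * f) < nrm f) (hz : nrm (f * fl z) < nrm f) :
    nrm ((fl x)⁻¹ * f * fl z) + 2 = nrm f := by
  have h1 := nrm_left x f
  obtain ⟨z', h⟩ := exists_right (f := (fl x)⁻¹ * f) (by omega)
  have h3 := nrm_left x (f * fl z')
  have h4 := nrm_right z' f
  rw [← mul_assoc] at h3
  have : z' = z := right_unique (f := f) (by omega) hz
  subst this
  omega

theorem nrm_fl (x : Let S) : nrm (fl x) = 1 := by
  have := nrm_right x 1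
  rw [one_mul, nrm_one] at this
  omega

theorem fl_inj {x x' : Let S} (h : fl x = fl x') : x = x' := by
  apply left_unique (f := fl x)
  · rw [inv_mul_cancel, nrm_one, nrm_fl]; omega
  · rw [← h, inv_mul_cancel, nrm_one, nrm_fl]; omega

theorem nrm_cp (o : Option (Let S)) : nrm (cp o) ≤ 1 := by
  cases o with
  | none => simp [cp]
  | some x => exact (nrm_fl x).le

theorem cp_inj {o o' : Option (Let S)} (h : cp o = cp o') : o = o' := by
  cases o <;> cases o'
  · rfl
  · have := congrArg nrm h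
    simp [cp, nrm_fl] at this
  · have := congrArg nrm h
    simp [cp, nrm_fl] at this
  · rw [fl_inj h]

theorem exists_cp {f : FreeGroup S} (h : nrm f ≤ 1) : ∃ o, cp o = f := by
  by_cases h0 : nrm f = 0
  · exact ⟨none, (eq_one_of_nrm h0).symm⟩
  · obtain ⟨x, hx⟩ := exists_left h0
    have := eq_one_of_nrm (f := (fl x)⁻¹ * f) (by omega)
    exact ⟨some x, inv_mul_eq_one.1 this⟩

/-- recursive choice along a well founded transitive relation -/
theorem wf_choice {A D : Type} [Nonempty D] (r : A → A → Prop) (hwf : WellFounded r)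
    (htr : ∀ a b c, r a b → r b c → r a c) (P : A → (A → D) → Prop)
    (hloc : ∀ a δ δ', δ a = δ' a → (∀ b, r b a → δ b = δ' b) → P a δ → P a δ')
    (hstep : ∀ a δ, (∀ b, r b a → P b δ) →
      ∃ d, ∀ δ', δ' a = d → (∀ b, r b a → δ' b = δ b) → P a δ') :
    ∃ δ, ∀ a, P a δ := by
  classical
  let ext : ∀ a : A, (∀ b, r b a → D) → A → D :=
    fun a g b => if h : r b a then g b h else Classical.arbitrary D
  let F : ∀ a : A, (∀ b, r b a → D) → D := fun a g =>
    if h : ∃ d, ∀ δ', δ' a = d → (∀ b, r b a → δ' b = ext a g b) → P a δ' then h.choose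
    else Classical.arbitrary D
  let δ : A → D := hwf.fix F
  have hδ : ∀ a, δ a = F a fun b _ => δ b := fun a => hwf.fix_eq F a
  refine ⟨δ, fun a => ?_⟩
  induction a using hwf.induction with
  | _ a ih =>
    have e : ∀ b, r b a → δ b = ext a (fun b _ => δ b) b := fun b hb => by
      simp only [ext, dif_pos hb]
    have h : ∃ d, ∀ δ', δ' a = d → (∀ b, r b a → δ' b = ext a (fun b _ => δ b) b) → P a δ' :=
      hstep a _ fun b hb => hloc b δ _ (e b hb) (fun c hc => e c (htr c b a hc hb)) (ih b hb)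
    refine h.choose_spec δ ?_ e
    rw [hδ a]
    simp only [F, dif_pos h]

namespace Lab
variable {E V : Type} {X : SqSys E} {R : Set (Tup S)} (L : Lab X V S R)

theorem pos_left {e : E} (h : L.lft e) (f : FreeGroup S) : L.pos f e = (fl (L.lab e))⁻¹ * f := by
  unfold pos; rw [if_pos h]

theorem pos_right {e : E} (h : ¬ L.lft e) (f : FreeGroup S) : L.pos f e = f * fl (L.lab e) := by
  unfold pos; rw [if_neg h]

theorem pos_inv (f : FreeGroup S) (e : E) : L.pos (L.pos f e) (X.inv e) = f := by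
  by_cases h : L.lft e
  · rw [L.pos_left ((L.lft_inv e).2 h), L.pos_left h, L.lab_inv, fl_bar]; group
  · rw [L.pos_right (fun h' => h ((L.lft_inv e).1 h')), L.pos_right h, L.lab_inv, fl_bar]; group

theorem pos_inv' (f : FreeGroup S) (e : E) : L.pos (L.pos f (X.inv e)) e = f := by
  have := L.pos_inv f (X.inv e)
  rwa [X.inv_inv] at this

theorem nrm_pos (f : FreeGroup S) (e : E) :
    nrm (L.pos f e) = nrm f + 1 ∨ nrm (L.pos f e) + 1 = nrm f := by
  by_cases h : L.lft e
  · rw [L.pos_left h]; exact nrm_left _ _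
  · rw [L.pos_right h]; exact nrm_right _ _

@[simp] theorem tgt_inv0 (e : E) : L.tgt (X.inv e) = L.src e := by
  unfold tgt; rw [X.inv_inv]

@[simp] theorem src_inv (e : E) : L.src (X.inv e) = L.tgt e := rfl

variable {L}

theorem src_c {a b c d : E} (h : X.S a b c d) : L.src c = L.src a := (L.sq_src h).1
theorem src_b {a b c d : E} (h : X.S a b c d) : L.src b = L.tgt a := (L.sq_src h).2
theorem src_d {a b c d : E} (h : X.S a b c d) : L.src d = L.tgt c := (L.sq_src (X.symm h)).2
theorem tgt_d {a b c d : E} (h : X.S a b c d) : L.tgt d = L.tgt b :=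
  (L.sq_src (SqSys.view_far h)).1
theorem lft_d {a b c d : E} (h : X.S a b c d) : L.lft d ↔ L.lft a := (L.sq_side h).1
theorem lft_bb {a b c d : E} (h : X.S a b c d) : L.lft b ↔ L.lft c := (L.sq_side (X.symm h)).1

theorem mixed_d {a b c d : E} (h : X.S a b c d) (ha : L.lft a) (hc : ¬ L.lft c) :
    L.lab d = L.lab a := L.sq_mixed h (by tauto)

theorem mixed_b {a b c d : E} (h : X.S a b c d) (ha : L.lft a) (hc : ¬ L.lft c) :
    L.lab b = L.lab c := L.sq_mixed (X.symm h) (by tauto)

theorem mixed_pos {a b c d : E} (h : X.S a b c d) (ha : L.lft a) (hc : ¬ L.lft c)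
    (f : FreeGroup S) : L.pos (L.pos f a) b = (fl (L.lab a))⁻¹ * f * fl (L.lab c) := by
  rw [L.pos_right (fun hb => hc ((lft_bb h).1 hb)), L.pos_left ha, mixed_b h ha hc]

theorem mixed_flat {a b c d : E} (h : X.S a b c d) (ha : L.lft a) (hc : ¬ L.lft c)
    (f : FreeGroup S) : L.pos (L.pos f a) b = L.pos (L.pos f c) d := by
  rw [mixed_pos h ha hc, L.pos_left ((lft_d h).2 ha), L.pos_right hc, mixed_d h ha hc, mul_assoc]

theorem adj_symm {a c : E} (h : X.Adj a c) : X.Adj c a := by
  obtain ⟨b, d, h⟩ := h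
  exact ⟨d, b, X.symm h⟩

theorem adj_src {a c : E} (h : X.Adj a c) : L.src c = L.src a := by
  obtain ⟨b, d, h⟩ := h
  exact src_c h

variable (L) in
theorem ex_right (y : V) (z : Let S) : ∃ e, L.src e = y ∧ ¬ L.lft e ∧ L.lab e = z := by
  obtain ⟨a, h1, h2, _⟩ := L.ex_left y z
  obtain ⟨e, h3, h4, h5⟩ := L.ex_adj a z h2
  exact ⟨e, (adj_src h5).trans h1, h3, h4⟩

variable (L) in
/-- at every vertex and for every label there is a left edge adjacent to all right edges -/
theorem ex_apex (y : V) (x : Let S) : ∃ u, L.src u = y ∧ L.lft u ∧ L.lab u = x ∧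
    ∀ e, L.src e = y → ¬ L.lft e → X.Adj u e := by
  obtain ⟨a, h1, h2, h3⟩ := L.ex_left y x
  rcases L.apex y with h | ⟨P, p1, p2, _⟩
  · exact ⟨a, h1, h2, h3, fun e he hl => h a e h1 he h2 hl⟩
  · by_cases hp : P a
    · exact ⟨a, h1, h2, h3, fun e he hl => p1 a e h1 he h2 hp hl⟩
    · obtain ⟨b, c, d, hS, k1, k2, _⟩ := L.ex_flat a x h2
      have hc : P c := by
        have := p2 a c h1 h2 k1 ⟨b, d, hS⟩
        tauto
      have e : L.src c = y := (src_c hS).trans h1
      exact ⟨c, e, k1, k2.trans h3, fun e' he hl => p1 c e' e he k1 hc hl⟩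

end Lab
end Pool.Agent.Lib.MP_28a49a_al
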