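import Pool.Agent.Lib.MP_28a49a_al.Coc

namespace Pool.Agent.Lib.MP_28a49a_al
namespace Lab
variable {E V S : Type} {X : SqSys E} {R : Set (Tup S)} {L : Lab X V S R}
variable {Γ : Type} [Group Γ] {φ : Γ →* L.Xp.G}

variable (L) in
def LSq (r : Tup S) (a b c d : E) : Prop :=
  X.S a b c d ∧ L.lft a ∧ L.lft c ∧ (L.lab a, L.lab b, L.lab c, L.lab d) = r

theorem LSq.far {r : Tup S} {a b c d : E} (h : L.LSq r a b c d) (v : FreeGroup S) :
    L.pos (L.pos (tupWord r * v) a) b = L.pos (L.pos v c) d := by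
  obtain ⟨h, ha, hc, rfl⟩ := h
  rw [L.pos_left ((lft_bb h).2 hc), L.pos_left ha, L.pos_left ((lft_d h).2 ha), L.pos_left hc]
  simp only [tupWord]
  group

namespace Coc
variable (C : L.Coc φ)

noncomputable def sqv (w v : FreeGroup S) (a b c d : E) : Γ :=
  C.c v c * C.c (L.pos v c) d * (C.c (w * v) a * C.c (L.pos (w * v) a) b)⁻¹

theorem sqv_gauge {r : Tup S} {a b c d : E} (h : L.LSq r a b c d) (v : FreeGroup S) :
    φ (C.sqv (tupWord r) v a b c d) =
      C.τ (L.src a) v * (C.τ (L.src a) (tupWord r * v))⁻¹ := by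
  have hf := h.far v
  obtain ⟨h, _⟩ := h
  simp only [sqv, map_mul, map_inv, C.gauge, src_c h, src_b h, src_d h, tgt_d h, hf]
  have := L.ee_sq h
  have e4 : L.ee b = (L.ee a)⁻¹ * L.ee c * L.ee d := by rw [mul_assoc, ← this]; group
  rw [e4]; group

theorem mixed {a b c d : E} (h : X.S a b c d) (ha : L.lft a) (hc : ¬ L.lft c) (f : FreeGroup S) :
    C.c f a * C.c (L.pos f a) b = C.c f c * C.c (L.pos f c) d :=
  C.c_sq f a b c d h (mixed_flat h ha hc f)

theorem sqv_transport {r : Tup S} {a b c d e : E} (h : L.LSq r a b c d) (he : ¬ L.lft e)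
    (h1 : X.Adj a e) (h2 : X.Adj c e) : ∃ a' b' c' d', L.LSq r a' b' c' d' ∧ L.src a' = L.tgt e ∧
      ∀ v, C.sqv (tupWord r) v a b c d = C.c v e *
        C.sqv (tupWord r) (v * fl (L.lab e)) a' b' c' d' * (C.c (tupWord r * v) e)⁻¹ := by
  have hf := h.far
  obtain ⟨s12, ha, hc, hr⟩ := h
  obtain ⟨b13, a', s13⟩ := h1
  obtain ⟨b23, c', s23⟩ := h2
  obtain ⟨x, y, z, t1, t2, t3⟩ := X.cube s12 s13 s23
  have lb : L.lft b := (lft_bb s12).2 hc
  have ld : L.lft d := (lft_d s12).2 ha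
  have r13 : ¬ L.lft b13 := fun h => he ((lft_bb s13).1 h)
  have r23 : ¬ L.lft b23 := fun h => he ((lft_bb s23).1 h)
  refine ⟨a', y, c', z, ⟨t3, (lft_d s13).2 ha, (lft_d s23).2 hc, ?_⟩, src_d s13, fun v => ?_⟩
  · rw [mixed_d s13 ha he, mixed_d s23 hc he, mixed_d t1 lb r13, mixed_d t2 ld r23, hr]
  · have e1 := C.mixed s13 ha he (tupWord r * v)
    have e2 := C.mixed t1 lb r13 (L.pos (tupWord r * v) a)
    have e3 := C.mixed s23 hc he v
    have e4 := C.mixed t2 ld r23 (L.pos v c)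
    rw [mixed_flat s13 ha he, hf] at e2
    rw [mixed_flat s23 hc he] at e4
    rw [L.pos_right he] at e1 e2 e3 e4
    rw [mul_assoc (tupWord r) v] at e1 e2
    unfold sqv
    rw [eq_mul_inv_of_mul_eq e1, eq_mul_inv_of_mul_eq e2, eq_mul_inv_of_mul_eq e3,
      eq_mul_inv_of_mul_eq e4]
    group

def Base1 : Prop := ∀ r ∈ R, ∀ a b c d a' b' c' d', L.LSq r a b c d → L.LSq r a' b' c' d' →
  L.src a = L.src a' → C.sqv (tupWord r) 1 a b c d = C.sqv (tupWord r) 1 a' b' c' d'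

def Base2 : Prop := ∀ r ∈ R, ∀ p p' a b c d a' b' c' d', L.lft p → L.lft p' → L.src p = L.src p' →
  L.lab p = L.lab p' → L.LSq r a b c d → L.LSq r a' b' c' d' →
  L.src a = L.tgt p → L.src a' = L.tgt p' →
  C.c (fl (L.lab p)) p * C.sqv (tupWord r) 1 a b c d * (C.c (fl (L.lab p) * tupWord r) p)⁻¹ =
  C.c (fl (L.lab p)) p' * C.sqv (tupWord r) 1 a' b' c' d' * (C.c (fl (L.lab p) * tupWord r) p')⁻¹

variable {C}

theorem sqv_indep (h1 : C.Base1) {r : Tup S} (hr : r ∈ R) (n : ℕ) : ∀ v, nrm v = n →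
    ∀ a b c d a' b' c' d', L.LSq r a b c d → L.LSq r a' b' c' d' →
    L.src a = L.src a' → C.sqv (tupWord r) v a b c d = C.sqv (tupWord r) v a' b' c' d' := by
  induction n with
  | zero =>
    intro v hv
    rw [eq_one_of_nrm hv]
    exact h1 r hr
  | succ n ih =>
    intro v hv a b c d a' b' c' d' k1 k2 k3
    obtain ⟨z, hz⟩ := exists_right (f := v) (by omega)
    choose sa sb sc sd hs using fun y => L.ex_sq y r hr
    let val : E → Γ := fun e => C.c v e * C.sqv (tupWord r) (v * fl (L.lab e)) (sa (L.tgt e))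
      (sb (L.tgt e)) (sc (L.tgt e)) (sd (L.tgt e)) * (C.c (tupWord r * v) e)⁻¹
    have key : ∀ a b c d e, L.LSq r a b c d → ¬ L.lft e → L.lab e = z → X.Adj a e → X.Adj c e →
        C.sqv (tupWord r) v a b c d = val e := by
      intro a b c d e h he hl q1 q2
      obtain ⟨a', b', c', d', l1, l2, l3⟩ := C.sqv_transport h he q1 q2
      obtain ⟨m1, m2, m3, m4, m5⟩ := hs (L.tgt e)
      rw [l3, ih (v * fl (L.lab e)) (by rw [hl]; omega) a' b' c' d' _ _ _ _ l1 ⟨m1, m3, m4, m5⟩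
        (l2.trans m2.symm)]
    obtain ⟨e, e1, e2, e3, e4⟩ := L.ex_cube a c z k1.2.1 k1.2.2.1 ⟨b, d, k1.1⟩
    obtain ⟨e', e1', e2', e3', e4'⟩ := L.ex_cube a' c' z k2.2.1 k2.2.2.1 ⟨b', d', k2.1⟩
    rw [key a b c d e k1 e1 e2 e3 e4, key a' b' c' d' e' k2 e1' e2' e3' e4']
    have hc := L.conn_right r hr e e' e1 e1' (by rw [adj_src e3, adj_src e3', k3])
      (e2.trans e2'.symm)
    have gen : ∀ e e', Relation.EqvGen (fun e e' => ¬ L.lft e ∧ ¬ L.lft e' ∧ L.lab e = L.lab e' ∧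
      ∃ a b c d, X.S a b c d ∧ L.lft a ∧ L.lft c ∧ (L.lab a, L.lab b, L.lab c, L.lab d) = r ∧
        X.Adj a e ∧ X.Adj c e ∧ X.Adj a e' ∧ X.Adj c e') e e' →
        L.lab e = L.lab e' ∧ (L.lab e = z → val e = val e') := by
      intro e e' h
      induction h with
      | rel e e' h =>
        obtain ⟨q1, q2, q3, a, b, c, d, q4, q5, q6, q7, q8, q9, q10, q11⟩ := h
        exact ⟨q3, fun hl => (key a b c d e ⟨q4, q5, q6, q7⟩ q1 hl q8 q9).symm.trans
          (key a b c d e' ⟨q4, q5, q6, q7⟩ q2 (q3.symm.trans hl) q10 q11)⟩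
      | refl e => exact ⟨rfl, fun _ => rfl⟩
      | symm e e' _ ih => exact ⟨ih.1.symm, fun h => (ih.2 (ih.1.trans h)).symm⟩
      | trans e e' e'' _ _ ih1 ih2 =>
        exact ⟨ih1.1.trans ih2.1, fun h => (ih1.2 h).trans (ih2.2 (ih1.1.symm.trans h))⟩
    exact (gen e e' hc).2 e2

variable (C) in
noncomputable def rho0 (y : V) (r : R) (v : FreeGroup S) : Γ :=
  C.sqv (tupWord r.1) v (L.ex_sq y r.1 r.2).choose (L.ex_sq y r.1 r.2).choose_spec.choose
    (L.ex_sq y r.1 r.2).choose_spec.choose_spec.choose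
    (L.ex_sq y r.1 r.2).choose_spec.choose_spec.choose_spec.choose

variable (C) in
theorem rho0_spec (y : V) (r : R) : ∃ a b c d, L.LSq r.1 a b c d ∧ L.src a = y ∧
    ∀ v, C.rho0 y r v = C.sqv (tupWord r.1) v a b c d := by
  obtain ⟨m1, m2, m3, m4, m5⟩ :=
    (L.ex_sq y r.1 r.2).choose_spec.choose_spec.choose_spec.choose_spec
  exact ⟨_, _, _, _, ⟨m1, m3, m4, m5⟩, m2, fun v => rfl⟩

theorem rho0_eq (h1 : C.Base1) (r : R) {a b c d : E} (h : L.LSq r.1 a b c d) (v : FreeGroup S) :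
    C.rho0 (L.src a) r v = C.sqv (tupWord r.1) v a b c d := by
  obtain ⟨a', b', c', d', k1, k2, k3⟩ := C.rho0_spec (L.src a) r
  rw [k3]
  exact sqv_indep h1 r.2 _ v rfl _ _ _ _ _ _ _ _ k1 h k2

theorem ex_sq_adj {r : Tup S} (hr : r ∈ R) {e : E} (he : ¬ L.lft e) :
    ∃ a b c d, L.LSq r a b c d ∧ X.Adj a e ∧ X.Adj c e := by
  obtain ⟨a, b, c, d, m1, m2, m3, m4, m5⟩ := L.ex_sq (L.src e) r hr
  obtain ⟨e', e1, e2, e3, e4⟩ := L.ex_cube a c (L.lab e) m3 m4 ⟨b, d, m1⟩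
  have hc := L.conn_right r hr e e' he e1 (by rw [adj_src e3, m2]) e2.symm
  have gen : ∀ e e', Relation.EqvGen (fun e e' => ¬ L.lft e ∧ ¬ L.lft e' ∧ L.lab e = L.lab e' ∧
      ∃ a b c d, X.S a b c d ∧ L.lft a ∧ L.lft c ∧ (L.lab a, L.lab b, L.lab c, L.lab d) = r ∧
        X.Adj a e ∧ X.Adj c e ∧ X.Adj a e' ∧ X.Adj c e') e e' →
      ((∃ a b c d, L.LSq r a b c d ∧ X.Adj a e ∧ X.Adj c e) ↔
        ∃ a b c d, L.LSq r a b c d ∧ X.Adj a e' ∧ X.Adj c e') := by
    intro e e' h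
    induction h with
    | rel e e' h =>
      obtain ⟨q1, q2, q3, a, b, c, d, q4, q5, q6, q7, q8, q9, q10, q11⟩ := h
      exact ⟨fun _ => ⟨a, b, c, d, ⟨q4, q5, q6, q7⟩, q10, q11⟩,
        fun _ => ⟨a, b, c, d, ⟨q4, q5, q6, q7⟩, q8, q9⟩⟩
    | refl e => exact Iff.rfl
    | symm e e' _ ih => exact ih.symm
    | trans e e' e'' _ _ ih1 ih2 => exact ih1.trans ih2
  exact (gen e e' hc).2 ⟨a, b, c, d, ⟨m1, m3, m4, m5⟩, e3, e4⟩

theorem rho0_right (h1 : C.Base1) (r : R) {e : E} (he : ¬ L.lft e) (v : FreeGroup S) :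
    C.rho0 (L.src e) r v =
      C.c v e * C.rho0 (L.tgt e) r (v * fl (L.lab e)) * (C.c (tupWord r.1 * v) e)⁻¹ := by
  obtain ⟨a, b, c, d, k1, k2, k3⟩ := ex_sq_adj r.2 he
  obtain ⟨a', b', c', d', l1, l2, l3⟩ := C.sqv_transport k1 he k2 k3
  rw [adj_src k2, rho0_eq h1 r k1, ← l2, rho0_eq h1 r l1, l3]

/-- the commuting diagram of a mixed square -/
theorem mixed_step {a b e d : E} (h : X.S a b e d) (ha : L.lft a) (he : ¬ L.lft e)
    (f g : FreeGroup S) (t : Γ) :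
    C.c f a * (C.c (L.pos f a) b * t * (C.c (L.pos g a) b)⁻¹) * (C.c g a)⁻¹ =
      C.c f e * (C.c (L.pos f e) d * t * (C.c (L.pos g e) d)⁻¹) * (C.c g e)⁻¹ := by
  rw [eq_mul_inv_of_mul_eq (C.mixed h ha he f), eq_mul_inv_of_mul_eq (C.mixed h ha he g)]
  group

theorem rho1_indep (h1 : C.Base1) (h2 : C.Base2) (r : R) (x : Let S) (n : ℕ) : ∀ v, nrm v = n →
    ∀ p p', L.lft p → L.lft p' → L.src p = L.src p' → L.lab p = x → L.lab p' = x →
    C.c (fl x * v) p * C.rho0 (L.tgt p) r v * (C.c (fl x * tupWord r.1 * v) p)⁻¹ =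
    C.c (fl x * v) p' * C.rho0 (L.tgt p') r v * (C.c (fl x * tupWord r.1 * v) p')⁻¹ := by
  induction n with
  | zero =>
    intro v hv p p' k1 k2 k3 k4 k5
    obtain ⟨a, b, c, d, l1, l2, l3⟩ := C.rho0_spec (L.tgt p) r
    obtain ⟨a', b', c', d', l1', l2', l3'⟩ := C.rho0_spec (L.tgt p') r
    rw [eq_one_of_nrm hv, mul_one, mul_one, l3, l3', ← k4]
    exact h2 r.1 r.2 p p' a b c d a' b' c' d' k1 k2 k3 (k4.trans k5.symm) l1 l1' l2 l2'
  | succ n ih =>
    intro v hv p p' k1 k2 k3 k4 k5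
    obtain ⟨z, hz⟩ := exists_right (f := v) (by omega)
    have step : ∀ p e, L.lft p → L.lab p = x → ¬ L.lft e → L.lab e = z → X.Adj p e →
        ∃ d, L.lft d ∧ L.lab d = x ∧ L.src d = L.tgt e ∧
        C.c (fl x * v) p * C.rho0 (L.tgt p) r v * (C.c (fl x * tupWord r.1 * v) p)⁻¹ =
        C.c (fl x * v) e * (C.c (fl x * (v * fl z)) d * C.rho0 (L.tgt d) r (v * fl z) *
          (C.c (fl x * tupWord r.1 * (v * fl z)) d)⁻¹) * (C.c (fl x * tupWord r.1 * v) e)⁻¹ := by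
      rintro p e q1 q2 q3 q4 ⟨b, d, h⟩
      refine ⟨d, (lft_d h).2 q1, (mixed_d h q1 q3).trans q2, src_d h, ?_⟩
      have := mixed_step (C := C) h q1 q3 (fl x * v) (fl x * tupWord r.1 * v)
        (C.rho0 (L.tgt d) r (v * fl z))
      rw [L.pos_left q1, L.pos_left q1, L.pos_right q3, L.pos_right q3, q2, q4,
        inv_mul_cancel_left, mul_assoc (fl x) (tupWord r.1) v, inv_mul_cancel_left,
        mul_assoc (fl x) v, ← mul_assoc (fl x) (tupWord r.1) v,
        mul_assoc (fl x * tupWord r.1) v] at this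
      rw [← this, ← src_b h, rho0_right h1 r (fun hb => q3 ((lft_bb h).1 hb)), mixed_b h q1 q3, q4,
        tgt_d h]
    obtain ⟨u, u1, u2, u3, u4⟩ := L.ex_apex (L.src p) x
    have key : ∀ p', L.lft p' → L.src p = L.src p' → L.lab p' = x →
        C.c (fl x * v) p' * C.rho0 (L.tgt p') r v * (C.c (fl x * tupWord r.1 * v) p')⁻¹ =
        C.c (fl x * v) u * C.rho0 (L.tgt u) r v * (C.c (fl x * tupWord r.1 * v) u)⁻¹ := by
      intro p' k2 k3 k5
      obtain ⟨e, e1, e2, e3⟩ := L.ex_adj p' z k2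
      obtain ⟨d, d1, d2, d3, d4⟩ := step p' e k2 k5 e1 e2 e3
      obtain ⟨d', d1', d2', d3', d4'⟩ := step u e u2 u3 e1 e2
        (u4 e ((adj_src e3).trans k3.symm) e1)
      rw [d4, d4', ih (v * fl z) (by omega) d d' d1 d1' (d3.trans d3'.symm) d2 d2']
    rw [key p k1 rfl k4, key p' k2 k3 k5]

open Classical in
variable (C) in
noncomputable def rho (r : R) (v : FreeGroup S) (y : V) (u : FreeGroup S) : Γ :=
  if h : ∃ a, L.src a = y ∧ L.lft a ∧ nrm ((fl (L.lab a))⁻¹ * u) < nrm u then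
    C.c (u * v) h.choose * rho r v (L.tgt h.choose) ((fl (L.lab h.choose))⁻¹ * u) *
      (C.c (u * tupWord r.1 * v) h.choose)⁻¹
  else C.rho0 y r v
termination_by nrm u
decreasing_by exact h.choose_spec.2.2

theorem rho_one (r : R) (v : FreeGroup S) (y : V) : C.rho r v y 1 = C.rho0 y r v := by
  rw [rho, dif_neg]
  rintro ⟨a, _, _, h⟩
  simp at h

theorem rho_step (r : R) (v : FreeGroup S) (y : V) {u : FreeGroup S} (hu : nrm u ≠ 0) :
    ∃ a, L.src a = y ∧ L.lft a ∧ nrm ((fl (L.lab a))⁻¹ * u) < nrm u ∧ C.rho r v y u =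
      C.c (u * v) a * C.rho r v (L.tgt a) ((fl (L.lab a))⁻¹ * u) *
        (C.c (u * tupWord r.1 * v) a)⁻¹ := by
  have h : ∃ a, L.src a = y ∧ L.lft a ∧ nrm ((fl (L.lab a))⁻¹ * u) < nrm u := by
    obtain ⟨x, hx⟩ := exists_left hu
    obtain ⟨a, a1, a2, a3⟩ := L.ex_left y x
    exact ⟨a, a1, a2, by rw [a3]; omega⟩
  refine ⟨h.choose, h.choose_spec.1, h.choose_spec.2.1, h.choose_spec.2.2, ?_⟩
  conv_lhs => rw [rho, dif_pos h]

theorem rho_desc (h1 : C.Base1) (h2 : C.Base2) (r : R) (v : FreeGroup S) (n : ℕ) :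
    ∀ u, nrm u = n → ∀ a, L.lft a → nrm ((fl (L.lab a))⁻¹ * u) < nrm u →
    C.rho r v (L.src a) u = C.c (u * v) a * C.rho r v (L.tgt a) ((fl (L.lab a))⁻¹ * u) *
        (C.c (u * tupWord r.1 * v) a)⁻¹ := by
  induction n using Nat.strong_induction_on with
  | _ n ih =>
  intro u hu a a1 a2
  obtain ⟨p, p1, p2, p3, p4⟩ := rho_step (C := C) r v (L.src a) (u := u) (by omega)
  rw [p4]
  have hl : L.lab p = L.lab a := left_unique p3 a2
  have hn := nrm_left (L.lab a) u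
  by_cases h0 : nrm ((fl (L.lab a))⁻¹ * u) = 0
  · have e := eq_one_of_nrm h0
    rw [hl, e, rho_one, rho_one, ← inv_mul_eq_one.1 e]
    exact rho1_indep h1 h2 r _ _ v rfl p a p2 a1 p1 hl rfl
  · obtain ⟨x', hx'⟩ := exists_left h0
    have hc := L.conn_left (L.lab a) x' p a p2 a1 p1 hl rfl
    rw [hl]
    generalize L.lab a = x at *
    have half : ∀ a b c d, X.S a b c d → L.lft c → L.lab b = x' →
        C.rho r v (L.tgt a) ((fl x)⁻¹ * u) = C.c ((fl x)⁻¹ * (u * v)) b *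
          C.rho r v (L.tgt b) ((fl x')⁻¹ * ((fl x)⁻¹ * u)) *
          (C.c ((fl x)⁻¹ * (u * tupWord r.1 * v)) b)⁻¹ := by
      intro a b c d h k2 k4
      rw [← src_b h, ih _ (by omega) _ rfl b ((lft_bb h).2 k2) (by rw [k4]; omega), k4]
      simp only [mul_assoc]
    clear p4 p1 p2 p3 hl a1
    induction hc with
    | rel a c h =>
      obtain ⟨b, d, h, k1, k2, k3⟩ := h
      simp only [Prod.mk.injEq] at k3
      obtain ⟨k3, k4, k5, k6⟩ := k3
      have sq : ∀ f, C.c f a * C.c ((fl x)⁻¹ * f) b = C.c f c * C.c ((fl x)⁻¹ * f) d := by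
        intro f
        have := C.c_sq f a b c d h (by
          rw [L.pos_left ((lft_bb h).2 k2), L.pos_left k1, L.pos_left ((lft_d h).2 k1),
            L.pos_left k2, k3, k4, k5, k6])
        rwa [L.pos_left k1, L.pos_left k2, k3, k5] at this
      rw [half a b c d h k2 k4, half c d a b (X.symm h) k1 k6, tgt_d h,
        eq_mul_inv_of_mul_eq (sq (u * v)), eq_mul_inv_of_mul_eq (sq (u * tupWord r.1 * v))]
      group
    | refl a => rfl
    | symm a c _ ih => exact ih.symm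
    | trans a b c _ _ ih1 ih2 => exact ih1.trans ih2

theorem rho_left (h1 : C.Base1) (h2 : C.Base2) (r : R) (v u : FreeGroup S) {a : E}
    (ha : L.lft a) :
    C.rho r v (L.src a) u = C.c (u * v) a * C.rho r v (L.tgt a) ((fl (L.lab a))⁻¹ * u) *
        (C.c (u * tupWord r.1 * v) a)⁻¹ := by
  by_cases h : nrm ((fl (L.lab a))⁻¹ * u) < nrm u
  · exact rho_desc h1 h2 r v _ u rfl a ha h
  · have e : (fl (L.lab (X.inv a)))⁻¹ * ((fl (L.lab a))⁻¹ * u) = u := by
      rw [L.lab_inv, fl_bar]; group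
    have hn := nrm_left (L.lab a) u
    have := rho_desc h1 h2 r v _ ((fl (L.lab a))⁻¹ * u) rfl (X.inv a) ((L.lft_inv a).2 ha)
      (by rw [e]; omega)
    rw [e, L.src_inv, L.tgt_inv0] at this
    have i1 := C.c_inv (u * v) a
    have i2 := C.c_inv (u * tupWord r.1 * v) a
    rw [L.pos_left ha] at i1 i2
    simp only [← mul_assoc] at i1 i2
    rw [this, i1, i2]
    group

theorem rho_right (h1 : C.Base1) (h2 : C.Base2) (r : R) (v : FreeGroup S) (n : ℕ) :
    ∀ u, nrm u = n → ∀ e, ¬ L.lft e → C.rho r v (L.src e) u =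
      C.c (u * v) e * C.rho r (v * fl (L.lab e)) (L.tgt e) u *
        (C.c (u * tupWord r.1 * v) e)⁻¹ := by
  induction n with
  | zero =>
    intro u hu e he
    rw [eq_one_of_nrm hu, rho_one, rho_one, one_mul, one_mul]
    exact rho0_right h1 r he v
  | succ n ih =>
    intro u hu e he
    obtain ⟨x, hx⟩ := exists_left (f := u) (by omega)
    obtain ⟨a, a1, a2, a3, a4⟩ := L.ex_apex (L.src e) x
    obtain ⟨b, d, h⟩ := a4 e rfl he
    have := mixed_step (C := C) h a2 he (u * v) (u * tupWord r.1 * v)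
      (C.rho r (v * fl (L.lab e)) (L.tgt d) ((fl (L.lab a))⁻¹ * u))
    rw [L.pos_left a2, L.pos_left a2, L.pos_right he, L.pos_right he] at this
    rw [← a1, rho_left h1 h2 r v u a2, ← src_b h,
      ih _ (by rw [a3]; omega) b (fun hb => he ((lft_bb h).1 hb)), ← src_d h,
      rho_left h1 h2 r _ u ((lft_d h).2 a2), mixed_d h a2 he, mixed_b h a2 he, ← tgt_d h]
    simpa only [mul_assoc] using this

theorem rho_gauge (r : R) (v : FreeGroup S) (n : ℕ) : ∀ u, nrm u = n → ∀ y,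
    φ (C.rho r v y u) = C.τ y (u * v) * (C.τ y (u * tupWord r.1 * v))⁻¹ := by
  induction n with
  | zero =>
    intro u hu y
    obtain ⟨a, b, c, d, k1, k2, k3⟩ := C.rho0_spec y r
    rw [eq_one_of_nrm hu, rho_one, k3, C.sqv_gauge k1, k2, one_mul, one_mul]
  | succ n ih =>
    intro u hu y
    obtain ⟨p, p1, p2, p3, p4⟩ := rho_step (C := C) r v y (u := u) (by omega)
    have hn := nrm_left (L.lab p) u
    rw [p4, map_mul, map_mul, map_inv, C.gauge, C.gauge, ih _ (by omega), p1, L.pos_left p2,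
      L.pos_left p2]
    simp only [mul_assoc]
    group

end Coc

variable (L) in
/-- a connection together with transports along the relators -/
structure Coc2 (φ : Γ →* L.Xp.G) extends L.Coc φ where
  ρ : V → FreeGroup S → R → FreeGroup S → Γ
  ρ_left : ∀ a u r v, L.lft a → ρ (L.src a) u r v =
    c (u * v) a * ρ (L.tgt a) ((fl (L.lab a))⁻¹ * u) r v * (c (u * tupWord r.1 * v) a)⁻¹
  ρ_right : ∀ e u r v, ¬ L.lft e → ρ (L.src e) u r v =
    c (u * v) e * ρ (L.tgt e) u r (v * fl (L.lab e)) * (c (u * tupWord r.1 * v) e)⁻¹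
  ρ_sq : ∀ (r : R) v a b c' d, L.LSq r.1 a b c' d → ρ (L.src a) 1 r v =
    c v c' * c (L.pos v c') d * (c (tupWord r.1 * v) a * c (L.pos (tupWord r.1 * v) a) b)⁻¹
  ρ_gauge : ∀ y u r v, φ (ρ y u r v) = τ y (u * v) * (τ y (u * tupWord r.1 * v))⁻¹

noncomputable def Coc.toCoc2 (C : L.Coc φ) (h1 : C.Base1) (h2 : C.Base2) : L.Coc2 φ where
  toCoc := C
  ρ y u r v := C.rho r v y u
  ρ_left _ u r v ha := Coc.rho_left h1 h2 r v u ha
  ρ_right e u r v he := Coc.rho_right h1 h2 r v _ u rfl e he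
  ρ_sq r v _ _ _ _ h := by rw [Coc.rho_one, Coc.rho0_eq h1 r h]; rfl
  ρ_gauge y u r v := Coc.rho_gauge r v _ u rfl y

def Coc2.map (C : L.Coc2 φ) {Γ' : Type} [Group Γ'] (q : Γ →* Γ')
    (φ' : Γ' →* L.Xp.G) (h : ∀ g, φ' (q g) = φ g) : L.Coc2 φ' where
  toCoc := C.toCoc.map q φ' h
  ρ y u r v := q (C.ρ y u r v)
  ρ_left a u r v ha := by rw [C.ρ_left a u r v ha]; simp only [map_mul, map_inv]; rfl
  ρ_right a u r v ha := by rw [C.ρ_right a u r v ha]; simp only [map_mul, map_inv]; rfl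
  ρ_sq r v a b c d ha := by rw [C.ρ_sq r v a b c d ha]; simp only [map_mul, map_inv]; rfl
  ρ_gauge y u r v := by rw [h, C.ρ_gauge]; rfl

end Lab
end Pool.Agent.Lib.MP_28a49a_al
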