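import Pool.Agent.Lib.MP_28a49a_al.Defs

namespace Pool.Agent.Lib.MP_28a49a_al

namespace W

open FreeGroup

/-- cost calculus on the free group itself -/
structure CC {Λ Q : Type} [DecidableEq Λ] [Group Q] (g : FreeGroup Λ →* Q)
    (R : FreeGroup Λ → ℕ → Prop) (C : ℕ) : Prop where
  one : R 1 0
  mul : ∀ {a b m n}, R a m → R b n → R (a * b) (m + n)
  inv : ∀ {a m}, R a m → R a⁻¹ m
  mono : ∀ {a m n}, R a m → m ≤ n → R a n
  conj : ∀ (u) {a m}, R a m → R (u * a * u⁻¹) ((C + 1) ^ norm u * m)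
  fin : ∀ w, g w = 1 → ∃ n, R w n

lemma CC.of_calc {Λ Q Ω : Type} [DecidableEq Λ] [Group Q] [Group Ω] {g : FreeGroup Λ →* Q}
    {o : Λ → Ω} {Cost : Ω → ℕ → Prop} {C : ℕ} (h : CostCalc o Cost C)
    (hf : ∀ w, g w = 1 → ∃ n, Cost (lift o w) n) : CC g (fun w n => Cost (lift o w) n) C where
  one := by simpa using h.one
  mul ha hb := by simpa using h.mul ha hb
  inv ha := by simpa using h.inv ha
  mono := h.mono
  fin := hf
  conj u a m ha := by
    have key : ∀ L : List (Λ × Bool), Cost (lift o (FreeGroup.mk L * a * (FreeGroup.mk L)⁻¹))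
        ((C + 1) ^ L.length * m) := by
      intro L
      induction L with
      | nil => simpa [← one_eq_mk] using ha
      | cons x L ih =>
        have le : C * ((C + 1) ^ L.length * m) ≤ (C + 1) ^ (x :: L).length * m := by
          rw [List.length_cons, pow_succ', mul_assoc]
          exact Nat.mul_le_mul_right _ (Nat.le_succ C)
        obtain ⟨x, _ | _⟩ := x
        · refine h.mono ?_ le
          convert h.conj' x ih using 1
          simp [mul_assoc, invRev]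
        · refine h.mono ?_ le
          convert h.conj x ih using 1
          simp [mul_assoc, invRev]
    simpa only [mk_toWord, FreeGroup.norm] using key u.toWord

section
variable {Λ Q : Type} [DecidableEq Λ] [Group Q] {g : FreeGroup Λ →* Q}
  {R : FreeGroup Λ → ℕ → Prop} {C : ℕ}

lemma CC.bound (h : CC g R C) {ι : Type} [Finite ι] (w : ι → FreeGroup Λ)
    (hw : ∀ i, g (w i) = 1) : ∃ K, ∀ i, R (w i) K := by
  choose n hn using fun i => h.fin _ (hw i)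
  obtain ⟨K, hK⟩ := (Set.finite_range n).bddAbove
  exact ⟨K, fun i => h.mono (hn i) (hK ⟨i, rfl⟩)⟩

lemma CC.cbound (h : CC g R C) {ι : Type} [Finite ι] (w : ι → FreeGroup Λ) :
    ∃ c, ∀ i a m, R a m → R (w i * a * (w i)⁻¹) (c * m) := by
  obtain ⟨K, hK⟩ := (Set.finite_range fun i => (C + 1) ^ norm (w i)).bddAbove
  exact ⟨K, fun i a m ha => h.mono (h.conj _ ha) (Nat.mul_le_mul_right _ (hK ⟨i, rfl⟩))⟩

lemma CC.comm_list (h : CC g R C) {ι κ : Type} [Finite ι] [Finite κ] (p : ι → FreeGroup Λ)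
    (q : κ → FreeGroup Λ) (hc : ∀ x y, Commute (g (p x)) (g (q y))) :
    ∃ K, ∀ (x : ι) (w : List κ),
      R (p x * (w.map q).prod * (p x)⁻¹ * ((w.map q).prod)⁻¹) ((K + 1) ^ w.length) := by
  obtain ⟨K, hK⟩ := h.bound (fun z : ι × κ => p z.1 * q z.2 * (p z.1)⁻¹ * (q z.2)⁻¹)
    (fun z => by simp [(hc z.1 z.2).eq])
  obtain ⟨c, hc⟩ := h.cbound q
  refine ⟨K + c, fun x w => ?_⟩
  induction w with
  | nil => simpa using h.mono h.one zero_le_one
  | cons y w ih =>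
    have := h.mul (hK (x, y)) (hc y _ _ ih)
    refine h.mono (by simpa [mul_assoc] using this) ?_
    have h1 : 1 ≤ (K + c + 1) ^ w.length := Nat.one_le_pow _ _ (Nat.succ_pos _)
    rw [List.length_cons, pow_succ]
    nlinarith

lemma CC.split_list (h : CC g R C) {ι : Type} [Finite ι] (γ α β : ι → FreeGroup Λ)
    (h1 : ∀ x, g (γ x) = g (α x) * g (β x)) (h2 : ∀ x y, Commute (g (β x)) (g (α y))) :
    ∃ K, ∀ w : List ι,
      R ((w.map γ).prod * ((w.map α).prod * (w.map β).prod)⁻¹) ((K + 1) ^ w.length) := by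
  obtain ⟨K, hK⟩ := h.bound (fun x => γ x * (α x * β x)⁻¹) (fun x => by simp [h1])
  obtain ⟨K1, hK1⟩ := h.comm_list β α h2
  obtain ⟨c, hc⟩ := h.cbound γ
  obtain ⟨d, hd⟩ := h.cbound α
  refine ⟨K + K1 + c + d, fun w => ?_⟩
  induction w with
  | nil => simpa using h.mono h.one zero_le_one
  | cons y w ih =>
    have := h.mul (hc y _ _ ih) (h.mul (hK y) (hd y _ _ (hK1 y w)))
    refine h.mono (by simpa [mul_assoc] using this) ?_
    have h1 : 1 ≤ (K + K1 + c + d + 1) ^ w.length := Nat.one_le_pow _ _ (Nat.succ_pos _)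
    have h2 : (K1 + 1) ^ w.length ≤ (K + K1 + c + d + 1) ^ w.length :=
      Nat.pow_le_pow_left (by omega) _
    rw [List.length_cons, pow_succ]
    nlinarith [Nat.mul_le_mul_left d h2, Nat.zero_le (K1 * (K + K1 + c + d + 1) ^ w.length)]

/-- exponentially bounded cost -/
def EB (R : FreeGroup Λ → ℕ → Prop) (f : ℕ → FreeGroup Λ) : Prop :=
  ∃ K, ∀ k, R (f k) (K ^ (k + 1))

/-- linearly bounded length -/
def LL {ι : Type} [DecidableEq ι] (u : ℕ → FreeGroup ι) : Prop :=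
  ∃ A, ∀ k, norm (u k) ≤ A * (k + 1)

lemma LL.const {ι : Type} [DecidableEq ι] (u : FreeGroup ι) : LL fun _ => u :=
  ⟨norm u, fun _ => Nat.le_mul_of_pos_right _ (Nat.succ_pos _)⟩

lemma LL.pow {ι : Type} [DecidableEq ι] (x : ι) : LL fun k => of x ^ k :=
  ⟨1, fun k => by rw [norm_of_pow]; omega⟩

lemma LL.cj {ι : Type} [DecidableEq ι] {u v : ℕ → FreeGroup ι} (hu : LL u) (hv : LL v) :
    LL fun k => u k * v k * (u k)⁻¹ := by
  obtain ⟨A, hA⟩ := hu
  obtain ⟨B, hB⟩ := hv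
  refine ⟨A + B + A, fun k => (FreeGroup.norm_mul_le _ _).trans ?_⟩
  have := FreeGroup.norm_mul_le (u k) (v k)
  have := hA k
  have := hB k
  rw [norm_inv_eq, add_mul, add_mul]
  omega

lemma CC.eb_mul (h : CC g R C) {f f' : ℕ → FreeGroup Λ} (hf : EB R f) (hf' : EB R f') :
    EB R fun k => f k * f' k := by
  obtain ⟨K, hK⟩ := hf
  obtain ⟨K', hK'⟩ := hf'
  exact ⟨K + K', fun k => h.mono (h.mul (hK k) (hK' k))
    (pow_add_pow_le (Nat.zero_le _) (Nat.zero_le _) (Nat.succ_ne_zero k))⟩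

lemma CC.eb_inv (h : CC g R C) {f : ℕ → FreeGroup Λ} (hf : EB R f) : EB R fun k => (f k)⁻¹ :=
  hf.imp fun _ hK k => h.inv (hK k)

lemma CC.eb_conj (h : CC g R C) {f u : ℕ → FreeGroup Λ} (hu : LL u) (hf : EB R f) :
    EB R fun k => u k * f k * (u k)⁻¹ := by
  obtain ⟨A, hA⟩ := hu
  obtain ⟨K, hK⟩ := hf
  refine ⟨(C + 1) ^ A * K, fun k => h.mono (h.conj _ (hK k)) ?_⟩
  rw [mul_pow, ← pow_mul]
  exact Nat.mul_le_mul_right _ (Nat.pow_le_pow_right (Nat.succ_pos _) (hA k))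

lemma CC.eb_cj (h : CC g R C) {u u' v v' : ℕ → FreeGroup Λ} (l1 : LL u') (l2 : LL v')
    (hu : EB R fun k => u k * (u' k)⁻¹) (hv : EB R fun k => v k * (v' k)⁻¹) :
    EB R fun k => u k * v k * (u k)⁻¹ * (u' k * v' k * (u' k)⁻¹)⁻¹ := by
  have := h.eb_mul (h.eb_mul hu (h.eb_conj l1 hv)) (h.eb_conj (l1.cj l2) (h.eb_inv hu))
  simpa [mul_assoc] using this

lemma CC.eb_trans (h : CC g R C) {u v w : ℕ → FreeGroup Λ}
    (hu : EB R fun k => u k * (v k)⁻¹) (hv : EB R fun k => v k * (w k)⁻¹) :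
    EB R fun k => u k * (w k)⁻¹ := by
  simpa [mul_assoc] using h.eb_mul hu hv

lemma CC.eb_refl (h : CC g R C) (u : ℕ → FreeGroup Λ) : EB R fun k => u k * (u k)⁻¹ :=
  ⟨0, fun k => by simpa using h.one⟩

/-- value of a signed letter -/
def lv {ι : Type} (p : ι → FreeGroup Λ) (x : ι × Bool) : FreeGroup Λ :=
  cond x.2 (p x.1) (p x.1)⁻¹

omit [DecidableEq Λ] in
lemma lift_eq_lv {ι : Type} [DecidableEq ι] (p : ι → FreeGroup Λ) (w : FreeGroup ι) :
    lift p w = (w.toWord.map (lv p)).prod := by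
  conv_lhs => rw [← mk_toWord (x := w), lift_mk]
  rfl

omit [DecidableEq Λ] in
lemma comm_lv {ι κ : Type} {p : ι → FreeGroup Λ} {q : κ → FreeGroup Λ}
    (hc : ∀ x y, Commute (g (p x)) (g (q y))) (x y) : Commute (g (lv p x)) (g (lv q y)) := by
  obtain ⟨x, _ | _⟩ := x <;> obtain ⟨y, _ | _⟩ := y <;> simp [lv, hc]

lemma pow_le_of_LL {A K n k : ℕ} (h : n ≤ A * (k + 1)) :
    (K + 1) ^ n ≤ ((K + 1) ^ A) ^ (k + 1) := by
  rw [← pow_mul]
  exact Nat.pow_le_pow_right (Nat.succ_pos _) h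

lemma CC.eb_split (h : CC g R C) {ι : Type} [Finite ι] [DecidableEq ι] (γ α β : ι → FreeGroup Λ)
    (h1 : ∀ x, g (γ x) = g (α x) * g (β x)) (h2 : ∀ x y, Commute (g (β x)) (g (α y)))
    {w : ℕ → FreeGroup ι} (hw : LL w) (h3 : ∀ k, lift β (w k) = 1) :
    EB R fun k => lift γ (w k) * (lift α (w k))⁻¹ := by
  obtain ⟨K, hK⟩ := h.split_list (lv γ) (lv α) (lv β) (fun x => by
    obtain ⟨x, _ | _⟩ := x
    · simp [lv, h1, (h2 x x).inv_inv.eq]
    · simp [lv, h1]) (comm_lv h2)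
  obtain ⟨A, hA⟩ := hw
  refine ⟨(K + 1) ^ A, fun k => h.mono ?_ (pow_le_of_LL (hA k))⟩
  have := hK (w k).toWord
  rwa [← lift_eq_lv, ← lift_eq_lv, ← lift_eq_lv, h3, mul_one] at this

lemma CC.eb_comm (h : CC g R C) {ι : Type} [Finite ι] [DecidableEq ι] (α : ι → FreeGroup Λ)
    (x : FreeGroup Λ) (h2 : ∀ y, Commute (g x) (g (α y))) {w : ℕ → FreeGroup ι} (hw : LL w) :
    EB R fun k => lift α (w k) * x * (lift α (w k))⁻¹ * x⁻¹ := by
  obtain ⟨K, hK⟩ := h.comm_list (lv fun _ : Unit => x) (lv α) (comm_lv fun _ => h2)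
  obtain ⟨A, hA⟩ := hw
  refine ⟨(K + 1) ^ A, fun k => h.mono ?_ (pow_le_of_LL (hA k))⟩
  have := h.inv (hK ((), true) (w k).toWord)
  rw [← lift_eq_lv] at this
  simpa [lv, mul_assoc, FreeGroup.norm] using this

lemma CC.eb_comm_mul (h : CC g R C) {l : ℕ → FreeGroup Λ} {x y : FreeGroup Λ}
    (hx : EB R fun k => l k * x * (l k)⁻¹ * x⁻¹) (hy : EB R fun k => l k * y * (l k)⁻¹ * y⁻¹) :
    EB R fun k => l k * (x * y) * (l k)⁻¹ * (x * y)⁻¹ := by
  simpa [mul_assoc] using h.eb_mul hx (h.eb_conj (LL.const x) hy)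

lemma CC.eb_comm_inv (h : CC g R C) {l : ℕ → FreeGroup Λ} {x : FreeGroup Λ}
    (hx : EB R fun k => l k * x * (l k)⁻¹ * x⁻¹) :
    EB R fun k => l k * x⁻¹ * (l k)⁻¹ * x⁻¹⁻¹ := by
  simpa [mul_assoc] using h.eb_conj (LL.const x⁻¹) (h.eb_inv hx)

lemma CC.eb_comm_congr (h : CC g R C) {l l' : ℕ → FreeGroup Λ} {x : FreeGroup Λ}
    (hl : EB R fun k => l k * (l' k)⁻¹) (hx : EB R fun k => l' k * x * (l' k)⁻¹ * x⁻¹) :
    EB R fun k => l k * x * (l k)⁻¹ * x⁻¹ := by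
  simpa [mul_assoc] using h.eb_mul (h.eb_mul hl hx) (h.eb_conj (LL.const x) (h.eb_inv hl))

end

end W

end Pool.Agent.Lib.MP_28a49a_al
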