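import Pool.Agent.Lib.MP_28a49a_al.TowerCost

namespace Pool.Agent.Lib.MP_28a49a_al

namespace W

open FreeGroup

/-- the letters -/
inductive Lt : Type
  | Y | U | T | A | S | B | X1 | z | X2 | R | V | r | P | m | p | q | t1 | t2
  deriving DecidableEq

open Lt

instance : Finite Lt :=
  Finite.of_surjective ![Y, U, T, A, S, B, X1, z, X2, R, V, r, P, m, p, q, t1, t2] fun x => by
    cases x <;> decide

/-- the relations among the letters -/
structure Rel {Q : Type} [Group Q] (e : Lt → Q) : Prop where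
  hY : e Y = e X1 * e z
  hX1 : e X1 = e X2 * e R
  hX2 : e X2 = e P * e m
  hU : e U = e V * e r
  hV : e V = e p * e q
  hT : e T = e t1 * e t2
  c1 : ∀ y ∈ [X1, U], Commute (e z) (e y)
  c2 : ∀ x ∈ [R, r], ∀ y ∈ [X2, V, T], Commute (e x) (e y)
  c3 : ∀ x ∈ [m, q, t2], ∀ y ∈ [P, p, t1, A], Commute (e x) (e y)
  c4 : ∀ y ∈ [P, p, t1, A], Commute (e B) (e y)
  c5 : ∀ y ∈ [Y, U, T, A], Commute (e S) (e y)

lemma Rel.pow {Q : Type} [Group Q] {e : Lt → Q} (h : Rel e) (N : ℕ) : Rel fun l => e l ^ N where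
  hY := by rw [h.hY, (h.c1 X1 (by simp)).symm.mul_pow]
  hX1 := by rw [h.hX1, (h.c2 R (by simp) X2 (by simp)).symm.mul_pow]
  hX2 := by rw [h.hX2, (h.c3 m (by simp) P (by simp)).symm.mul_pow]
  hU := by rw [h.hU, (h.c2 r (by simp) V (by simp)).symm.mul_pow]
  hV := by rw [h.hV, (h.c3 q (by simp) p (by simp)).symm.mul_pow]
  hT := by rw [h.hT, (h.c3 t2 (by simp) t1 (by simp)).symm.mul_pow]
  c1 y hy := (h.c1 y hy).pow_pow N N
  c2 x hx y hy := (h.c2 x hx y hy).pow_pow N N
  c3 x hx y hy := (h.c3 x hx y hy).pow_pow N N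
  c4 y hy := (h.c4 y hy).pow_pow N N
  c5 y hy := (h.c5 y hy).pow_pow N N

section
variable {G : Type} [Group G]

/-- first level word -/
def wU (y u : G) (k : ℕ) : G := y ^ k * u * (y ^ k)⁻¹

/-- second level word -/
def wT (y u t : G) (k : ℕ) : G := wU y u k * t * (wU y u k)⁻¹

/-- third level word -/
def wL (y u t a : G) (k : ℕ) : G := wT y u t k * a * (wT y u t k)⁻¹

variable {H : Type} [Group H] (f : G →* H)

lemma map_wU (y u : G) (k : ℕ) : f (wU y u k) = wU (f y) (f u) k := by simp [wU]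

lemma map_wT (y u t : G) (k : ℕ) : f (wT y u t k) = wT (f y) (f u) (f t) k := by
  simp [wT, map_wU]

lemma map_wL (y u t a : G) (k : ℕ) : f (wL y u t a k) = wL (f y) (f u) (f t) (f a) k := by
  simp [wL, map_wT]

end

lemma LL.wU {ι : Type} [DecidableEq ι] (y : ι) (u : FreeGroup ι) : LL (wU (of y) u) :=
  (LL.pow y).cj (LL.const u)

lemma LL.wT {ι : Type} [DecidableEq ι] (y : ι) (u t : FreeGroup ι) : LL (wT (of y) u t) :=
  (LL.wU y u).cj (LL.const t)

lemma LL.wL {ι : Type} [DecidableEq ι] (y : ι) (u t a : FreeGroup ι) : LL (wL (of y) u t a) :=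
  (LL.wT y u t).cj (LL.const a)

theorem cheap {Q : Type} [Group Q] {e : Lt → Q} (he : Rel e) {Rc : FreeGroup Lt → ℕ → Prop}
    {C : ℕ} (h : CC (lift e) Rc C) : ∃ K : ℕ, ∀ k : ℕ, ∃ l : List (Lt × Bool),
      l.length ≤ K * (k + 1) ∧
      Rc (FreeGroup.mk l * (of S * of B * (of S)⁻¹ * (of B)⁻¹) * (FreeGroup.mk l)⁻¹ *
        (of S * of B * (of S)⁻¹ * (of B)⁻¹)⁻¹) (K ^ (k + 1)) ∧
      FreeGroup.mk l = wL (of Y) (of U) (of T) (of A) k := by
  have c1 := he.c1
  have c2 := he.c2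
  have c3 := he.c3
  have c4 := he.c4
  have c5 := he.c5
  simp only [List.mem_cons, List.not_mem_nil, or_false, forall_eq_or_imp, forall_eq]
    at c1 c2 c3 c4 c5
  have s1 : EB Rc fun k => wU (of Y) (of U) k * (wU (of X1) (of U) k)⁻¹ := by
    have := h.eb_split (ι := Fin 2) ![of Y, of U] ![of X1, of U] ![of z, 1]
      (fun x => by fin_cases x <;> simp [he.hY])
      (fun x y => by fin_cases x <;> fin_cases y <;> simp [c1])
      (LL.wU 0 (of 1)) (fun k => by simp [wU])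
    simpa [map_wU] using this
  have s2 : EB Rc fun k => wT (of X1) (of U) (of T) k * (wT (of X2) (of V) (of T) k)⁻¹ := by
    have := h.eb_split (ι := Fin 3) ![of X1, of U, of T] ![of X2, of V, of T] ![of R, of r, 1]
      (fun x => by fin_cases x <;> simp [he.hX1, he.hU])
      (fun x y => by fin_cases x <;> fin_cases y <;> simp [c2])
      (LL.wT 0 (of 1) (of 2)) (fun k => by rw [map_wT]; simp [wT])
    simpa [map_wT] using this
  have s3 : EB Rc fun k => wL (of X2) (of V) (of T) (of A) k *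
      (wL (of P) (of p) (of t1) (of A) k)⁻¹ := by
    have := h.eb_split (ι := Fin 4) ![of X2, of V, of T, of A] ![of P, of p, of t1, of A]
      ![of m, of q, of t2, 1]
      (fun x => by fin_cases x <;> simp [he.hX2, he.hV, he.hT])
      (fun x y => by fin_cases x <;> fin_cases y <;> simp [c3])
      (LL.wL 0 (of 1) (of 2) (of 3)) (fun k => by rw [map_wL]; simp [wL])
    simpa [map_wL] using this
  have t1' : EB Rc fun k => wT (of Y) (of U) (of T) k * (wT (of X2) (of V) (of T) k)⁻¹ :=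
    h.eb_trans (h.eb_cj (LL.wU _ _) (LL.const _) s1 (h.eb_refl fun _ => of T)) s2
  have t2' : EB Rc fun k => wL (of Y) (of U) (of T) (of A) k *
      (wL (of P) (of p) (of t1) (of A) k)⁻¹ :=
    h.eb_trans (h.eb_cj (LL.wT _ _ _) (LL.const _) t1' (h.eb_refl fun _ => of A)) s3
  have kS : EB Rc fun k => wL (of Y) (of U) (of T) (of A) k * of S *
      (wL (of Y) (of U) (of T) (of A) k)⁻¹ * (of S)⁻¹ := by
    have := h.eb_comm (ι := Fin 4) ![of Y, of U, of T, of A] (of S)
      (fun y => by fin_cases y <;> simp [c5]) (LL.wL 0 (of 1) (of 2) (of 3))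
    simpa [map_wL] using this
  have kB : EB Rc fun k => wL (of Y) (of U) (of T) (of A) k * of B *
      (wL (of Y) (of U) (of T) (of A) k)⁻¹ * (of B)⁻¹ := by
    refine h.eb_comm_congr t2' ?_
    have := h.eb_comm (ι := Fin 4) ![of P, of p, of t1, of A] (of B)
      (fun y => by fin_cases y <;> simp [c4]) (LL.wL 0 (of 1) (of 2) (of 3))
    simpa [map_wL] using this
  obtain ⟨K, hK⟩ := h.eb_comm_mul (h.eb_comm_mul (h.eb_comm_mul kS kB) (h.eb_comm_inv kS))
    (h.eb_comm_inv kB)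
  obtain ⟨D, hD⟩ := LL.wL Y (of U) (of T) (of A)
  refine ⟨K + D, fun k => ⟨(wL (of Y) (of U) (of T) (of A) k).toWord,
    (hD k).trans (Nat.mul_le_mul_right _ (Nat.le_add_left _ _)), ?_, mk_toWord⟩⟩
  rw [mk_toWord]
  exact h.mono (hK k) (Nat.pow_le_pow_left (Nat.le_add_right _ _) _)

end W

end Pool.Agent.Lib.MP_28a49a_al
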