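import Pool.Agent.Lib.MP_28a49a_al.TowerGrp
import Pool.Agent.Lib.MP_28a49a_al.TowerTest

namespace Pool.Agent.Lib.MP_28a49a_al

namespace W

open SemidirectProduct Multiplicative

/-- permutation module -/
def Pm (α : Type) : Type := FreeAbelianGroup α

instance (α : Type) : AddCommGroup (Pm α) := inferInstanceAs (AddCommGroup (FreeAbelianGroup α))

namespace Pm
variable {α β : Type} [AddCommGroup β]

/-- basis element -/
def of (a : α) : Pm α := FreeAbelianGroup.of a

/-- universal property -/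
def lift (f : α → β) : Pm α →+ β := FreeAbelianGroup.lift f

@[simp] lemma lift_of (f : α → β) (a : α) : lift f (of a) = f a :=
  FreeAbelianGroup.lift_apply_of f a

lemma hom_ext {f g : Pm α →+ β} (h : ∀ a, f (of a) = g (of a)) (x : Pm α) : f x = g x :=
  DFunLike.congr_fun (FreeAbelianGroup.lift_ext f g h) x

instance {G : Type} [Group G] [MulAction G α] : DistribMulAction G (Pm α) where
  smul g := lift fun a => of (g • a)
  one_smul := hom_ext (f := lift fun a => of ((1 : G) • a)) (g := AddMonoidHom.id _) (by simp)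
  mul_smul g h := hom_ext (f := lift fun a => of ((g * h) • a))
    (g := (lift fun a => of (g • a)).comp (lift fun a => of (h • a))) (by simp [mul_smul])
  smul_zero g := map_zero (lift fun a => of (g • a))
  smul_add g := map_add (lift fun a => of (g • a))

@[simp] lemma smul_of {G : Type} [Group G] [MulAction G α] (g : G) (a : α) :
    g • of a = of (g • a) := lift_of _ a

end Pm

/-- the action as automorphisms of the multiplicative version -/
def act (G X : Type) [Group G] [AddCommGroup X] [DistribMulAction G X] :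
    G →* MulAut (Multiplicative X) where
  toFun u := AddEquiv.toMultiplicative (DistribMulAction.toAddEquiv X u)
  map_one' := by ext x; simp
  map_mul' u v := by ext x; simp [mul_smul]

@[simp] lemma act_apply {G X : Type} [Group G] [AddCommGroup X] [DistribMulAction G X] (g : G)
    (x : Multiplicative X) : toAdd (act G X g x) = g • toAdd x := rfl

lemma Rel.map {Q H : Type} [Group Q] [Group H] {e : Lt → Q} (h : Rel e) (f : Q →* H) :
    Rel fun l => f (e l) where
  hY := by rw [h.hY, map_mul]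
  hX1 := by rw [h.hX1, map_mul]
  hX2 := by rw [h.hX2, map_mul]
  hU := by rw [h.hU, map_mul]
  hV := by rw [h.hV, map_mul]
  hT := by rw [h.hT, map_mul]
  c1 y hy := (h.c1 y hy).map f
  c2 x hx y hy := (h.c2 x hx y hy).map f
  c3 x hx y hy := (h.c3 x hx y hy).map f
  c4 y hy := (h.c4 y hy).map f
  c5 y hy := (h.c5 y hy).map f

lemma Rel.update {Q : Type} [Group Q] {e : Lt → Q} (h : Rel e) (s : Q)
    (hs : ∀ y ∈ [Lt.Y, Lt.U, Lt.T, Lt.A], Commute s (e y)) : Rel (Function.update e Lt.S s) where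
  hY := by simpa using h.hY
  hX1 := by simpa using h.hX1
  hX2 := by simpa using h.hX2
  hU := by simpa using h.hU
  hV := by simpa using h.hV
  hT := by simpa using h.hT
  c1 := by simpa using h.c1
  c2 := by simpa using h.c2
  c3 := by simpa using h.c3
  c4 := by simpa using h.c4
  c5 := by simpa using hs

section data
variable {A G B : Type} [Group A] [Group G] [Group B] {j : A →* G}
  (Φ : Ind j (1 : A →* MulAut Zm) →* B)

/-- the group -/
abbrev QQ : Type := Ind Φ (1 : Ind j (1 : A →* MulAut Zm) →* MulAut Zm)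

/-- the centralizer of `s` -/
def eta : Ind j (1 : A →* MulAut Zm) →* QQ Φ := inG.comp Φ

/-- the vertex group -/
def gam : G →* QQ Φ := (eta Φ).comp inG

/-- the letter `b` -/
def bb : QQ Φ := eta Φ (inS (ofAdd 1))

/-- the letter `s` -/
def ss : QQ Φ := inS (ofAdd 1)

/-- vertex module -/
abbrev XX : Type := Pm (QQ Φ ⧸ (gam Φ).range)

/-- vertices -/
def vx (g : QQ Φ) : XX Φ := Pm.of (QuotientGroup.mk g)

lemma smul_vx (q g : QQ Φ) : q • vx Φ g = vx Φ (q * g) := Pm.smul_of _ _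

/-- boundary map -/
def del : Pm (QQ Φ) →+ XX Φ := Pm.lift fun g => vx Φ (g * bb Φ) - vx Φ g

lemma del_of (g : QQ Φ) : del Φ (Pm.of g) = vx Φ (g * bb Φ) - vx Φ g := Pm.lift_of _ _

lemma del_smul (q : QQ Φ) (m : Pm (QQ Φ)) : del Φ (q • m) = q • del Φ m :=
  Pm.hom_ext (f := (del Φ).comp (DistribSMul.toAddMonoidHom _ q))
    (g := (DistribSMul.toAddMonoidHom _ q).comp (del Φ))
    (fun a => by simp [del_of, smul_sub, mul_assoc, smul_vx]) m

/-- base vertex -/
def e0 : XX Φ := vx Φ 1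

lemma smul_e0 (q : QQ Φ) : q • e0 Φ = vx Φ q := by rw [e0, smul_vx, mul_one]

lemma gam_e0 (g : G) : gam Φ g • e0 Φ = e0 Φ := by
  rw [smul_e0, e0, vx, vx, QuotientGroup.eq.2]
  simp

lemma comm_ss (h : Ind j (1 : A →* MulAut Zm)) : Commute (eta Φ h) (ss Φ) := comm_inS Φ h _

lemma comm_bb (a : A) : Commute (gam Φ (j a)) (bb Φ) := (comm_inS j a _).map (eta Φ)

lemma zm_eq {K : Type} [Group K] (f : Zm →* K) (n : Zm) : f n = f (ofAdd 1) ^ toAdd n := by
  rw [← map_zpow]
  congr 1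
  apply toAdd.injective
  simp

lemma eta_e0 (h : Ind j (1 : A →* MulAut Zm)) : eta Φ h • e0 Φ - e0 Φ ∈ (del Φ).range := by
  let N : Subgroup (QQ Φ) :=
    { carrier := {q | q • e0 Φ - e0 Φ ∈ (del Φ).range}
      one_mem' := ⟨0, by simp⟩
      mul_mem' := by
        rintro a b ⟨x, hx⟩ ⟨y, hy⟩
        exact ⟨x + a • y, by rw [map_add, del_smul, hx, hy, smul_sub, mul_smul]; abel⟩
      inv_mem' := by
        rintro a ⟨x, hx⟩
        exact ⟨-(a⁻¹ • x), by rw [map_neg, del_smul, hx, smul_sub, inv_smul_smul]; abel⟩ }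
  change eta Φ h ∈ N
  induction h using induction with
  | h1 g => exact ⟨0, by rw [map_zero]; exact (sub_eq_zero.2 (gam_e0 Φ g)).symm⟩
  | h2 n =>
    rw [show eta Φ (inS n) = bb Φ ^ toAdd n from zm_eq ((eta Φ).comp inS) n]
    exact N.zpow_mem ⟨Pm.of 1, by rw [del_of, one_mul, smul_e0]; rfl⟩ _
  | h3 a b ha hb => rw [map_mul]; exact N.mul_mem ha hb

/-- the big semidirect product -/
abbrev PP : Type := Multiplicative (XX Φ) ⋊[act (QQ Φ) (XX Φ)] QQ Φ

/-- the boundaries -/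
def Nb : Subgroup (PP Φ) where
  carrier := {x | x.right = 1 ∧ toAdd x.left ∈ (del Φ).range}
  one_mem' := ⟨rfl, (del Φ).range.zero_mem⟩
  mul_mem' := by
    rintro a b ⟨a1, a2⟩ ⟨b1, b2⟩
    exact ⟨by simp [a1, b1], by simpa [a1] using add_mem a2 b2⟩
  inv_mem' := by
    rintro a ⟨a1, a2⟩
    exact ⟨by simp [a1], by simpa [a1] using neg_mem a2⟩

lemma conj_inl (g : PP Φ) (x : XX Φ) : g * inl (ofAdd x) * g⁻¹ = inl (ofAdd (g.right • x)) := by
  rw [mul_inv_eq_iff_eq_mul]
  ext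
  · simp [add_comm]
  · simp

instance : (Nb Φ).Normal where
  conj_mem := by
    rintro n ⟨h1, y, hy⟩ g
    have : n = inl (ofAdd (del Φ y)) := SemidirectProduct.ext (by rw [hy]; rfl) h1
    rw [this, conj_inl]
    exact ⟨rfl, g.right • y, del_smul Φ _ _⟩

lemma mul_nf (x y : XX Φ) (g h : QQ Φ) : (inl (ofAdd x) * inr g : PP Φ) * (inl (ofAdd y) * inr h) =
    inl (ofAdd (x + g • y)) * inr (g * h) := by
  ext <;> simp

lemma inr_nf (g : QQ Φ) : (inr g : PP Φ) = inl (ofAdd 0) * inr g := by simp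

/-- the lift of `s` -/
def sh : PP Φ := inl (ofAdd (e0 Φ)) * inr (ss Φ)

lemma conj_sh (h : Ind j (1 : A →* MulAut Zm)) : inr (eta Φ h) * sh Φ * (inr (eta Φ h))⁻¹ =
    inl (ofAdd (eta Φ h • e0 Φ - e0 Φ)) * sh Φ := by
  rw [mul_inv_eq_iff_eq_mul, sh, ← mul_assoc (inl _), ← map_mul, ← ofAdd_add, sub_add_cancel,
    inr_nf, mul_nf, mul_nf, (comm_ss Φ h).eq, zero_add, smul_zero, add_zero]

/-- the section modulo boundaries -/
def tau : QQ Φ →* PP Φ ⧸ Nb Φ :=
  lift ((QuotientGroup.mk' _).comp (inr.comp inG)) (zpowersHom _ (QuotientGroup.mk' _ (sh Φ)))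
    fun h n => by
      have h1 := congrArg (QuotientGroup.mk' (Nb Φ)) (conj_sh Φ h)
      rw [map_mul, map_mul, map_mul, map_inv, mul_inv_eq_iff_eq_mul,
        show QuotientGroup.mk' (Nb Φ) (inl (ofAdd (eta Φ h • e0 Φ - e0 Φ))) = 1 from
          (QuotientGroup.eq_one_iff _).2 ⟨rfl, eta_e0 Φ h⟩, one_mul] at h1
      exact mul_inv_eq_iff_eq_mul.2 (Commute.zpow_right h1 _).eq

/-- projection -/
def rho : PP Φ ⧸ Nb Φ →* QQ Φ := QuotientGroup.lift _ rightHom fun _ h => h.1

lemma rho_tau (q : QQ Φ) : rho Φ (tau Φ q) = q :=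
  hom_ext (f := (rho Φ).comp (tau Φ)) (g := MonoidHom.id _) (fun _ => rfl) (fun n => by
    rw [zm_eq (inS : Zm →* QQ Φ) n, map_zpow, map_zpow]
    refine congrArg (· ^ toAdd n) ?_
    change rho Φ (QuotientGroup.mk' _ (sh Φ) ^ (1 : ℤ)) = ss Φ
    rw [zpow_one]
    change (sh Φ).right = _
    simp [sh]) q

/-- the extension -/
def QS : Subgroup (PP Φ) := (tau Φ).range.comap (QuotientGroup.mk' _)

/-- the kernel of the extension -/
def MB : Type := (del Φ).range

instance : AddCommGroup (MB Φ) := inferInstanceAs (AddCommGroup (del Φ).range)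

instance : DistribMulAction (QQ Φ) (MB Φ) where
  smul q m := ⟨q • m.1, by
    obtain ⟨_, y, rfl⟩ := m
    exact ⟨q • y, del_smul Φ q y⟩⟩
  one_smul m := Subtype.ext (one_smul _ m.1)
  mul_smul a b m := Subtype.ext (mul_smul a b m.1)
  smul_zero q := Subtype.ext (smul_zero q)
  smul_add q a b := Subtype.ext (smul_add q a.1 b.1)

lemma sh_mem : sh Φ ∈ QS Φ := ⟨inS (ofAdd 1), zpow_one (QuotientGroup.mk' (Nb Φ) (sh Φ))⟩

/-- the big factor lifts -/
def inB : B →* QS Φ := (inr.comp inG).codRestrict _ fun x => ⟨inG x, rfl⟩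

/-- inclusion of the kernel -/
def jb : Multiplicative (MB Φ) →* QS Φ where
  toFun m := ⟨inl (ofAdd (toAdd m).1), 1, by
    rw [map_one, eq_comm]
    exact (QuotientGroup.eq_one_iff _).2 ⟨rfl, (toAdd m).2⟩⟩
  map_one' := Subtype.ext (map_one inl)
  map_mul' a b := Subtype.ext (map_mul inl (ofAdd (toAdd a).1) (ofAdd (toAdd b).1))

lemma sh_pow (N : ℕ) : sh Φ ^ N =
    inl (ofAdd (∑ i ∈ Finset.range N, ss Φ ^ i • e0 Φ)) * inr (ss Φ ^ N) := by
  induction N with
  | zero => simp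
  | succ N ih =>
    rw [pow_succ, ih, sh, mul_nf, Finset.sum_range_succ, pow_succ]

/-- the torus -/
def dl (N : ℕ) : Pm (QQ Φ) :=
  -∑ i ∈ Finset.range N, ∑ k ∈ Finset.range N, Pm.of (ss Φ ^ i * bb Φ ^ k)

lemma comm_sh (N : ℕ) : sh Φ ^ N * inr (bb Φ) ^ N * (sh Φ ^ N)⁻¹ * (inr (bb Φ) ^ N)⁻¹ =
    inl (ofAdd (del Φ (dl Φ N))) := by
  have hc : Commute (ss Φ) (bb Φ) := (comm_ss Φ _).symm
  have h1 : del Φ (dl Φ N) = ∑ i ∈ Finset.range N, ss Φ ^ i • e0 Φ -
      bb Φ ^ N • ∑ i ∈ Finset.range N, ss Φ ^ i • e0 Φ := by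
    rw [dl, map_neg, map_sum, Finset.smul_sum, ← Finset.sum_sub_distrib,
      ← Finset.sum_neg_distrib]
    refine Finset.sum_congr rfl fun i _ => ?_
    rw [map_sum, neg_eq_iff_eq_neg, neg_sub, ← mul_smul, smul_e0, smul_e0,
      ← (hc.pow_pow i N).eq]
    simp only [del_of, mul_assoc, ← pow_succ]
    simpa using Finset.sum_range_sub (fun k => vx Φ (ss Φ ^ i * bb Φ ^ k)) N
  rw [mul_inv_eq_iff_eq_mul, mul_inv_eq_iff_eq_mul, sh_pow, ← map_pow, h1, mul_nf,
    sub_add_cancel, mul_assoc, ← map_mul, (hc.pow_pow N N).eq]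

lemma lam_inv (hΦ : Function.Injective Φ) (c : QQ Φ → Zm)
    (hc : ∀ x a, c (x * gam Φ (j a)) = c x) (m : Pm (QQ Φ)) (hm : del Φ m = 0) :
    Pm.lift (fun x => toAdd (c x)) m = 0 := by
  obtain ⟨co, hco⟩ := exists_co (eta Φ) (inG_injective.comp hΦ)
  let Ψ : Ind j (1 : A →* MulAut Zm) →* Wr (QQ Φ) Zm :=
    lift (inr.comp (gam Φ)) (zpowersHom _ (inl c * inr (bb Φ))) fun a n => by
      refine mul_inv_eq_iff_eq_mul.2 (Commute.zpow_right ?_ _).eq
      change _ * _ = _ * _
      ext x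
      · simp [hc]
      · simp [(comm_bb Φ a).eq]
  have hr : ∀ h, (Ψ h).right = eta Φ h :=
    hom_ext (f := rightHom.comp Ψ) (fun _ => rfl) fun n => by
      rw [show eta Φ (inS n) = bb Φ ^ toAdd n from zm_eq ((eta Φ).comp inS) n]
      change rightHom ((inl c * inr (bb Φ) : Wr (QQ Φ) Zm) ^ toAdd n) = _
      rw [map_zpow]
      simp
  let F : QQ Φ → Zm := fun x => (Ψ (co x)).left (x * (eta Φ (co x))⁻¹)
  have hF : ∀ x h, F (x * eta Φ h) = F x * (Ψ h).left x := fun x h => by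
    simp [F, hco, hr, mul_assoc]
  have h1 : ∀ x : QQ Φ, F (x : QQ Φ ⧸ (gam Φ).range).out = F x := fun x => by
    obtain ⟨⟨_, g, rfl⟩, e⟩ := QuotientGroup.mk_out_eq_mul (gam Φ).range x
    rw [e]
    exact (hF x (inG g)).trans (mul_one _)
  have h2 : ∀ x, F (x * bb Φ) = F x * c x := fun x => by
    rw [bb, hF]
    simp [Ψ]
  rw [← Pm.hom_ext (f := (Pm.lift fun y => toAdd (F y.out)).comp (del Φ)) (fun x => by
    simp [del_of, vx, h1, h2]) m, AddMonoidHom.comp_apply, hm, map_zero]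

theorem qdata (hj : Function.Injective j) (hΦ : Function.Injective Φ) (lam0 : A →* Zm)
    (e : Lt → B) (he : Rel e) (y u t : G) (a : A) (hY : e Lt.Y = Φ (inG y))
    (hU : e Lt.U = Φ (inG u)) (hT : e Lt.T = Φ (inG t)) (hA : e Lt.A = Φ (inG (j a)))
    (hB : e Lt.B = Φ (inS (ofAdd 1)))
    (hg : ∀ N, 0 < N → ∀ k, ∃ a', wL (y ^ N) (u ^ N) (t ^ N) (j a ^ N) k = j a' ∧
      (2 : ℤ) ^ 2 ^ 2 ^ k ≤ toAdd (lam0 a')) :
    Nonempty (QData (QQ Φ) (QS Φ) (Pm (QQ Φ)) (MB Φ)) := by
  obtain ⟨co, hco⟩ := exists_co ((gam Φ).comp j)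
    (((inG_injective.comp hΦ).comp inG_injective).comp hj)
  let lam : Pm (QQ Φ) →+ ℤ := Pm.lift fun x => toAdd (lam0 (co x))
  have hlam : ∀ x a, lam0 (co (x * gam Φ (j a))) = lam0 (co x) * lam0 a := fun x a => by
    rw [← map_mul, ← hco]; rfl
  refine ⟨{ π := rightHom.comp (QS Φ).subtype
            π_surj := fun q => ?_
            jb := jb Φ
            jb_inj := fun a b h => toAdd.injective (Subtype.ext
              (ofAdd.injective (inl_injective (congrArg Subtype.val h))))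
            jb_range := ?_
            jb_conj := fun g m => Subtype.ext (conj_inl Φ g.1 m.1)
            ϖ := (del Φ).rangeRestrict
            ϖ_surj := (del Φ).rangeRestrict_surjective
            ϖ_smul := fun q m => Subtype.ext (del_smul Φ q m)
            lam := lam
            bdd := fun m hm => ⟨(lam m).natAbs, fun q => ?_⟩
            test := fun N hN => ?_ }⟩
  · obtain ⟨x, hx⟩ := QuotientGroup.mk'_surjective (Nb Φ) (tau Φ q)
    exact ⟨⟨x, q, hx.symm⟩, (congrArg (rho Φ) hx).trans (rho_tau Φ q)⟩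
  · refine le_antisymm ?_ ?_
    · rintro _ ⟨m, rfl⟩
      rfl
    · rintro ⟨x, q, hq⟩ hx
      have h1 : q = 1 := by rw [← rho_tau Φ q, hq]; exact hx
      rw [h1, map_one, eq_comm] at hq
      obtain ⟨h2, h3⟩ := (QuotientGroup.eq_one_iff _).1 hq
      exact ⟨ofAdd ⟨_, h3⟩, Subtype.ext (SemidirectProduct.ext rfl h2.symm)⟩
  · have h1 := lam_inv Φ hΦ (fun x => lam0 (co (q * x)) * (lam0 (co x))⁻¹)
      (fun x a => by simp only [← mul_assoc, hlam]; apply toAdd.injective; simp) m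
      (congrArg Subtype.val hm)
    rw [Pm.hom_ext (g := lam.comp (DistribSMul.toAddMonoidHom _ q) - lam)
      (fun x => by simp [lam, sub_eq_add_neg]) m] at h1
    have h2 : lam (q • m) = lam m := sub_eq_zero.1 h1
    rw [h2, Int.natCast_natAbs]
  · let e' : Lt → QS Φ := Function.update (fun l => inB Φ (e l)) Lt.S ⟨sh Φ, sh_mem Φ⟩
    have hc : ∀ g, Commute (⟨sh Φ, sh_mem Φ⟩ : QS Φ) (inB Φ (Φ (inG g))) := fun g => by
      have := conj_sh Φ (inG g)
      rw [show eta Φ (inG g) • e0 Φ = e0 Φ from gam_e0 Φ g, sub_self, ofAdd_zero, map_one,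
        one_mul, mul_inv_eq_iff_eq_mul] at this
      exact Subtype.ext this.symm
    have he' : Rel e' := (he.map (inB Φ)).update _ (by simp [hY, hU, hT, hA, hc])
    refine ⟨Lt, inferInstance, fun l => e' l ^ N, dl Φ N,
      .of .S * .of .B * (.of .S)⁻¹ * (.of .B)⁻¹, fun l => ⟨_, rfl⟩, ?_,
      fun Ω _ o Cost C h hf => ?_⟩
    · simp only [map_mul, map_inv, FreeGroup.lift_apply_of]
      refine Subtype.ext (Eq.trans ?_ (comm_sh Φ N))
      simp [e', hB]
      rfl
    · obtain ⟨K, hK⟩ := cheap (he'.pow N) (CC.of_calc h hf)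
      refine ⟨K, fun k => ?_⟩
      obtain ⟨l, h1, h2, h3⟩ := hK k
      obtain ⟨a', h4, h5⟩ := hg N hN k
      refine ⟨l, h1, h2, ?_⟩
      have h6 : (rightHom.comp (QS Φ).subtype) (FreeGroup.lift (fun l => e' l ^ N)
          (FreeGroup.mk l)) = gam Φ (j a') := by
        have hπ : ∀ g, (rightHom.comp (QS Φ).subtype) (inB Φ (Φ (inG g))) = gam Φ g :=
          fun _ => rfl
        have k1 : gam Φ (j a') =
            wL (gam Φ y ^ N) (gam Φ u ^ N) (gam Φ t ^ N) (gam Φ (j a) ^ N) k := by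
          rw [← h4, map_wL]
          simp only [map_pow]
        have k2 : FreeGroup.lift (fun l => e' l ^ N) (FreeGroup.mk l) =
            wL (inB Φ (Φ (inG y)) ^ N) (inB Φ (Φ (inG u)) ^ N) (inB Φ (Φ (inG t)) ^ N)
              (inB Φ (Φ (inG (j a))) ^ N) k := by
          rw [h3, map_wL]
          simp only [FreeGroup.lift_apply_of, e', ne_eq, reduceCtorEq, not_false_eq_true,
            Function.update_of_ne, hY, hU, hT, hA]
        rw [k1, k2, map_wL]
        simp only [map_pow, hπ]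
      have h7 : ∀ i k : ℕ, gam Φ (j a') * (ss Φ ^ i * bb Φ ^ k) =
          ss Φ ^ i * bb Φ ^ k * gam Φ (j a') := fun i k =>
        (((comm_ss Φ (inG (j a'))).pow_right i).mul_right ((comm_bb Φ a').pow_right k)).eq
      have h8 : lam (gam Φ (j a') • dl Φ N - dl Φ N) = -(N * (N * toAdd (lam0 a'))) := by
        simp [dl, Finset.smul_sum, lam, h7, hlam, Finset.sum_add_distrib]
      rw [h6, h8, abs_neg]
      refine h5.trans (le_trans ?_ (le_abs_self _))
      have h9 : (0 : ℤ) ≤ toAdd (lam0 a') := le_trans (by positivity) h5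
      have h10 : (1 : ℤ) ≤ N := by exact_mod_cast hN
      nlinarith [mul_le_mul h10 h10 zero_le_one (zero_le_one.trans h10)]

end data

end W

end Pool.Agent.Lib.MP_28a49a_al
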