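import Pool.Agent.Lib.MP_28a49a_al.TowerInd

namespace Pool.Agent.Lib.MP_28a49a_al

namespace W

open SemidirectProduct

lemma comm_inS {G H S : Type} [Group G] [Group H] [Group S] (j : H →* G) (h : H) (s : S) :
    Commute (inG (j h) : Ind j (1 : H →* MulAut S)) (inS s) :=
  mul_inv_eq_iff_eq_mul.1 (conj_inS h s)

/-- the integers -/
abbrev Zm : Type := Multiplicative ℤ

/-- the plane lattice -/
abbrev Z2 : Type := Zm × Zm

/-- the cat map -/
def psi : MulAut Z2 where
  toFun v := (v.1 * v.1 * v.2, v.1 * v.2)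
  invFun v := (v.1 * v.2⁻¹, v.2 * v.2 * v.1⁻¹)
  left_inv v := by
    ext
    · simp
    · simp; ring
  right_inv v := by ext <;> simp <;> ring
  map_mul' v w := by ext <;> simp <;> ring

/-- powers of the cat map -/
def ps : Zm →* MulAut Z2 := zpowersHom _ psi

/-- action through the first coordinate -/
def ph : Z2 →* MulAut Z2 := ps.comp (MonoidHom.fst _ _)

/-- top of the tower -/
abbrev Sol : Type := Z2 ⋊[ps] Zm

/-- two levels -/
abbrev T1 : Type := Ind (inl : Z2 →* Sol) ph

/-- three levels -/
abbrev Gam : Type := Ind (inS : Z2 →* T1) ph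

/-- three copies of the top -/
def j3 : Sol × Sol × Sol →* T1 × T1 × Sol := inG.prodMap (inG.prodMap (MonoidHom.id Sol))

/-- ambient group of the two upper levels -/
abbrev E : Type := Ind j3 (1 : Sol × Sol × Sol →* MulAut Zm)

/-- the subgroup normalizing the bottom -/
def jZ : Z2 × T1 →* E := inG.comp (inS.prodMap (MonoidHom.inl T1 Sol))

/-- ambient group -/
abbrev L2 : Type := Ind jZ (ph.comp (MonoidHom.fst Z2 T1))

lemma j3_apply (a b c : Sol) : j3 (a, b, c) = (inG a, inG b, c) := rfl

lemma jZ_apply (t : Z2) (x : T1) : jZ (t, x) = inG (inS t, x, 1) := rfl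

/-- diagonal embedding of the top -/
def thS : Sol →* E where
  toFun v := inG (inG v, inG v, v) * inS v.right
  map_one' := by simp [← Prod.one_eq_mk]
  map_mul' v w := by
    have := (comm_inS (S := Zm) j3 (w, w, w) v.right).eq
    rw [j3_apply] at this
    rw [mul_assoc, ← mul_assoc (inS _), ← this, mul_assoc, ← map_mul, ← mul_assoc, ← map_mul]
    simp

lemma thS_apply (v : Sol) : thS v = inG (inG v, inG v, v) * inS v.right := rfl

/-- diagonal embedding of two levels -/
def thT : T1 →* E := lift thS (inG.comp (inS.prod (inS.prod 1))) fun h s => by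
  rw [thS_apply, right_inl, map_one, mul_one, MonoidHom.comp_apply, ← map_inv, ← map_mul,
    ← map_mul]
  refine congrArg inG (Prod.ext (conj_inS h s) (Prod.ext (conj_inS h s) ?_))
  simp

lemma thT_inS (t : Z2) : thT (inS t) = inG (inS t, inS t, 1) := rfl

lemma thT_inG (v : Sol) : thT (inG v) = inG (inG v, inG v, v) * inS v.right := rfl

lemma ret_thT (x : T1) : ret (thT x) = (x, x, ret x) :=
  hom_ext (f := ret.comp thT) (g := (MonoidHom.id T1).prod ((MonoidHom.id T1).prod ret))
    (fun v => by simp [thT_inG]) (fun t => by simp [thT_inS]) x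

/-- diagonal embedding -/
def th : Gam →* L2 := lift (inG.comp thT) inS fun h s => conj_inS (j := jZ) (h, inS h) s

/-- first factor embedding -/
def io : Gam →* L2 :=
  lift (inG.comp (inG.comp (MonoidHom.inl T1 (T1 × Sol)))) inS fun h s =>
    conj_inS (j := jZ) (h, 1) s

/-- common left inverse -/
def pr : L2 →* Gam :=
  lift (inG.comp ((MonoidHom.fst T1 (T1 × Sol)).comp ret)) inS fun h s => conj_inS h.1 s

lemma th_inG (x : T1) : th (inG x) = inG (thT x) := rfl
lemma th_inS (a : Z2) : th (inS a) = inS a := rfl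
lemma io_inG (x : T1) : io (inG x) = inG (inG (x, 1, 1)) := rfl
lemma io_inS (a : Z2) : io (inS a) = inS a := rfl
lemma pr_inG (w : E) : pr (inG w) = inG (ret w).1 := rfl
lemma pr_inS (a : Z2) : pr (inS a) = inS a := rfl

lemma pr_th (g : Gam) : pr (th g) = g :=
  hom_ext (f := pr.comp th) (g := MonoidHom.id Gam)
    (fun x => by simp [th_inG, pr_inG, ret_thT]) (fun _ => rfl) g

lemma pr_io (g : Gam) : pr (io g) = g :=
  hom_ext (f := pr.comp io) (g := MonoidHom.id Gam) (fun _ => rfl) (fun _ => rfl) g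

lemma ret_th (g : Gam) : ret (th g) = thT (ret g) :=
  hom_ext (f := ret.comp th) (g := thT.comp ret) (fun _ => rfl) (fun _ => by simp [th_inS]) g

lemma ret_io (g : Gam) : ret (io g) = inG (ret g, 1, 1) :=
  hom_ext (f := ret.comp io) (g := (inG.comp (MonoidHom.inl T1 (T1 × Sol))).comp ret)
    (fun _ => rfl) (fun _ => by simp [io_inS, ← Prod.one_eq_mk]) g

lemma key1 (x y z : T1) (h : thT x = inG (y, z, 1)) : x ∈ (inS : Z2 →* T1).range := by
  classical
  have h1 := congrArg ret h
  rw [ret_thT, ret_inG, Prod.mk.injEq, Prod.mk.injEq] at h1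
  obtain ⟨rfl, -, h1⟩ := h1
  let c : Zm → (T1 × T1 × Sol →* T1) := fun k =>
    if k = 1 then MonoidHom.fst _ _ else (inG.comp ret).comp (MonoidHom.fst _ _)
  have hc : ∀ k a b d, c k (inG a, b, d) = inG a := fun k a b d => by
    simp only [c]; split_ifs <;> rfl
  let Ψ : E →* Wr Zm T1 := lift (inl.comp (MonoidHom.pi c)) inr fun h s => by
    obtain ⟨a, b, d⟩ := h
    rw [mul_inv_eq_iff_eq_mul]
    ext <;> simp [j3_apply, hc]
  have e1 : ∀ v, Ψ (inG v) = inl fun k => c k v := fun _ => rfl
  have e2 : ∀ z, Ψ (inS z) = inr z := fun _ => rfl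
  have key : (Ψ (thT x)).right = 1 ∧ (Ψ (thT x)).left 1 ∈ (inS : Z2 →* T1).range := by
    refine ker_induction (P := fun x : T1 => (Ψ (thT x)).right = 1 ∧
      (Ψ (thT x)).left 1 ∈ (inS : Z2 →* T1).range) (by simp) (fun v t => ?_)
      (fun a b _ _ ha hb => ⟨by simp [ha.1, hb.1], ?_⟩) x h1
    · simp only [cj_apply, map_mul, map_inv, thT_inG, thT_inS, e1, e2]
      refine ⟨by simp, ?_⟩
      by_cases hv : v.right = 1
      · have h2 : v = inl v.left := SemidirectProduct.ext rfl hv
        refine ⟨ph v.left t, ?_⟩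
        rw [← conj_inS, ← h2]
        simp [hv, hc, c]
      · simp [hc, c, hv]
    · simpa [ha.1] using Subgroup.mul_mem _ ha.2 hb.2
  rw [h, e1] at key
  simpa [c] using key.2

lemma key2 (g l : Gam) (h : th g = io l) : g ∈ (inS : Z2 →* Gam).range := by
  classical
  have h1 : g = l := by rw [← pr_th g, h, pr_io]
  subst h1
  have h2 : ret g = 1 := by
    have := congrArg (fun w => (ret (ret w)).2.1) h
    simpa [ret_th, ret_io, ret_thT] using this
  obtain ⟨ev, e1, e2, e3⟩ := exists_ev (j := jZ) (φ := ph.comp (MonoidHom.fst Z2 T1)) (K := Gam)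
    (fun w => if ∃ y z, w = inG (y, z, 1) then cj (ret w).1 else 1) (fun w z a => by
      obtain ⟨t, x⟩ := z
      have : (∃ y z, w * jZ (t, x) = inG (y, z, 1)) ↔ ∃ y z, w = inG (y, z, 1) := by
        constructor
        · rintro ⟨y, z, e⟩
          exact ⟨y * (inS t)⁻¹, z * x⁻¹, by
            rw [eq_mul_inv_of_mul_eq e, jZ_apply, ← map_inv, ← map_mul]; simp⟩
        · rintro ⟨y, z, rfl⟩
          exact ⟨y * inS t, z * x, by rw [jZ_apply, ← map_mul]; simp⟩
      simp only [this]
      split_ifs
      · rw [map_mul, jZ_apply, ret_inG, Prod.fst_mul, cj_mul_j]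
        rfl
      · rfl)
  have k1 : ev (io g) = g := by
    refine ker_induction (P := fun g : Gam => ev (io g) = g) (by simp [e1]) (fun x a => ?_)
      (fun a b ha _ ia ib => ?_) g h2
    · have : io (cj x a) = cj (inG (x, 1, 1)) a := by simp [cj_apply, io_inG, io_inS]
      rw [this, e3, if_pos ⟨x, 1, rfl⟩]
      rfl
    · rw [map_mul, e2 _ _ (by rw [ret_io, ha]; exact map_one _), ia, ib]
  have k2 : ev (th g) ∈ (inS : Z2 →* Gam).range := by
    refine ker_induction (P := fun g : Gam => ev (th g) ∈ (inS : Z2 →* Gam).range)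
      (by simp [e1]) (fun x a => ?_) (fun a b ha _ ia ib => ?_) g h2
    · have : th (cj x a) = cj (thT x) a := by simp [cj_apply, th_inG, th_inS]
      rw [this, e3]
      split_ifs with hx
      · obtain ⟨y, z, hx⟩ := hx
        obtain ⟨t, rfl⟩ := key1 x y z hx
        exact ⟨ph t a, by rw [ret_thT, cj_apply, conj_inS]⟩
      · exact Subgroup.one_mem _
    · rw [map_mul, e2 _ _ (by rw [ret_th, ha, map_one])]
      exact Subgroup.mul_mem _ ia ib
  rwa [h, k1] at k2

/-- the letter `b` is added -/
abbrev BB : Type := Ind io (1 : Gam →* MulAut Zm)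

/-- the centralizer of the last letter -/
abbrev H0 : Type := Ind (inS : Z2 →* Gam) (1 : Z2 →* MulAut Zm)

/-- its embedding -/
def Phi : H0 →* BB := lift (inG.comp th) inS fun h s => conj_inS (j := io) (inS h) s

lemma Phi_inG (g : Gam) : Phi (inG g) = inG (th g) := rfl
lemma Phi_inS (a : Zm) : Phi (inS a) = inS a := rfl

lemma ret_Phi (g : H0) : ret (Phi g) = th (ret g) :=
  hom_ext (f := ret.comp Phi) (g := th.comp ret) (fun _ => rfl) (fun _ => by simp [Phi_inS]) g

lemma Phi_injective : Function.Injective Phi := by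
  classical
  rw [injective_iff_map_eq_one]
  intro γ h
  have h1 : ret γ = 1 := by rw [← pr_th (ret γ), ← ret_Phi, h, map_one, map_one]
  have wd : ∀ g l g' l' : Gam, th g * io l = th g' * io l' →
      (cj g : Zm →* H0) = cj g' := fun g l g' l' e => by
    obtain ⟨a, ha⟩ := key2 (g⁻¹ * g') (l * l'⁻¹) (by
      rw [map_mul, map_mul, map_inv, map_inv, inv_mul_eq_iff_eq_mul, ← mul_assoc, e,
        mul_inv_cancel_right])
    ext
    rw [← mul_inv_cancel_left g g', ← ha, cj_mul_j]
    rfl
  let e : L2 → Zm →* H0 := fun w => if h : ∃ g l, w = th g * io l then cj h.choose else 1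
  have he : ∀ g l, e (th g * io l) = cj g := fun g l => by
    have h : ∃ g' l', th g * io l = th g' * io l' := ⟨g, l, rfl⟩
    obtain ⟨l', h'⟩ := h.choose_spec
    simp only [e, dif_pos h]
    exact wd _ _ _ _ h'.symm
  obtain ⟨ev, e1, e2, e3⟩ := exists_ev (j := io) (φ := (1 : Gam →* MulAut Zm)) e (fun w l a => by
    by_cases h : ∃ g l, w = th g * io l
    · obtain ⟨g, l', rfl⟩ := h
      rw [mul_assoc, ← map_mul, he, he]
      rfl
    · have h' : ¬ ∃ g l', w * io l = th g * io l' := fun ⟨g, l', e⟩ =>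
        h ⟨g, l' * l⁻¹, by rw [eq_mul_inv_of_mul_eq e, map_mul, map_inv, mul_assoc]⟩
      simp only [e, dif_neg h, dif_neg h']
      rfl)
  have k : ev (Phi γ) = γ := by
    refine ker_induction (P := fun γ : H0 => ev (Phi γ) = γ) (by simp [e1]) (fun x a => ?_)
      (fun a b ha _ ia ib => ?_) γ h1
    · have : Phi (cj x a) = cj (th x * io 1) a := by simp [cj_apply, Phi_inG, Phi_inS]
      rw [this, e3, he]
    · rw [map_mul, e2 _ _ (by rw [ret_Phi, ha, map_one]), ia, ib]
  rw [← k, h, e1]

/-- the group -/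
abbrev Q0 : Type := Ind Phi (1 : H0 →* MulAut Zm)

lemma good_Q0 : Good Q0 := by
  have z : Good Zm := Good.int
  have z2 : Good Z2 := good_prod z z
  have s : Good Sol := good_semi _ z2 z
  have t : Good T1 := good_ind _ inl_injective s z2 z2
  have ti : Function.Injective (inS : Z2 →* T1) := inS_injective inl_injective
  have g : Good Gam := good_ind _ ti t z2 z2
  have e : Good E := good_ind _
    (inG_injective.prodMap (inG_injective.prodMap Function.injective_id))
    (good_prod t (good_prod t s)) (good_prod s (good_prod s s)) z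
  have l : Good L2 := good_ind _
    (inG_injective.comp (ti.prodMap (g := MonoidHom.inl T1 Sol) fun _ _ h => congrArg Prod.fst h))
    e (good_prod z2 t) z2
  have b : Good BB := good_ind _ (Function.LeftInverse.injective pr_io) l g z
  have h : Good H0 := good_ind _ (inS_injective ti) g z2 z
  exact good_ind _ Phi_injective b h z

end W

end Pool.Agent.Lib.MP_28a49a_al
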