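import Pool.Agent.Lib.MP_28a49a_al.Defs

namespace Pool.Agent.Lib.MP_28a49a_al

namespace W

open SemidirectProduct

/-- right translation of functions -/
def shiftAut (G K : Type) [Group G] [Group K] : G →* MulAut (G → K) where
  toFun g :=
    { toFun := fun F x => F (x * g)
      invFun := fun F x => F (x * g⁻¹)
      left_inv := fun F => by ext; simp
      right_inv := fun F => by ext; simp
      map_mul' := fun _ _ => rfl }
  map_one' := by ext; simp
  map_mul' g h := by ext; simp [mul_assoc]

@[simp] lemma shiftAut_apply {G K : Type} [Group G] [Group K] (g : G) (F : G → K) (x : G) :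
    shiftAut G K g F x = F (x * g) := rfl

/-- unrestricted wreath product -/
abbrev Wr (G K : Type) [Group G] [Group K] : Type := (G → K) ⋊[shiftAut G K] G

lemma exists_co {G H : Type} [Group G] [Group H] (η : H →* G) (hη : Function.Injective η) :
    ∃ co : G → H, ∀ x h, co (x * η h) = co x * h := by
  have h1 : ∀ x : G, ∃ h, η h = (x : G ⧸ η.range).out⁻¹ * x := fun x =>
    QuotientGroup.eq.1 (QuotientGroup.out_eq' (x : G ⧸ η.range))
  choose co hco using h1
  refine ⟨co, fun x h => hη ?_⟩
  rw [map_mul, hco, hco, QuotientGroup.mk_mul_of_mem x (MonoidHom.mem_range.2 ⟨h, rfl⟩),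
    mul_assoc]

section ind
variable {G H S K : Type} [Group G] [Group H] [Group S] [Group K]

/-- the defining relations -/
def indRel (j : H →* G) (φ : H →* MulAut S) : Set (Monoid.Coprod G S) :=
  {r | ∃ h s, r = Monoid.Coprod.inl (j h) * Monoid.Coprod.inr s * (Monoid.Coprod.inl (j h))⁻¹ *
    (Monoid.Coprod.inr (φ h s))⁻¹}

/-- the amalgamated product of `G` and `S ⋊ H` over `H` -/
def Ind (j : H →* G) (φ : H →* MulAut S) : Type :=
  Monoid.Coprod G S ⧸ Subgroup.normalClosure (indRel j φ)

variable {j : H →* G} {φ : H →* MulAut S}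

instance : Group (Ind j φ) :=
  inferInstanceAs (Group (Monoid.Coprod G S ⧸ Subgroup.normalClosure (indRel j φ)))

/-- first factor -/
def inG : G →* Ind j φ := (QuotientGroup.mk' _).comp Monoid.Coprod.inl

/-- second factor -/
def inS : S →* Ind j φ := (QuotientGroup.mk' _).comp Monoid.Coprod.inr

lemma conj_inS (h : H) (s : S) :
    (inG (j h) * inS s * (inG (j h))⁻¹ : Ind j φ) = inS (φ h s) := by
  rw [← mul_inv_eq_one]
  exact (QuotientGroup.eq_one_iff _).2 (Subgroup.subset_normalClosure ⟨h, s, rfl⟩)

/-- universal property -/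
def lift (f : G →* K) (e : S →* K) (h : ∀ h s, f (j h) * e s * (f (j h))⁻¹ = e (φ h s)) :
    Ind j φ →* K :=
  QuotientGroup.lift _ (Monoid.Coprod.lift f e) (Subgroup.normalClosure_le_normal (by
    rintro _ ⟨x, s, rfl⟩
    simp [h]))

@[simp] lemma lift_inG (f : G →* K) (e : S →* K) (h) (g : G) :
    lift (j := j) (φ := φ) f e h (inG g) = f g := rfl

@[simp] lemma lift_inS (f : G →* K) (e : S →* K) (h) (s : S) :
    lift (j := j) (φ := φ) f e h (inS s) = e s := rfl

lemma induction {P : Ind j φ → Prop} (h1 : ∀ g, P (inG g)) (h2 : ∀ s, P (inS s))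
    (h3 : ∀ a b, P a → P b → P (a * b)) (x : Ind j φ) : P x := by
  obtain ⟨x, rfl⟩ := QuotientGroup.mk_surjective x
  induction x using Monoid.Coprod.induction_on with
  | inl g => exact h1 g
  | inr s => exact h2 s
  | mul a b ha hb => exact h3 _ _ ha hb

lemma hom_ext {f g : Ind j φ →* K} (h1 : ∀ x, f (inG x) = g (inG x))
    (h2 : ∀ s, f (inS s) = g (inS s)) (x : Ind j φ) : f x = g x :=
  induction (P := fun x => f x = g x) h1 h2
    (fun a b ha hb => by simp only [map_mul, ha, hb]) x

/-- retraction onto the first factor -/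
def ret : Ind j φ →* G := lift (MonoidHom.id G) 1 (by simp)

@[simp] lemma ret_inG (g : G) : ret (inG g : Ind j φ) = g := rfl

@[simp] lemma ret_inS (s : S) : ret (inS s : Ind j φ) = 1 := rfl

lemma inG_injective : Function.Injective (inG : G →* Ind j φ) :=
  Function.LeftInverse.injective ret_inG

/-- conjugates of the second factor -/
def cj (x : G) : S →* Ind j φ := (MulAut.conj (inG x)).toMonoidHom.comp inS

lemma cj_apply (x : G) (s : S) : (cj x s : Ind j φ) = inG x * inS s * (inG x)⁻¹ := rfl

lemma cj_one (s : S) : (cj 1 s : Ind j φ) = inS s := by simp [cj_apply]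

lemma cj_mul (x y : G) (s : S) : (cj (x * y) s : Ind j φ) = inG x * cj y s * (inG x)⁻¹ := by
  simp [cj_apply, mul_assoc]

lemma cj_mul_j (x : G) (h : H) (s : S) : (cj (x * j h) s : Ind j φ) = cj x (φ h s) := by
  rw [cj_mul, cj_apply, conj_inS, cj_apply]

@[simp] lemma ret_cj (x : G) (s : S) : ret (cj x s : Ind j φ) = 1 := by simp [cj_apply]

lemma ker_induction {P : Ind j φ → Prop} (h0 : P 1) (h1 : ∀ x s, P (cj x s))
    (h2 : ∀ a b, ret a = 1 → ret b = 1 → P a → P b → P (a * b)) (g : Ind j φ) (hg : ret g = 1) :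
    P g := by
  have key : ∀ γ : Ind j φ, ∀ x : G, P (inG x * γ * (inG (x * ret γ))⁻¹) := by
    intro γ
    induction γ using induction with
    | h1 g => intro x; simpa using h0
    | h2 s => intro x; simpa [cj_apply] using h1 x s
    | h3 a b ha hb =>
      intro x
      have := h2 _ _ (by simp) (by simp) (ha x) (hb (x * ret a))
      simpa [mul_assoc] using this
  simpa [hg] using key g 1

lemma exists_ev (e : G → S →* K) (he : ∀ x h s, e (x * j h) s = e x (φ h s)) :
    ∃ ev : Ind j φ → K, ev 1 = 1 ∧ (∀ a b, ret a = 1 → ev (a * b) = ev a * ev b) ∧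
      ∀ x s, ev (cj x s) = e x s := by
  let Ψ : Ind j φ →* Wr G K := lift inr (inl.comp (MonoidHom.pi e)) (fun h s => by
    rw [← map_inv, MonoidHom.comp_apply, ← inl_aut]
    exact congrArg inl (funext fun x => he x h s))
  have hr : ∀ a, (Ψ a).right = ret a := hom_ext (f := rightHom.comp Ψ) (fun _ => rfl) fun _ => rfl
  refine ⟨fun a => (Ψ a).left 1, by simp, fun a b ha => by simp [hr, ha], fun x s => ?_⟩
  simp [cj_apply, Ψ]

lemma inS_injective (hj : Function.Injective j) : Function.Injective (inS : S →* Ind j φ) := by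
  obtain ⟨co, hco⟩ := exists_co j hj
  obtain ⟨ev, -, -, h⟩ := exists_ev (j := j) (φ := φ) (fun x => (φ (co x)).toMonoidHom)
    (fun x h s => by simp [hco])
  intro s t hst
  have h1 := h 1 s
  rw [cj_one, hst, ← cj_one, h] at h1
  exact ((φ (co 1)).injective h1).symm

end ind

lemma good_range {G H : Type} [Group G] [Group H] (f : G →* H) (hf : Function.Injective f)
    (h : Good G) : Good f.range :=
  Good.equiv (MonoidHom.ofInjective hf) h

lemma good_semi {S H : Type} [Group S] [Group H] (φ : H →* MulAut S) (hS : Good S) (hH : Good H) :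
    Good (S ⋊[φ] H) := by
  refine Good.ext rightHom rightHom_surjective ?_ hH
  rw [← range_inl_eq_ker_rightHom]
  exact good_range _ inl_injective hS

lemma good_prod {G H : Type} [Group G] [Group H] (hG : Good G) (hH : Good H) : Good (G × H) :=
  Good.equiv mulEquivProd (good_semi 1 hG hH)

lemma good_ind {G H S : Type} [Group G] [Group H] [Group S] {j : H →* G} (φ : H →* MulAut S)
    (hj : Function.Injective j) (hG : Good G) (hH : Good H) (hS : Good S) : Good (Ind j φ) := by
  let b : S ⋊[φ] H →* Ind j φ := SemidirectProduct.lift inS (inG.comp j) fun h => by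
    ext s
    exact (conj_inS h s).symm
  have hb : ∀ x, b x = inS x.left * inG (j x.right) := fun _ => rfl
  have hbi : Function.Injective b := by
    rw [injective_iff_map_eq_one]
    intro x hx
    have h1 : x.right = 1 := hj (by simpa [hb] using congrArg ret hx)
    rw [hb, h1, map_one, map_one, mul_one, map_eq_one_iff _ (inS_injective hj)] at hx
    exact SemidirectProduct.ext hx h1
  have hS' : ∀ s, inS s ∈ b.range := fun s => ⟨inl s, by simp [hb]⟩
  have hH' : ∀ h, inG (j h) ∈ b.range := fun h => ⟨inr h, by simp [hb]⟩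
  refine Good.amalgam inG.range b.range ⟨?_, fun K _ f g hfg => ?_⟩
    (good_range _ inG_injective hG) (good_range _ hbi (good_semi φ hS hH)) ?_
  · rw [eq_top_iff]
    intro x _
    induction x using induction with
    | h1 g => exact Subgroup.mem_sup_left ⟨g, rfl⟩
    | h2 s => exact Subgroup.mem_sup_right (hS' s)
    | h3 a b ha hb => exact Subgroup.mul_mem _ (ha trivial) (hb trivial)
  · refine ⟨lift (f.comp inG.rangeRestrict) (g.comp (inS.codRestrict _ hS')) fun h s => ?_,
      ?_, ?_⟩
    · have h1 : (f.comp inG.rangeRestrict) (j h) = g ⟨_, hH' h⟩ := hfg _ _ _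
      rw [h1, MonoidHom.comp_apply, ← map_inv, ← map_mul, ← map_mul]
      exact congrArg g (Subtype.ext (conj_inS h s))
    · rintro ⟨_, x, rfl⟩
      rfl
    · rintro ⟨_, x, rfl⟩
      have h1 : (⟨b x, x, rfl⟩ : b.range) = ⟨_, hS' x.left⟩ * ⟨_, hH' x.right⟩ := rfl
      rw [h1, map_mul, ← hfg _ ⟨_, rfl⟩]
      change lift _ _ _ (inS x.left * inG (j x.right)) = _
      rw [map_mul]
      rfl
  · have : (inG.range ⊓ b.range : Subgroup (Ind j φ)) = (inG.comp j).range := by
      refine le_antisymm ?_ ?_
      · rintro _ ⟨⟨g, rfl⟩, x, hx⟩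
        have h1 : j x.right = g := by simpa [hb] using congrArg ret hx
        exact ⟨x.right, by rw [← h1]; rfl⟩
      · rintro _ ⟨h, rfl⟩
        exact ⟨⟨_, rfl⟩, hH' h⟩
    rw [this]
    exact good_range _ (inG_injective.comp hj) hH

end W

end Pool.Agent.Lib.MP_28a49a_al
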