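import Pool.Agent.Lib.MP_28a49a_al.Core

namespace Pool.Agent.Lib.MP_28a49a_al

open Function

/-- equivariant sections for a free action of the Klein four group -/
theorem exists_sec {B M : Type} (r1 r2 : B → B) (R1 R2 : B → M → M) (C : B → M → Prop)
    (i1 : ∀ b, r1 (r1 b) = b) (i2 : ∀ b, r2 (r2 b) = b) (c12 : ∀ b, r1 (r2 b) = r2 (r1 b))
    (f1 : ∀ b, r1 b ≠ b) (f2 : ∀ b, r2 b ≠ b) (f12 : ∀ b, r1 (r2 b) ≠ b)
    (I1 : ∀ b m, R1 (r1 b) (R1 b m) = m) (I2 : ∀ b m, R2 (r2 b) (R2 b m) = m)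
    (C12 : ∀ b m, R1 (r2 b) (R2 b m) = R2 (r1 b) (R1 b m))
    (hC1 : ∀ b m, C b m → C (r1 b) (R1 b m)) (hC2 : ∀ b m, C b m → C (r2 b) (R2 b m))
    (ex : ∀ b, ∃ m, C b m) :
    ∃ μ : B → M, (∀ b, C b (μ b)) ∧ (∀ b, μ (r1 b) = R1 b (μ b)) ∧ ∀ b, μ (r2 b) = R2 b (μ b) := by
  choose s hs using ex
  let st : Setoid B :=
    { r := fun b b' => b' = b ∨ b' = r1 b ∨ b' = r2 b ∨ b' = r1 (r2 b)
      iseqv := ⟨fun _ => Or.inl rfl, by
        rintro x y (rfl | rfl | rfl | rfl) <;> simp [i1, i2, c12], by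
        rintro x y z (rfl | rfl | rfl | rfl) (rfl | rfl | rfl | rfl) <;> simp [i1, i2, c12]⟩ }
  let ρ : B → B := fun b => (Quotient.mk st b).out
  have hρ : ∀ b, st.r (ρ b) b := fun b => Quotient.exact (Quotient.out_eq (Quotient.mk st b))
  have hρ1 : ∀ b, ρ (r1 b) = ρ b := fun b =>
    congrArg Quotient.out (Quotient.sound (s := st) (Or.inr (Or.inl rfl))).symm
  have hρ2 : ∀ b, ρ (r2 b) = ρ b := fun b =>
    congrArg Quotient.out (Quotient.sound (s := st) (Or.inr (Or.inr (Or.inl rfl)))).symm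
  let Φ : B → B → M → Prop := fun c b m => (b = c ∧ m = s c) ∨ (b = r1 c ∧ m = R1 c (s c)) ∨
    (b = r2 c ∧ m = R2 c (s c)) ∨ (b = r1 (r2 c) ∧ m = R1 (r2 c) (R2 c (s c)))
  have hex : ∀ b, ∃ m, Φ (ρ b) b m := by
    intro b
    rcases hρ b with h | h | h | h
    · exact ⟨_, Or.inl ⟨h, rfl⟩⟩
    · exact ⟨_, Or.inr (Or.inl ⟨h, rfl⟩)⟩
    · exact ⟨_, Or.inr (Or.inr (Or.inl ⟨h, rfl⟩))⟩
    · exact ⟨_, Or.inr (Or.inr (Or.inr ⟨h, rfl⟩))⟩
  choose μ hμ using hex
  have inj1 : Injective r1 := LeftInverse.injective i1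
  have g1 : ∀ c, r1 c ≠ r2 c := fun c h => f12 c (by rw [← h, i1])
  have g2 : ∀ c, r1 c ≠ r1 (r2 c) := fun c h => f2 c (inj1 h).symm
  have uq : ∀ c b m m', Φ c b m → Φ c b m' → m = m' := by
    rintro c b m m' (⟨h, rfl⟩ | ⟨h, rfl⟩ | ⟨h, rfl⟩ | ⟨h, rfl⟩)
      (⟨h', rfl⟩ | ⟨h', rfl⟩ | ⟨h', rfl⟩ | ⟨h', rfl⟩) <;>
      first
        | rfl
        | (exfalso
           have e := h.symm.trans h'
           first
             | exact f1 _ e | exact f1 _ e.symm | exact f2 _ e | exact f2 _ e.symm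
             | exact f12 _ e | exact f12 _ e.symm | exact g1 _ e | exact g1 _ e.symm
             | exact g2 _ e | exact g2 _ e.symm)
  refine ⟨μ, ?_, ?_, ?_⟩
  · intro b
    have h := hμ b
    generalize ρ b = c at h
    generalize μ b = m at h
    rcases h with ⟨rfl, rfl⟩ | ⟨rfl, rfl⟩ | ⟨rfl, rfl⟩ | ⟨rfl, rfl⟩
    · exact hs _
    · exact hC1 _ _ (hs _)
    · exact hC2 _ _ (hs _)
    · exact hC1 _ _ (hC2 _ _ (hs _))
  · intro b
    refine uq (ρ b) (r1 b) _ _ (hρ1 b ▸ hμ (r1 b)) ?_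
    have h := hμ b
    generalize ρ b = c at h
    generalize μ b = m at h
    rcases h with ⟨rfl, rfl⟩ | ⟨rfl, rfl⟩ | ⟨rfl, rfl⟩ | ⟨rfl, rfl⟩
    · exact Or.inr (Or.inl ⟨rfl, rfl⟩)
    · exact Or.inl ⟨i1 _, I1 _ _⟩
    · exact Or.inr (Or.inr (Or.inr ⟨rfl, rfl⟩))
    · exact Or.inr (Or.inr (Or.inl ⟨i1 _, I1 _ _⟩))
  · intro b
    refine uq (ρ b) (r2 b) _ _ (hρ2 b ▸ hμ (r2 b)) ?_
    have h := hμ b
    generalize ρ b = c at h
    generalize μ b = m at h
    rcases h with ⟨rfl, rfl⟩ | ⟨rfl, rfl⟩ | ⟨rfl, rfl⟩ | ⟨rfl, rfl⟩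
    · exact Or.inr (Or.inr (Or.inl ⟨rfl, rfl⟩))
    · exact Or.inr (Or.inr (Or.inr ⟨(c12 _).symm, (C12 _ _).symm⟩))
    · exact Or.inl ⟨i2 _, I2 _ _⟩
    · refine Or.inr (Or.inl ⟨by rw [c12, i2], ?_⟩)
      rw [C12, c12, I2]

namespace VHData
variable {E V S E1 : Type} {X : SqSys E} {R : Set (Tup S)} {L : Lab X V S R} (vh : VHData L E1)

theorem inv_ne (e : E1) : vh.inv e ≠ e := by
  intro h
  have := vh.lab_inv e
  rw [h] at this
  have h2 := congrArg Prod.snd this
  simp [bar] at h2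

variable {vh}

theorem view3 {a b c d : E1} (h : vh.T a b c d) : vh.T d (vh.inv b) (vh.inv c) a :=
  vh.symm (vh.rot (vh.symm h))

theorem far {a b c d : E1} (h : vh.T a b c d) :
    vh.T (vh.inv d) (vh.inv c) (vh.inv b) (vh.inv a) := vh.rot (view3 h)

theorem uniq' {a b c d c' d' : E1} (h : vh.T a b c d) (h' : vh.T a b c' d') : c = c' ∧ d = d' := by
  obtain ⟨h1, h2⟩ := vh.uniq (vh.rot h) (vh.rot h')
  exact ⟨h1, by rw [← vh.inv_inv d, h2, vh.inv_inv]⟩

theorem hor_b {a b c d : E1} (h : vh.T a b c d) (ha : vh.vert a) : ¬ vh.vert b :=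
  (vh.vh (vh.rot h)).1 ((vh.vert_inv a).2 ha)

theorem hor_c {a b c d : E1} (h : vh.T a b c d) (ha : vh.vert a) : ¬ vh.vert c := (vh.vh h).1 ha

theorem ver_d {a b c d : E1} (h : vh.T a b c d) (ha : vh.vert a) : vh.vert d :=
  (vh.vh (view3 h)).2 fun hc => hor_c h ha ((vh.vert_inv c).1 hc)

variable (vh)

/-- consecutive letters of a normal form -/
def Ok (x y : E1) : Prop := y ≠ vh.inv x ∧ ¬ (vh.vert x ∧ ∃ p : E1 × E1, vh.T x y p.1 p.2)

variable {Q M : Type} [Group Q] [AddCommGroup M] [DistribMulAction Q M] (α : E1 → Q)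
  (μ : E1 → E1 → M)

open Classical in
/-- left multiplication of a normal form by a letter, with the accumulated weight -/
noncomputable def push : E1 → List E1 → M × List E1
  | v, [] => (0, [v])
  | v, x :: w =>
    if x = vh.inv v then (0, w)
    else if h : vh.vert v ∧ ∃ p : E1 × E1, vh.T v x p.1 p.2 then
      (μ v x + α h.2.choose.1 • (push h.2.choose.2 w).1, h.2.choose.1 :: (push h.2.choose.2 w).2)
    else (0, v :: x :: w)

variable {vh α μ}

theorem push_nil (v : E1) : vh.push α μ v [] = (0, [v]) := by rw [push]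

theorem push_inv (v : E1) (w : List E1) : vh.push α μ v (vh.inv v :: w) = (0, w) := by
  rw [push, if_pos rfl]

theorem push_ok {v x : E1} (h : vh.Ok v x) (w : List E1) :
    vh.push α μ v (x :: w) = (0, v :: x :: w) := by
  rw [push, if_neg h.1, dif_neg h.2]

theorem push_sq {v x h' v' : E1} (h : vh.T v x h' v') (hv : vh.vert v) (w : List E1) :
    vh.push α μ v (x :: w) =
      (μ v x + α h' • (vh.push α μ v' w).1, h' :: (vh.push α μ v' w).2) := by
  have h1 : x ≠ vh.inv v := fun e => hor_b h hv (e ▸ (vh.vert_inv v).2 hv)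
  have h2 : vh.vert v ∧ ∃ p : E1 × E1, vh.T v x p.1 p.2 := ⟨hv, (h', v'), h⟩
  obtain ⟨e1, e2⟩ := uniq' h2.2.choose_spec h
  rw [push, if_neg h1, dif_pos h2, e1, e2]

theorem tri (v x : E1) : x = vh.inv v ∨ (vh.vert v ∧ ∃ h' v', vh.T v x h' v') ∨ vh.Ok v x := by
  by_cases h1 : x = vh.inv v
  · exact Or.inl h1
  by_cases h2 : vh.vert v ∧ ∃ p : E1 × E1, vh.T v x p.1 p.2
  · obtain ⟨hv, p, hp⟩ := h2
    exact Or.inr (Or.inl ⟨hv, p.1, p.2, hp⟩)
  · exact Or.inr (Or.inr ⟨h1, h2⟩)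

theorem push_chain {v : E1} {w : List E1} (h : List.IsChain vh.Ok (v :: w)) :
    vh.push α μ v w = (0, v :: w) := by
  cases w with
  | nil => exact push_nil v
  | cons x w => exact push_ok (List.isChain_cons_cons.1 h).1 w

theorem head_ok {v x h' v' : E1} (h : vh.T v x h' v') (hv : vh.vert v) {w : List E1}
    (hw : List.IsChain vh.Ok (x :: w)) : ∀ y ∈ (vh.push α μ v' w).2.head?, vh.Ok h' y := by
  have hv' := ver_d h hv
  have hh := hor_c h hv
  have key : ∀ y, y ≠ vh.inv h' → vh.Ok h' y := fun y hy => ⟨hy, fun e => hh e.1⟩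
  have k2 : vh.Ok h' v' := key _ fun e => hh ((vh.vert_inv h').1 (e ▸ hv'))
  cases w with
  | nil =>
    rw [push_nil]
    simpa using k2
  | cons x2 w2 =>
    obtain ⟨hx, hw2⟩ := List.isChain_cons_cons.1 hw
    rcases tri (vh := vh) v' x2 with rfl | ⟨_, h2, v2, hT⟩ | hok
    · rw [push_inv]
      intro y hy
      refine key y ?_
      rintro rfl
      have := (List.isChain_cons.1 hw2).1 _ hy
      exact this.2 ⟨(vh.vert_inv v').2 hv', (_, _), far h⟩
    · rw [push_sq hT hv']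
      intro y hy
      obtain rfl : h2 = y := by simpa using hy
      refine key _ ?_
      rintro rfl
      exact hx.1 (vh.uniq hT (view3 h)).1
    · rw [push_ok hok]
      simpa using k2

theorem push_nf {w : List E1} : ∀ {v : E1}, List.IsChain vh.Ok w →
    List.IsChain vh.Ok (vh.push α μ v w).2 := by
  induction w with
  | nil => intro v _; rw [push_nil]; exact List.isChain_singleton _
  | cons x w ih =>
    intro v hw
    rcases tri (vh := vh) v x with rfl | ⟨hv, h', v', hT⟩ | hok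
    · rw [push_inv]; exact hw.tail
    · rw [push_sq hT hv]
      exact List.isChain_cons.2 ⟨head_ok hT hv hw, ih hw.tail⟩
    · rw [push_ok hok]
      exact List.isChain_cons_cons.2 ⟨hok, hw⟩

theorem push_push (hα2 : ∀ a b c d, vh.T a b c d → α a * α b = α c * α d)
    (hA : ∀ v h h' v', vh.T v h h' v' → vh.vert v → μ (vh.inv v) h' = -((α v)⁻¹ • μ v h))
    {w : List E1} : ∀ {v : E1}, List.IsChain vh.Ok w →
      vh.push α μ (vh.inv v) (vh.push α μ v w).2 = (-((α v)⁻¹ • (vh.push α μ v w).1), w) := by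
  have pv : ∀ v w, vh.push α μ (vh.inv v) (v :: w) = (0, w) := by
    intro v w
    have := push_inv (vh := vh) (α := α) (μ := μ) (vh.inv v) w
    rwa [vh.inv_inv] at this
  induction w with
  | nil => intro v _; rw [push_nil, pv]; simp
  | cons x w ih =>
    intro v hw
    rcases tri (vh := vh) v x with rfl | ⟨hv, h', v', hT⟩ | hok
    · rw [push_inv, push_chain hw]; simp
    · rw [push_sq hT hv, push_sq (vh.rot hT) ((vh.vert_inv v).2 hv), ih hw.tail, hA _ _ _ _ hT hv]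
      have e : α x * (α v')⁻¹ = (α v)⁻¹ * α h' := by
        rw [mul_inv_eq_iff_eq_mul, mul_assoc, ← hα2 _ _ _ _ hT, inv_mul_cancel_left]
      simp only [smul_neg, smul_add, smul_smul, e, neg_add]
    · rw [push_ok hok, pv]; simp

theorem push_square (hα : ∀ e, α (vh.inv e) = (α e)⁻¹)
    (hB : ∀ v h h' v', vh.T v h h' v' → vh.vert v → μ v' (vh.inv h) = -((α h')⁻¹ • μ v h))
    {v h h' v' : E1} (hT : vh.T v h h' v') (hv : vh.vert v) {w : List E1}
    (hw : List.IsChain vh.Ok w) :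
    (vh.push α μ v (vh.push α μ h w).2).2 = (vh.push α μ h' (vh.push α μ v' w).2).2 ∧
    α v • (vh.push α μ h w).1 + (vh.push α μ v (vh.push α μ h w).2).1 =
      μ v h + (α h' • (vh.push α μ v' w).1 + (vh.push α μ h' (vh.push α μ v' w).2).1) := by
  have main : List.IsChain vh.Ok (h :: w) →
      (vh.push α μ v (vh.push α μ h w).2).2 = (vh.push α μ h' (vh.push α μ v' w).2).2 ∧
      α v • (vh.push α μ h w).1 + (vh.push α μ v (vh.push α μ h w).2).1 =
        μ v h + (α h' • (vh.push α μ v' w).1 + (vh.push α μ h' (vh.push α μ v' w).2).1) := by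
    intro hc
    have h2 : List.IsChain vh.Ok (h' :: (vh.push α μ v' w).2) :=
      List.isChain_cons.2 ⟨head_ok hT hv hc, push_nf hw⟩
    rw [push_chain hc, push_sq hT hv, push_chain h2]
    simp
  cases w with
  | nil => exact main (List.isChain_singleton _)
  | cons x w =>
    rcases tri (vh := vh) h x with rfl | ⟨hh, _⟩ | hok
    · rw [push_inv, push_sq (view3 hT) (ver_d hT hv), push_inv, hB _ _ _ _ hT hv, hα]
      simp [smul_add, smul_smul]
    · exact absurd hh (hor_b hT hv)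
    · exact main (List.isChain_cons_cons.2 ⟨hok, hw⟩)

variable (vh M) in
/-- the set acted upon -/
abbrev St : Type := M × {w : List E1 // List.IsChain vh.Ok w}

variable (vh α μ) in
noncomputable def actF (e : E1) (z : vh.St M) : vh.St M :=
  (α e • z.1 + (vh.push α μ e z.2.1).1, ⟨(vh.push α μ e z.2.1).2, push_nf z.2.2⟩)

variable (vh) in
/-- translations -/
def tr : Multiplicative M →* Equiv.Perm (vh.St M) :=
  MonoidHom.toHomPerm
    { toFun := fun m z => (m.toAdd + z.1, z.2)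
      map_one' := by
        funext z
        simp [Function.End.one_def]
      map_mul' := by
        intro x y
        funext z
        simp [Function.End.mul_def, add_assoc] }

theorem tr_apply (m : Multiplicative M) (z : vh.St M) : vh.tr m z = (m.toAdd + z.1, z.2) := rfl

theorem tr_inj : Injective (vh.tr (M := M)) := by
  intro m m' h
  have := congrArg (fun f : Equiv.Perm (vh.St M) => (f (0, ⟨[], List.isChain_nil⟩)).1) h
  simpa [tr_apply] using this

theorem exists_act (hα : ∀ e, α (vh.inv e) = (α e)⁻¹)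
    (hα2 : ∀ a b c d, vh.T a b c d → α a * α b = α c * α d)
    (hA : ∀ v h h' v', vh.T v h h' v' → vh.vert v → μ (vh.inv v) h' = -((α v)⁻¹ • μ v h))
    (hB : ∀ v h h' v', vh.T v h h' v' → vh.vert v → μ v' (vh.inv h) = -((α h')⁻¹ • μ v h)) :
    ∃ a : E1 → Equiv.Perm (vh.St M), (∀ e, a e * a (vh.inv e) = 1) ∧
      (∀ v h h' v', vh.T v h h' v' → vh.vert v →
        a v * a h = vh.tr (Multiplicative.ofAdd (μ v h)) * (a h' * a v')) ∧
      ∀ e m, a e * vh.tr (Multiplicative.ofAdd m) = vh.tr (Multiplicative.ofAdd (α e • m)) * a e := by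
  have li : ∀ e z, vh.actF α μ (vh.inv e) (vh.actF α μ e z) = z := by
    intro e z
    have := push_push hα2 hA (v := e) z.2.2
    refine Prod.ext ?_ (Subtype.ext ?_)
    · simp [actF, this, hα, smul_add]
    · simp [actF, this]
  have ri : ∀ e z, vh.actF α μ e (vh.actF α μ (vh.inv e) z) = z := by
    intro e z
    have := li (vh.inv e) z
    rwa [vh.inv_inv] at this
  refine ⟨fun e => ⟨vh.actF α μ e, vh.actF α μ (vh.inv e), li e, ri e⟩, ?_, ?_, ?_⟩
  · intro e
    ext1 z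
    exact ri e z
  · intro v h h' v' hT hv
    ext1 z
    obtain ⟨e1, e2⟩ := push_square hα hB hT hv z.2.2
    refine Prod.ext ?_ (Subtype.ext e1)
    change α v • (α h • z.1 + _) + _ = μ v h + (α h' • (α v' • z.1 + _) + _)
    simp only [smul_add, smul_smul, hα2 _ _ _ _ hT, add_assoc]
    rw [add_left_comm (μ v h)]
    exact congrArg _ e2
  · intro e m
    ext1 z
    refine Prod.ext ?_ rfl
    change α e • (m + z.1) + _ = α e • m + (α e • z.1 + _)
    rw [smul_add, add_assoc]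
    rfl

end VHData

end Pool.Agent.Lib.MP_28a49a_al
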